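import Pool.Agent.H371.SE.Defs

set_option autoImplicit false

namespace Pool.Agent.H371.SE

/-- the completion -/
theorem exists_model {n : ℕ} (D : ℕ → Subgroup (FreeGroup (Fin n))) (hD : Antitone D)
    (hn : ∀ k, (D k).Normal) (hf : ∀ k, (D k).FiniteIndex) :
    ∃ (Γ : Type) (_ : Group Γ) (_ : TopologicalSpace Γ) (_ : IsTopologicalGroup Γ)
      (_ : CompactSpace Γ) (_ : T2Space Γ) (ι : FreeGroup (Fin n) →* Γ) (E : ℕ → Subgroup Γ),
      Model D Γ ι E := by
  let tQ : ∀ k, TopologicalSpace (FreeGroup (Fin n) ⧸ D k) := fun _ => ⊥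
  have dQ : ∀ k, DiscreteTopology (FreeGroup (Fin n) ⧸ D k) := fun _ => ⟨rfl⟩
  have fQ : ∀ k, Finite (FreeGroup (Fin n) ⧸ D k) := fun k => inferInstance
  -- the transition maps
  let π : ∀ k, (FreeGroup (Fin n) ⧸ D (k + 1)) →* (FreeGroup (Fin n) ⧸ D k) := fun k =>
    QuotientGroup.map (D (k + 1)) (D k) (MonoidHom.id _) (hD (Nat.le_succ k))
  have hπ : ∀ k (x : FreeGroup (Fin n)), π k (x : FreeGroup (Fin n) ⧸ D (k + 1)) = x :=
    fun k x => rfl
  let G : Subgroup (∀ k, FreeGroup (Fin n) ⧸ D k) :=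
    { carrier := {x | ∀ k, π k (x (k + 1)) = x k}
      mul_mem' := by
        intro a b ha hb k
        show π k (a (k + 1) * b (k + 1)) = a k * b k
        rw [map_mul, ha k, hb k]
      one_mem' := fun k => map_one (π k)
      inv_mem' := by
        intro a ha k
        show π k ((a (k + 1))⁻¹) = (a k)⁻¹
        rw [map_inv, ha k] }
  have hGc : IsClosed (G : Set (∀ k, FreeGroup (Fin n) ⧸ D k)) := by
    have : (G : Set (∀ k, FreeGroup (Fin n) ⧸ D k)) =
        ⋂ k, {x : ∀ k, FreeGroup (Fin n) ⧸ D k | π k (x (k + 1)) = x k} := by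
      ext x
      rw [Set.mem_iInter]
      rfl
    rw [this]
    refine isClosed_iInter fun k => isClosed_eq ?_ (continuous_apply k)
    exact (continuous_of_discreteTopology (f := fun y => π k y)).comp (continuous_apply (k + 1))
  have hTG : IsTopologicalGroup (∀ k, FreeGroup (Fin n) ⧸ D k) := inferInstance
  have hGC : CompactSpace G := isCompact_iff_compactSpace.1 hGc.isCompact
  let ι : FreeGroup (Fin n) →* G :=
    { toFun := fun x => ⟨fun k => (x : FreeGroup (Fin n) ⧸ D k), fun k => hπ k x⟩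
      map_one' := rfl
      map_mul' := fun x y => rfl }
  let E : ℕ → Subgroup G := fun k => ((Pi.evalMonoidHom _ k).comp G.subtype).ker
  have hE : ∀ k (x : G), x ∈ E k ↔ x.1 k = 1 := fun k x => MonoidHom.mem_ker
  have hEanti : Antitone E := by
    refine antitone_nat_of_succ_le fun k x hx => ?_
    rw [hE] at hx ⊢
    rw [← x.2 k, hx, map_one]
  refine ⟨G, inferInstance, inferInstance, inferInstance, hGC, inferInstance, ι, E, ?_⟩
  refine
    { anti := hEanti
      normal := fun k => inferInstance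
      isOpen := ?_
      mem_iff := ?_
      dense := ?_
      basis := ?_
      sep := ?_
      complete := ?_ }
  · intro k
    have h1 : Continuous fun x : G => x.1 k := (continuous_apply k).comp continuous_subtype_val
    have h2 : (E k : Set G) = (fun x : G => x.1 k) ⁻¹' {1} := by
      ext x
      exact hE k x
    rw [h2]
    exact (isOpen_discrete _).preimage h1
  · intro k x
    rw [hE]
    exact QuotientGroup.eq_one_iff x
  · intro k x
    obtain ⟨f, hf'⟩ := QuotientGroup.mk_surjective (x.1 k)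
    refine ⟨f, ?_⟩
    rw [hE]
    show (x.1 k)⁻¹ * (f : FreeGroup (Fin n) ⧸ D k) = 1
    rw [← hf', inv_mul_cancel]
  · intro S hS h1
    obtain ⟨O, hO, rfl⟩ := isOpen_induced_iff.1 hS
    obtain ⟨I, u, hu, hI⟩ := isOpen_pi_iff.1 hO (1 : ∀ k, FreeGroup (Fin n) ⧸ D k) h1
    refine ⟨I.sup id, fun x hx => ?_⟩
    apply hI
    intro j hj
    have hj' : j ≤ I.sup id := Finset.le_sup (f := id) hj
    have h2 : x ∈ E j := hEanti hj' hx
    rw [hE] at h2
    rw [h2]
    exact (hu j hj).2
  · intro x hx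
    apply Subtype.ext
    funext k
    exact (hE k x).1 (hx k)
  · intro f hf'
    have hc : (fun k => (f k : FreeGroup (Fin n) ⧸ D k)) ∈ G := by
      intro k
      show ((f (k + 1) : FreeGroup (Fin n)) : FreeGroup (Fin n) ⧸ D k) = f k
      rw [QuotientGroup.eq]
      have := (D k).inv_mem (hf' k)
      rwa [mul_inv_rev, inv_inv] at this
    refine ⟨⟨fun k => (f k : FreeGroup (Fin n) ⧸ D k), hc⟩, fun k => ?_⟩
    rw [hE]
    show (f k : FreeGroup (Fin n) ⧸ D k)⁻¹ * (f k : FreeGroup (Fin n) ⧸ D k) = 1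
    rw [inv_mul_cancel]

end Pool.Agent.H371.SE
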