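import Pool.Agent.H371.SE.Defs

set_option autoImplicit false

namespace Pool.Agent.H371.SE

namespace M7x

/-- a group of prime order has a nontrivial homomorphism to `ZMod p` -/
theorem hom_card {p : ℕ} (hp : p.Prime) {Q : Type} [Group Q] (hc : Nat.card Q = p) :
    ∃ h : Q → ZMod p, (∀ x y, h (x * y) = h x + h y) ∧ ∃ x, h x ≠ 0 := by
  subst hc
  have hf : Fact (Nat.card Q).Prime := ⟨hp⟩
  have hcyc : IsCyclic Q := isCyclic_of_prime_card rfl
  let e := zmodCyclicMulEquiv hcyc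
  refine ⟨fun x => Multiplicative.toAdd (e.symm x), fun x y => ?_, e (Multiplicative.ofAdd 1), ?_⟩
  · change Multiplicative.toAdd (e.symm (x * y)) = _
    rw [map_mul, toAdd_mul]
  · change Multiplicative.toAdd (e.symm (e (Multiplicative.ofAdd 1))) ≠ 0
    rw [MulEquiv.symm_apply_apply, toAdd_ofAdd]
    exact one_ne_zero

/-- a nontrivial finite `p`-group has a nontrivial homomorphism to `ZMod p` -/
theorem hom_pgroup {p : ℕ} [Fact p.Prime] {H : Type} [Group H] [Finite H] [Nontrivial H]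
    (hH : IsPGroup p H) :
    ∃ h : H → ZMod p, (∀ x y, h (x * y) = h x + h y) ∧ ∃ x, h x ≠ 0 := by
  have hp : p.Prime := Fact.out
  obtain ⟨n, hn⟩ := hH.exists_card_eq
  have hn0 : n ≠ 0 := by
    rintro rfl
    rw [pow_zero] at hn
    have := Finite.one_lt_card (α := H)
    omega
  obtain ⟨K, hK⟩ := Sylow.exists_subgroup_card_pow_prime (G := H) p (n := n - 1)
    (by rw [hn]; exact pow_dvd_pow p (Nat.sub_le n 1))
  have hidx : K.index = p := by
    have h1 := K.card_mul_index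
    rw [hK, hn] at h1
    have h2 : p ^ n = p ^ (n - 1) * p := by
      rw [← pow_succ]
      congr 1
      omega
    rw [h2] at h1
    exact Nat.eq_of_mul_eq_mul_left (pow_pos hp.pos _) h1
  have hnorm : K.Normal := Subgroup.normal_of_index_eq_minFac_card
    (by rw [hidx, hn, hp.pow_minFac hn0])
  have hcard : Nat.card (H ⧸ K) = p := hidx
  obtain ⟨h, h1, x, h2⟩ := hom_card hp hcard
  obtain ⟨y, rfl⟩ := QuotientGroup.mk_surjective x
  refine ⟨fun z => h (z : H ⧸ K), fun a b => ?_, y, h2⟩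
  change h ((a * b : H) : H ⧸ K) = _
  rw [QuotientGroup.mk_mul, h1]

/-- strictly upper triangular matrices are nilpotent -/
theorem nil_upper {R : Type} [CommRing R] {N : ℕ} (A : Matrix (Fin N) (Fin N) R)
    (h1 : ∀ i j, j ≤ i → A i j = 0) : A ^ N = 0 := by
  have h2 : A.charpoly = ∏ i : Fin N, (Polynomial.X - Polynomial.C (A i i)) :=
    Matrix.charpoly_of_isUpperTriangular A (fun i j hij => h1 i j (le_of_lt hij))
  have h3 : A.charpoly = Polynomial.X ^ N := by
    rw [h2, Finset.prod_congr rfl fun i _ => by rw [h1 i i le_rfl, map_zero, sub_zero]]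
    simp
  have h4 := Matrix.aeval_self_charpoly A
  rw [h3, map_pow, Polynomial.aeval_X] at h4
  exact h4

/-- unitriangular matrices have order a power of `p` if `p` is nilpotent -/
theorem unip_pow {p : ℕ} (hp : p.Prime) {R : Type} [CommRing R] {s : ℕ} (hR : (p : R) ^ s = 0) {N : ℕ}
    (A : Matrix (Fin N) (Fin N) R) (h1 : ∀ i j, j < i → A i j = 0) (h2 : ∀ i, A i i = 1) :
    ∃ k, A ^ (p ^ k) = 1 := by
  have hnil : (A - 1) ^ N = 0 := by
    apply nil_upper
    intro i j hij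
    rcases lt_or_eq_of_le hij with h | h
    · rw [Matrix.sub_apply, h1 i j h, Matrix.one_apply_ne (ne_of_gt h), sub_zero]
    · subst h
      rw [Matrix.sub_apply, h2, Matrix.one_apply_eq, sub_self]
  have hnil' : (A - 1) ^ (p ^ N) = 0 := by
    have h3 : N ≤ p ^ N := (Nat.lt_pow_self hp.one_lt).le
    rw [← Nat.sub_add_cancel h3, pow_add, hnil, mul_zero]
  obtain ⟨r, hr⟩ := exists_add_pow_prime_pow_eq hp (1 : Polynomial ℤ) Polynomial.X N
  have hd : ((p : ℕ) : Polynomial ℤ) ∣ (1 + Polynomial.X) ^ p ^ N - (1 + Polynomial.X ^ p ^ N) := by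
    refine ⟨1 * Polynomial.X * r, ?_⟩
    rw [hr]
    ring
  obtain ⟨g, hg⟩ := dvd_sub_pow_of_dvd_sub hd s
  have h5 := congrArg (Polynomial.aeval (A - 1)) hg
  simp only [map_sub, map_pow, map_add, map_one, Polynomial.aeval_X, map_mul, map_natCast] at h5
  rw [add_sub_cancel, hnil', add_zero, one_pow, ← pow_mul, ← pow_add] at h5
  have h6 : ((p : ℕ) : Matrix (Fin N) (Fin N) R) ^ (s + 1) = 0 := by
    rw [pow_succ]
    have h7 : ((p : ℕ) : Matrix (Fin N) (Fin N) R) ^ s = 0 := by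
      have h8 : ((p : ℕ) : Matrix (Fin N) (Fin N) R) = (Matrix.scalar (Fin N)) (p : R) := by
        rw [map_natCast]
      rw [h8, ← map_pow, hR, map_zero]
    rw [h7, zero_mul]
  rw [h6, zero_mul, sub_eq_zero] at h5
  exact ⟨_, h5⟩

/-- reduction modulo `p^s` -/
noncomputable def red (p : ℕ) [Fact p.Prime] (N s : ℕ) :
    Matrix (Fin N) (Fin N) ℤ_[p] →+* Matrix (Fin N) (Fin N) (ZMod (p ^ s)) :=
  (PadicInt.toZModPow s).mapMatrix

theorem red_apply {p : ℕ} [Fact p.Prime] {N : ℕ} (s : ℕ) (A : Matrix (Fin N) (Fin N) ℤ_[p])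
    (i j : Fin N) : red p N s A i j = PadicInt.toZModPow s (A i j) := rfl

theorem toZ_eq_iff {p : ℕ} [Fact p.Prime] (s : ℕ) (a b : ℤ_[p]) :
    PadicInt.toZModPow s a = PadicInt.toZModPow s b ↔ (p : ℤ_[p]) ^ s ∣ a - b := by
  rw [← Ideal.mem_span_singleton, ← PadicInt.ker_toZModPow, RingHom.mem_ker, map_sub, sub_eq_zero]

theorem red_eq_iff {p : ℕ} [Fact p.Prime] {N : ℕ} (s : ℕ) (A B : Matrix (Fin N) (Fin N) ℤ_[p]) :
    red p N s A = red p N s B ↔ ∀ i j, (p : ℤ_[p]) ^ s ∣ A i j - B i j := by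
  constructor
  · intro h i j
    rw [← toZ_eq_iff, ← red_apply, ← red_apply, h]
  · intro h
    ext i j
    rw [red_apply, red_apply, toZ_eq_iff]
    exact h i j

theorem red_ext {p : ℕ} [Fact p.Prime] {N : ℕ} {A B : Matrix (Fin N) (Fin N) ℤ_[p]}
    (h : ∀ s, red p N s A = red p N s B) : A = B := by
  ext i j
  rw [← PadicInt.ext_of_toZModPow]
  intro s
  rw [← red_apply, ← red_apply, h s]

theorem lim_exists {p : ℕ} [Fact p.Prime] (a : ℕ → ℤ_[p])
    (h : ∀ s, (p : ℤ_[p]) ^ s ∣ a (s + 1) - a s) : ∃ L, ∀ s, (p : ℤ_[p]) ^ s ∣ a s - L := by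
  have hp : p.Prime := Fact.out
  have hdiv : ∀ s t, s ≤ t → (p : ℤ_[p]) ^ s ∣ a t - a s := by
    intro s t hst
    induction t, hst using Nat.le_induction with
    | base => rw [sub_self]; exact dvd_zero _
    | succ t hst ih =>
      have h1 := dvd_add ((pow_dvd_pow (p : ℤ_[p]) hst).trans (h t)) ih
      have h2 : a (t + 1) - a t + (a t - a s) = a (t + 1) - a s := by ring
      rwa [h2] at h1
  have hn : ∀ s t, s ≤ t → ‖a t - a s‖ ≤ (p : ℝ) ^ (-s : ℤ) := fun s t hst =>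
    (PadicInt.norm_le_pow_iff_mem_span_pow _ _).2 (Ideal.mem_span_singleton.2 (hdiv s t hst))
  have hp1 : (1 : ℝ) < p := by exact_mod_cast hp.one_lt
  have hc : CauchySeq a := by
    refine cauchySeq_of_le_geometric (1 / (p : ℝ)) 1 ?_ ?_
    · rw [div_lt_one (by linarith)]
      exact hp1
    · intro s
      have h3 := hn s (s + 1) (Nat.le_succ s)
      rw [dist_eq_norm, norm_sub_rev, one_mul, one_div, inv_pow]
      rw [zpow_neg, zpow_natCast] at h3
      exact h3
  obtain ⟨L, hL⟩ := cauchySeq_tendsto_of_complete hc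
  refine ⟨L, fun s => ?_⟩
  rw [← Ideal.mem_span_singleton, ← PadicInt.norm_le_pow_iff_mem_span_pow]
  have h4 : Filter.Tendsto (fun t => ‖a s - a t‖) Filter.atTop (nhds ‖a s - L‖) :=
    (tendsto_const_nhds.sub hL).norm
  refine le_of_tendsto h4 (Filter.eventually_atTop.2 ⟨s, fun t ht => ?_⟩)
  rw [norm_sub_rev]
  exact hn s t ht

end M7x

open M7x

section
variable {p : ℕ} [Fact p.Prime] {n : ℕ} {D : ℕ → Subgroup (FreeGroup (Fin n))}
  {Γ : Type} [Group Γ] [TopologicalSpace Γ] [IsTopologicalGroup Γ] [CompactSpace Γ] [T2Space Γ]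
  {ι : FreeGroup (Fin n) →* Γ} {E : ℕ → Subgroup Γ}

/-- homomorphisms to finite `p`-groups are trivial on some `D m` -/
theorem Chain.cof_group (hD : Chain p n D) {Q : Type} [Group Q] [Finite Q] (hQ : IsPGroup p Q)
    (f : FreeGroup (Fin n) →* Q) : ∃ m, ∀ x ∈ D m, f x = 1 := by
  classical
  have hne : ∃ c, ∃ m, Nat.card ((D m).map f) = c := ⟨_, 0, rfl⟩
  obtain ⟨m, hm⟩ := Nat.find_spec hne
  have hmin : ∀ m', Nat.card ((D m).map f) ≤ Nat.card ((D m').map f) := by
    intro m'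
    rw [hm]
    exact Nat.find_min' hne ⟨m', rfl⟩
  rcases subsingleton_or_nontrivial ((D m).map f) with hs | hs
  · refine ⟨m, fun x hx => ?_⟩
    have h1 : (⟨f x, Subgroup.mem_map_of_mem f hx⟩ : (D m).map f) = 1 := Subsingleton.elim _ _
    exact congrArg Subtype.val h1
  · exfalso
    obtain ⟨h, h1, q, h2⟩ := hom_pgroup (hQ.to_subgroup ((D m).map f))
    obtain ⟨m', hmm', hm'⟩ := hD.cof m
      (fun x => if hx : x ∈ D m then h ⟨f x, Subgroup.mem_map_of_mem f hx⟩ else 0) (by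
        intro x hx y hy
        rw [dif_pos hx, dif_pos hy, dif_pos ((D m).mul_mem hx hy), ← h1]
        congr 1
        apply Subtype.ext
        exact map_mul f x y)
    have hle : (D m').map f ≤ (D m).map f := Subgroup.map_mono (hD.anti hmm')
    have heq : (D m').map f = (D m).map f := Subgroup.eq_of_le_of_card_ge hle (hmin m')
    apply h2
    have hq : (q : Q) ∈ (D m').map f := by
      rw [heq]
      exact q.2
    obtain ⟨x, hx, hxq⟩ := hq
    have h3 := hm' x hx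
    rw [dif_pos (hD.anti hmm' hx)] at h3
    rw [← h3]
    congr 1
    exact Subtype.ext hxq.symm

/-- unitriangular representations are continuous -/
theorem Chain.cof_rep (hD : Chain p n D) {N : ℕ}
    (ρ : FreeGroup (Fin n) →* Matrix (Fin N) (Fin N) ℤ_[p])
    (h1 : ∀ y i j, j < i → ρ y i j = 0) (h2 : ∀ y i, ρ y i i = 1) (s : ℕ) :
    ∃ m, ∀ x ∈ D m, ∀ i j,
      (p : ℤ_[p]) ^ s ∣ ρ x i j - (1 : Matrix (Fin N) (Fin N) ℤ_[p]) i j := by
  have hp : p.Prime := Fact.out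
  have hne : NeZero (p ^ s) := ⟨pow_ne_zero s hp.ne_zero⟩
  let red : Matrix (Fin N) (Fin N) ℤ_[p] →+* Matrix (Fin N) (Fin N) (ZMod (p ^ s)) :=
    (PadicInt.toZModPow s).mapMatrix
  let f : FreeGroup (Fin n) →* Matrix (Fin N) (Fin N) (ZMod (p ^ s)) := (red : _ →* _).comp ρ
  let g : FreeGroup (Fin n) →* (Matrix (Fin N) (Fin N) (ZMod (p ^ s)))ˣ := f.toHomUnits
  have hfg : ∀ y, ((g y : (Matrix (Fin N) (Fin N) (ZMod (p ^ s)))ˣ) :
      Matrix (Fin N) (Fin N) (ZMod (p ^ s))) = f y := fun y => rfl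
  have hQ : IsPGroup p g.range := by
    rintro ⟨_, y, rfl⟩
    obtain ⟨k, hk⟩ := unip_pow hp (R := ZMod (p ^ s)) (s := s) (by
      rw [← Nat.cast_pow]
      exact ZMod.natCast_self _) (f y) (by
        intro i j hij
        change PadicInt.toZModPow s (ρ y i j) = 0
        rw [h1 y i j hij, map_zero]) (by
        intro i
        change PadicInt.toZModPow s (ρ y i i) = 1
        rw [h2, map_one])
    refine ⟨k, ?_⟩
    apply Subtype.ext
    apply Units.ext
    exact hk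
  obtain ⟨m, hm⟩ := hD.cof_group hQ g.rangeRestrict
  refine ⟨m, fun x hx i j => ?_⟩
  have h3 := hm x hx
  have h4 : f x = 1 := by
    rw [← hfg]
    have h5 : g x = 1 := congrArg Subtype.val h3
    rw [h5]
    rfl
  have h6 : PadicInt.toZModPow s (ρ x i j) =
      PadicInt.toZModPow s ((1 : Matrix (Fin N) (Fin N) ℤ_[p]) i j) := by
    have h7 : f x i j = (1 : Matrix (Fin N) (Fin N) (ZMod (p ^ s))) i j := by rw [h4]
    have h8 : red 1 i j = (1 : Matrix (Fin N) (Fin N) (ZMod (p ^ s))) i j := by rw [map_one]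
    exact h7.trans h8.symm
  exact (toZ_eq_iff s _ _).1 h6

set_option linter.unusedSectionVars false in
/-- the extension with its characterisation -/
theorem M7x.extend_aux (hD : Chain p n D) (hM : Model D Γ ι E) {N : ℕ}
    (ρ : FreeGroup (Fin n) →* Matrix (Fin N) (Fin N) ℤ_[p])
    (h1 : ∀ y i j, j < i → ρ y i j = 0) (h2 : ∀ y i, ρ y i i = 1) :
    ∃ (M : ℕ → ℕ) (ρ' : Γ →* Matrix (Fin N) (Fin N) ℤ_[p]),
      ∀ x s f, x⁻¹ * ι f ∈ E (M s) → red p N s (ρ' x) = red p N s (ρ f) := by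
  choose m hm using fun s => hD.cof_rep ρ h1 h2 s
  let M : ℕ → ℕ := fun s => ∑ i ∈ Finset.range (s + 1), m i
  have hMs : ∀ s, M s ≤ M (s + 1) := by
    intro s
    change ∑ i ∈ Finset.range (s + 1), m i ≤ ∑ i ∈ Finset.range (s + 1 + 1), m i
    rw [Finset.sum_range_succ _ (s + 1)]
    exact Nat.le_add_right _ _
  have hMm : ∀ s, m s ≤ M s := by
    intro s
    exact Finset.single_le_sum (f := m) (fun i _ => Nat.zero_le _)
      (Finset.mem_range.2 (Nat.lt_succ_self s))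
  have hcong : ∀ s x, x ∈ D (M s) → red p N s (ρ x) = 1 := by
    intro s x hx
    rw [← map_one (red p N s), red_eq_iff]
    exact hm s x (hD.anti (hMm s) hx)
  -- two approximations
  have htwo : ∀ (x : Γ) s f f', x⁻¹ * ι f ∈ E (M s) → x⁻¹ * ι f' ∈ E (M s) →
      red p N s (ρ f) = red p N s (ρ f') := by
    intro x s f f' hf hf'
    have h3 : ι (f⁻¹ * f') ∈ E (M s) := by
      have h4 := (E (M s)).mul_mem ((E (M s)).inv_mem hf) hf'
      have h5 : (x⁻¹ * ι f)⁻¹ * (x⁻¹ * ι f') = ι (f⁻¹ * f') := by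
        rw [map_mul, map_inv]
        group
      rwa [h5] at h4
    have h6 := hcong s _ ((hM.mem_iff _ _).1 h3)
    have h7 : ρ f' = ρ f * ρ (f⁻¹ * f') := by rw [← map_mul, mul_inv_cancel_left]
    rw [h7, map_mul, h6, mul_one]
  have hex : ∀ x : Γ, ∃ L : Matrix (Fin N) (Fin N) ℤ_[p],
      ∀ s f, x⁻¹ * ι f ∈ E (M s) → red p N s L = red p N s (ρ f) := by
    intro x
    choose F hF using fun s => hM.dense (M s) x
    have hF' : ∀ s, red p N s (ρ (F (s + 1))) = red p N s (ρ (F s)) := fun s =>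
      htwo x s _ _ (hM.anti (hMs s) (hF (s + 1))) (hF s)
    have hlim : ∀ i j, ∃ L : ℤ_[p], ∀ s, (p : ℤ_[p]) ^ s ∣ ρ (F s) i j - L := fun i j =>
      lim_exists (fun s => ρ (F s) i j) fun s => (red_eq_iff s _ _).1 (hF' s) i j
    choose L hL using hlim
    refine ⟨Matrix.of L, fun s f hf => ?_⟩
    rw [← htwo x s _ _ (hF s) hf]
    symm
    rw [red_eq_iff]
    intro i j
    exact hL i j s
  choose R hR using hex
  refine ⟨M, { toFun := R, map_one' := ?_, map_mul' := ?_ }, hR⟩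
  · apply red_ext
    intro s
    rw [hR 1 s 1 (by rw [map_one, mul_one, inv_one]; exact one_mem _), map_one ρ]
  · intro x y
    apply red_ext
    intro s
    obtain ⟨f, hf⟩ := hM.dense (M s) x
    obtain ⟨g, hg⟩ := hM.dense (M s) y
    have h3 : (x * y)⁻¹ * ι (f * g) ∈ E (M s) := by
      have h4 := (hM.normal (M s)).conj_mem _ hf y⁻¹
      have h5 := (E (M s)).mul_mem h4 hg
      have h6 : y⁻¹ * (x⁻¹ * ι f) * y⁻¹⁻¹ * (y⁻¹ * ι g) = (x * y)⁻¹ * ι (f * g) := by
        rw [map_mul]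
        group
      rwa [h6] at h5
    rw [hR _ s _ h3, map_mul, map_mul, ← hR x s f hf, ← hR y s g hg, ← map_mul]

/-- unitriangular representations extend to the completion -/
theorem Model.extend (hD : Chain p n D) (hM : Model D Γ ι E) {N : ℕ}
    (ρ : FreeGroup (Fin n) →* Matrix (Fin N) (Fin N) ℤ_[p])
    (h1 : ∀ y i j, j < i → ρ y i j = 0) (h2 : ∀ y i, ρ y i i = 1) :
    ∃ ρ' : Γ →* Matrix (Fin N) (Fin N) ℤ_[p], (∀ y i j, j < i → ρ' y i j = 0) ∧
      (∀ y i, ρ' y i i = 1) ∧ (∀ i j, CZ p (⊤ : Subgroup Γ) (fun y => ρ' y i j)) ∧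
      ∀ x, ρ' (ι x) = ρ x := by
  obtain ⟨M, ρ', h⟩ := M7x.extend_aux hD hM ρ h1 h2
  refine ⟨ρ', ?_, ?_, ?_, ?_⟩
  · intro y i j hij
    rw [← PadicInt.ext_of_toZModPow]
    intro s
    obtain ⟨f, hf⟩ := hM.dense (M s) y
    rw [← red_apply, h y s f hf, red_apply, h1 f i j hij]
  · intro y i
    rw [← PadicInt.ext_of_toZModPow]
    intro s
    obtain ⟨f, hf⟩ := hM.dense (M s) y
    rw [← red_apply, h y s f hf, red_apply, h2 f i]
  · intro i j k
    refine ⟨E (M k), hM.isOpen _, fun x _ w _ hw => ?_⟩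
    have h3 : red p N k (ρ' w) = 1 := by
      rw [h w k 1 (by rw [map_one, mul_one]; exact (E (M k)).inv_mem hw), map_one, map_one]
    have h4 : red p N k (ρ' (x * w)) = red p N k (ρ' x) := by
      rw [map_mul, map_mul, h3, mul_one]
    exact (red_eq_iff k _ _).1 h4 i j
  · intro x
    apply red_ext
    intro s
    exact h (ι x) s x (by rw [inv_mul_cancel]; exact one_mem _)

theorem Model.sep' (hD : Chain p n D) (hM : Model D Γ ι E) (x : Γ) (hx : x ≠ 1) :
    ∃ (N : ℕ) (ρ : Γ →* Matrix (Fin N) (Fin N) ℤ_[p]),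
      (∀ y i j, j < i → ρ y i j = 0) ∧ (∀ y i, ρ y i i = 1) ∧
      (∀ i j, CZ p (⊤ : Subgroup Γ) (fun y => ρ y i j)) ∧ ρ x ≠ 1 := by
  obtain ⟨k, hk⟩ : ∃ k, x ∉ E k := by
    by_contra hcon
    push Not at hcon
    exact hx (hM.sep x hcon)
  obtain ⟨N, ρ, h1, h2, h3⟩ := hD.sep k
  obtain ⟨ρ', g1, g2, g3, g4⟩ := Model.extend hD hM ρ h1 h2
  refine ⟨N, ρ', g1, g2, g3, ?_⟩
  intro hone
  apply hk
  choose W hWo hW using fun i j => g3 i j 1
  have hop : IsOpen (⋂ i, ⋂ j, (W i j : Set Γ)) :=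
    isOpen_iInter_of_finite fun i => isOpen_iInter_of_finite fun j => hWo i j
  obtain ⟨l, hl⟩ := hM.basis _ hop (Set.mem_iInter.2 fun i => Set.mem_iInter.2 fun j => one_mem (W i j))
  obtain ⟨f, hf⟩ := hM.dense (max k l) x
  have hfk : x⁻¹ * ι f ∈ E k := hM.anti (le_max_left k l) hf
  have hfl : x⁻¹ * ι f ∈ E l := hM.anti (le_max_right k l) hf
  have hfD : f ∈ D k := by
    apply h3
    intro i j
    have h5 : x⁻¹ * ι f ∈ W i j := Set.mem_iInter.1 (Set.mem_iInter.1 (hl hfl) i) j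
    have h6 := hW i j x trivial (x⁻¹ * ι f) trivial h5
    rw [pow_one] at h6
    have h7 : x * (x⁻¹ * ι f) = ι f := by group
    rw [h7] at h6
    change (p : ℤ_[p]) ∣ ρ' (ι f) i j - ρ' x i j at h6
    rw [g4, hone] at h6
    exact h6
  have h8 : ι f ∈ E k := (hM.mem_iff k f).2 hfD
  have h9 := (E k).mul_mem h8 ((E k).inv_mem hfk)
  have h10 : ι f * (x⁻¹ * ι f)⁻¹ = x := by group
  rwa [h10] at h9

end

end Pool.Agent.H371.SE
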