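import Pool.Agent.H371.SE.M6
import Pool.Agent.H371.SE.M7

set_option autoImplicit false

namespace Pool.Agent.H371.SE

section
variable {p : ℕ} [Fact p.Prime] {n : ℕ} {D : ℕ → Subgroup (FreeGroup (Fin n))}
  {Γ : Type} [Group Γ] [TopologicalSpace Γ] [IsTopologicalGroup Γ] [CompactSpace Γ] [T2Space Γ]
  {ι : FreeGroup (Fin n) →* Γ} {E : ℕ → Subgroup Γ}

theorem Model.good (hD : Chain p n D) (hM : Model D Γ ι E) : Good p Γ where
  basis := fun S hS h1 => by
    obtain ⟨k, hk⟩ := hM.basis S hS h1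
    exact ⟨E k, hM.normal k, hM.isOpen k, hk⟩
  cd := Model.cd hD hM
  sep := Model.sep' hD hM

end

end Pool.Agent.H371.SE
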