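import Pool.Agent.H371.SE.Defs

set_option autoImplicit false

namespace Pool.Agent.H371.SE

namespace M9x

variable {n : ℕ} {D : ℕ → Subgroup (FreeGroup (Fin n))}
  {Γ : Type} [Group Γ] [TopologicalSpace Γ]
  {ι : FreeGroup (Fin n) →* Γ} {E : ℕ → Subgroup Γ}

/-- `y` is the image of `x` under the limit of the sequence `h` -/
def R (ι : FreeGroup (Fin n) →* Γ) (E : ℕ → Subgroup Γ)
    (h : ℕ → MulAut (FreeGroup (Fin n))) (x y : Γ) : Prop :=
  ∀ k f, x⁻¹ * ι f ∈ E k → y⁻¹ * ι (h k f) ∈ E k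

lemma close (hM : Model D Γ ι E) {k : ℕ} {x : Γ} {f g : FreeGroup (Fin n)}
    (hf : x⁻¹ * ι f ∈ E k) (hg : x⁻¹ * ι g ∈ E k) : f⁻¹ * g ∈ D k := by
  rw [← hM.mem_iff, map_mul, map_inv]
  have h1 : (ι f)⁻¹ * ι g = (x⁻¹ * ι f)⁻¹ * (x⁻¹ * ι g) := by group
  rw [h1]
  exact (E k).mul_mem ((E k).inv_mem hf) hg

lemma close' (hM : Model D Γ ι E) {k : ℕ} {x : Γ} {f g : FreeGroup (Fin n)}
    (hf : x⁻¹ * ι f ∈ E k) (hg : f⁻¹ * g ∈ D k) : x⁻¹ * ι g ∈ E k := by
  have h1 : x⁻¹ * ι g = (x⁻¹ * ι f) * ι (f⁻¹ * g) := by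
    rw [map_mul, map_inv]; group
  rw [h1]
  exact (E k).mul_mem hf ((hM.mem_iff k _).2 hg)

/-- one witness for each `k` is enough -/
lemma R_of {p : ℕ} [Fact p.Prime] (hD : Chain p n D) (hM : Model D Γ ι E)
    {h : ℕ → MulAut (FreeGroup (Fin n))} {x y : Γ}
    (H : ∀ k, ∃ f, x⁻¹ * ι f ∈ E k ∧ y⁻¹ * ι (h k f) ∈ E k) : R ι E h x y := by
  intro k g hg
  obtain ⟨f, hf, hf'⟩ := H k
  refine close' hM hf' ?_
  have := hD.char k (h k) _ (close hM hf hg)
  rwa [map_mul, map_inv] at this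

lemma R_exists {p : ℕ} [Fact p.Prime] (hD : Chain p n D) (hM : Model D Γ ι E)
    (h : ℕ → MulAut (FreeGroup (Fin n))) (hh : ∀ k x, (h k x)⁻¹ * h (k + 1) x ∈ D k) (x : Γ) :
    ∃ y, R ι E h x y := by
  choose f hf using fun k => hM.dense k x
  obtain ⟨y, hy⟩ := hM.complete (fun k => h k (f k)) fun k => by
    have h1 : (f k)⁻¹ * f (k + 1) ∈ D k :=
      close hM (hf k) (hM.anti (Nat.le_succ k) (hf (k + 1)))
    have h2 := hD.char k (h k) _ h1
    rw [map_mul, map_inv] at h2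
    have h3 : (h k (f k))⁻¹ * h (k + 1) (f (k + 1))
        = ((h k (f k))⁻¹ * h k (f (k + 1))) * ((h k (f (k + 1)))⁻¹ * h (k + 1) (f (k + 1))) := by
      group
    rw [h3]
    exact (D k).mul_mem h2 (hh k _)
  exact ⟨y, R_of hD hM fun k => ⟨f k, hf k, hy k⟩⟩

lemma R_unique (hM : Model D Γ ι E) {h : ℕ → MulAut (FreeGroup (Fin n))} {x y y' : Γ}
    (h1 : R ι E h x y) (h2 : R ι E h x y') : y = y' := by
  have h3 : y⁻¹ * y' = 1 := by
    refine hM.sep _ fun k => ?_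
    obtain ⟨f, hf⟩ := hM.dense k x
    have h4 : y⁻¹ * y' = (y⁻¹ * ι (h k f)) * (y'⁻¹ * ι (h k f))⁻¹ := by group
    rw [h4]
    exact (E k).mul_mem (h1 k f hf) ((E k).inv_mem (h2 k f hf))
  exact (inv_mul_eq_one.1 h3)

lemma mul_close (hM : Model D Γ ι E) {k : ℕ} {x x' : Γ} {f f' : FreeGroup (Fin n)}
    (hf : x⁻¹ * ι f ∈ E k) (hf' : x'⁻¹ * ι f' ∈ E k) : (x * x')⁻¹ * ι (f * f') ∈ E k := by
  have h1 : (x * x')⁻¹ * ι (f * f') = (x'⁻¹ * (x⁻¹ * ι f) * x'⁻¹⁻¹) * (x'⁻¹ * ι f') := by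
    rw [map_mul]; group
  rw [h1]
  exact (E k).mul_mem ((hM.normal k).conj_mem _ hf _) hf'

lemma R_mul {p : ℕ} [Fact p.Prime] (hD : Chain p n D) (hM : Model D Γ ι E)
    {h : ℕ → MulAut (FreeGroup (Fin n))} {x y x' y' : Γ} (h1 : R ι E h x y)
    (h2 : R ι E h x' y') : R ι E h (x * x') (y * y') := by
  refine R_of hD hM fun k => ?_
  obtain ⟨f, hf⟩ := hM.dense k x
  obtain ⟨f', hf'⟩ := hM.dense k x'
  refine ⟨f * f', mul_close hM hf hf', ?_⟩
  rw [map_mul]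
  exact mul_close hM (h1 k f hf) (h2 k f' hf')

lemma R_comp (hM : Model D Γ ι E) {h h' : ℕ → MulAut (FreeGroup (Fin n))}
    (hhh : ∀ k x, h k (h' k x) = x) {x y z : Γ} (h1 : R ι E h' x y) (h2 : R ι E h y z) : z = x := by
  have h3 : z⁻¹ * x = 1 := by
    refine hM.sep _ fun k => ?_
    obtain ⟨f, hf⟩ := hM.dense k x
    have h4 := h2 k _ (h1 k f hf)
    rw [hhh] at h4
    have h5 : z⁻¹ * x = (z⁻¹ * ι f) * (x⁻¹ * ι f)⁻¹ := by group
    rw [h5]
    exact (E k).mul_mem h4 ((E k).inv_mem hf)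
  exact inv_mul_eq_one.1 h3

/-- the inverse sequence is compatible -/
lemma inv_compat {p : ℕ} [Fact p.Prime] (hD : Chain p n D)
    (h : ℕ → MulAut (FreeGroup (Fin n))) (hh : ∀ k x, (h k x)⁻¹ * h (k + 1) x ∈ D k) (k : ℕ)
    (x : FreeGroup (Fin n)) : ((h k)⁻¹ x)⁻¹ * (h (k + 1))⁻¹ x ∈ D k := by
  have h1 := hh k ((h (k + 1))⁻¹ x)
  rw [MulAut.apply_inv_self] at h1
  have h2 := hD.char k ((h k)⁻¹) _ h1
  rw [map_mul, map_inv, MulAut.inv_apply_self] at h2
  have h3 := (D k).inv_mem h2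
  rwa [mul_inv_rev, inv_inv] at h3

/-- two homomorphisms which agree on the generators modulo `D` are congruent -/
lemma congr_gen {N : Subgroup (FreeGroup (Fin n))} (hN : N.Normal)
    (a b : MulAut (FreeGroup (Fin n)))
    (h : ∀ i : Fin n, (QuotientGroup.mk (a (FreeGroup.of i)) : FreeGroup (Fin n) ⧸ N)
      = QuotientGroup.mk (b (FreeGroup.of i))) (x : FreeGroup (Fin n)) :
    (a x)⁻¹ * b x ∈ N := by
  have := hN
  have h1 : (QuotientGroup.mk' N).comp a.toMonoidHom = (QuotientGroup.mk' N).comp b.toMonoidHom := by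
    apply FreeGroup.ext_hom
    intro i
    exact h i
  have h2 := DFunLike.congr_fun h1 x
  exact QuotientGroup.eq.1 h2

end M9x

open M9x

section
variable {p : ℕ} [Fact p.Prime] {n : ℕ} {D : ℕ → Subgroup (FreeGroup (Fin n))}
  {Γ : Type} [Group Γ] [TopologicalSpace Γ] [IsTopologicalGroup Γ] [CompactSpace Γ] [T2Space Γ]
  {ι : FreeGroup (Fin n) →* Γ} {E : ℕ → Subgroup Γ}

/-- a compatible sequence of automorphisms defines an automorphism of the completion -/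
theorem Model.exists_aut (hD : Chain p n D) (hM : Model D Γ ι E)
    (h : ℕ → MulAut (FreeGroup (Fin n))) (hh : ∀ k x, (h k x)⁻¹ * h (k + 1) x ∈ D k) :
    ∃ t : MulAut Γ, Continuous t ∧ ∀ k x, (ι (h k x))⁻¹ * t (ι x) ∈ E k := by
  choose T hT using R_exists hD hM h hh
  choose T' hT' using R_exists hD hM (fun k => (h k)⁻¹) (inv_compat hD h hh)
  let t : MulAut Γ :=
    { toFun := T
      invFun := T'
      left_inv := fun x => R_comp hM (h := fun k => (h k)⁻¹) (h' := h)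
        (fun k x => MulAut.inv_apply_self _ _ _) (hT x) (hT' (T x))
      right_inv := fun x => R_comp hM (h := h) (h' := fun k => (h k)⁻¹)
        (fun k x => MulAut.apply_inv_self _ _ _) (hT' x) (hT (T' x))
      map_mul' := fun x y => R_unique hM (hT (x * y)) (R_mul hD hM (hT x) (hT y)) }
  have ht : ∀ x, t x = T x := fun _ => rfl
  refine ⟨t, ?_, fun k x => ?_⟩
  · have hE : ∀ k x, x ∈ E k → t x ∈ E k := by
      intro k x hx
      have h1 := hT x k 1 (by rw [map_one, mul_one]; exact (E k).inv_mem hx)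
      rw [map_one, map_one, mul_one] at h1
      rw [ht]
      exact inv_mem_iff.1 h1
    refine continuous_of_continuousAt_one t.toMonoidHom ?_
    rw [ContinuousAt, map_one]
    intro S hS
    obtain ⟨S', hS', hS'o, h1⟩ := mem_nhds_iff.1 hS
    obtain ⟨k, hk⟩ := hM.basis S' hS'o h1
    rw [Filter.mem_map]
    refine Filter.mem_of_superset ((hM.isOpen k).mem_nhds (E k).one_mem) fun x hx => ?_
    exact hS' (hk (hE k x hx))
  · have h1 := hT (ι x) k x (by rw [inv_mul_cancel]; exact (E k).one_mem)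
    have h2 := (E k).inv_mem h1
    rwa [mul_inv_rev, inv_inv] at h2

/-- sequences of automorphisms have compatible subsequences -/
theorem Chain.konig (hD : Chain p n D) (h : ℕ → MulAut (FreeGroup (Fin n))) :
    ∃ φ : ℕ → ℕ, (∀ k, k ≤ φ k) ∧ ∀ k x, (h (φ k) x)⁻¹ * h (φ (k + 1)) x ∈ D k := by
  let 𝒰 : Ultrafilter ℕ := Filter.hyperfilter ℕ
  let c : ∀ k : ℕ, ℕ → Fin n → FreeGroup (Fin n) ⧸ D k := fun k m i =>
    QuotientGroup.mk (h m (FreeGroup.of i))
  have hfin : ∀ k, Finite (FreeGroup (Fin n) ⧸ D k) := fun k => by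
    have := hD.fin k
    infer_instance
  have hv : ∀ k, ∃ v, {m | c k m = v} ∈ 𝒰 := by
    intro k
    have := hfin k
    obtain ⟨v, hv⟩ := (𝒰.map (c k)).eq_pure_of_finite
    refine ⟨v, ?_⟩
    have h1 : ({v} : Set (Fin n → FreeGroup (Fin n) ⧸ D k)) ∈ 𝒰.map (c k) := by
      rw [hv]
      exact Ultrafilter.mem_pure.2 rfl
    exact Ultrafilter.mem_map.1 h1
  choose v hv using hv
  have hne : ∀ k, ∃ m, k ≤ m ∧ ∀ j, j ≤ k → c j m = v j := by
    intro k
    have h1 : {m | ∀ j ∈ Finset.range (k + 1), c j m = v j} ∈ 𝒰 := by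
      have : {m | ∀ j ∈ Finset.range (k + 1), c j m = v j}
          = ⋂ j ∈ Finset.range (k + 1), {m | c j m = v j} := by
        ext m
        simp
      rw [this]
      exact (Filter.biInter_finset_mem _).2 fun j _ => hv j
    have h2 : {m | k ≤ m} ∈ 𝒰 := by
      apply Filter.mem_hyperfilter_of_finite_compl
      have : {m | k ≤ m}ᶜ = Set.Iio k := by
        ext m
        simp
      rw [this]
      exact Set.finite_Iio k
    obtain ⟨m, hm1, hm2⟩ := 𝒰.nonempty_of_mem (Filter.inter_mem h1 h2)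
    exact ⟨m, hm2, fun j hj => hm1 j (Finset.mem_range.2 (Nat.lt_succ_of_le hj))⟩
  choose φ hφ1 hφ2 using hne
  refine ⟨φ, hφ1, fun k x => ?_⟩
  refine congr_gen (hD.normal k) _ _ (fun i => ?_) x
  have h1 := congrFun (hφ2 k k le_rfl) i
  have h2 := congrFun (hφ2 (k + 1) k (Nat.le_succ k)) i
  exact h1.trans h2.symm

end

end Pool.Agent.H371.SE
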