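import Pool.Agent.H371.SE.A15
import Pool.Agent.H371.SE.M4
import Pool.Agent.H371.SE.M8
import Pool.Agent.H371.SE.M9

set_option autoImplicit false

namespace Pool.Agent.H371.SE

section
variable {p : ℕ} [Fact p.Prime] {n : ℕ} {D : ℕ → Subgroup (FreeGroup (Fin n))}
  {Γ : Type} [Group Γ] [TopologicalSpace Γ] [IsTopologicalGroup Γ] [CompactSpace Γ] [T2Space Γ]
  {ι : FreeGroup (Fin n) →* Γ} {E : ℕ → Subgroup Γ}

namespace M10x

theorem one_val {F : Type} [Group F] {ψ : F → ZMod p} (h : ∀ x y, ψ (x * y) = ψ x + ψ y) :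
    ψ 1 = 0 := by
  have := h 1 1
  rw [mul_one] at this
  exact left_eq_add.1 this

theorem inv_mul_val {F : Type} [Group F] {ψ : F → ZMod p} (h : ∀ x y, ψ (x * y) = ψ x + ψ y)
    (x y : F) (h0 : ψ (x⁻¹ * y) = 0) : ψ x = ψ y := by
  have h1 := h x (x⁻¹ * y)
  rw [mul_inv_cancel_left, h0, add_zero] at h1
  exact h1.symm

omit [IsTopologicalGroup Γ] [CompactSpace Γ] [T2Space Γ] in
theorem change_rep (hM : Model D Γ ι E) {m : ℕ} {x : Γ} {f f' : FreeGroup (Fin n)}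
    (h : x⁻¹ * ι f ∈ E m) (h' : x⁻¹ * ι f' ∈ E m) : f⁻¹ * f' ∈ D m := by
  rw [← hM.mem_iff, map_mul, map_inv]
  have h1 := (E m).mul_mem ((E m).inv_mem h) h'
  have h2 : (x⁻¹ * ι f)⁻¹ * (x⁻¹ * ι f') = (ι f)⁻¹ * ι f' := by group
  rwa [h2] at h1

omit [IsTopologicalGroup Γ] [CompactSpace Γ] [T2Space Γ] in
/-- homomorphisms of the free group to `ZMod p` extend to the completion -/
theorem extend_hom (hD : Chain p n D) (hM : Model D Γ ι E) (ψ₀ : FreeGroup (Fin n) → ZMod p)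
    (h₀ : ∀ x y, ψ₀ (x * y) = ψ₀ x + ψ₀ y) :
    ∃ ψ : Γ → ZMod p, AddOn ⊤ ψ ∧ LC ⊤ ψ ∧ ∀ f, ψ (ι f) = ψ₀ f := by
  obtain ⟨m, _, hm⟩ := hD.cof 0 ψ₀ (fun x _ y _ => h₀ x y)
  choose r hr using hM.dense m
  have key : ∀ x f, x⁻¹ * ι f ∈ E m → ψ₀ (r x) = ψ₀ f := fun x f hf =>
    inv_mul_val h₀ _ _ (hm _ (change_rep hM (hr x) hf))
  refine ⟨fun x => ψ₀ (r x), fun x _ y _ => ?_, ⟨E m, hM.isOpen m, fun x _ w _ hw => ?_⟩,
    fun f => ?_⟩
  · change ψ₀ (r (x * y)) = ψ₀ (r x) + ψ₀ (r y)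
    rw [← h₀]
    apply key
    rw [map_mul]
    have h1 : (x * y)⁻¹ * (ι (r x) * ι (r y)) = (y⁻¹ * (x⁻¹ * ι (r x)) * y) * (y⁻¹ * ι (r y)) := by
      group
    rw [h1]
    refine (E m).mul_mem ?_ (hr y)
    have h2 := (hM.normal m).conj_mem _ (hr x) y⁻¹
    rwa [inv_inv] at h2
  · apply key
    have h1 : (x * w)⁻¹ * ι (r x) = w⁻¹ * (x⁻¹ * ι (r x)) := by group
    rw [h1]
    exact (E m).mul_mem ((E m).inv_mem hw) (hr x)
  · apply key
    rw [inv_mul_cancel]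
    exact (E m).one_mem

omit [IsTopologicalGroup Γ] [CompactSpace Γ] [T2Space Γ] in
theorem exists_ne (hM : Model D Γ ι E) {χ : Γ → ZMod p} (hlc : LC ⊤ χ) (hx : ∃ x, χ x ≠ 0) :
    ∃ f, χ (ι f) ≠ 0 := by
  obtain ⟨x, hx⟩ := hx
  obtain ⟨W, hW, hχ⟩ := hlc
  obtain ⟨k, hk⟩ := hM.basis W hW W.one_mem
  obtain ⟨f, hf⟩ := hM.dense k x
  refine ⟨f, ?_⟩
  have h1 := hχ x (Subgroup.mem_top x) (x⁻¹ * ι f) (Subgroup.mem_top _) (hk hf)
  rw [mul_inv_cancel_left] at h1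
  rwa [h1]

end M10x

open M10x

/-- the completion has no automorphism of order `p` which is a limit of automorphisms of the free
group fixing `Z` -/
theorem Model.rigid (hD : Chain p n D) (hM : Model D Γ ι E) {t : MulAut Γ} (ht : Continuous t)
    (htp : t ^ p = 1) (Z : Set (FreeGroup (Fin n))) (hZ : ND p (FreeGroup (Fin n)) Z)
    (htZ : ∀ z ∈ Z, t (ι z) = ι z) : t = 1 := by
  have hG : Good p Γ := Model.good hD hM
  refine SE.rigid hG ht htp (ι '' Z) ?_ ?_ ?_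
  · rintro _ ⟨z, hz, rfl⟩
    exact htZ z hz
  · rintro _ ⟨z, hz, rfl⟩ ψ hψ _
    exact hZ.1 z hz (fun f => ψ (ι f)) fun x y => by
      rw [map_mul]
      exact hψ _ (Subgroup.mem_top _) _ (Subgroup.mem_top _)
  · intro χ hχ hχlc hx
    have hχ0 : ∀ x y, χ (ι (x * y)) = χ (ι x) + χ (ι y) := fun x y => by
      rw [map_mul]
      exact hχ _ (Subgroup.mem_top _) _ (Subgroup.mem_top _)
    obtain ⟨z, hz, ψ₀, γ₀, hψ₀, hγ₀, hne⟩ := hZ.2 (fun f => χ (ι f)) hχ0 (exists_ne hM hχlc hx)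
    obtain ⟨ψ, hψ, hψlc, hψι⟩ := extend_hom hD hM ψ₀ hψ₀
    obtain ⟨γ, hγlc, hγ⟩ := hG.cd ⊤ isOpen_univ (fun x y => χ x * ψ y)
      (fun x hx y hy z hz => by
        rw [hχ x hx y hy, hψ y hy z hz]
        ring)
      (by
        obtain ⟨W₁, hW₁, h1⟩ := hχlc
        obtain ⟨W₂, hW₂, h2⟩ := hψlc
        refine ⟨W₁ ⊓ W₂, hW₁.inter hW₂, fun x hx y hy w hw w' hw' hwW hwW' => ?_⟩
        rw [h1 x hx w hw hwW.1, h2 y hy w' hw' hwW'.2])
    refine ⟨ι z, ⟨z, hz, rfl⟩, ψ, γ, hψ, hψlc, hγlc,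
      fun x y => hγ x (Subgroup.mem_top _) y (Subgroup.mem_top _), ?_⟩
    have h3 := hZ.1 z hz (fun f => γ (ι f) - γ₀ f) fun x y => by
      rw [map_mul, hγ _ (Subgroup.mem_top _) _ (Subgroup.mem_top _), hγ₀, hψι]
      ring
    rw [sub_eq_zero] at h3
    rw [h3]
    exact hne

namespace M10x

omit [CompactSpace Γ] [T2Space Γ] in
theorem aut_mem (hD : Chain p n D) (hM : Model D Γ ι E) {t : MulAut Γ} (ht : Continuous t)
    {g : ℕ → MulAut (FreeGroup (Fin n))} (hg : ∀ k x, (ι (g k x))⁻¹ * t (ι x) ∈ E k) (k : ℕ)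
    {y : Γ} (hy : y ∈ E k) : t y ∈ E k := by
  obtain ⟨m, hm⟩ := hM.basis (t ⁻¹' (E k : Set Γ)) ((hM.isOpen k).preimage ht) (by
    rw [Set.mem_preimage, map_one]
    exact (E k).one_mem)
  obtain ⟨f, hf⟩ := hM.dense (max m k) y
  have h1 : y⁻¹ * ι f ∈ E m := hM.anti (le_max_left _ _) hf
  have h2 : y⁻¹ * ι f ∈ E k := hM.anti (le_max_right _ _) hf
  have h3 : ι f ∈ E k := by
    have := (E k).mul_mem hy h2
    rwa [mul_inv_cancel_left] at this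
  have h4 : ι (g k f) ∈ E k := (hM.mem_iff k _).2 (hD.char k (g k) f ((hM.mem_iff k f).1 h3))
  have h5 : t (ι f) ∈ E k := by
    have := (E k).mul_mem h4 (hg k f)
    rwa [mul_inv_cancel_left] at this
  have h6 : t (y⁻¹ * ι f) ∈ E k := hm h1
  have h7 : t y = t (ι f) * (t (y⁻¹ * ι f))⁻¹ := by
    rw [← map_inv, ← map_mul]
    congr 1
    group
  rw [h7]
  exact (E k).mul_mem h5 ((E k).inv_mem h6)

omit [CompactSpace Γ] [T2Space Γ] in
theorem pow_mem (hD : Chain p n D) (hM : Model D Γ ι E) {t : MulAut Γ} (ht : Continuous t)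
    {g : ℕ → MulAut (FreeGroup (Fin n))} (hg : ∀ k x, (ι (g k x))⁻¹ * t (ι x) ∈ E k) (k j : ℕ)
    {y : Γ} (hy : y ∈ E k) : (t ^ j) y ∈ E k := by
  induction j with
  | zero => simpa using hy
  | succ j ih =>
    rw [pow_succ', MulAut.mul_apply]
    exact aut_mem hD hM ht hg k ih

omit [CompactSpace Γ] [T2Space Γ] in
theorem pow_approx (hD : Chain p n D) (hM : Model D Γ ι E) {t : MulAut Γ} (ht : Continuous t)
    {g : ℕ → MulAut (FreeGroup (Fin n))} (hg : ∀ k x, (ι (g k x))⁻¹ * t (ι x) ∈ E k) (k j : ℕ)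
    (x : FreeGroup (Fin n)) : (ι ((g k ^ j) x))⁻¹ * (t ^ j) (ι x) ∈ E k := by
  induction j with
  | zero =>
    simp
  | succ j ih =>
    rw [pow_succ', MulAut.mul_apply, pow_succ', MulAut.mul_apply]
    have h1 := aut_mem hD hM ht hg k ih
    rw [map_mul, map_inv] at h1
    have h2 := (E k).mul_mem (hg k ((g k ^ j) x)) h1
    have h3 : (ι (g k ((g k ^ j) x)))⁻¹ * t (ι ((g k ^ j) x)) *
        ((t (ι ((g k ^ j) x)))⁻¹ * t ((t ^ j) (ι x))) =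
        (ι (g k ((g k ^ j) x)))⁻¹ * t ((t ^ j) (ι x)) := by group
    rwa [h3] at h2

theorem flip_mem {G : Type} [Group G] {H : Subgroup G} (hH : H.Normal) {a b : G}
    (h : a * b⁻¹ ∈ H) : a⁻¹ * b ∈ H := by
  have h1 := hH.conj_mem _ h b⁻¹
  have h2 := H.inv_mem h1
  have h3 : (b⁻¹ * (a * b⁻¹) * b⁻¹⁻¹)⁻¹ = a⁻¹ * b := by group
  rwa [h3] at h2

theorem flip_mem' {G : Type} [Group G] {H : Subgroup G} (hH : H.Normal) {a b : G}
    (h : a⁻¹ * b ∈ H) : a * b⁻¹ ∈ H := by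
  have h1 := hH.conj_mem _ h b
  have h2 := H.inv_mem h1
  have h3 : (b * (a⁻¹ * b) * b⁻¹)⁻¹ = a * b⁻¹ := by group
  rwa [h3] at h2

end M10x

theorem Chain.level (hD : Chain p n D) (Z : Set (FreeGroup (Fin n)))
    (hZ : ND p (FreeGroup (Fin n)) Z) (k₀ : ℕ) :
    ∃ k, ∀ h : MulAut (FreeGroup (Fin n)), (∀ z ∈ Z, h z = z) →
      (∀ x, (h ^ p) x * x⁻¹ ∈ D k) → ∀ x, h x * x⁻¹ ∈ D k₀ := by
  by_contra hcon
  push Not at hcon
  choose h h1 h2 h3 using hcon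
  obtain ⟨φ, hφ, hh⟩ := Chain.konig hD h
  obtain ⟨Γ, _, _, _, _, _, ι, E, hM⟩ := exists_model D hD.anti hD.normal hD.fin
  obtain ⟨t, ht, hg⟩ := Model.exists_aut hD hM (fun k => h (φ k)) hh
  have hιp : ∀ x, (t ^ p) (ι x) = ι x := by
    intro x
    have h4 : (ι x)⁻¹ * (t ^ p) (ι x) = 1 := by
      refine hM.sep _ fun k => ?_
      have h5 := pow_approx hD hM ht hg k p x
      have h6 : (h (φ k) ^ p) x * x⁻¹ ∈ D k := hD.anti (hφ k) (h2 (φ k) x)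
      have h7 := (hM.mem_iff k _).2 (flip_mem (hD.normal k) h6)
      rw [map_mul, map_inv] at h7
      have h8 := (E k).mul_mem ((E k).inv_mem h7) h5
      have h9 : ((ι ((h (φ k) ^ p) x))⁻¹ * ι x)⁻¹ * ((ι ((h (φ k) ^ p) x))⁻¹ * (t ^ p) (ι x)) =
          (ι x)⁻¹ * (t ^ p) (ι x) := by group
      rwa [h9] at h8
    rw [inv_mul_eq_one] at h4
    exact h4.symm
  have htp : t ^ p = 1 := by
    ext y
    rw [MulAut.one_apply]
    have h4 : y⁻¹ * (t ^ p) y = 1 := by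
      refine hM.sep _ fun k => ?_
      obtain ⟨f, hf⟩ := hM.dense k y
      have h5 := pow_mem hD hM ht hg k p hf
      rw [map_mul, map_inv, hιp] at h5
      have h6 := (E k).mul_mem hf ((E k).inv_mem h5)
      have h7 : y⁻¹ * ι f * (((t ^ p) y)⁻¹ * ι f)⁻¹ = y⁻¹ * (t ^ p) y := by group
      rwa [h7] at h6
    rw [inv_mul_eq_one] at h4
    exact h4.symm
  have htZ : ∀ z ∈ Z, t (ι z) = ι z := by
    intro z hz
    have h4 : (ι z)⁻¹ * t (ι z) = 1 := by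
      refine hM.sep _ fun k => ?_
      have h5 := hg k z
      rwa [h1 (φ k) z hz] at h5
    rw [inv_mul_eq_one] at h4
    exact h4.symm
  have ht1 : t = 1 := Model.rigid hD hM ht htp Z hZ htZ
  obtain ⟨x, hx⟩ := h3 (φ k₀)
  apply hx
  have h4 := hg k₀ x
  rw [ht1, MulAut.one_apply, ← map_inv, ← map_mul, hM.mem_iff] at h4
  exact flip_mem' (hD.normal k₀) h4

end

end Pool.Agent.H371.SE
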