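import Pool.Agent.H371.SE.Defs
import Pool.Agent.H371.SB.U4

set_option autoImplicit false

namespace Pool.Agent.H371.SE.M11x

open Pool.Agent.H371.SB Pool.Agent.H371.SB.S45x

section
variable (p : ℕ) [Fact p.Prime] (N : Type) [Group N]

/-- the integral group algebra -/
noncomputable def Lam : Submodule ℤ_[p] (RR p N) :=
  Submodule.span ℤ_[p] (Set.range (MonoidAlgebra.of ℚ_[p] N))

theorem one_mem_Lam : (1 : RR p N) ∈ Lam p N := Submodule.subset_span ⟨1, map_one _⟩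

theorem Lam_mul {a b : RR p N} (ha : a ∈ Lam p N) (hb : b ∈ Lam p N) : a * b ∈ Lam p N := by
  have h1 : Lam p N * Lam p N ≤ Lam p N := by
    unfold Lam
    rw [Submodule.span_mul_span]
    apply Submodule.span_mono
    rintro _ ⟨_, ⟨x, rfl⟩, _, ⟨y, rfl⟩, rfl⟩
    exact ⟨x * y, map_mul _ _ _⟩
  exact h1 (Submodule.mul_mem_mul ha hb)

theorem p_smul (k : ℕ) (a : RR p N) : ((p : ℚ_[p]) ^ k) • a = ((p : ℤ_[p]) ^ k) • a := by
  rw [← algebraMap_smul ℚ_[p] ((p : ℤ_[p]) ^ k) a, map_pow, map_natCast]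

theorem Lam_smul (k : ℕ) {a : RR p N} (ha : a ∈ Lam p N) : ((p : ℚ_[p]) ^ k) • a ∈ Lam p N := by
  rw [p_smul]
  exact Submodule.smul_mem _ _ ha

/-- `p² J` is integral -/
theorem J_Lam {a : RR p N} (ha : a ∈ J p N) : ((p : ℚ_[p]) ^ 2) • a ∈ Lam p N := by
  unfold J at ha
  induction ha using Submodule.span_induction with
  | mem a ha =>
    obtain ⟨x, rfl⟩ := ha
    unfold gen
    rw [smul_smul, cast_mul_qq, one_smul]
    exact sub_mem (Submodule.subset_span ⟨x, rfl⟩) (one_mem_Lam p N)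
  | zero => rw [smul_zero]; exact zero_mem _
  | add a b _ _ ha hb => rw [smul_add]; exact add_mem ha hb
  | smul c a _ ha => rw [smul_comm]; exact Submodule.smul_mem _ c ha

theorem Jp_Lam (j : ℕ) {a : RR p N} (ha : a ∈ J p N ^ j) :
    ((p : ℚ_[p]) ^ (2 * j)) • a ∈ Lam p N := by
  induction j generalizing a with
  | zero =>
    rw [pow_zero] at ha
    obtain ⟨c, rfl⟩ := Submodule.mem_one.1 ha
    rw [mul_zero, pow_zero, one_smul, Algebra.algebraMap_eq_smul_one]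
    exact Submodule.smul_mem _ _ (one_mem_Lam p N)
  | succ j ih =>
    rw [pow_succ] at ha
    induction ha using Submodule.mul_induction_on' with
    | mem_mul_mem a ha b hb =>
      have e : ((p : ℚ_[p]) ^ (2 * (j + 1))) • (a * b) =
          (((p : ℚ_[p]) ^ (2 * j)) • a) * (((p : ℚ_[p]) ^ 2) • b) := by
        rw [smul_mul_assoc, mul_smul_comm, smul_smul, ← pow_add, mul_add, mul_one]
      rw [e]
      exact Lam_mul p N (ih ha) (J_Lam p N hb)
    | add a _ b _ ha hb => rw [smul_add]; exact add_mem ha hb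

/-- the elements which are integral up to `p^(2K)` modulo the power of the augmentation ideal -/
theorem S_Lam (K : ℕ) {s : RR p N} (hs : s ∈ S p N) :
    ∃ a ∈ Lam p N, ∃ b ∈ aug ℚ_[p] N ^ (K + 1), ((p : ℚ_[p]) ^ (2 * K)) • s = a + b := by
  have hJ : ∀ j, ∀ w ∈ J p N ^ j, ∃ a ∈ Lam p N, ∃ b ∈ aug ℚ_[p] N ^ (K + 1),
      ((p : ℚ_[p]) ^ (2 * K)) • w = a + b := by
    intro j w hw
    by_cases hj : j ≤ K
    · refine ⟨((p : ℚ_[p]) ^ (2 * K)) • w, ?_, 0, zero_mem _, by rw [add_zero]⟩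
      obtain ⟨k, rfl⟩ := Nat.exists_eq_add_of_le hj
      have e : ((p : ℚ_[p]) ^ (2 * (j + k))) • w =
          ((p : ℚ_[p]) ^ (2 * k)) • (((p : ℚ_[p]) ^ (2 * j)) • w) := by
        rw [smul_smul, ← pow_add]
        congr 2
        ring
      rw [e]
      exact Lam_smul p N _ (Jp_Lam p N j hw)
    · refine ⟨0, zero_mem _, ((p : ℚ_[p]) ^ (2 * K)) • w, ?_, by rw [zero_add]⟩
      exact Submodule.smul_mem _ _ (augp_anti p N K j (by omega) w (Jp_aug p N j w hw))
  have h1 : s ∈ Submodule.span ℤ_[p]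
      ((Submonoid.closure (Set.range (gen p N)) : Submonoid (RR p N)) : Set (RR p N)) := by
    rw [← Algebra.adjoin_eq_span]
    exact hs
  induction h1 using Submodule.span_induction with
  | mem w hw =>
    have h2 : ∃ j, w ∈ J p N ^ j := by
      clear hs
      induction hw using Submonoid.closure_induction with
      | mem w hw => exact ⟨1, by rw [pow_one]; exact Submodule.subset_span hw⟩
      | one => exact ⟨0, by rw [pow_zero]; exact Submodule.one_le.1 le_rfl⟩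
      | mul a b _ _ ha hb =>
        obtain ⟨i, hi⟩ := ha
        obtain ⟨j, hj⟩ := hb
        exact ⟨i + j, by rw [pow_add]; exact Submodule.mul_mem_mul hi hj⟩
    obtain ⟨j, hj⟩ := h2
    exact hJ j w hj
  | zero => exact ⟨0, zero_mem _, 0, zero_mem _, by rw [smul_zero, add_zero]⟩
  | add u v hu hv ihu ihv =>
    have hSp : ∀ y : RR p N, y ∈ Submodule.span ℤ_[p]
        ((Submonoid.closure (Set.range (gen p N)) : Submonoid (RR p N)) : Set (RR p N)) →
        y ∈ S p N := by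
      intro y hy
      rw [← Algebra.adjoin_eq_span] at hy
      exact hy
    obtain ⟨a, ha, b, hb, e⟩ := ihu (hSp u hu)
    obtain ⟨a', ha', b', hb', e'⟩ := ihv (hSp v hv)
    refine ⟨a + a', add_mem ha ha', b + b', add_mem hb hb', ?_⟩
    rw [smul_add, e, e']
    abel
  | smul c u hu ihu =>
    have hSp : u ∈ S p N := by
      rw [← Algebra.adjoin_eq_span] at hu
      exact hu
    obtain ⟨a, ha, b, hb, e⟩ := ihu hSp
    refine ⟨c • a, Submodule.smul_mem _ c ha, c • b, ?_, ?_⟩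
    · have := Submodule.smul_mem (aug ℚ_[p] N ^ (K + 1)) (algebraMap ℤ_[p] ℚ_[p] c) hb
      rwa [algebraMap_smul] at this
    · rw [smul_comm, e, smul_add]

variable (W : Submodule ℚ_[p] (RR p N))

theorem main2 [Group.FG (Abelianization N)] (K : ℕ) (hA : aug ℚ_[p] N ^ (K + 1) ≤ W)
    (hW : ∀ (h : MulAut N) (r : RR p N), r ∈ W → act p N h r ∈ W) :
    ∃ (B : Type) (_ : Ring B) (_ : Algebra ℤ_[p] B) (_ : Module.Free ℤ_[p] B)
      (_ : Module.Finite ℤ_[p] B) (ψ : MulAut N →* Bˣ),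
      (∀ h : MulAut N, TrivAb (p ^ 2) h → ∃ b : B, (ψ h : B) = 1 + (p : B) ^ 2 * b) ∧
      ∀ (m : ℕ) (h : MulAut N), (∃ b : B, (ψ h : B) = 1 + (p : B) ^ m * b) → ∀ x : N,
        ∃ s ∈ S p N, ∃ w ∈ W, gen p N (h x) - gen p N x = ((p : ℚ_[p]) ^ m) • s + w := by
  have := MM_finite p N W K hA
  have := MM_tf p N W
  have : Module.Free ℤ_[p] (MM p N W) := Module.free_of_finite_type_torsion_free'
  have hnat : ∀ (k : ℕ) (f : Module.End ℤ_[p] (MM p N W)) (y : MM p N W),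
      ((p : Module.End ℤ_[p] (MM p N W)) ^ k) (f y) = (p : ℤ_[p]) ^ k • f y := by
    intro k f y
    have e5 : ((p : Module.End ℤ_[p] (MM p N W)) ^ k) =
        algebraMap ℤ_[p] (Module.End ℤ_[p] (MM p N W)) ((p : ℤ_[p]) ^ k) := by
      rw [map_pow, map_natCast]
    rw [e5, Module.algebraMap_end_apply]
  refine ⟨Module.End ℤ_[p] (MM p N W), inferInstance, inferInstance, inferInstance, inferInstance,
    (lact p N W hW).toHomUnits, ?_, ?_⟩
  · intro h hh
    let b := Module.Free.chooseBasis ℤ_[p] (MM p N W)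
    have key : ∀ m : MM p N W, ∃ m' : MM p N W, lact p N W hW h m = m + (p : ℤ_[p]) ^ 2 • m' := by
      intro m
      obtain ⟨r, hr, e⟩ := Submodule.mem_map.1 m.2
      obtain ⟨s, hs, e2⟩ := act_cong p N h hh r hr
      refine ⟨⟨(W.restrictScalars ℤ_[p]).mkQ s, Submodule.mem_map.2 ⟨s, hs, rfl⟩⟩, ?_⟩
      apply Subtype.ext
      rw [lact_coe]
      change _ = (m : RR p N ⧸ W.restrictScalars ℤ_[p]) +
        (p : ℤ_[p]) ^ 2 • (W.restrictScalars ℤ_[p]).mkQ s
      rw [← e, qact_mk, ← map_smul, ← map_add]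
      congr 1
      have e3 : (p : ℤ_[p]) ^ 2 • s = (p : RR p N) ^ 2 * s := by
        rw [Algebra.smul_def, map_pow, map_natCast]
      rw [e3, ← e2]; abel
    choose f hf using key
    refine ⟨b.constr ℤ_[p] (fun i => f (b i)), ?_⟩
    apply b.ext
    intro i
    rw [LinearMap.add_apply, Module.End.mul_apply, Module.Basis.constr_basis]
    have e4 : ((p : Module.End ℤ_[p] (MM p N W)) ^ 2) (f (b i)) = (p : ℤ_[p]) ^ 2 • f (b i) := by
      have e5 : ((p : Module.End ℤ_[p] (MM p N W)) ^ 2) =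
          algebraMap ℤ_[p] (Module.End ℤ_[p] (MM p N W)) ((p : ℤ_[p]) ^ 2) := by
        rw [map_pow, map_natCast]
      rw [e5, Module.algebraMap_end_apply]
    rw [e4]
    exact hf (b i)
  · rintro m h ⟨b, hb⟩ x
    have h1 : lact p N W hW h = 1 + (p : Module.End ℤ_[p] (MM p N W)) ^ m * b := hb
    have hm : (W.restrictScalars ℤ_[p]).mkQ (gen p N x) ∈ MM p N W :=
      Submodule.mem_map.2 ⟨_, gen_mem p N x, rfl⟩
    obtain ⟨s, hs, e⟩ := Submodule.mem_map.1 (b ⟨_, hm⟩).2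
    have h2 : ((lact p N W hW h ⟨_, hm⟩ : MM p N W) : RR p N ⧸ W.restrictScalars ℤ_[p]) =
        (W.restrictScalars ℤ_[p]).mkQ (gen p N x + (p : ℤ_[p]) ^ m • s) := by
      rw [h1, LinearMap.add_apply, Module.End.mul_apply, hnat, map_add, map_smul, e]
      rfl
    rw [lact_coe] at h2
    change qact p N W hW h ((W.restrictScalars ℤ_[p]).mkQ (gen p N x)) = _ at h2
    rw [qact_mk, act_gen] at h2
    have h3 : gen p N (h x) - (gen p N x + (p : ℤ_[p]) ^ m • s) ∈ W :=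
      (Submodule.Quotient.eq _).1 h2
    refine ⟨s, hs, _, h3, ?_⟩
    rw [p_smul]
    abel

end

end Pool.Agent.H371.SE.M11x

namespace Pool.Agent.H371.SE

open Pool.Agent.H371.SB

/-- lattices in the group algebra modulo powers of the augmentation ideal, with control of the
kernels of the reductions -/
theorem exists_base (p : ℕ) [Fact p.Prime] (N : Type) [Group N] [Group.FG (Abelianization N)]
    (K : ℕ) :
    ∃ (B : Type) (_ : Ring B) (_ : Algebra ℤ_[p] B) (_ : Module.Free ℤ_[p] B)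
      (_ : Module.Finite ℤ_[p] B) (ψ : MulAut N →* Bˣ),
      (∀ h : MulAut N, TrivAb (p ^ 2) h → ∃ b : B, (ψ h : B) = 1 + (p : B) ^ 2 * b) ∧
      ∀ r : ℕ, ∃ m : ℕ, ∀ h : MulAut N, (∃ b : B, (ψ h : B) = 1 + (p : B) ^ m * b) → ∀ x : N,
        ∃ a ∈ Submodule.span ℤ_[p] (Set.range (MonoidAlgebra.of ℚ_[p] N)),
          ∃ b ∈ (aug ℚ_[p] N) ^ (K + 1),
          MonoidAlgebra.of ℚ_[p] N (h x) - MonoidAlgebra.of ℚ_[p] N x =
            ((p : ℚ_[p]) ^ r) • a + b := by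
  obtain ⟨B, i1, i2, i3, i4, ψ, h1, h2⟩ := M11x.main2 p N (aug ℚ_[p] N ^ (K + 1)) K le_rfl
    (fun h r hr => S45x.act_augp p N _ h r hr)
  refine ⟨B, i1, i2, i3, i4, ψ, h1, fun r => ⟨r + 2 * K, fun h hb x => ?_⟩⟩
  obtain ⟨s, hs, w, hw, e⟩ := h2 (r + 2 * K) h hb x
  obtain ⟨a, ha, b, hb', e'⟩ := M11x.S_Lam p N K hs
  refine ⟨((p : ℚ_[p]) ^ 2) • a, M11x.Lam_smul p N 2 ha,
    ((p : ℚ_[p]) ^ (r + 2)) • b + ((p : ℚ_[p]) ^ 2) • w,
    add_mem (Submodule.smul_mem _ _ hb') (Submodule.smul_mem _ _ hw), ?_⟩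
  have e1 : MonoidAlgebra.of ℚ_[p] N (h x) - MonoidAlgebra.of ℚ_[p] N x =
      ((p : ℚ_[p]) ^ 2) • (S45x.gen p N (h x) - S45x.gen p N x) := by
    unfold S45x.gen S45x.dd
    rw [← smul_sub, smul_smul, S45x.cast_mul_qq, one_smul, sub_sub_sub_cancel_right]
  have e2 : ((p : ℚ_[p]) ^ 2) • (((p : ℚ_[p]) ^ (r + 2 * K)) • s) =
      ((p : ℚ_[p]) ^ (r + 2)) • (((p : ℚ_[p]) ^ (2 * K)) • s) := by
    rw [smul_smul, smul_smul, ← pow_add, ← pow_add]
    congr 2
    ring
  rw [e1, e, smul_add, e2, e', smul_add, smul_smul, ← pow_add, add_assoc]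

end Pool.Agent.H371.SE

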