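import Pool.Agent.H371.SE.M7
import Pool.Agent.H371.SB.Defs

set_option autoImplicit false

namespace Pool.Agent.H371.SE

open Pool.Agent.H371.SB

namespace M12x

/-! ### the linear extension of a unitriangular representation -/

section rep
variable {p : ℕ} [Fact p.Prime] {F : Type} [Group F] {N : ℕ}

/-- the linear extension to the group algebra -/
noncomputable def Phi (ρ : F →* Matrix (Fin N) (Fin N) ℤ_[p]) :
    MonoidAlgebra ℚ_[p] F →ₐ[ℚ_[p]] Matrix (Fin N) (Fin N) ℚ_[p] :=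
  MonoidAlgebra.lift ℚ_[p] (Matrix (Fin N) (Fin N) ℚ_[p]) F
    (((algebraMap ℤ_[p] ℚ_[p]).mapMatrix : Matrix (Fin N) (Fin N) ℤ_[p] →+* _).toMonoidHom.comp ρ)

theorem Phi_of (ρ : F →* Matrix (Fin N) (Fin N) ℤ_[p]) (x : F) (i j : Fin N) :
    Phi ρ (MonoidAlgebra.of ℚ_[p] F x) i j = ((ρ x i j : ℤ_[p]) : ℚ_[p]) := by
  have h : Phi ρ (MonoidAlgebra.of ℚ_[p] F x) =
      ((algebraMap ℤ_[p] ℚ_[p]).mapMatrix : Matrix (Fin N) (Fin N) ℤ_[p] →+* _) (ρ x) := by
    rw [Phi, MonoidAlgebra.lift_of]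
    rfl
  rw [h]
  rfl

theorem Phi_int (ρ : F →* Matrix (Fin N) (Fin N) ℤ_[p]) (a : MonoidAlgebra ℚ_[p] F)
    (ha : a ∈ Submodule.span ℤ_[p] (Set.range (MonoidAlgebra.of ℚ_[p] F))) (i j : Fin N) :
    ∃ m : ℤ_[p], Phi ρ a i j = (m : ℚ_[p]) := by
  induction ha using Submodule.span_induction with
  | mem x hx =>
    obtain ⟨g, rfl⟩ := hx
    exact ⟨_, Phi_of ρ g i j⟩
  | zero => exact ⟨0, by simp⟩
  | add x y _ _ hx hy =>
    obtain ⟨m, hm⟩ := hx
    obtain ⟨m', hm'⟩ := hy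
    exact ⟨m + m', by rw [map_add, Matrix.add_apply, hm, hm', PadicInt.coe_add]⟩
  | smul c x _ hx =>
    obtain ⟨m, hm⟩ := hx
    refine ⟨c * m, ?_⟩
    have h : c • x = ((c : ℤ_[p]) : ℚ_[p]) • x := by
      rw [← algebraMap_smul ℚ_[p] c x]
      rfl
    rw [h, map_smul, Matrix.smul_apply, hm, PadicInt.coe_mul, smul_eq_mul]

theorem Phi_aug (ρ : F →* Matrix (Fin N) (Fin N) ℤ_[p]) (h1 : ∀ y i j, j < i → ρ y i j = 0)
    (h2 : ∀ y i, ρ y i i = 1) (a : MonoidAlgebra ℚ_[p] F) (ha : a ∈ aug ℚ_[p] F) (i j : Fin N)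
    (hij : (j : ℕ) < i + 1) : Phi ρ a i j = 0 := by
  rw [aug] at ha
  induction ha using Submodule.span_induction with
  | mem x hx =>
    obtain ⟨g, rfl⟩ := hx
    rw [map_sub, map_one, Matrix.sub_apply, Phi_of]
    rcases eq_or_ne i j with e | e
    · subst e
      rw [h2, Matrix.one_apply_eq]
      simp
    · have hlt : j < i := lt_of_le_of_ne (by
        rw [Fin.le_def]; omega) (Ne.symm e)
      rw [h1 g i j hlt, Matrix.one_apply_ne e]
      simp
  | zero => simp
  | add x y _ _ hx hy => rw [map_add, Matrix.add_apply, hx, hy, add_zero]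
  | smul c x _ hx => rw [map_smul, Matrix.smul_apply, hx, smul_zero]

theorem Phi_aug_pow (ρ : F →* Matrix (Fin N) (Fin N) ℤ_[p]) (h1 : ∀ y i j, j < i → ρ y i j = 0)
    (h2 : ∀ y i, ρ y i i = 1) (m : ℕ) (a : MonoidAlgebra ℚ_[p] F) (ha : a ∈ (aug ℚ_[p] F) ^ m)
    (i j : Fin N) (hij : (j : ℕ) < i + m) : Phi ρ a i j = 0 := by
  induction m generalizing a i j with
  | zero =>
    rw [pow_zero, Submodule.mem_one] at ha
    obtain ⟨c, rfl⟩ := ha
    rw [AlgHom.commutes, Matrix.algebraMap_matrix_apply, if_neg]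
    intro e
    subst e
    omega
  | succ m ih =>
    rw [pow_succ] at ha
    refine Submodule.mul_induction_on ha ?_ ?_
    · intro x hx y hy
      rw [map_mul, Matrix.mul_apply]
      apply Finset.sum_eq_zero
      intro l _
      by_cases hl : (l : ℕ) < i + m
      · rw [ih x hx i l hl, zero_mul]
      · rw [Phi_aug ρ h1 h2 y hy l j (by omega), mul_zero]
    · intro x y hx hy
      rw [map_add, Matrix.add_apply, hx, hy, add_zero]

theorem rep_cong (ρ : F →* Matrix (Fin N) (Fin N) ℤ_[p]) (h1 : ∀ y i j, j < i → ρ y i j = 0)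
    (h2 : ∀ y i, ρ y i i = 1) (r K : ℕ) (hK : N ≤ K) (x y : F) (a b : MonoidAlgebra ℚ_[p] F)
    (ha : a ∈ Submodule.span ℤ_[p] (Set.range (MonoidAlgebra.of ℚ_[p] F)))
    (hb : b ∈ (aug ℚ_[p] F) ^ K)
    (hab : MonoidAlgebra.of ℚ_[p] F y - MonoidAlgebra.of ℚ_[p] F x = ((p : ℚ_[p]) ^ r) • a + b)
    (i j : Fin N) : (p : ℤ_[p]) ^ r ∣ ρ y i j - ρ x i j := by
  obtain ⟨m, hm⟩ := Phi_int ρ a ha i j
  refine ⟨m, ?_⟩
  apply PadicInt.ext
  have h3 := congrArg (fun z => Phi ρ z i j) hab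
  simp only [map_sub, map_add, map_smul, Matrix.sub_apply, Matrix.add_apply, Matrix.smul_apply,
    Phi_of, hm, smul_eq_mul] at h3
  rw [Phi_aug_pow ρ h1 h2 K b hb i j (by have := j.2; omega), add_zero] at h3
  rw [PadicInt.coe_sub, h3, PadicInt.coe_mul, PadicInt.coe_pow, PadicInt.coe_natCast]

end rep

/-! ### the abelianization of the free group -/

section ab
variable {n : ℕ}

/-- exponent sums -/
noncomputable def ex (n : ℕ) : FreeGroup (Fin n) →* Multiplicative (Fin n → ℤ) :=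
  FreeGroup.lift fun i => Multiplicative.ofAdd (Pi.single i 1)

/-- products of generators with prescribed exponents -/
theorem ex_surj (v : Fin n → ℤ) : ∃ y, Multiplicative.toAdd (ex n y) = v := by
  have h : ∀ s : Finset (Fin n), ∃ y, Multiplicative.toAdd (ex n y) =
      ∑ i ∈ s, v i • (Pi.single i 1 : Fin n → ℤ) := by
    intro s
    classical
    induction s using Finset.induction_on with
    | empty => exact ⟨1, by simp⟩
    | insert i s hi ih =>
      obtain ⟨y, hy⟩ := ih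
      refine ⟨FreeGroup.of i ^ v i * y, ?_⟩
      rw [map_mul, toAdd_mul, hy, Finset.sum_insert hi, map_zpow, toAdd_zpow, ex,
        FreeGroup.lift_apply_of, toAdd_ofAdd]
  obtain ⟨y, hy⟩ := h Finset.univ
  refine ⟨y, ?_⟩
  rw [hy]
  ext j
  rw [Finset.sum_apply]
  simp [Pi.single_apply]

/-- the class in the abelianization is determined by the exponent sums -/
theorem of_eq (g : FreeGroup (Fin n)) : Abelianization.of g =
    ∏ i, Abelianization.of (FreeGroup.of i) ^ (Multiplicative.toAdd (ex n g) i) := by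
  let f : FreeGroup (Fin n) →* Abelianization (FreeGroup (Fin n)) :=
    { toFun := fun g => ∏ i, Abelianization.of (FreeGroup.of i) ^
        (Multiplicative.toAdd (ex n g) i)
      map_one' := by simp
      map_mul' := by
        intro a b
        rw [← Finset.prod_mul_distrib]
        apply Finset.prod_congr rfl
        intro i _
        rw [map_mul, toAdd_mul, Pi.add_apply, zpow_add] }
  have h : (Abelianization.of : FreeGroup (Fin n) →* _) = f := by
    apply FreeGroup.ext_hom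
    intro j
    change _ = ∏ i, Abelianization.of (FreeGroup.of i) ^
        (Multiplicative.toAdd (ex n (FreeGroup.of j)) i)
    rw [ex, FreeGroup.lift_apply_of, toAdd_ofAdd, Finset.prod_eq_single j]
    · rw [Pi.single_eq_same, zpow_one]
    · intro i _ hi
      rw [Pi.single_eq_of_ne hi, zpow_zero]
    · intro hj
      exact absurd (Finset.mem_univ j) hj
  exact DFunLike.congr_fun h g

theorem trivAb_fin (m : ℕ) (h : MulAut (FreeGroup (Fin n)))
    (hh : ∀ x i, (m : ℤ) ∣ Multiplicative.toAdd (ex n (h x)) i - Multiplicative.toAdd (ex n x) i) :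
    TrivAb m h := by
  intro x
  choose v hv using hh x
  obtain ⟨y, hy⟩ := ex_surj v
  refine ⟨y, ?_⟩
  rw [of_eq (h x), of_eq (x * y ^ m)]
  apply Finset.prod_congr rfl
  intro i _
  have e : Multiplicative.toAdd (ex n (h x)) i =
      Multiplicative.toAdd (ex n (x * y ^ m)) i := by
    rw [map_mul, map_pow, toAdd_mul, toAdd_pow, hy, Pi.add_apply, Pi.smul_apply, nsmul_eq_mul,
      ← hv i]
    ring
  rw [e]

/-- the two dimensional representation of an exponent sum -/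
noncomputable def rep2 (p : ℕ) [Fact p.Prime] (i : Fin n) :
    FreeGroup (Fin n) →* Matrix (Fin 2) (Fin 2) ℤ_[p] where
  toFun g := !![1, ((Multiplicative.toAdd (ex n g) i : ℤ) : ℤ_[p]); 0, 1]
  map_one' := by
    rw [map_one, toAdd_one, Pi.zero_apply, Int.cast_zero, Matrix.one_fin_two]
  map_mul' a b := by
    rw [map_mul, toAdd_mul, Pi.add_apply, Int.cast_add, Matrix.mul_fin_two]
    simp [add_comm]

end ab

end M12x

open M12x

section
variable {p : ℕ} [Fact p.Prime] {n : ℕ} {D : ℕ → Subgroup (FreeGroup (Fin n))}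

theorem Chain.mem_of (hD : Chain p n D) (k : ℕ) :
    ∃ K : ℕ, 1 ≤ K ∧ ∀ x y : FreeGroup (Fin n),
      (∃ a ∈ Submodule.span ℤ_[p] (Set.range (MonoidAlgebra.of ℚ_[p] (FreeGroup (Fin n)))),
          ∃ b ∈ (aug ℚ_[p] (FreeGroup (Fin n))) ^ (K + 1),
          MonoidAlgebra.of ℚ_[p] (FreeGroup (Fin n)) y -
            MonoidAlgebra.of ℚ_[p] (FreeGroup (Fin n)) x = (p : ℚ_[p]) • a + b) →
      y * x⁻¹ ∈ D k := by
  obtain ⟨N, ρ, h1, h2, h3⟩ := hD.sep k
  refine ⟨N + 1, by omega, ?_⟩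
  rintro x y ⟨a, ha, b, hb, hab⟩
  apply h3
  have h4 := rep_cong ρ h1 h2 1 (N + 1 + 1) (by omega) x y a b ha hb (by rw [pow_one]; exact hab)
  intro i j
  have e : ρ (y * x⁻¹) - 1 = (ρ y - ρ x) * ρ x⁻¹ := by
    rw [sub_mul, ← map_mul, ← map_mul, mul_inv_cancel, map_one]
  have e2 : ρ (y * x⁻¹) i j - (1 : Matrix (Fin N) (Fin N) ℤ_[p]) i j =
      ∑ l, (ρ y i l - ρ x i l) * ρ x⁻¹ l j := by
    have := congrFun (congrFun e i) j
    rw [Matrix.sub_apply, Matrix.mul_apply] at this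
    exact this
  rw [e2]
  apply Finset.dvd_sum
  intro l _
  have := h4 i l
  rw [pow_one] at this
  exact Dvd.dvd.mul_right this _

theorem trivAb_of_cong {K : ℕ} (hK : 1 ≤ K) (h : MulAut (FreeGroup (Fin n)))
    (hh : ∀ x, ∃ a ∈ Submodule.span ℤ_[p] (Set.range (MonoidAlgebra.of ℚ_[p] (FreeGroup (Fin n)))),
          ∃ b ∈ (aug ℚ_[p] (FreeGroup (Fin n))) ^ (K + 1),
          MonoidAlgebra.of ℚ_[p] (FreeGroup (Fin n)) (h x) -
            MonoidAlgebra.of ℚ_[p] (FreeGroup (Fin n)) x = ((p : ℚ_[p]) ^ 2) • a + b) :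
    TrivAb (p ^ 2) h := by
  apply trivAb_fin
  intro x i
  obtain ⟨a, ha, b, hb, hab⟩ := hh x
  have h1 : ∀ (y : FreeGroup (Fin n)) (s t : Fin 2), t < s → rep2 p i y s t = 0 := by
    intro y s t hst
    fin_cases s <;> fin_cases t <;> simp_all [rep2]
  have h2 : ∀ (y : FreeGroup (Fin n)) (s : Fin 2), rep2 p i y s s = 1 := by
    intro y s
    fin_cases s <;> simp [rep2]
  have h3 := rep_cong (rep2 p i) h1 h2 2 (K + 1) (by omega) x (h x) a b ha hb hab 0 1
  have h4 : ∀ y : FreeGroup (Fin n), rep2 p i y 0 1 =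
      ((Multiplicative.toAdd (ex n y) i : ℤ) : ℤ_[p]) := by
    intro y
    simp [rep2]
  rw [h4, h4, ← Int.cast_sub] at h3
  rw [Nat.cast_pow]
  have h5 := (PadicInt.pow_p_dvd_int_iff (p := p) 2
    (Multiplicative.toAdd (ex n (h x)) i - Multiplicative.toAdd (ex n x) i)).1 h3
  exact_mod_cast h5

theorem Chain.trivAb (hD : Chain p n D) :
    ∃ k, ∀ h : MulAut (FreeGroup (Fin n)), (∀ x, h x * x⁻¹ ∈ D k) → TrivAb (p ^ 2) h := by
  have : NeZero (p ^ 2) := ⟨pow_ne_zero 2 (Fact.out : p.Prime).ne_zero⟩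
  have hQ : IsPGroup p (Multiplicative (Fin n → ZMod (p ^ 2))) := by
    intro g
    refine ⟨2, ?_⟩
    apply Multiplicative.toAdd.injective
    rw [toAdd_pow, toAdd_one]
    ext i
    rw [Pi.smul_apply, nsmul_eq_mul, ZMod.natCast_self, zero_mul, Pi.zero_apply]
  let c : (Fin n → ℤ) →+ (Fin n → ZMod (p ^ 2)) :=
    { toFun := fun v i => (v i : ZMod (p ^ 2))
      map_zero' := by ext i; simp
      map_add' := by intro v w; ext i; simp }
  obtain ⟨m, hm⟩ := hD.cof_group hQ ((AddMonoidHom.toMultiplicative c).comp (ex n))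
  refine ⟨m, fun h hh => ?_⟩
  apply trivAb_fin
  intro x i
  have h1 := hm _ (hh x)
  rw [map_mul, map_inv, mul_inv_eq_one] at h1
  have h2 := congrFun (congrArg Multiplicative.toAdd h1) i
  change ((Multiplicative.toAdd (ex n (h x)) i : ℤ) : ZMod (p ^ 2)) =
    ((Multiplicative.toAdd (ex n x) i : ℤ) : ZMod (p ^ 2)) at h2
  exact (ZMod.intCast_eq_intCast_iff_dvd_sub _ _ _).1 h2.symm

end

end Pool.Agent.H371.SE
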