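import Pool.Agent.H371.SE.M3
import Pool.Agent.H371.SE.M10
import Pool.Agent.H371.SE.M11
import Pool.Agent.H371.SE.M12
import Pool.Agent.H320.TF.Act

set_option autoImplicit false

namespace Pool.Agent.H371.SE

open Pool.Agent.H371.SB

/-- groups of automorphisms of free groups fixing a nondegenerate set -/
theorem GR.of_nd (p : ℕ) [Fact p.Prime] {n : ℕ} {G : Type} [Group G]
    (α : G →* MulAut (FreeGroup (Fin n))) (hα : Function.Injective α)
    (Z : Set (FreeGroup (Fin n))) (hZ : ND p (FreeGroup (Fin n)) Z)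
    (hα' : ∀ g, ∀ z ∈ Z, α g z = z) : GR p 1 G := by
  have hFG := fg_ab (eF n)
  obtain ⟨D, hD⟩ := exists_chain p n
  obtain ⟨k₀, hk₀⟩ := Chain.trivAb hD
  obtain ⟨k, hk⟩ := Chain.level hD Z hZ k₀
  obtain ⟨K, hK1, hK⟩ := Chain.mem_of hD k
  obtain ⟨B, i1, i2, i3, i4, ψ, hψ1, hψ2⟩ := exists_base p (FreeGroup (Fin n)) K
  obtain ⟨m₁, hm₁⟩ := hψ2 1
  obtain ⟨m₂, hm₂⟩ := hψ2 2
  have hp2 : 2 ≤ p := (Fact.out : p.Prime).two_le
  refine Pool.Agent.H320.TF.GR.of_noT (ψ.comp α) ?_ ?_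
  · -- the closure of the image has no element of order `p`
    intro t ht htp
    obtain ⟨g, a, hga⟩ := ht (max m₁ 2)
    obtain ⟨b, hb⟩ := Pool.Agent.H371.SA.Nx.pow_congr (p := p) (max m₁ 2) _ _ a hga p
    rw [htp] at hb
    obtain ⟨i, hi⟩ := Nat.exists_eq_add_of_le (le_max_left m₁ 2)
    obtain ⟨j, hj⟩ := Nat.exists_eq_add_of_le (le_max_right m₁ 2)
    have h1 : ∀ x, ((α g) ^ p) x * x⁻¹ ∈ D k := by
      intro x
      have h0 : ∃ b : B, (ψ ((α g) ^ p) : B) = 1 + (p : B) ^ m₁ * b := by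
        refine ⟨(p : B) ^ i * b, ?_⟩
        rw [map_pow, Units.val_pow_eq_pow_val, ← mul_assoc, ← pow_add, ← hi]
        exact hb
      obtain ⟨a', ha', b', hb', he⟩ := hm₁ ((α g) ^ p) h0 x
      refine hK x _ ⟨a', ha', b', hb', ?_⟩
      rw [he, pow_one]
    have h2 := hk (α g) (hα' g) h1
    obtain ⟨c, hc⟩ := hψ1 _ (hk₀ _ h2)
    have h3 : t = 1 + (p : B) ^ 2 * (c - (p : B) ^ j * a) := by
      have h4 : t = (ψ (α g) : B) - (p : B) ^ (max m₁ 2) * a := by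
        rw [eq_sub_iff_add_eq]
        exact hga.symm
      rw [h4, hc, mul_sub, ← mul_assoc, ← pow_add, ← hj, add_sub_assoc]
    refine Pool.Agent.H371.SA.torsion_free p B 2 ?_ t _ h3 p (by omega) htp
    nlinarith
  · intro g hg
    have h1 : ∃ x : FreeGroup (Fin n), α g x ≠ x := by
      by_contra hcon
      push Not at hcon
      apply hg
      apply hα
      rw [map_one]
      exact MulEquiv.ext hcon
    obtain ⟨x, hx⟩ := h1
    obtain ⟨K', hK'⟩ := dim_of_rtfn ℚ_[p] (FreeGroup (Fin n)) (free_rtfn n) (α g x * x⁻¹) (by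
      intro h
      exact hx (mul_inv_eq_one.1 h))
    obtain ⟨B', j1, j2, j3, j4, ψ', h2, h3⟩ := exists_rep p (FreeGroup (Fin n)) K'
    refine ⟨m₂, B', j1, j2, j3, j4, ψ'.comp α, ?_, ?_⟩
    · intro h hh
      exact h2 _ (trivAb_of_cong hK1 (α h) fun x => hm₂ (α h) hh x)
    · intro h
      apply hK'
      have h4 := aug_mul _ K' _ x⁻¹ (h3 _ h x)
      rw [sub_mul, ← map_mul, ← map_mul, mul_inv_cancel, map_one] at h4
      exact h4

theorem CR.of_nd {n : ℕ} {G : Type} [Group G]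
    (α : G →* MulAut (FreeGroup (Fin n))) (hα : Function.Injective α)
    (Z : Set (FreeGroup (Fin n))) (hZ : ∀ (p : ℕ) [Fact p.Prime], ND p (FreeGroup (Fin n)) Z)
    (hα' : ∀ g, ∀ z ∈ Z, α g z = z) : CR G 1 :=
  ⟨one_pos, fun p hp => ⟨1, GR.of_nd p α hα Z (hZ p) hα', 1,
    fun h => hp.out.one_lt.ne' (Nat.dvd_one.1 h), by simp⟩⟩

end Pool.Agent.H371.SE
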