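import Pool.Agent.H371.SE.Defs

set_option autoImplicit false

namespace Pool.Agent.H371.SE

/-- commutators -/
def cmt {F : Type} [Group F] (x y : F) : F := x * y * x⁻¹ * y⁻¹

/-- the boundary of the surface of genus `g` with one boundary component -/
def surf (g : ℕ) : FreeGroup (Fin (2 * g)) :=
  (List.ofFn fun i : Fin g => cmt (FreeGroup.of (⟨2 * i, by omega⟩ : Fin (2 * g)))
    (FreeGroup.of (⟨2 * i + 1, by omega⟩ : Fin (2 * g)))).prod

/-- products of elements `[[x, y], w]` of the third term of the lower central series -/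
def G3 (F : Type) [Group F] : Subgroup F :=
  Subgroup.closure {c | ∃ x y w : F, c = cmt (cmt x y) w}

namespace M14x

/-- the Heisenberg group over a ring -/
@[ext]
structure Heis (R : Type) where
  /-- first coordinate -/
  a : R
  /-- second coordinate -/
  b : R
  /-- third coordinate -/
  c : R

instance heisGroup (R : Type) [CommRing R] : Group (Heis R) where
  mul x y := ⟨x.a + y.a, x.b + y.b, x.c + y.c + x.a * y.b⟩
  one := ⟨0, 0, 0⟩
  inv x := ⟨-x.a, -x.b, -x.c + x.a * x.b⟩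
  mul_assoc x y z := by
    apply Heis.ext
    · show x.a + y.a + z.a = x.a + (y.a + z.a)
      ring
    · show x.b + y.b + z.b = x.b + (y.b + z.b)
      ring
    · show (x.c + y.c + x.a * y.b) + z.c + (x.a + y.a) * z.b
        = x.c + (y.c + z.c + y.a * z.b) + x.a * (y.b + z.b)
      ring
  one_mul x := by
    apply Heis.ext
    · show 0 + x.a = x.a
      ring
    · show 0 + x.b = x.b
      ring
    · show 0 + x.c + 0 * x.b = x.c
      ring
  mul_one x := by
    apply Heis.ext
    · show x.a + 0 = x.a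
      ring
    · show x.b + 0 = x.b
      ring
    · show x.c + 0 + x.a * 0 = x.c
      ring
  inv_mul_cancel x := by
    apply Heis.ext
    · show -x.a + x.a = 0
      ring
    · show -x.b + x.b = 0
      ring
    · show (-x.c + x.a * x.b) + x.c + (-x.a) * x.b = 0
      ring

theorem heis_mul_a {R : Type} [CommRing R] (x y : Heis R) : (x * y).a = x.a + y.a := rfl
theorem heis_mul_b {R : Type} [CommRing R] (x y : Heis R) : (x * y).b = x.b + y.b := rfl
theorem heis_mul_c {R : Type} [CommRing R] (x y : Heis R) :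
    (x * y).c = x.c + y.c + x.a * y.b := rfl
theorem heis_one_a {R : Type} [CommRing R] : (1 : Heis R).a = 0 := rfl
theorem heis_one_b {R : Type} [CommRing R] : (1 : Heis R).b = 0 := rfl
theorem heis_one_c {R : Type} [CommRing R] : (1 : Heis R).c = 0 := rfl
theorem heis_inv_a {R : Type} [CommRing R] (x : Heis R) : (x⁻¹).a = -x.a := rfl
theorem heis_inv_b {R : Type} [CommRing R] (x : Heis R) : (x⁻¹).b = -x.b := rfl

section additive
variable {F R : Type} [Group F] [CommRing R]

theorem add_one {ψ : F → R} (h : ∀ x y, ψ (x * y) = ψ x + ψ y) : ψ 1 = 0 := by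
  have h1 := h 1 1
  rw [mul_one] at h1
  have h2 : ψ 1 + ψ 1 = ψ 1 + 0 := by rw [add_zero]; exact h1.symm
  exact add_left_cancel h2

theorem add_inv {ψ : F → R} (h : ∀ x y, ψ (x * y) = ψ x + ψ y) (x : F) : ψ x⁻¹ = -ψ x := by
  have h1 := h x x⁻¹
  rw [mul_inv_cancel, add_one h] at h1
  exact (neg_eq_of_add_eq_zero_right h1.symm).symm

theorem add_cmt {ψ : F → R} (h : ∀ x y, ψ (x * y) = ψ x + ψ y) (x y : F) :
    ψ (cmt x y) = 0 := by
  unfold cmt
  rw [h, h, h, add_inv h, add_inv h]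
  ring

theorem add_list {ψ : F → R} (h : ∀ x y, ψ (x * y) = ψ x + ψ y) (L : List F)
    (hL : ∀ x ∈ L, ψ x = 0) : ψ L.prod = 0 := by
  induction L with
  | nil => simpa using add_one h
  | cons a L ih =>
    rw [List.prod_cons, h, hL a List.mem_cons_self,
      ih (fun x hx => hL x (List.mem_cons_of_mem a hx)), add_zero]

theorem add_G3 {ψ : F → R} (h : ∀ x y, ψ (x * y) = ψ x + ψ y) (c : F) (hc : c ∈ G3 F) :
    ψ c = 0 := by
  unfold G3 at hc
  induction hc using Subgroup.closure_induction with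
  | mem x hx =>
    obtain ⟨a, b, w, rfl⟩ := hx
    exact add_cmt h _ _
  | one => exact add_one h
  | mul x y _ _ hx hy => rw [h, hx, hy, add_zero]
  | inv x _ hx => rw [add_inv h, hx, neg_zero]

/-- `γ` is a primitive of the cup product of `χ` and `ψ` -/
structure Prim (χ ψ γ : F → R) : Prop where
  hχ : ∀ x y, χ (x * y) = χ x + χ y
  hψ : ∀ x y, ψ (x * y) = ψ x + ψ y
  hγ : ∀ x y, γ (x * y) = γ x + γ y + χ x * ψ y

theorem Prim.one {χ ψ γ : F → R} (h : Prim χ ψ γ) : γ 1 = 0 := by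
  have h1 := h.hγ 1 1
  rw [mul_one, add_one h.hχ, zero_mul, add_zero] at h1
  have h2 : γ 1 + γ 1 = γ 1 + 0 := by rw [add_zero]; exact h1.symm
  exact add_left_cancel h2

theorem Prim.inv {χ ψ γ : F → R} (h : Prim χ ψ γ) (x : F) : γ x⁻¹ = -γ x + χ x * ψ x := by
  have h1 := h.hγ x x⁻¹
  rw [mul_inv_cancel, h.one, add_inv h.hψ] at h1
  linear_combination -h1

theorem Prim.cmt {χ ψ γ : F → R} (h : Prim χ ψ γ) (x y : F) :
    γ (SE.cmt x y) = χ x * ψ y - χ y * ψ x := by
  unfold SE.cmt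
  rw [h.hγ, h.hγ, h.hγ]
  simp only [h.hχ, h.inv, add_inv h.hψ, add_inv h.hχ]
  ring

theorem Prim.G3 {χ ψ γ : F → R} (h : Prim χ ψ γ) (c : F) (hc : c ∈ SE.G3 F) : γ c = 0 := by
  have key : χ c = 0 ∧ γ c = 0 := by
    unfold SE.G3 at hc
    induction hc using Subgroup.closure_induction with
    | mem x hx =>
      obtain ⟨a, b, w, rfl⟩ := hx
      refine ⟨add_cmt h.hχ _ _, ?_⟩
      rw [h.cmt, add_cmt h.hχ, add_cmt h.hψ, zero_mul, mul_zero, sub_zero]
    | one => exact ⟨add_one h.hχ, h.one⟩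
    | mul x y _ _ hx hy =>
      exact ⟨by rw [h.hχ, hx.1, hy.1, add_zero],
        by rw [h.hγ, hx.1, hx.2, hy.2, zero_mul, add_zero, add_zero]⟩
    | inv x _ hx =>
      exact ⟨by rw [add_inv h.hχ, hx.1, neg_zero],
        by rw [h.inv, hx.1, hx.2, neg_zero, zero_mul, add_zero]⟩
  exact key.2

theorem Prim.list {χ ψ γ : F → R} (h : Prim χ ψ γ) (L : List F) (hL : ∀ x ∈ L, χ x = 0) :
    γ L.prod = (L.map γ).sum := by
  induction L with
  | nil => simpa using h.one
  | cons a L ih =>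
    rw [List.prod_cons, h.hγ, hL a List.mem_cons_self, zero_mul, add_zero, List.map_cons,
      List.sum_cons, ih (fun x hx => hL x (List.mem_cons_of_mem a hx))]

end additive

/-- existence of the primitive on a free group -/
theorem exists_prim {R : Type} [CommRing R] {I : Type} (χ ψ : FreeGroup I → R)
    (hχ : ∀ x y, χ (x * y) = χ x + χ y) (hψ : ∀ x y, ψ (x * y) = ψ x + ψ y) :
    ∃ γ : FreeGroup I → R, Prim χ ψ γ := by
  let φ : FreeGroup I →* Heis R :=
    FreeGroup.lift (fun i => (⟨χ (FreeGroup.of i), ψ (FreeGroup.of i), 0⟩ : Heis R))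
  have hof : ∀ i, φ (FreeGroup.of i) = ⟨χ (FreeGroup.of i), ψ (FreeGroup.of i), 0⟩ := fun i =>
    FreeGroup.lift_apply_of
  have ha : ∀ x, (φ x).a = χ x := by
    intro x
    induction x using FreeGroup.induction_on with
    | C1 => rw [map_one, heis_one_a, add_one hχ]
    | of i =>
      rw [hof]
    | inv_of i hi =>
      rw [map_inv, heis_inv_a, hi, add_inv hχ]
    | mul x y hx hy => rw [map_mul, heis_mul_a, hx, hy, hχ]
  have hb : ∀ x, (φ x).b = ψ x := by
    intro x
    induction x using FreeGroup.induction_on with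
    | C1 => rw [map_one, heis_one_b, add_one hψ]
    | of i =>
      rw [hof]
    | inv_of i hi =>
      rw [map_inv, heis_inv_b, hi, add_inv hψ]
    | mul x y hx hy => rw [map_mul, heis_mul_b, hx, hy, hψ]
  refine ⟨fun x => (φ x).c, hχ, hψ, ?_⟩
  intro x y
  show (φ (x * y)).c = (φ x).c + (φ y).c + χ x * ψ y
  rw [map_mul, heis_mul_c, ha, hb]

/-- an additive function with prescribed values on the generators -/
theorem exists_add {R : Type} [CommRing R] {I : Type} (f : I → R) :
    ∃ ψ : FreeGroup I → R, (∀ x y, ψ (x * y) = ψ x + ψ y) ∧ ∀ i, ψ (FreeGroup.of i) = f i := by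
  let φ : FreeGroup I →* Multiplicative R :=
    FreeGroup.lift (fun i => Multiplicative.ofAdd (f i))
  refine ⟨fun x => Multiplicative.toAdd (φ x), ?_, ?_⟩
  · intro x y
    show Multiplicative.toAdd (φ (x * y)) = _
    rw [map_mul, toAdd_mul]
  · intro i
    show Multiplicative.toAdd (φ (FreeGroup.of i)) = f i
    have h : φ (FreeGroup.of i) = Multiplicative.ofAdd (f i) := FreeGroup.lift_apply_of
    rw [h, toAdd_ofAdd]

theorem exists_gen {R : Type} [CommRing R] {I : Type} (χ : FreeGroup I → R)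
    (hχ : ∀ x y, χ (x * y) = χ x + χ y) (hne : ∃ x, χ x ≠ 0) :
    ∃ i, χ (FreeGroup.of i) ≠ 0 := by
  by_contra hcon
  push Not at hcon
  obtain ⟨x, hx⟩ := hne
  apply hx
  clear hx
  induction x using FreeGroup.induction_on with
  | C1 => exact add_one hχ
  | of i => exact hcon i
  | inv_of i hi => rw [add_inv hχ, hi, neg_zero]
  | mul x y hx hy => rw [hχ, hx, hy, add_zero]

theorem prim_surf {R : Type} [CommRing R] (g : ℕ) {χ ψ γ : FreeGroup (Fin (2 * g)) → R}
    (h : Prim χ ψ γ) :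
    γ (surf g) = ∑ i : Fin g,
      (χ (FreeGroup.of (⟨2 * i, by omega⟩ : Fin (2 * g))) *
        ψ (FreeGroup.of (⟨2 * i + 1, by omega⟩ : Fin (2 * g))) -
      χ (FreeGroup.of (⟨2 * i + 1, by omega⟩ : Fin (2 * g))) *
        ψ (FreeGroup.of (⟨2 * i, by omega⟩ : Fin (2 * g)))) := by
  unfold surf
  rw [h.list]
  · rw [List.map_ofFn, List.sum_ofFn]
    refine Finset.sum_congr rfl fun i _ => ?_
    exact h.cmt _ _
  · intro x hx
    rw [List.mem_ofFn] at hx
    obtain ⟨i, rfl⟩ := hx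
    exact add_cmt h.hχ _ _

end M14x

theorem nd_surf (p : ℕ) [Fact p.Prime] (g : ℕ) (z : FreeGroup (Fin (2 * g)))
    (hz : z * (surf g)⁻¹ ∈ G3 (FreeGroup (Fin (2 * g)))) :
    ND p (FreeGroup (Fin (2 * g))) {z} := by
  have hzz : z = (z * (surf g)⁻¹) * surf g := by group
  refine ⟨?_, ?_⟩
  · intro z' hz' ψ hψ
    rw [Set.mem_singleton_iff] at hz'
    subst hz'
    rw [hzz, hψ, M14x.add_G3 hψ _ hz, zero_add]
    unfold surf
    refine M14x.add_list hψ _ ?_
    intro x hx
    rw [List.mem_ofFn] at hx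
    obtain ⟨i, rfl⟩ := hx
    exact M14x.add_cmt hψ _ _
  · intro χ hχ hne
    refine ⟨z, Set.mem_singleton z, ?_⟩
    obtain ⟨j, hj⟩ := M14x.exists_gen χ hχ hne
    have hval : ∀ {ψ γ : FreeGroup (Fin (2 * g)) → ZMod p}, M14x.Prim χ ψ γ →
        γ z = γ (surf g) := by
      intro ψ γ h
      rw [hzz, h.hγ, h.G3 _ hz, M14x.add_G3 hχ _ hz, zero_add, zero_mul, add_zero]
    rcases Nat.even_or_odd' (j : ℕ) with ⟨i, hi | hi⟩
    · have hig : i < g := by have := j.2; omega
      obtain ⟨ψ, hψ, hψi⟩ := M14x.exists_add (R := ZMod p)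
        (fun k : Fin (2 * g) => if (k : ℕ) = 2 * i + 1 then 1 else 0)
      obtain ⟨γ, h⟩ := M14x.exists_prim χ ψ hχ hψ
      refine ⟨ψ, γ, hψ, h.hγ, ?_⟩
      rw [hval h, M14x.prim_surf g h, Finset.sum_eq_single (⟨i, hig⟩ : Fin g)]
      · rw [hψi, hψi]
        have e1 : (⟨2 * ((⟨i, hig⟩ : Fin g) : ℕ), by omega⟩ : Fin (2 * g)) = j := by
          apply Fin.ext
          exact hi.symm
        have c1 : ((⟨2 * ((⟨i, hig⟩ : Fin g) : ℕ) + 1, by
          show 2 * i + 1 < 2 * g
          omega⟩ : Fin (2 * g)) : ℕ) = 2 * i + 1 := rfl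
        have c2 : ¬ ((⟨2 * ((⟨i, hig⟩ : Fin g) : ℕ), by
          show 2 * i < 2 * g
          omega⟩ : Fin (2 * g)) : ℕ) = 2 * i + 1 := by
          show ¬ (2 * i = 2 * i + 1)
          omega
        rw [if_pos c1, if_neg c2, mul_one, mul_zero, sub_zero, e1]
        exact hj
      · intro b _ hb
        have hb' : (b : ℕ) ≠ i := fun he => hb (Fin.ext he)
        rw [hψi, hψi]
        have c1 : ¬ (2 * (b : ℕ) + 1 = 2 * i + 1) := by omega
        have c2 : ¬ (2 * (b : ℕ) = 2 * i + 1) := by omega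
        show _ * (if 2 * (b : ℕ) + 1 = 2 * i + 1 then (1 : ZMod p) else 0)
          - _ * (if 2 * (b : ℕ) = 2 * i + 1 then (1 : ZMod p) else 0) = 0
        rw [if_neg c1, if_neg c2, mul_zero, mul_zero, sub_zero]
      · intro hn
        exact absurd (Finset.mem_univ _) hn
    · have hig : i < g := by have := j.2; omega
      obtain ⟨ψ, hψ, hψi⟩ := M14x.exists_add (R := ZMod p)
        (fun k : Fin (2 * g) => if (k : ℕ) = 2 * i then 1 else 0)
      obtain ⟨γ, h⟩ := M14x.exists_prim χ ψ hχ hψ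
      refine ⟨ψ, γ, hψ, h.hγ, ?_⟩
      rw [hval h, M14x.prim_surf g h, Finset.sum_eq_single (⟨i, hig⟩ : Fin g)]
      · rw [hψi, hψi]
        have e1 : (⟨2 * ((⟨i, hig⟩ : Fin g) : ℕ) + 1, by
          show 2 * i + 1 < 2 * g
          omega⟩ : Fin (2 * g)) = j := by
          apply Fin.ext
          exact hi.symm
        have c1 : ¬ ((⟨2 * ((⟨i, hig⟩ : Fin g) : ℕ) + 1, by
          show 2 * i + 1 < 2 * g
          omega⟩ : Fin (2 * g)) : ℕ) = 2 * i := by
          show ¬ (2 * i + 1 = 2 * i)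
          omega
        have c2 : ((⟨2 * ((⟨i, hig⟩ : Fin g) : ℕ), by
          show 2 * i < 2 * g
          omega⟩ : Fin (2 * g)) : ℕ) = 2 * i := rfl
        rw [if_neg c1, if_pos c2, mul_one, mul_zero, zero_sub, e1]
        exact neg_ne_zero.2 hj
      · intro b _ hb
        have hb' : (b : ℕ) ≠ i := fun he => hb (Fin.ext he)
        rw [hψi, hψi]
        have c1 : ¬ (2 * (b : ℕ) + 1 = 2 * i) := by omega
        have c2 : ¬ (2 * (b : ℕ) = 2 * i) := by omega
        show _ * (if 2 * (b : ℕ) + 1 = 2 * i then (1 : ZMod p) else 0)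
          - _ * (if 2 * (b : ℕ) = 2 * i then (1 : ZMod p) else 0) = 0
        rw [if_neg c1, if_neg c2, mul_zero, mul_zero, sub_zero]
      · intro hn
        exact absurd (Finset.mem_univ _) hn

end Pool.Agent.H371.SE
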