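import Mathlib

/-!
Definitions for the part on automorphisms of order `p` of free pro-`p` groups.
-/

set_option autoImplicit false

namespace Pool.Agent.H371.SE

section basic
variable {Γ : Type} [Group Γ]

/-- additive on `U` -/
def AddOn (U : Subgroup Γ) {M : Type} [AddCommGroup M] (f : Γ → M) : Prop :=
  ∀ x ∈ U, ∀ y ∈ U, f (x * y) = f x + f y

/-- `U` is invariant under `t` -/
def Inv (t : MulAut Γ) (U : Subgroup Γ) : Prop := ∀ x ∈ U, t x ∈ U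

/-- the product `c * t c * t² c * ⋯` of `p` factors -/
def nm (t : MulAut Γ) (p : ℕ) (c : Γ) : Γ := ((List.range p).map fun i => (t ^ i) c).prod

/-- crossed homomorphisms of the cyclic group generated by `t` to `U` -/
def Z1 (p : ℕ) (t : MulAut Γ) (U : Subgroup Γ) (c : Γ) : Prop := c ∈ U ∧ nm t p c = 1

/-- the norm of a function -/
def Nf {M : Type} [AddCommGroup M] (p : ℕ) (t : MulAut Γ) (f : Γ → M) (x : Γ) : M :=
  ∑ i ∈ Finset.range p, f ((t ^ i) x)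

/-- right invariant under `U` -/
def RI (U : Subgroup Γ) {M : Type} (F : Γ → M) : Prop := ∀ x, ∀ u ∈ U, F (x * u) = F x

/-- sum over the left cosets of `U` -/
noncomputable def csum (U : Subgroup Γ) {M : Type} [AddCommMonoid M] (F : Γ → M) : M :=
  ∑ᶠ q : Γ ⧸ U, F q.out

end basic

section top
variable {Γ : Type} [Group Γ] [TopologicalSpace Γ]

/-- locally constant on `U` -/
def LC (U : Subgroup Γ) {M : Type} (f : Γ → M) : Prop :=
  ∃ W : Subgroup Γ, IsOpen (W : Set Γ) ∧ ∀ x ∈ U, ∀ w ∈ U, w ∈ W → f (x * w) = f x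

/-- `p`-adically continuous on `U` -/
def CZ (p : ℕ) [Fact p.Prime] (U : Subgroup Γ) (f : Γ → ℤ_[p]) : Prop :=
  ∀ k : ℕ, ∃ W : Subgroup Γ, IsOpen (W : Set Γ) ∧
    ∀ x ∈ U, ∀ w ∈ U, w ∈ W → (p : ℤ_[p]) ^ k ∣ f (x * w) - f x

/-- continuous homomorphisms from `U` to the `p`-adic integers -/
def HZ (p : ℕ) [Fact p.Prime] (U : Subgroup Γ) (f : Γ → ℤ_[p]) : Prop := AddOn U f ∧ CZ p U f

/-- continuous `t`-invariant homomorphisms from `U` to `ZMod p` -/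
def X (p : ℕ) (t : MulAut Γ) (U : Subgroup Γ) (l : Γ → ZMod p) : Prop :=
  AddOn U l ∧ LC U l ∧ ∀ x ∈ U, l (t x) = l x

/-- continuous homomorphisms from `U` to the `p`-adic integers with norm `0` which are
`t`-invariant modulo `p` -/
def Wf (p : ℕ) [Fact p.Prime] (t : MulAut Γ) (U : Subgroup Γ) (w : Γ → ℤ_[p]) : Prop :=
  HZ p U w ∧ (∀ x ∈ U, Nf p t w x = 0) ∧ ∀ x ∈ U, (p : ℤ_[p]) ∣ w (t x) - w x

/-- The properties of free pro-`p` groups which are used: `1` has arbitrarily small open normal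
subgroups; locally constant 2-cocycles on open subgroups with values in `ZMod p` are coboundaries;
the points are separated by continuous unitriangular representations over `ℤ_[p]`. -/
structure Good (p : ℕ) [Fact p.Prime] (Γ : Type) [Group Γ] [TopologicalSpace Γ] : Prop where
  basis : ∀ S : Set Γ, IsOpen S → (1 : Γ) ∈ S →
    ∃ W : Subgroup Γ, W.Normal ∧ IsOpen (W : Set Γ) ∧ (W : Set Γ) ⊆ S
  cd : ∀ U : Subgroup Γ, IsOpen (U : Set Γ) → ∀ C : Γ → Γ → ZMod p,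
    (∀ x ∈ U, ∀ y ∈ U, ∀ z ∈ U, C x y + C (x * y) z = C y z + C x (y * z)) →
    (∃ W : Subgroup Γ, IsOpen (W : Set Γ) ∧
      ∀ x ∈ U, ∀ y ∈ U, ∀ w ∈ U, ∀ w' ∈ U, w ∈ W → w' ∈ W → C (x * w) (y * w') = C x y) →
    ∃ g : Γ → ZMod p, LC U g ∧ ∀ x ∈ U, ∀ y ∈ U, g (x * y) = g x + g y + C x y
  sep : ∀ x : Γ, x ≠ 1 → ∃ (N : ℕ) (ρ : Γ →* Matrix (Fin N) (Fin N) ℤ_[p]),
    (∀ y i j, j < i → ρ y i j = 0) ∧ (∀ y i, ρ y i i = 1) ∧
    (∀ i j, CZ p (⊤ : Subgroup Γ) (fun y => ρ y i j)) ∧ ρ x ≠ 1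

end top

section model

/-- A chain of subgroups defining the pro-`p` topology of a free group. -/
structure Chain (p : ℕ) [Fact p.Prime] (n : ℕ) (D : ℕ → Subgroup (FreeGroup (Fin n))) : Prop where
  anti : Antitone D
  normal : ∀ k, (D k).Normal
  char : ∀ k (h : MulAut (FreeGroup (Fin n))) (x : FreeGroup (Fin n)), x ∈ D k → h x ∈ D k
  fin : ∀ k, (D k).FiniteIndex
  cof : ∀ k (h : FreeGroup (Fin n) → ZMod p),
    (∀ x ∈ D k, ∀ y ∈ D k, h (x * y) = h x + h y) → ∃ m, k ≤ m ∧ ∀ x ∈ D m, h x = 0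
  sep : ∀ k, ∃ (N : ℕ) (ρ : FreeGroup (Fin n) →* Matrix (Fin N) (Fin N) ℤ_[p]),
    (∀ y i j, j < i → ρ y i j = 0) ∧ (∀ y i, ρ y i i = 1) ∧
    ∀ y, (∀ i j, (p : ℤ_[p]) ∣ ρ y i j - (1 : Matrix (Fin N) (Fin N) ℤ_[p]) i j) → y ∈ D k

/-- `Γ` is the completion of the free group with respect to the chain `D`; `E k` is the kernel of
the projection to the quotient by `D k`. -/
structure Model {n : ℕ} (D : ℕ → Subgroup (FreeGroup (Fin n))) (Γ : Type) [Group Γ]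
    [TopologicalSpace Γ] (ι : FreeGroup (Fin n) →* Γ) (E : ℕ → Subgroup Γ) : Prop where
  anti : Antitone E
  normal : ∀ k, (E k).Normal
  isOpen : ∀ k, IsOpen (E k : Set Γ)
  mem_iff : ∀ k x, ι x ∈ E k ↔ x ∈ D k
  dense : ∀ k (x : Γ), ∃ f : FreeGroup (Fin n), x⁻¹ * ι f ∈ E k
  basis : ∀ S : Set Γ, IsOpen S → (1 : Γ) ∈ S → ∃ k, (E k : Set Γ) ⊆ S
  sep : ∀ x : Γ, (∀ k, x ∈ E k) → x = 1
  complete : ∀ f : ℕ → FreeGroup (Fin n), (∀ k, (f k)⁻¹ * f (k + 1) ∈ D k) →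
    ∃ x : Γ, ∀ k, x⁻¹ * ι (f k) ∈ E k

/-- The elements of `Z` are killed by all homomorphisms to `ZMod p`, and the cup product pairing
with a nontrivial homomorphism does not vanish on all of them. -/
def ND (p : ℕ) (F : Type) [Group F] (Z : Set F) : Prop :=
  (∀ z ∈ Z, ∀ ψ : F → ZMod p, (∀ x y, ψ (x * y) = ψ x + ψ y) → ψ z = 0) ∧
  ∀ χ : F → ZMod p, (∀ x y, χ (x * y) = χ x + χ y) → (∃ x, χ x ≠ 0) →
    ∃ z ∈ Z, ∃ ψ γ : F → ZMod p, (∀ x y, ψ (x * y) = ψ x + ψ y) ∧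
      (∀ x y, γ (x * y) = γ x + γ y + χ x * ψ y) ∧ γ z ≠ 0

end model

end Pool.Agent.H371.SE
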