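import Pool.Agent.H371.SE.Defs

set_option autoImplicit false

namespace Pool.Agent.H371.SE

namespace M5x

/-- pairs, the underlying type of the central extension -/
structure Ext (V M : Type) where
  /-- first component -/
  fst : V
  /-- second component -/
  snd : M

theorem Ext.ext' {V M : Type} {a b : Ext V M} (h1 : a.fst = b.fst) (h2 : a.snd = b.snd) :
    a = b := by
  cases a
  cases b
  simp only at h1 h2
  rw [h1, h2]

/-- the central extension -/
@[reducible] def grp {V : Type} [Group V] {M : Type} [AddCommGroup M] (C : V → V → M)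
    (hC : ∀ x y z, C x y + C (x * y) z = C y z + C x (y * z)) : Group (Ext V M) :=
  letI : Mul (Ext V M) := ⟨fun a b => ⟨a.fst * b.fst, a.snd + b.snd + C a.fst b.fst⟩⟩
  letI : One (Ext V M) := ⟨⟨1, -C 1 1⟩⟩
  letI : _root_.Inv (Ext V M) := ⟨fun a => ⟨a.fst⁻¹, -a.snd - C a.fst⁻¹ a.fst - C 1 1⟩⟩
  Group.ofLeftAxioms
    (by
      intro a b c
      refine Ext.ext' (mul_assoc _ _ _) ?_
      show a.snd + b.snd + C a.fst b.fst + c.snd + C (a.fst * b.fst) c.fst =
        a.snd + (b.snd + c.snd + C b.fst c.fst) + C a.fst (b.fst * c.fst)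
      have h := hC a.fst b.fst c.fst
      have e1 : a.snd + b.snd + C a.fst b.fst + c.snd + C (a.fst * b.fst) c.fst =
        a.snd + b.snd + c.snd + (C a.fst b.fst + C (a.fst * b.fst) c.fst) := by abel
      rw [e1, h]
      abel)
    (by
      intro a
      refine Ext.ext' (one_mul _) ?_
      show -C 1 1 + a.snd + C 1 a.fst = a.snd
      have h := hC 1 1 a.fst
      rw [one_mul, one_mul, add_left_inj] at h
      rw [h]
      abel)
    (by
      intro a
      refine Ext.ext' (inv_mul_cancel _) ?_
      show -a.snd - C a.fst⁻¹ a.fst - C 1 1 + a.snd + C a.fst⁻¹ a.fst = -C 1 1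
      abel)

end M5x

open M5x in
/-- 2-cocycles of free groups with trivial action are coboundaries -/
theorem free_coboundary {V : Type} [Group V] [IsFreeGroup V] {M : Type} [AddCommGroup M]
    (C : V → V → M) (hC : ∀ x y z, C x y + C (x * y) z = C y z + C x (y * z)) :
    ∃ g : V → M, ∀ x y, g (x * y) = g x + g y + C x y := by
  let _ : Group (Ext V M) := grp C hC
  let π : Ext V M →* V :=
    { toFun := fun a => a.fst
      map_one' := rfl
      map_mul' := fun _ _ => rfl }
  let s : V →* Ext V M := IsFreeGroup.lift fun v => ⟨IsFreeGroup.of v, 0⟩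
  have h1 : π.comp s = MonoidHom.id V := by
    refine IsFreeGroup.ext_hom fun a => ?_
    show (s (IsFreeGroup.of a)).fst = IsFreeGroup.of a
    have : s (IsFreeGroup.of a) = ⟨IsFreeGroup.of a, 0⟩ := IsFreeGroup.lift_of _ _
    rw [this]
  have h2 : ∀ x, (s x).fst = x := fun x => DFunLike.congr_fun h1 x
  refine ⟨fun x => (s x).snd, fun x y => ?_⟩
  have h3 : s (x * y) = s x * s y := map_mul s x y
  have h4 : (s x * s y).snd = (s x).snd + (s y).snd + C (s x).fst (s y).fst := rfl
  show (s (x * y)).snd = _
  rw [h3, h4, h2, h2]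

end Pool.Agent.H371.SE
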