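import Pool.Agent.H371.SE.A0

set_option autoImplicit false
set_option linter.unusedSectionVars false

namespace Pool.Agent.H371.SE

namespace A11x

/-- a sum over a stable finset without fixed points vanishes -/
theorem sum_zero {S R : Type} [DecidableEq S] [CommRing R] {p : ℕ} (hp : p.Prime) (σ : S → S)
    (hσ : ∀ q, σ^[p] q = q) (A B : S → R) (hA : ∀ q, A (σ q) = A q)
    (hB : ∀ q, ∑ i ∈ Finset.range p, B (σ^[i] q) = 0) :
    ∀ (n : ℕ) (T : Finset S), T.card ≤ n → (∀ q ∈ T, σ q ∈ T) → (∀ q ∈ T, σ q ≠ q) →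
      ∑ q ∈ T, A q * B q = 0 := by
  intro n
  induction n with
  | zero =>
    intro T hT _ _
    have : T = ∅ := Finset.card_eq_zero.1 (Nat.le_zero.1 hT)
    rw [this, Finset.sum_empty]
  | succ n ih =>
    intro T hT hst hfix
    rcases T.eq_empty_or_nonempty with hE | ⟨q, hq⟩
    · rw [hE, Finset.sum_empty]
    have hper : ∀ q, Function.IsPeriodicPt σ p q := fun q => hσ q
    have hmin : Function.minimalPeriod σ q = p := by
      have hd : Function.minimalPeriod σ q ∣ p := (hper q).minimalPeriod_dvd
      rcases (Nat.dvd_prime hp).1 hd with h | h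
      · exact absurd (Function.minimalPeriod_eq_one_iff_isFixedPt.1 h) (hfix q hq)
      · exact h
    have hinj : Set.InjOn (fun i => σ^[i] q) (Finset.range p : Set ℕ) := by
      have h := Function.iterate_injOn_Iio_minimalPeriod (f := σ) (x := q)
      rw [hmin] at h
      intro i hi j hj hij
      have hi' : i < p := Finset.mem_range.1 (Finset.mem_coe.1 hi)
      have hj' : j < p := Finset.mem_range.1 (Finset.mem_coe.1 hj)
      exact h hi' hj' hij
    have hitT : ∀ i, σ^[i] q ∈ T := by
      intro i
      induction i with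
      | zero => exact hq
      | succ i ih' =>
        rw [Function.iterate_succ_apply']
        exact hst _ ih'
    have hAit : ∀ i, A (σ^[i] q) = A q := by
      intro i
      induction i with
      | zero => rfl
      | succ i ih' =>
        rw [Function.iterate_succ_apply', hA, ih']
    set O : Finset S := (Finset.range p).image (fun i => σ^[i] q) with hO
    have hOT : O ⊆ T := by
      intro y hy
      obtain ⟨i, -, rfl⟩ := Finset.mem_image.1 hy
      exact hitT i
    have hOall : ∀ i, σ^[i] q ∈ O := by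
      intro i
      rw [← (hper q).iterate_mod_apply i]
      exact Finset.mem_image.2 ⟨i % p, Finset.mem_range.2 (Nat.mod_lt _ hp.pos), rfl⟩
    have hsumO : ∑ y ∈ O, A y * B y = 0 := by
      rw [hO, Finset.sum_image hinj]
      have : ∑ i ∈ Finset.range p, A (σ^[i] q) * B (σ^[i] q) =
          A q * ∑ i ∈ Finset.range p, B (σ^[i] q) := by
        rw [Finset.mul_sum]
        exact Finset.sum_congr rfl fun i _ => by rw [hAit]
      rw [this, hB, mul_zero]
    have hrest : ∑ y ∈ T \ O, A y * B y = 0 := by
      apply ih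
      · have h1 : (T \ O).card < T.card := by
          apply Finset.card_lt_card
          refine Finset.ssubset_iff_subset_ne.2 ⟨Finset.sdiff_subset, fun h => ?_⟩
          have h2 : q ∈ T \ O := by rw [h]; exact hq
          exact (Finset.mem_sdiff.1 h2).2 (hOall 0)
        omega
      · intro y hy
        obtain ⟨hy1, hy2⟩ := Finset.mem_sdiff.1 hy
        refine Finset.mem_sdiff.2 ⟨hst y hy1, fun h => hy2 ?_⟩
        obtain ⟨i, -, hi⟩ := Finset.mem_image.1 h
        have h3 : y = σ^[p - 1 + i] q := by
          have h4 : σ^[p - 1] (σ y) = y := by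
            rw [← Function.iterate_succ_apply, Nat.succ_eq_add_one, Nat.sub_add_cancel hp.pos]
            exact hσ y
          rw [Function.iterate_add_apply]
          have hi' : σ^[i] q = σ y := hi
          rw [hi', h4]
        rw [h3]
        exact hOall _
      · intro y hy
        exact hfix y (Finset.mem_sdiff.1 hy).1
    rw [← Finset.sum_sdiff hOT, hrest, hsumO, add_zero]

section
variable {p : ℕ} {Γ : Type} [Group Γ] {t : MulAut Γ} {U : Subgroup Γ}

theorem RI_out {M : Type} {F : Γ → M} (hF : RI U F) (x : Γ) :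
    F ((QuotientGroup.mk x : Γ ⧸ U).out) = F x := by
  obtain ⟨h, hh⟩ := QuotientGroup.mk_out_eq_mul U x
  rw [hh]
  exact hF x h h.2

/-- the map induced on the cosets -/
noncomputable def tq (t : MulAut Γ) (U : Subgroup Γ) (q : Γ ⧸ U) : Γ ⧸ U :=
  QuotientGroup.mk (t q.out)

theorem tq_mk (hUt : Inv t U) (x : Γ) :
    tq t U (QuotientGroup.mk x) = QuotientGroup.mk (t x) := by
  obtain ⟨h, hh⟩ := QuotientGroup.mk_out_eq_mul U x
  rw [tq, hh, map_mul]
  exact QuotientGroup.mk_mul_of_mem _ (hUt h h.2)

theorem tq_iterate (hUt : Inv t U) (x : Γ) (i : ℕ) :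
    (tq t U)^[i] (QuotientGroup.mk x) = QuotientGroup.mk ((t ^ i) x) := by
  induction i with
  | zero => simp
  | succ i ih => rw [Function.iterate_succ_apply', ih, tq_mk hUt, pow_succ', MulAut.mul_apply]

theorem tq_p (htp : t ^ p = 1) (hUt : Inv t U) (q : Γ ⧸ U) : (tq t U)^[p] q = q := by
  obtain ⟨x, rfl⟩ := QuotientGroup.mk_surjective q
  rw [tq_iterate hUt, htp, MulAut.one_apply]

theorem tq_bij (hp : 0 < p) (htp : t ^ p = 1) (hUt : Inv t U) :
    Function.Bijective (tq t U) := by
  have e : p - 1 + 1 = p := Nat.sub_add_cancel hp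
  refine ⟨?_, ?_⟩
  · apply Function.LeftInverse.injective (g := (tq t U)^[p - 1])
    intro q
    rw [← Function.iterate_succ_apply, Nat.succ_eq_add_one, e]
    exact tq_p htp hUt q
  · apply Function.RightInverse.surjective (g := (tq t U)^[p - 1])
    intro q
    rw [← Function.iterate_succ_apply' (tq t U) (p - 1) q, Nat.succ_eq_add_one, e]
    exact tq_p htp hUt q

end

end A11x

section
variable {p : ℕ} [Fact p.Prime] {Γ : Type} [Group Γ] {t : MulAut Γ} {U : Subgroup Γ}

omit [Fact p.Prime] in
theorem finite_of_isOpen [TopologicalSpace Γ] [IsTopologicalGroup Γ] [CompactSpace Γ]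
    (hU : IsOpen (U : Set Γ)) : Finite (Γ ⧸ U) := by
  exact Subgroup.quotient_finite_of_isOpen U hU

variable [Finite (Γ ⧸ U)]

omit [Fact p.Prime] in
theorem csum_add {M : Type} [AddCommMonoid M] (F F' : Γ → M) :
    csum U (fun x => F x + F' x) = csum U F + csum U F' := by
  exact finsum_add_distrib (Set.toFinite _) (Set.toFinite _)

omit [Fact p.Prime] in
theorem csum_neg {M : Type} [AddCommGroup M] (F : Γ → M) :
    csum U (fun x => - F x) = - csum U F := by
  exact finsum_neg_distrib _

omit [Fact p.Prime] in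
theorem csum_sub {M : Type} [AddCommGroup M] (F F' : Γ → M) :
    csum U (fun x => F x - F' x) = csum U F - csum U F' := by
  exact finsum_sub_distrib (Set.toFinite _) (Set.toFinite _)

omit [Fact p.Prime] in
theorem csum_congr {M : Type} [AddCommMonoid M] {F F' : Γ → M} (h : ∀ x, F x = F' x) :
    csum U F = csum U F' := by
  exact finsum_congr fun q => h q.out

omit [Fact p.Prime] in
theorem csum_mul_left {M : Type} [AddCommMonoid M] {F : Γ → M} (hF : RI U F) (g : Γ) :
    csum U (fun x => F (g * x)) = csum U F := by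
  have h : ∀ q : Γ ⧸ U, F (g * q.out) = F ((g • q).out) := by
    intro q
    have h1 : g • q = (QuotientGroup.mk (g * q.out) : Γ ⧸ U) := by
      conv_lhs => rw [← QuotientGroup.out_eq' q]
      rfl
    rw [h1, A11x.RI_out hF]
  unfold csum
  rw [finsum_congr h]
  exact finsum_comp_equiv (MulAction.toPerm g : Equiv.Perm (Γ ⧸ U)) (f := fun q => F q.out)

omit [Fact p.Prime] in
theorem csum_comp {M : Type} [AddCommMonoid M] (hp : 0 < p) (htp : t ^ p = 1) (hUt : Inv t U)
    {F : Γ → M} (hF : RI U F) : csum U (fun x => F (t x)) = csum U F := by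
  have h : ∀ q : Γ ⧸ U, F (t q.out) = F ((A11x.tq t U q).out) := by
    intro q
    rw [A11x.tq, A11x.RI_out hF]
  unfold csum
  rw [finsum_congr h]
  exact finsum_comp (g := fun q : Γ ⧸ U => F q.out) _ (A11x.tq_bij hp htp hUt)

omit [Fact p.Prime] in
/-- if only the coset of `1` contributes -/
theorem csum_single {M : Type} [AddCommMonoid M] {F : Γ → M} (hF : RI U F)
    (h : ∀ x, x ∉ U → F x = 0) : csum U F = F 1 := by
  unfold csum
  rw [finsum_eq_single _ (QuotientGroup.mk (1 : Γ) : Γ ⧸ U)]
  · exact A11x.RI_out hF 1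
  · intro q hq
    apply h
    intro hU
    apply hq
    rw [← QuotientGroup.out_eq' q]
    exact (QuotientGroup.eq.2 (by simpa using hU)).symm

open Classical in
/-- only the cosets fixed by `t` contribute -/
theorem csum_fixed (htp : t ^ p = 1) (hUt : Inv t U) {a b : Γ → ZMod p} (ha : RI U a)
    (hb : RI U b) (hat : ∀ x, a (t x) = a x) (hbt : ∀ x, Nf p t b x = 0) :
    csum U (fun x => a x * b x) =
      csum U (fun x => if x⁻¹ * t x ∈ U then a x * b x else 0) := by
  have hp : p.Prime := Fact.out
  have : Fintype (Γ ⧸ U) := Fintype.ofFinite _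
  have hcond : ∀ q : Γ ⧸ U, (q.out)⁻¹ * t q.out ∈ U ↔ A11x.tq t U q = q := by
    intro q
    rw [← QuotientGroup.eq, QuotientGroup.out_eq', A11x.tq, eq_comm]
  unfold csum
  rw [finsum_eq_sum_of_fintype, finsum_eq_sum_of_fintype]
  have h0 := A11x.sum_zero hp (A11x.tq t U) (A11x.tq_p htp hUt) (fun q => a q.out)
    (fun q => b q.out) ?_ ?_ _ (Finset.univ.filter fun q => A11x.tq t U q ≠ q) le_rfl ?_ ?_
  · rw [← sub_eq_zero, ← Finset.sum_sub_distrib]
    rw [Finset.sum_filter] at h0
    refine Eq.trans (Finset.sum_congr rfl fun q _ => ?_) h0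
    simp only
    by_cases hq : A11x.tq t U q = q
    · rw [if_pos ((hcond q).2 hq), if_neg (not_not.2 hq), sub_self]
    · rw [if_neg (fun h => hq ((hcond q).1 h)), if_pos hq, sub_zero]
  · intro q
    show a ((A11x.tq t U q).out) = a q.out
    rw [A11x.tq, A11x.RI_out ha, hat]
  · intro q
    obtain ⟨x, rfl⟩ := QuotientGroup.mk_surjective q
    rw [← hbt x, Nf]
    refine Finset.sum_congr rfl fun i _ => ?_
    show b (((A11x.tq t U)^[i] (QuotientGroup.mk x)).out) = _
    rw [A11x.tq_iterate hUt, A11x.RI_out hb]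
  · intro q hq
    have hq' := (Finset.mem_filter.1 hq).2
    refine Finset.mem_filter.2 ⟨Finset.mem_univ _, fun h => hq' ?_⟩
    exact (A11x.tq_bij hp.pos htp hUt).1 h
  · intro q hq
    exact (Finset.mem_filter.1 hq).2

end

end Pool.Agent.H371.SE
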