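import Pool.Agent.H371.SE.A0

set_option autoImplicit false

namespace Pool.Agent.H371.SE

namespace A1x

section
variable {p : ℕ} [Fact p.Prime]

theorem dvd_iff (n : ℕ) (a : ℤ_[p]) :
    (p : ℤ_[p]) ^ n ∣ a ↔ PadicInt.toZModPow n a = 0 := by
  rw [← RingHom.mem_ker, PadicInt.ker_toZModPow, Ideal.mem_span_singleton]

theorem dvd_one_iff (a : ℤ_[p]) :
    (p : ℤ_[p]) ∣ a ↔ PadicInt.toZMod a = 0 := by
  rw [← RingHom.mem_ker, PadicInt.ker_toZMod, PadicInt.maximalIdeal_eq_span_p,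
    Ideal.mem_span_singleton]

/-- representative modulo `p ^ s` -/
noncomputable def rep (s : ℕ) (a : ℤ_[p]) : ℤ_[p] := ((PadicInt.toZModPow s a).val : ℤ_[p])

theorem rep_dvd (s : ℕ) (a : ℤ_[p]) : (p : ℤ_[p]) ^ s ∣ rep s a - a := by
  rw [dvd_iff, map_sub, rep, map_natCast, ZMod.natCast_zmod_val, sub_self]

theorem rep_eq (s : ℕ) {a b : ℤ_[p]} (h : (p : ℤ_[p]) ^ s ∣ a - b) : rep s a = rep s b := by
  rw [dvd_iff, map_sub, sub_eq_zero] at h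
  rw [rep, rep, h]

theorem eq_zero_of_dvd {a : ℤ_[p]} (h : ∀ k : ℕ, (p : ℤ_[p]) ^ k ∣ a) : a = 0 := by
  rw [← PadicInt.ext_of_toZModPow]
  intro n
  rw [map_zero, ← dvd_iff]
  exact h n

theorem isClosed_dvd (n : ℕ) (b : ℤ_[p]) : IsClosed {a : ℤ_[p] | (p : ℤ_[p]) ^ n ∣ a - b} := by
  have e : {a : ℤ_[p] | (p : ℤ_[p]) ^ n ∣ a - b} = {a | ‖a - b‖ ≤ (p : ℝ) ^ (-n : ℤ)} := by
    ext a
    show (p : ℤ_[p]) ^ n ∣ a - b ↔ ‖a - b‖ ≤ (p : ℝ) ^ (-n : ℤ)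
    rw [PadicInt.norm_le_pow_iff_mem_span_pow, Ideal.mem_span_singleton]
  rw [e]
  exact isClosed_le (by fun_prop) continuous_const

/-- limits -/
theorem limit (s : ℕ) (f : ℕ → ℤ_[p]) (hf : ∀ i, (p : ℤ_[p]) ^ (s + i) ∣ f (i + 1) - f i) :
    ∃ v : ℤ_[p], ∀ i, (p : ℤ_[p]) ^ (s + i) ∣ v - f i := by
  have h1 : ∀ i j, (p : ℤ_[p]) ^ (s + i) ∣ f (i + j) - f i := by
    intro i j
    induction j with
    | zero => simp
    | succ j ih =>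
      have h2 : (p : ℤ_[p]) ^ (s + i) ∣ f (i + j + 1) - f (i + j) :=
        (pow_dvd_pow _ (by omega)).trans (hf (i + j))
      have h3 := dvd_add h2 ih
      rwa [sub_add_sub_cancel] at h3
  have hc : CauchySeq f := by
    refine cauchySeq_of_le_geometric ((p : ℝ)⁻¹) 1 ?_ fun n => ?_
    · exact inv_lt_one_of_one_lt₀ (by exact_mod_cast (Fact.out : p.Prime).one_lt)
    · have h2 : (p : ℤ_[p]) ^ n ∣ f n - f (n + 1) := by
        rw [dvd_sub_comm]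
        exact (pow_dvd_pow _ (by omega)).trans (hf n)
      rw [← Ideal.mem_span_singleton, ← PadicInt.norm_le_pow_iff_mem_span_pow] at h2
      rw [dist_eq_norm, one_mul, inv_pow, ← zpow_natCast, ← zpow_neg]
      exact h2
  obtain ⟨v, hv⟩ := cauchySeq_tendsto_of_complete hc
  refine ⟨v, fun i => ?_⟩
  refine (isClosed_dvd (s + i) (f i)).mem_of_tendsto hv ?_
  filter_upwards [Filter.eventually_ge_atTop i] with j hj
  obtain ⟨k, rfl⟩ := Nat.exists_eq_add_of_le hj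
  exact h1 i k

end

section
variable {p : ℕ} [Fact p.Prime] {Γ : Type} [Group Γ] [TopologicalSpace Γ]

/-- additive and locally constant modulo `p ^ s` -/
def Q (p : ℕ) [Fact p.Prime] (U : Subgroup Γ) (s : ℕ) (f : Γ → ℤ_[p]) : Prop :=
  (∀ x ∈ U, ∀ y ∈ U, (p : ℤ_[p]) ^ s ∣ f (x * y) - (f x + f y)) ∧
  ∃ W : Subgroup Γ, IsOpen (W : Set Γ) ∧
      ∀ x ∈ U, ∀ w ∈ U, w ∈ W → (p : ℤ_[p]) ^ s ∣ f (x * w) - f x

theorem step (hG : Good p Γ) {U : Subgroup Γ} (hU : IsOpen (U : Set Γ)) (s : ℕ) (f : Γ → ℤ_[p])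
    (hf : Q p U s f) : ∃ f1 : Γ → ℤ_[p], Q p U (s + 1) f1 ∧
      ∀ x ∈ U, (p : ℤ_[p]) ^ s ∣ f1 x - f x := by
  obtain ⟨hadd, W0, hW0, hlc⟩ := hf
  obtain ⟨W, hWn, hW, hWW⟩ := hG.basis (W0 : Set Γ) hW0 W0.one_mem
  have hps : (p : ℤ_[p]) ^ s ≠ 0 := pow_ne_zero _ (by exact_mod_cast (Fact.out : p.Prime).ne_zero)
  obtain ⟨f', hf'⟩ : ∃ f' : Γ → ℤ_[p], f' = fun x => rep s (f x) := ⟨_, rfl⟩
  have hf1 : ∀ x, (p : ℤ_[p]) ^ s ∣ f' x - f x := fun x => by rw [hf']; exact rep_dvd s _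
  have hf2 : ∀ x ∈ U, ∀ w ∈ U, w ∈ W → f' (x * w) = f' x := fun x hx w hw hwW => by
    rw [hf']
    exact rep_eq s (hlc x hx w hw (hWW hwW))
  have hE : ∀ x ∈ U, ∀ y ∈ U, ∃ c : ℤ_[p], f' x + f' y - f' (x * y) = (p : ℤ_[p]) ^ s * c := by
    intro x hx y hy
    have h1 := dvd_sub (dvd_sub (dvd_add (hf1 x) (hf1 y)) (hf1 (x * y))) (hadd x hx y hy)
    obtain ⟨c, hc⟩ := h1
    refine ⟨c, ?_⟩
    rw [← hc]
    ring
  obtain ⟨c, hc⟩ : ∃ c : Γ → Γ → ℤ_[p], ∀ x ∈ U, ∀ y ∈ U,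
      f' x + f' y - f' (x * y) = (p : ℤ_[p]) ^ s * c x y := by
    classical
    refine ⟨fun x y => if h : x ∈ U ∧ y ∈ U then (hE x h.1 y h.2).choose else 0,
      fun x hx y hy => ?_⟩
    show _ = (p : ℤ_[p]) ^ s * (if h : x ∈ U ∧ y ∈ U then (hE x h.1 y h.2).choose else 0)
    rw [dif_pos (⟨hx, hy⟩ : x ∈ U ∧ y ∈ U)]
    exact (hE x hx y hy).choose_spec
  obtain ⟨g, hg1, hg2⟩ := hG.cd U hU (fun x y => PadicInt.toZMod (c x y)) (by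
    intro x hx y hy z hz
    rw [← map_add, ← map_add]
    congr 1
    apply mul_left_cancel₀ hps
    rw [mul_add, mul_add, ← hc x hx y hy, ← hc _ (U.mul_mem hx hy) z hz, ← hc y hy z hz,
      ← hc x hx _ (U.mul_mem hy hz), mul_assoc]
    ring) (by
    refine ⟨W, hW, fun x hx y hy w hw w' hw' hwW hw'W => ?_⟩
    congr 1
    apply mul_left_cancel₀ hps
    have h1 : y⁻¹ * w * y * w' ∈ U :=
      U.mul_mem (U.mul_mem (U.mul_mem (U.inv_mem hy) hw) hy) hw'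
    have h2 : y⁻¹ * w * y * w' ∈ W := by
      refine W.mul_mem ?_ hw'W
      have := hWn.conj_mem w hwW y⁻¹
      rwa [inv_inv] at this
    have e : x * w * (y * w') = x * y * (y⁻¹ * w * y * w') := by group
    rw [← hc _ (U.mul_mem hx hw) _ (U.mul_mem hy hw'), ← hc x hx y hy, e,
      hf2 _ (U.mul_mem hx hy) _ h1 h2, hf2 x hx w hw hwW, hf2 y hy w' hw' hw'W])
  obtain ⟨W1, hW1, hg3⟩ := hg1
  refine ⟨fun x => f' x + (p : ℤ_[p]) ^ s * ((g x).val : ℤ_[p]), ⟨fun x hx y hy => ?_, ?_⟩,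
    fun x hx => ?_⟩
  · have e : f' (x * y) + (p : ℤ_[p]) ^ s * ((g (x * y)).val : ℤ_[p]) -
        (f' x + (p : ℤ_[p]) ^ s * ((g x).val : ℤ_[p]) +
          (f' y + (p : ℤ_[p]) ^ s * ((g y).val : ℤ_[p]))) =
        (p : ℤ_[p]) ^ s * (((g (x * y)).val : ℤ_[p]) - ((g x).val : ℤ_[p]) -
          ((g y).val : ℤ_[p]) - c x y) := by
      have := hc x hx y hy
      linear_combination -this
    show (p : ℤ_[p]) ^ (s + 1) ∣ f' (x * y) + (p : ℤ_[p]) ^ s * ((g (x * y)).val : ℤ_[p]) -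
        (f' x + (p : ℤ_[p]) ^ s * ((g x).val : ℤ_[p]) +
          (f' y + (p : ℤ_[p]) ^ s * ((g y).val : ℤ_[p])))
    rw [e, pow_succ]
    apply mul_dvd_mul_left
    rw [dvd_one_iff, map_sub, map_sub, map_sub, map_natCast, map_natCast, map_natCast,
      ZMod.natCast_zmod_val, ZMod.natCast_zmod_val, ZMod.natCast_zmod_val, hg2 x hx y hy]
    ring
  · refine ⟨W ⊓ W1, hW.inter hW1, fun x hx w hw hwW => ?_⟩
    show (p : ℤ_[p]) ^ (s + 1) ∣ f' (x * w) + (p : ℤ_[p]) ^ s * ((g (x * w)).val : ℤ_[p]) -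
        (f' x + (p : ℤ_[p]) ^ s * ((g x).val : ℤ_[p]))
    rw [hf2 x hx w hw hwW.1, hg3 x hx w hw hwW.2, sub_self]
    exact dvd_zero _
  · have h1 := hf1 x
    have h2 : (p : ℤ_[p]) ^ s ∣ (p : ℤ_[p]) ^ s * ((g x).val : ℤ_[p]) := dvd_mul_right _ _
    have h3 := dvd_add h1 h2
    have e : f' x + (p : ℤ_[p]) ^ s * ((g x).val : ℤ_[p]) - f x =
      f' x - f x + (p : ℤ_[p]) ^ s * ((g x).val : ℤ_[p]) := by ring
    show (p : ℤ_[p]) ^ s ∣ f' x + (p : ℤ_[p]) ^ s * ((g x).val : ℤ_[p]) - f x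
    rw [e]
    exact h3

end

end A1x

section
variable {p : ℕ} [Fact p.Prime] {Γ : Type} [Group Γ] [TopologicalSpace Γ] [IsTopologicalGroup Γ]
  [CompactSpace Γ] [T2Space Γ]

/-- functions which are additive and locally constant modulo `p ^ s` lift -/
theorem lift (hG : Good p Γ) {U : Subgroup Γ} (hU : IsOpen (U : Set Γ)) (s : ℕ) (f : Γ → ℤ_[p])
    (hadd : ∀ x ∈ U, ∀ y ∈ U, (p : ℤ_[p]) ^ s ∣ f (x * y) - (f x + f y))
    (hlc : ∃ W : Subgroup Γ, IsOpen (W : Set Γ) ∧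
      ∀ x ∈ U, ∀ w ∈ U, w ∈ W → (p : ℤ_[p]) ^ s ∣ f (x * w) - f x) :
    ∃ v : Γ → ℤ_[p], HZ p U v ∧ ∀ x ∈ U, (p : ℤ_[p]) ^ s ∣ v x - f x := by
  classical
  obtain ⟨F, hF0, hF⟩ : ∃ F : ∀ i : ℕ, {h : Γ → ℤ_[p] // A1x.Q p U (s + i) h},
      (F 0).1 = f ∧ ∀ i, ∀ x ∈ U, (p : ℤ_[p]) ^ (s + i) ∣ (F (i + 1)).1 x - (F i).1 x := by
    obtain ⟨G, hG1⟩ : ∃ G : ∀ i : ℕ, {h : Γ → ℤ_[p] // A1x.Q p U (s + i) h} →
        {h : Γ → ℤ_[p] // A1x.Q p U (s + i + 1) h}, ∀ i h, ∀ x ∈ U,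
        (p : ℤ_[p]) ^ (s + i) ∣ (G i h).1 x - h.1 x :=
      ⟨fun i h => ⟨(A1x.step hG hU (s + i) h.1 h.2).choose,
        (A1x.step hG hU (s + i) h.1 h.2).choose_spec.1⟩,
        fun i h x hx => (A1x.step hG hU (s + i) h.1 h.2).choose_spec.2 x hx⟩
    exact ⟨fun i => Nat.rec ⟨f, hadd, hlc⟩ (fun i h => G i h) i, rfl,
      fun i x hx => hG1 i _ x hx⟩
  have hL : ∀ x ∈ U, ∃ v : ℤ_[p], ∀ i, (p : ℤ_[p]) ^ (s + i) ∣ v - (F i).1 x := fun x hx =>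
    A1x.limit s (fun i => (F i).1 x) fun i => hF i x hx
  obtain ⟨v, hv⟩ : ∃ v : Γ → ℤ_[p], ∀ x ∈ U, ∀ i, (p : ℤ_[p]) ^ (s + i) ∣ v x - (F i).1 x := by
    refine ⟨fun x => if h : x ∈ U then (hL x h).choose else 0, fun x hx => ?_⟩
    show ∀ i, (p : ℤ_[p]) ^ (s + i) ∣ (if h : x ∈ U then (hL x h).choose else 0) - (F i).1 x
    rw [dif_pos hx]
    exact (hL x hx).choose_spec
  refine ⟨v, ⟨fun x hx y hy => ?_, fun k => ?_⟩, fun x hx => ?_⟩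
  · rw [← sub_eq_zero]
    refine A1x.eq_zero_of_dvd fun k => (pow_dvd_pow _ (by omega : k ≤ s + k)).trans ?_
    have h1 := (F k).2.1 x hx y hy
    have h2 := dvd_sub (dvd_sub (hv _ (U.mul_mem hx hy) k) (hv x hx k)) (hv y hy k)
    have h3 := dvd_add h1 h2
    have e : v (x * y) - (v x + v y) = (F k).1 (x * y) - ((F k).1 x + (F k).1 y) +
      (v (x * y) - (F k).1 (x * y) - (v x - (F k).1 x) - (v y - (F k).1 y)) := by ring
    rw [e]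
    exact h3
  · obtain ⟨W, hW, h1⟩ := (F k).2.2
    refine ⟨W, hW, fun x hx w hw hwW => (pow_dvd_pow _ (by omega : k ≤ s + k)).trans ?_⟩
    have h3 := dvd_add (h1 x hx w hw hwW) (dvd_sub (hv _ (U.mul_mem hx hw) k) (hv x hx k))
    have e : v (x * w) - v x = (F k).1 (x * w) - (F k).1 x +
      (v (x * w) - (F k).1 (x * w) - (v x - (F k).1 x)) := by ring
    rw [e]
    exact h3
  · have := hv x hx 0
    rwa [hF0, add_zero] at this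

end

end Pool.Agent.H371.SE
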