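import Pool.Agent.H371.SE.A2

set_option autoImplicit false

namespace Pool.Agent.H371.SE

namespace A14x

variable {p : ℕ} [Fact p.Prime] {Γ : Type} [Group Γ] {t : MulAut Γ} {U : Subgroup Γ}

theorem zpow_eq (htp : t ^ p = 1) (i : ℤ) : ∃ n : ℕ, t ^ i = t ^ n := by
  have hp : (0 : ℤ) < p := by exact_mod_cast (Fact.out : p.Prime).pos
  refine ⟨(i % p).toNat, ?_⟩
  rw [← zpow_natCast t ((i % p).toNat), Int.toNat_of_nonneg (Int.emod_nonneg i hp.ne')]
  conv_lhs => rw [← Int.emod_add_mul_ediv i p]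
  rw [zpow_add, zpow_mul, zpow_natCast, htp, one_zpow, mul_one]

theorem inv_zpow (htp : t ^ p = 1) (hU : Inv t U) (i : ℤ) : ∀ x ∈ U, (t ^ i) x ∈ U := by
  obtain ⟨n, hn⟩ := zpow_eq htp i
  rw [hn]
  clear hn
  induction n with
  | zero => intro x hx; rw [pow_zero]; exact hx
  | succ n ih => intro x hx; rw [pow_succ', MulAut.mul_apply]; exact hU _ (ih x hx)

theorem v_zpow {M : Type} (htp : t ^ p = 1) (hU : Inv t U) {v : Γ → M}
    (hv : ∀ x ∈ U, v (t x) = v x) (i : ℤ) : ∀ x ∈ U, v ((t ^ i) x) = v x := by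
  obtain ⟨n, hn⟩ := zpow_eq htp i
  rw [hn]
  clear hn
  have h2 : ∀ n : ℕ, ∀ x ∈ U, (t ^ n) x ∈ U := by
    intro n
    rw [← zpow_natCast]
    exact inv_zpow htp hU n
  induction n with
  | zero => intro x hx; rw [pow_zero]; rfl
  | succ n ih =>
    intro x hx
    rw [pow_succ', MulAut.mul_apply, hv _ (h2 n x hx), ih x hx]

theorem zpow_add_apply (i j : ℤ) (x : Γ) : (t ^ (i + j)) x = (t ^ i) ((t ^ j) x) := by
  rw [zpow_add, MulAut.mul_apply]

theorem v_one {M : Type} [AddCommGroup M] {v : Γ → M} (hv : AddOn U v) : v 1 = 0 := by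
  have := hv 1 U.one_mem 1 U.one_mem
  rw [mul_one] at this
  exact left_eq_add.mp this

/-- the key fact -/
theorem v_zero (htp : t ^ p = 1) (hU : Inv t U) {v : Γ → ℤ_[p]} (hadd : AddOn U v)
    (hv : ∀ x ∈ U, v (t x) = v x) {r : Γ} {k : ℤ} (hr : r⁻¹ * (t ^ k) r ∈ U) :
    v (r⁻¹ * (t ^ k) r) = 0 := by
  have h1 : ∀ n : ℕ, r⁻¹ * (t ^ (k * n)) r ∈ U ∧
      v (r⁻¹ * (t ^ (k * n)) r) = n * v (r⁻¹ * (t ^ k) r) := by
    intro n
    induction n with
    | zero =>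
      have e : r⁻¹ * (t ^ (k * ((0 : ℕ) : ℤ))) r = 1 := by
        rw [Nat.cast_zero, mul_zero, zpow_zero]
        exact inv_mul_cancel r
      rw [e, v_one hadd]
      exact ⟨U.one_mem, by simp⟩
    | succ n ih =>
      have e : r⁻¹ * (t ^ (k * ((n + 1 : ℕ) : ℤ))) r =
          (r⁻¹ * (t ^ k) r) * (t ^ k) (r⁻¹ * (t ^ (k * n)) r) := by
        have h2 : k * ((n + 1 : ℕ) : ℤ) = k + k * n := by push_cast; ring
        rw [h2, zpow_add_apply, map_mul, map_inv]
        group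
      have h3 := inv_zpow htp hU k _ ih.1
      rw [e]
      refine ⟨U.mul_mem hr h3, ?_⟩
      rw [hadd _ hr _ h3, v_zpow htp hU hv k _ ih.1, ih.2]
      push_cast
      ring
  have h2 := (h1 p).2
  have e : r⁻¹ * (t ^ (k * p)) r = 1 := by
    rw [mul_comm, zpow_mul, zpow_natCast, htp, one_zpow]
    exact inv_mul_cancel r
  rw [e, v_one hadd] at h2
  have hp : (p : ℤ_[p]) ≠ 0 := by
    exact_mod_cast (Fact.out : p.Prime).ne_zero
  exact (mul_eq_zero.mp h2.symm).resolve_left hp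

theorem v_well (htp : t ^ p = 1) (hU : Inv t U) {v : Γ → ℤ_[p]} (hadd : AddOn U v)
    (hv : ∀ x ∈ U, v (t x) = v x) {r u u' : Γ} {i j : ℤ} (hu : u ∈ U) (hu' : u' ∈ U)
    (h : (t ^ i) r * u = (t ^ j) r * u') : v u = v u' := by
  have e1 : (t ^ j) (r⁻¹ * (t ^ (i - j)) r) = u' * u⁻¹ := by
    rw [map_mul, map_inv, ← zpow_add_apply, add_sub_cancel]
    have : (t ^ i) r = (t ^ j) r * u' * u⁻¹ := by
      rw [← h]; group
    rw [this]
    group
  have e2 : r⁻¹ * (t ^ (i - j)) r = (t ^ (-j)) (u' * u⁻¹) := by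
    rw [← e1, ← zpow_add_apply, neg_add_cancel, zpow_zero]
    rfl
  have h3 : r⁻¹ * (t ^ (i - j)) r ∈ U := by
    rw [e2]
    exact inv_zpow htp hU _ _ (U.mul_mem hu' (U.inv_mem hu))
  have h4 := v_zero htp hU hadd hv h3
  have h5 : u' = (t ^ j) (r⁻¹ * (t ^ (i - j)) r) * u := by
    rw [e1]; group
  rw [h5, hadd _ (inv_zpow htp hU _ _ h3) _ hu, v_zpow htp hU hv j _ h3, h4, zero_add]

/-- the equivalence relation -/
def rel (htp : t ^ p = 1) (hU : Inv t U) : Setoid Γ where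
  r x y := ∃ i : ℤ, ∃ u ∈ U, y = (t ^ i) x * u
  iseqv :=
    { refl := fun x => ⟨0, 1, U.one_mem, by rw [zpow_zero, mul_one]; rfl⟩
      symm := by
        rintro x y ⟨i, u, hu, rfl⟩
        refine ⟨-i, (t ^ (-i)) u⁻¹, inv_zpow htp hU _ _ (U.inv_mem hu), ?_⟩
        rw [← map_mul, mul_inv_cancel_right, ← zpow_add_apply, neg_add_cancel, zpow_zero]
        rfl
      trans := by
        rintro x y z ⟨i, u, hu, rfl⟩ ⟨j, w, hw, rfl⟩
        refine ⟨j + i, (t ^ j) u * w, U.mul_mem (inv_zpow htp hU _ _ hu) hw, ?_⟩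
        rw [zpow_add_apply, map_mul, mul_assoc] }

end A14x

section
variable {p : ℕ} [Fact p.Prime] {Γ : Type} [Group Γ] [TopologicalSpace Γ] [IsTopologicalGroup Γ]
  [CompactSpace Γ] [T2Space Γ] {t : MulAut Γ}

/-- extension of a `t`-invariant homomorphism of `U` to a `t`-invariant function -/
theorem K4 (hG : Good p Γ) (ht : Continuous t) (htp : t ^ p = 1) {U : Subgroup Γ}
    (hU : IsOpen (U : Set Γ)) (hUt : Inv t U) {l : Γ → ZMod p} (hl : X p t U l) {z : Γ}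
    (hzU : z ∈ U) (htz : t z = z) :
    ∃ δ : Γ → ZMod p, (∀ x, ∀ u ∈ U, δ (x * u) = δ x + δ u) ∧ LC U δ ∧ (∀ x, δ (t x) = δ x) ∧
      δ z = l z := by
  obtain ⟨v, ⟨hadd, hcz⟩, hvt, hvl⟩ := exists_v1 hG ht htp hU hUt hl
  let s := A14x.rel htp hUt
  have hrep : ∀ x : Γ, ∃ i : ℤ, ∃ u ∈ U, x = (t ^ i) (Quotient.mk s x).out * u :=
    fun x => Quotient.mk_out (s := s) x
  choose i u hu hx using hrep
  let δ0 : Γ → ZMod p := fun x => PadicInt.toZMod (v (u x))
  have hmul : ∀ x, ∀ w ∈ U, δ0 (x * w) = δ0 x + PadicInt.toZMod (v w) := by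
    intro x w hw
    have h1 : Quotient.mk s (x * w) = Quotient.mk s x := by
      refine (Quotient.sound ?_).symm
      exact ⟨0, w, hw, by rw [zpow_zero]; rfl⟩
    have h2 := hx (x * w)
    rw [h1] at h2
    have h3 : (t ^ i (x * w)) (Quotient.mk s x).out * u (x * w) =
        (t ^ i x) (Quotient.mk s x).out * (u x * w) := by
      rw [← h2, ← mul_assoc, ← hx x]
    have h4 := A14x.v_well htp hUt hadd hvt (hu _) (U.mul_mem (hu x) hw) h3
    show PadicInt.toZMod (v (u (x * w))) = PadicInt.toZMod (v (u x)) + PadicInt.toZMod (v w)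
    rw [h4, hadd _ (hu x) _ hw, map_add]
  have hinv : ∀ x, δ0 (t x) = δ0 x := by
    intro x
    have h1 : Quotient.mk s (t x) = Quotient.mk s x := by
      refine (Quotient.sound ?_).symm
      exact ⟨1, 1, U.one_mem, by rw [zpow_one, mul_one]⟩
    have h2 := hx (t x)
    rw [h1] at h2
    have h3 : (t ^ i (t x)) (Quotient.mk s x).out * u (t x) =
        (t ^ (1 + i x)) (Quotient.mk s x).out * t (u x) := by
      rw [← h2, A14x.zpow_add_apply, zpow_one, ← map_mul, ← hx x]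
    have h4 := A14x.v_well htp hUt hadd hvt (hu _) (hUt _ (hu x)) h3
    show PadicInt.toZMod (v (u (t x))) = PadicInt.toZMod (v (u x))
    rw [h4, hvt _ (hu x)]
  have hU' : ∀ w ∈ U, δ0 w - δ0 1 = PadicInt.toZMod (v w) := by
    intro w hw
    have := hmul 1 w hw
    rw [one_mul] at this
    rw [this, add_sub_cancel_left]
  refine ⟨fun x => δ0 x - δ0 1, ?_, ?_, ?_, ?_⟩
  · intro x w hw
    show δ0 (x * w) - δ0 1 = (δ0 x - δ0 1) + (δ0 w - δ0 1)
    rw [hmul x w hw, hU' w hw]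
    ring
  · obtain ⟨W, hW, hW'⟩ := hcz 1
    refine ⟨W, hW, fun x hx w hw hwW => ?_⟩
    show δ0 (x * w) - δ0 1 = δ0 x - δ0 1
    have h1 := hW' 1 U.one_mem w hw hwW
    rw [one_mul, A14x.v_one hadd, sub_zero, pow_one] at h1
    obtain ⟨c, hc⟩ := h1
    have h2 : PadicInt.toZMod (v w) = 0 := by
      rw [hc, map_mul, map_natCast, ZMod.natCast_self, zero_mul]
    rw [hmul x w hw, h2, add_zero]
  · intro x
    show δ0 (t x) - δ0 1 = δ0 x - δ0 1
    rw [hinv]
  · show δ0 z - δ0 1 = l z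
    rw [hU' z hzU]
    exact hvl z hzU htz

end

end Pool.Agent.H371.SE
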