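import Pool.Agent.H371.SE.A13
import Pool.Agent.H371.SE.A14

set_option autoImplicit false

namespace Pool.Agent.H371.SE

namespace A15x

theorem toZMod_eq_zero_iff {p : ℕ} [Fact p.Prime] (a : ℤ_[p]) :
    PadicInt.toZMod a = 0 ↔ (p : ℤ_[p]) ∣ a := by
  rw [← RingHom.mem_ker, PadicInt.ker_toZMod, PadicInt.maximalIdeal_eq_span_p,
    Ideal.mem_span_singleton]

theorem pow_fix {Γ : Type} [Group Γ] {t : MulAut Γ} {a : Γ} (ha : t a = a) (i : ℕ) :
    (t ^ i) a = a := by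
  induction i with
  | zero => simp
  | succ k ih => rw [pow_succ, MulAut.mul_apply, ha, ih]

open scoped Pointwise in
theorem mem_sup {Γ : Type} [Group Γ] (F W : Subgroup Γ) [W.Normal] (x : Γ) :
    x ∈ F ⊔ W ↔ ∃ a ∈ F, ∃ u ∈ W, a * u = x := by
  rw [← SetLike.mem_coe, Subgroup.mul_normal, Set.mem_mul]
  rfl

end A15x

section
variable {p : ℕ} [Fact p.Prime] {Γ : Type} [Group Γ] [TopologicalSpace Γ] [IsTopologicalGroup Γ]
  [CompactSpace Γ] [T2Space Γ] {t : MulAut Γ}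

/-- an automorphism of order `p` which fixes sufficiently many elements is trivial -/
theorem rigid (hG : Good p Γ) (ht : Continuous t) (htp : t ^ p = 1) (Z : Set Γ)
    (htZ : ∀ z ∈ Z, t z = z)
    (hZ : ∀ z ∈ Z, ∀ ψ : Γ → ZMod p, AddOn ⊤ ψ → LC ⊤ ψ → ψ z = 0)
    (hnd : ∀ χ : Γ → ZMod p, AddOn ⊤ χ → LC ⊤ χ → (∃ x, χ x ≠ 0) →
      ∃ z ∈ Z, ∃ ψ γ : Γ → ZMod p, AddOn ⊤ ψ ∧ LC ⊤ ψ ∧ LC ⊤ γ ∧
        (∀ x y, γ (x * y) = γ x + γ y + χ x * ψ y) ∧ γ z ≠ 0) : t = 1 := by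
  by_contra hne
  have htop : Inv t (⊤ : Subgroup Γ) := fun _ _ => Subgroup.mem_top _
  have hex : ∃ v : Γ → ℤ_[p], HZ p ⊤ v ∧ ∃ x ∈ (⊤ : Subgroup Γ), v (t x) ≠ v x := by
    by_contra hcon
    push Not at hcon
    refine hne ?_
    ext x
    exact triv hG ht htp htop (fun v hv x hx => hcon v hv x hx) x (Subgroup.mem_top _)
  obtain ⟨v, hv, hvx⟩ := hex
  obtain ⟨w, hw, x₀, -, hx₀⟩ := exists_min_w ht htp htop hv hvx
  obtain ⟨⟨hwadd, hwcz⟩, hwN, -⟩ := hw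
  have hp0 : (p : ℤ_[p]) ≠ 0 := by
    exact_mod_cast (Fact.out : p.Prime).ne_zero
  -- the homomorphism modulo `p`
  set χ : Γ → ZMod p := fun x => PadicInt.toZMod (w x) with hχ
  have hχadd : AddOn ⊤ χ := by
    intro x hx y hy
    simp only [hχ]
    rw [hwadd x hx y hy, map_add]
  have hχlc : LC ⊤ χ := by
    obtain ⟨W, hWo, hW⟩ := hwcz 1
    refine ⟨W, hWo, ?_⟩
    intro x hx y hy hyW
    have h1 := hW x hx y hy hyW
    rw [pow_one, ← A15x.toZMod_eq_zero_iff, map_sub, sub_eq_zero] at h1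
    exact h1
  have hχ0 : ∃ x, χ x ≠ 0 := ⟨x₀, fun h => hx₀ ((A15x.toZMod_eq_zero_iff _).1 h)⟩
  have hχfix : ∀ a, t a = a → χ a = 0 := by
    intro a ha
    have h1 := hwN a (Subgroup.mem_top _)
    have h2 : Nf p t w a = (p : ℤ_[p]) * w a := by
      unfold Nf
      rw [Finset.sum_congr rfl (g := fun _ => w a) (fun i _ => by rw [A15x.pow_fix ha i])]
      simp
    rw [h2] at h1
    have h3 : w a = 0 := (mul_eq_zero.1 h1).resolve_left hp0
    simp only [hχ, h3, map_zero]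
  obtain ⟨z, hz, ψ, γ, hψadd, ⟨W₁, hW₁o, hW₁⟩, ⟨W₂, hW₂o, hW₂⟩, hγ, hγz⟩ :=
    hnd χ hχadd hχlc hχ0
  obtain ⟨W₃, hW₃o, hW₃⟩ := hχlc
  obtain ⟨W, hWn, hWo, hWt, hWS⟩ := basis_t hG ht htp ((W₂ : Set Γ) ∩ (W₃ : Set Γ))
    (hW₂o.inter hW₃o) ⟨W₂.one_mem, W₃.one_mem⟩
  have hχ1 : χ 1 = 0 := hχfix 1 (map_one t)
  have hχW : ∀ u ∈ W, χ u = 0 := by
    intro u hu
    have h1 := hW₃ 1 (Subgroup.mem_top _) u (Subgroup.mem_top _) (hWS hu).2
    rw [one_mul, hχ1] at h1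
    exact h1
  have hγW : ∀ x, ∀ u ∈ W, γ (x * u) = γ x := by
    intro x u hu
    exact hW₂ x (Subgroup.mem_top _) u (Subgroup.mem_top _) (hWS hu).1
  -- the subgroup generated by the fixed points and `W`
  let F : Subgroup Γ :=
    { carrier := {a | t a = a}
      one_mem' := map_one t
      mul_mem' := by
        intro a b ha hb
        change t (a * b) = a * b
        rw [map_mul, show t a = a from ha, show t b = b from hb]
      inv_mem' := by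
        intro a ha
        change t a⁻¹ = a⁻¹
        rw [map_inv, show t a = a from ha] }
  have hF : ∀ a, a ∈ F ↔ t a = a := fun a => Iff.rfl
  let U : Subgroup Γ := F ⊔ W
  have hU : ∀ x, x ∈ U ↔ ∃ a ∈ F, ∃ u ∈ W, a * u = x := A15x.mem_sup F W
  have hUo : IsOpen (U : Set Γ) := Subgroup.isOpen_mono (le_sup_right : W ≤ U) hWo
  have hUt : Inv t U := by
    intro x hx
    obtain ⟨a, ha, u, hu, rfl⟩ := (hU x).1 hx
    refine (hU _).2 ⟨a, ha, t u, hWt u hu, ?_⟩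
    rw [map_mul, (hF a).1 ha]
  have hχU : ∀ x ∈ U, χ x = 0 := by
    intro x hx
    obtain ⟨a, ha, u, hu, rfl⟩ := (hU x).1 hx
    rw [hχadd a (Subgroup.mem_top _) u (Subgroup.mem_top _), hχfix a ha, hχW u hu, add_zero]
  have hX : X p t U γ := by
    refine ⟨?_, ⟨W₂, hW₂o, ?_⟩, ?_⟩
    · intro x hx y _
      rw [hγ, hχU x hx, zero_mul, add_zero]
    · intro x _ u _ hu2
      exact hW₂ x (Subgroup.mem_top _) u (Subgroup.mem_top _) hu2
    · intro x hx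
      obtain ⟨a, ha, u, hu, rfl⟩ := (hU x).1 hx
      rw [map_mul, (hF a).1 ha, hγW a (t u) (hWt u hu), hγW a u hu]
  have hFU : ∀ x, t x = x → x ∈ U := fun x hx => (le_sup_left : F ≤ U) hx
  have htz : t z = z := htZ z hz
  obtain ⟨δ, hδ, hδl, hδt, hδz⟩ := K4 hG ht htp hUo hUt hX (hFU z htz) htz
  have h0 := K3 hG ht htp hUo hUt hFU hδ hδl hδt htz (hZ z hz)
  exact hγz (by rw [← hδz, h0])

end

end Pool.Agent.H371.SE
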