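import Pool.Agent.H371.SE.A11

set_option autoImplicit false
set_option linter.unusedSectionVars false

namespace Pool.Agent.H371.SE

namespace A12x

section
variable {p : ℕ} [Fact p.Prime] {Γ : Type} [Group Γ] {t : MulAut Γ} {U W : Subgroup Γ}

/-- inserting an element of a normal subgroup on which the function vanishes -/
theorem ins (hW : W.Normal) {δ l : Γ → ZMod p} (hδ : ∀ x, ∀ u ∈ U, δ (x * u) = δ x + l u)
    (hWU : ∀ w ∈ W, w ∈ U ∧ l w = 0) (a b w : Γ) (hw : w ∈ W) :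
    δ (a * w * b) = δ (a * b) := by
  have h1 : b⁻¹ * w * b ∈ W := by
    have := hW.conj_mem w hw b⁻¹
    rwa [inv_inv] at this
  have h2 : a * w * b = a * b * (b⁻¹ * w * b) := by group
  rw [h2, hδ _ _ (hWU _ h1).1, (hWU _ h1).2, add_zero]

/-- `f x - f` -/
def bt (δ : Γ → ZMod p) (f x : Γ) : ZMod p := δ (f * x) - δ x

theorem bt_ri {δ l : Γ → ZMod p} (hδ : ∀ x, ∀ u ∈ U, δ (x * u) = δ x + l u) (f x u : Γ)
    (hu : u ∈ U) : bt δ f (x * u) = bt δ f x := by
  unfold bt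
  rw [← mul_assoc, hδ _ u hu, hδ _ u hu]
  ring

theorem bt_mul (δ : Γ → ZMod p) (f g x : Γ) : bt δ (f * g) x = bt δ f (g * x) + bt δ g x := by
  unfold bt
  rw [mul_assoc]
  ring

theorem bt_ins (hW : W.Normal) {δ l : Γ → ZMod p} (hδ : ∀ x, ∀ u ∈ U, δ (x * u) = δ x + l u)
    (hWU : ∀ w ∈ W, w ∈ U ∧ l w = 0) (f x w : Γ) (hw : w ∈ W) :
    bt δ (f * w) x = bt δ f x := by
  unfold bt
  rw [ins hW hδ hWU _ _ _ hw]

theorem bt_ins' (hW : W.Normal) {δ l : Γ → ZMod p} (hδ : ∀ x, ∀ u ∈ U, δ (x * u) = δ x + l u)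
    (hWU : ∀ w ∈ W, w ∈ U ∧ l w = 0) (f g x w : Γ) (hw : w ∈ W) :
    bt δ f (g * w * x) = bt δ f (g * x) := by
  unfold bt
  have h1 : f * (g * w * x) = (f * g) * w * x := by group
  have h2 : f * (g * x) = (f * g) * x := by group
  rw [h1, h2, ins hW hδ hWU _ _ _ hw, ins hW hδ hWU _ _ _ hw]

/-- extension of a homomorphism of a subgroup by coset representatives -/
theorem exists_d {l : Γ → ZMod p} (hl : AddOn U l) :
    ∃ d : Γ → ZMod p, ∀ x, ∀ u ∈ U, d (x * u) = d x + l u := by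
  refine ⟨fun x => l ((QuotientGroup.mk x : Γ ⧸ U).out⁻¹ * x), fun x u hu => ?_⟩
  have h1 : (QuotientGroup.mk (x * u) : Γ ⧸ U) = QuotientGroup.mk x := by
    rw [QuotientGroup.eq]
    have : (x * u)⁻¹ * x = u⁻¹ := by group
    rw [this]
    exact U.inv_mem hu
  have h2 : (QuotientGroup.mk x : Γ ⧸ U).out⁻¹ * x ∈ U := by
    rw [← QuotientGroup.eq, QuotientGroup.out_eq']
  simp only [h1]
  rw [← mul_assoc, hl _ h2 u hu]

/-- the cocycle -/
noncomputable def Cc (U : Subgroup Γ) (δ d : Γ → ZMod p) (f g : Γ) : ZMod p :=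
  csum U (fun x => bt δ f (g * x) * bt d g x)

variable [Finite (Γ ⧸ U)]

theorem Cc_coc {δ d l : Γ → ZMod p} (hδ : ∀ x, ∀ u ∈ U, δ (x * u) = δ x + δ u)
    (hd : ∀ x, ∀ u ∈ U, d (x * u) = d x + l u) (f g h : Γ) :
    Cc U δ d f g + Cc U δ d (f * g) h = Cc U δ d g h + Cc U δ d f (g * h) := by
  unfold Cc
  have h1 : RI U (fun x => bt δ f (g * x) * bt d g x) := by
    intro x u hu
    simp only
    rw [← mul_assoc, bt_ri hδ _ _ _ hu, bt_ri hd _ _ _ hu]
  have h2 := csum_mul_left h1 h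
  rw [← h2, ← csum_add, ← csum_add]
  refine csum_congr fun x => ?_
  rw [bt_mul, bt_mul, ← mul_assoc]
  ring

theorem Cc_t (hp : 0 < p) (htp : t ^ p = 1) (hUt : Inv t U) {δ d l : Γ → ZMod p}
    (hδ : ∀ x, ∀ u ∈ U, δ (x * u) = δ x + δ u)
    (hd : ∀ x, ∀ u ∈ U, d (x * u) = d x + l u) (hδt : ∀ x, δ (t x) = δ x)
    (hκ : RI U (fun x => d (t x) - d x)) (f g : Γ) :
    Cc U δ d (t f) (t g) - Cc U δ d f g =
      - csum U (fun x => (d (t x) - d x) * bt δ (f * g) x) +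
      csum U (fun x => (d (t x) - d x) * bt δ f x) +
      csum U (fun x => (d (t x) - d x) * bt δ g x) := by
  unfold Cc
  have h1 : RI U (fun x => bt δ (t f) (t g * x) * bt d (t g) x) := by
    intro x u hu
    simp only
    rw [← mul_assoc, bt_ri hδ _ _ _ hu, bt_ri hd _ _ _ hu]
  have h2 : RI U (fun x => (d (t x) - d x) * bt δ f x) := by
    intro x u hu
    have := hκ x u hu
    simp only at this ⊢
    rw [this, bt_ri hδ _ _ _ hu]
  rw [← csum_comp hp htp hUt h1, ← csum_mul_left h2 g, ← csum_sub, ← csum_neg, ← csum_add,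
    ← csum_add]
  refine csum_congr fun x => ?_
  unfold bt
  simp only [← map_mul, hδt, mul_assoc]
  ring

end

section
variable {p : ℕ} [Fact p.Prime] {Γ : Type} [Group Γ] [TopologicalSpace Γ] [IsTopologicalGroup Γ]
  [CompactSpace Γ] [T2Space Γ] {t : MulAut Γ}

theorem exists_W (hG : Good p Γ) {U : Subgroup Γ} (hU : IsOpen (U : Set Γ)) {l l' : Γ → ZMod p}
    (h1 : l 1 = 0) (hl : LC U l) (h1' : l' 1 = 0) (hl' : LC U l') :
    ∃ W : Subgroup Γ, W.Normal ∧ IsOpen (W : Set Γ) ∧ (∀ w ∈ W, w ∈ U ∧ l w = 0) ∧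
      ∀ w ∈ W, w ∈ U ∧ l' w = 0 := by
  obtain ⟨V, hV, hV1⟩ := hl
  obtain ⟨V', hV', hV1'⟩ := hl'
  obtain ⟨W, hW, hW1, hW2⟩ := hG.basis ((U : Set Γ) ∩ ((V : Set Γ) ∩ (V' : Set Γ)))
    (hU.inter (hV.inter hV')) ⟨U.one_mem, V.one_mem, V'.one_mem⟩
  refine ⟨W, hW, hW1, fun w hw => ?_, fun w hw => ?_⟩
  · obtain ⟨a, b, c⟩ := hW2 hw
    have := hV1 1 U.one_mem w a b
    rw [one_mul, h1] at this
    exact ⟨a, this⟩
  · obtain ⟨a, b, c⟩ := hW2 hw
    have := hV1' 1 U.one_mem w a c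
    rw [one_mul, h1'] at this
    exact ⟨a, this⟩

theorem at_one {U : Subgroup Γ} {l : Γ → ZMod p} (hl : AddOn U l) : l 1 = 0 := by
  have := hl 1 U.one_mem 1 U.one_mem
  rw [mul_one] at this
  exact left_eq_add.mp this

end

end A12x

open A12x

section
variable {p : ℕ} [Fact p.Prime] {Γ : Type} [Group Γ] [TopologicalSpace Γ] [IsTopologicalGroup Γ]
  [CompactSpace Γ] [T2Space Γ] {t : MulAut Γ}

open Classical in
theorem K2one (hG : Good p Γ) (ht : Continuous t) (htp : t ^ p = 1) {U : Subgroup Γ}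
    (hU : IsOpen (U : Set Γ)) (hUt : Inv t U) {δ : Γ → ZMod p}
    (hδ : ∀ x, ∀ u ∈ U, δ (x * u) = δ x + δ u) (hδl : LC U δ) (hδt : ∀ x, δ (t x) = δ x) {z : Γ}
    (htz : t z = z)
    (hz : ∀ ψ : Γ → ZMod p, AddOn ⊤ ψ → LC ⊤ ψ → ψ z = 0) :
    csum U (fun x => if x⁻¹ * t x ∈ U then δ (z * x) - δ x else 0) = 0 := by
  have hfin : Finite (Γ ⧸ U) := finite_of_isOpen hU
  have hδ1 : δ 1 = 0 := at_one (U := U) fun x _ y hy => hδ x y hy
  obtain ⟨W, hW, hWo, hW1, -⟩ := exists_W hG hU hδ1 hδl hδ1 hδl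
  have hadd : AddOn ⊤ (fun f => csum U (bt δ f)) := by
    intro f _ g _
    simp only
    have h1 : RI U (bt δ f) := fun x u hu => bt_ri hδ f x u hu
    rw [← csum_mul_left h1 g, ← csum_add]
    exact csum_congr fun x => bt_mul δ f g x
  have hlc : LC ⊤ (fun f => csum U (bt δ f)) := by
    refine ⟨W, hWo, fun f _ w _ hw => ?_⟩
    simp only
    exact csum_congr fun x => bt_ins hW hδ hW1 f x w hw
  have h0 : csum U (bt δ z) = 0 := hz _ hadd hlc
  have h1 : RI U (bt δ z) := fun x u hu => bt_ri hδ z x u hu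
  have h2 := csum_fixed (p := p) (t := t) htp hUt h1 (b := fun _ => 1) (fun _ _ _ => rfl)
    (fun x => by
      unfold bt
      have : z * t x = t (z * x) := by rw [map_mul, htz]
      rw [this, hδt, hδt])
    (fun x => by
      unfold Nf
      simp)
  simp only [mul_one] at h2
  have h3 : csum U (fun x => bt δ z x) = 0 := h0
  rw [h3] at h2
  exact h2.symm

open Classical in
theorem K2 (hG : Good p Γ) (ht : Continuous t) (htp : t ^ p = 1) {U : Subgroup Γ}
    (hU : IsOpen (U : Set Γ)) (hUt : Inv t U) {δ : Γ → ZMod p}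
    (hδ : ∀ x, ∀ u ∈ U, δ (x * u) = δ x + δ u) (hδl : LC U δ) (hδt : ∀ x, δ (t x) = δ x) {z : Γ}
    (htz : t z = z)
    (hz : ∀ ψ : Γ → ZMod p, AddOn ⊤ ψ → LC ⊤ ψ → ψ z = 0) {l : Γ → ZMod p} (hl : X p t U l) :
    csum U (fun x => if x⁻¹ * t x ∈ U then (δ (z * x) - δ x) * l (x⁻¹ * t x) else 0) = 0 := by
  have hfin : Finite (Γ ⧸ U) := finite_of_isOpen hU
  have hp : 0 < p := (Fact.out : p.Prime).pos
  have hδ1 : δ 1 = 0 := at_one (U := U) fun x _ y hy => hδ x y hy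
  obtain ⟨d, hd⟩ := exists_d hl.1
  obtain ⟨W, hW, hWo, hW1, hW2⟩ := exists_W hG hU hδ1 hδl (at_one hl.1) hl.2.1
  have hκ : RI U (fun x => d (t x) - d x) := by
    intro x u hu
    simp only
    rw [map_mul, hd _ _ (hUt u hu), hd _ _ hu, hl.2.2 u hu]
    ring
  have hκ2 : ∀ x, x⁻¹ * t x ∈ U → d (t x) - d x = l (x⁻¹ * t x) := by
    intro x hx
    have := hd x _ hx
    rw [mul_inv_cancel_left] at this
    rw [this]
    ring
  have hN : ∀ x, Nf p t (fun x => d (t x) - d x) x = 0 := by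
    intro x
    unfold Nf
    have h1 : ∀ i ∈ Finset.range p, (d (t ((t ^ i) x)) - d ((t ^ i) x)) =
        d ((t ^ (i + 1)) x) - d ((t ^ i) x) := by
      intro i _
      rw [pow_succ']
      rfl
    rw [Finset.sum_congr rfl h1, Finset.sum_range_sub (fun i => d ((t ^ i) x)), htp]
    simp
  -- the cocycle is a coboundary
  obtain ⟨g0, ⟨V, hVo, hV⟩, hg0⟩ := hG.cd ⊤ isOpen_univ (Cc U δ d)
    (fun x _ y _ z _ => Cc_coc hδ hd x y z)
    ⟨W, hWo, fun x _ y _ w _ w' _ hw hw' => by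
      unfold Cc
      refine csum_congr fun a => ?_
      rw [bt_ins hW hδ hW1 _ _ _ hw, bt_ins hW hd hW2 _ _ _ hw', bt_ins' hW hδ hW1 _ _ _ _ hw']⟩
  have hadd : AddOn ⊤ (fun f => g0 (t f) - g0 f +
      csum U (fun x => (d (t x) - d x) * bt δ f x)) := by
    intro f _ g _
    simp only
    have h1 := Cc_t hp htp hUt hδ hd hδt hκ f g
    rw [map_mul, hg0 _ trivial _ trivial, hg0 _ trivial _ trivial]
    linear_combination h1
  have hlc : LC ⊤ (fun f => g0 (t f) - g0 f +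
      csum U (fun x => (d (t x) - d x) * bt δ f x)) := by
    refine ⟨W ⊓ (V ⊓ V.comap t.toMonoidHom), ?_, fun f _ w _ hw => ?_⟩
    · rw [Subgroup.coe_inf, Subgroup.coe_inf]
      refine hWo.inter (hVo.inter ?_)
      exact hVo.preimage ht
    · obtain ⟨a, b, c⟩ := hw
      simp only
      have e1 : g0 (t (f * w)) = g0 (t f) := by
        rw [map_mul]
        exact hV _ trivial _ trivial c
      rw [e1, hV _ trivial _ trivial b]
      congr 1
      refine csum_congr fun x => ?_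
      rw [bt_ins hW hδ hW1 _ _ _ a]
  have h0 := hz _ hadd hlc
  simp only [htz, sub_self, zero_add] at h0
  have h1 : RI U (bt δ z) := fun x u hu => bt_ri hδ z x u hu
  have h2 := csum_fixed (p := p) (t := t) htp hUt h1 hκ
    (fun x => by
      unfold bt
      have : z * t x = t (z * x) := by rw [map_mul, htz]
      rw [this, hδt, hδt]) hN
  have h3 : csum U (fun x => bt δ z x * (d (t x) - d x)) = 0 := by
    rw [← h0]
    exact csum_congr fun x => mul_comm _ _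
  rw [h3] at h2
  refine Eq.trans ?_ h2.symm
  refine csum_congr fun x => ?_
  split_ifs with hx
  · rw [← hκ2 x hx]
    rfl
  · rfl

end

end Pool.Agent.H371.SE
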