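import Pool.Agent.H371.SE.A10
import Pool.Agent.H371.SE.A12

set_option autoImplicit false

namespace Pool.Agent.H371.SE

section
variable {p : ℕ} [Fact p.Prime] {Γ : Type} [Group Γ] [TopologicalSpace Γ] [IsTopologicalGroup Γ]
  [CompactSpace Γ] [T2Space Γ] {t : MulAut Γ}

theorem K3 (hG : Good p Γ) (ht : Continuous t) (htp : t ^ p = 1) {U : Subgroup Γ}
    (hU : IsOpen (U : Set Γ)) (hUt : Inv t U) (hA : ∀ x, t x = x → x ∈ U) {δ : Γ → ZMod p}
    (hδ : ∀ x, ∀ u ∈ U, δ (x * u) = δ x + δ u) (hδl : LC U δ) (hδt : ∀ x, δ (t x) = δ x) {z : Γ}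
    (htz : t z = z)
    (hz : ∀ ψ : Γ → ZMod p, AddOn ⊤ ψ → LC ⊤ ψ → ψ z = 0) : δ z = 0 := by
  classical
  have hfin : Finite (Γ ⧸ U) := finite_of_isOpen hU
  -- the family of cocycles
  let ι : Type := {q : Γ ⧸ U // q.out⁻¹ * t q.out ∈ U ∧ q.out ∉ U}
  have : Finite ι := Subtype.finite
  let b : ι → Γ := fun q => q.1.out⁻¹ * t q.1.out
  have hb : ∀ i, Z1 p t U (b i) := fun q => ⟨q.2.1, nm_cob htp _⟩
  have hn : ∀ i, ∃ l : Γ → ZMod p, X p t U l ∧ l (b i) ≠ 0 := by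
    intro q
    by_contra hcon
    push Not at hcon
    obtain ⟨u, hu, hbu⟩ := descent hG ht htp hU hUt (hb q) hcon
    have hbu' : q.1.out⁻¹ * t q.1.out = u⁻¹ * t u := hbu
    have h1 : t (q.1.out * u⁻¹) = q.1.out * u⁻¹ := by
      rw [map_mul, map_inv]
      have h2 : t q.1.out = q.1.out * (u⁻¹ * t u) := by
        rw [← hbu', mul_inv_cancel_left]
      rw [h2]
      group
    have h3 : q.1.out ∈ U := by
      have := U.mul_mem (hA _ h1) hu
      rwa [inv_mul_cancel_right] at this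
    exact q.2.2 h3
  obtain ⟨l, hl, hlb⟩ := X.ind hG ht htp hU hUt b hb hn
  have e1 := K2one hG ht htp hU hUt hδ hδl hδt htz hz
  have e2 := K2 hG ht htp hU hUt hδ hδl hδt htz hz hl
  let F : Γ → ZMod p := fun x => (if x⁻¹ * t x ∈ U then δ (z * x) - δ x else 0) +
    (if x⁻¹ * t x ∈ U then (δ (z * x) - δ x) * l (x⁻¹ * t x) else 0)
  have e3 : csum U F = 0 := by
    have := csum_add (U := U) (fun x => if x⁻¹ * t x ∈ U then δ (z * x) - δ x else 0)
      (fun x => if x⁻¹ * t x ∈ U then (δ (z * x) - δ x) * l (x⁻¹ * t x) else 0)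
    rw [e1, e2, add_zero] at this
    exact this
  have hl1 : l 1 = 0 := by
    have := hl.1 1 U.one_mem 1 U.one_mem
    rw [mul_one] at this
    exact left_eq_add.1 this
  have hδ1 : δ 1 = 0 := by
    have := hδ 1 1 U.one_mem
    rw [mul_one] at this
    exact left_eq_add.1 this
  have hRI : RI U F := by
    intro x u hu
    have htu : t u ∈ U := hUt u hu
    have hconj : (x * u)⁻¹ * t (x * u) = u⁻¹ * ((x⁻¹ * t x) * t u) := by
      rw [map_mul]; group
    have hmem : (x * u)⁻¹ * t (x * u) ∈ U ↔ x⁻¹ * t x ∈ U := by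
      rw [hconj, U.mul_mem_cancel_left (U.inv_mem hu), U.mul_mem_cancel_right htu]
    have hd : δ (z * (x * u)) - δ (x * u) = δ (z * x) - δ x := by
      rw [← mul_assoc, hδ _ u hu, hδ _ u hu]; ring
    by_cases hx : x⁻¹ * t x ∈ U
    · have hlu : l ((x * u)⁻¹ * t (x * u)) = l (x⁻¹ * t x) := by
        rw [hconj, hl.1 _ (U.inv_mem hu) _ (U.mul_mem hx htu), hl.1 _ hx _ htu, hl.2.2 u hu]
        have h4 := hl.1 _ (U.inv_mem hu) _ hu
        rw [inv_mul_cancel, hl1] at h4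
        linear_combination -h4
      show (if (x * u)⁻¹ * t (x * u) ∈ U then δ (z * (x * u)) - δ (x * u) else 0) +
        (if (x * u)⁻¹ * t (x * u) ∈ U then (δ (z * (x * u)) - δ (x * u)) *
          l ((x * u)⁻¹ * t (x * u)) else 0) = (if x⁻¹ * t x ∈ U then δ (z * x) - δ x else 0) +
        (if x⁻¹ * t x ∈ U then (δ (z * x) - δ x) * l (x⁻¹ * t x) else 0)
      rw [if_pos (hmem.2 hx), if_pos (hmem.2 hx), if_pos hx, if_pos hx, hd, hlu]
    · show (if (x * u)⁻¹ * t (x * u) ∈ U then δ (z * (x * u)) - δ (x * u) else 0) +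
        (if (x * u)⁻¹ * t (x * u) ∈ U then (δ (z * (x * u)) - δ (x * u)) *
          l ((x * u)⁻¹ * t (x * u)) else 0) = (if x⁻¹ * t x ∈ U then δ (z * x) - δ x else 0) +
        (if x⁻¹ * t x ∈ U then (δ (z * x) - δ x) * l (x⁻¹ * t x) else 0)
      have hx' : (x * u)⁻¹ * t (x * u) ∉ U := fun h => hx (hmem.1 h)
      rw [if_neg hx', if_neg hx', if_neg hx, if_neg hx]
  have hout : ∀ x, x ∉ U → F x = 0 := by
    intro x hx
    obtain ⟨u, hu⟩ := QuotientGroup.mk_out_eq_mul U x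
    have h5 : F ((x : Γ ⧸ U).out) = F x := by rw [hu]; exact hRI x u u.2
    have h6 : ((x : Γ ⧸ U).out) ∉ U := by
      rw [hu]
      intro h7
      exact hx ((U.mul_mem_cancel_right u.2).1 h7)
    rw [← h5]
    set y := ((x : Γ ⧸ U).out) with hy
    show (if y⁻¹ * t y ∈ U then δ (z * y) - δ y else 0) +
      (if y⁻¹ * t y ∈ U then (δ (z * y) - δ y) * l (y⁻¹ * t y) else 0) = 0
    by_cases h8 : y⁻¹ * t y ∈ U
    · have h9 : l (y⁻¹ * t y) = -1 := hlb ⟨(x : Γ ⧸ U), h8, h6⟩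
      rw [if_pos h8, if_pos h8, h9]; ring
    · rw [if_neg h8, if_neg h8, add_zero]
  rw [csum_single hRI hout] at e3
  have h10 : F 1 = δ z := by
    show (if (1 : Γ)⁻¹ * t 1 ∈ U then δ (z * 1) - δ 1 else 0) +
      (if (1 : Γ)⁻¹ * t 1 ∈ U then (δ (z * 1) - δ 1) * l ((1 : Γ)⁻¹ * t 1) else 0) = δ z
    have h11 : (1 : Γ)⁻¹ * t 1 = 1 := by rw [map_one, inv_one, mul_one]
    rw [h11, if_pos U.one_mem, if_pos U.one_mem, hl1, hδ1, mul_one]; ring
  rw [← h10, e3]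

end

end Pool.Agent.H371.SE
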