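import Pool.Agent.H371.SE.A1

set_option autoImplicit false

namespace Pool.Agent.H371.SE.A2x

section
variable {p : ℕ} [Fact p.Prime] {Γ : Type} [Group Γ] {t : MulAut Γ}

omit [Fact p.Prime] in
theorem pow_succ_apply (t : MulAut Γ) (i : ℕ) (x : Γ) : (t ^ (i + 1)) x = (t ^ i) (t x) := by
  rw [pow_succ]; rfl

omit [Fact p.Prime] in
theorem inv_pow {U : Subgroup Γ} (hUt : Inv t U) (i : ℕ) : ∀ x ∈ U, (t ^ i) x ∈ U := by
  induction i with
  | zero => intro x hx; simpa using hx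
  | succ i ih =>
    intro x hx
    rw [pow_succ_apply]
    exact ih _ (hUt x hx)

omit [Fact p.Prime] in
theorem cont_pow [TopologicalSpace Γ] (ht : Continuous t) (i : ℕ) :
    Continuous (t ^ i : MulAut Γ) := by
  induction i with
  | zero => simpa using continuous_id
  | succ i ih =>
    have e : ((t ^ (i + 1) : MulAut Γ) : Γ → Γ) = (t ^ i : MulAut Γ) ∘ t := by
      funext x
      exact pow_succ_apply t i x
    rw [e]
    exact ih.comp ht

omit [Fact p.Prime] in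
theorem pow_fix {x : Γ} (hx : t x = x) (i : ℕ) : (t ^ i) x = x := by
  induction i with
  | zero => simp
  | succ i ih => rw [pow_succ_apply, hx, ih]

omit [Fact p.Prime] in
theorem inv_fun {M : Type} {U : Subgroup Γ} (hUt : Inv t U) {f : Γ → M}
    (hf : ∀ x ∈ U, f (t x) = f x) (i : ℕ) : ∀ x ∈ U, f ((t ^ i) x) = f x := by
  induction i with
  | zero => intro x _; simp
  | succ i ih =>
    intro x hx
    rw [pow_succ_apply, ih _ (hUt x hx), hf x hx]

omit [Fact p.Prime] in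
theorem addOn_Nf {M : Type} [AddCommGroup M] {U : Subgroup Γ} (hUt : Inv t U) {f : Γ → M}
    (hf : AddOn U f) : AddOn U (Nf p t f) := by
  intro x hx y hy
  unfold Nf
  rw [← Finset.sum_add_distrib]
  refine Finset.sum_congr rfl fun i _ => ?_
  rw [map_mul]
  exact hf _ (inv_pow hUt i x hx) _ (inv_pow hUt i y hy)

theorem dvd_iff_toZMod (a : ℤ_[p]) : (p : ℤ_[p]) ∣ a ↔ PadicInt.toZMod a = 0 := by
  rw [← RingHom.mem_ker, PadicInt.ker_toZMod, PadicInt.maximalIdeal_eq_span_p,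
    Ideal.mem_span_singleton]

theorem p_ne_zero : (p : ℤ_[p]) ≠ 0 := by
  have := (Fact.out : p.Prime).ne_zero
  exact_mod_cast this

end

section
variable {p : ℕ} [Fact p.Prime] {Γ : Type} [Group Γ] [TopologicalSpace Γ] {t : MulAut Γ}

theorem cz_zero (U : Subgroup Γ) : CZ p U (fun _ => 0) := by
  intro k
  refine ⟨⊤, ?_, ?_⟩
  · simp
  · intro x _ w _ _
    simp

theorem cz_add {U : Subgroup Γ} {f g : Γ → ℤ_[p]} (hf : CZ p U f) (hg : CZ p U g) :
    CZ p U (fun x => f x + g x) := by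
  intro k
  obtain ⟨W₁, h₁, h₁'⟩ := hf k
  obtain ⟨W₂, h₂, h₂'⟩ := hg k
  refine ⟨W₁ ⊓ W₂, ?_, ?_⟩
  · rw [Subgroup.coe_inf]
    exact h₁.inter h₂
  · intro x hx w hw hW
    have a := h₁' x hx w hw (Subgroup.mem_inf.mp hW).1
    have b := h₂' x hx w hw (Subgroup.mem_inf.mp hW).2
    have e : f (x * w) + g (x * w) - (f x + g x) = (f (x * w) - f x) + (g (x * w) - g x) := by
      ring
    rw [e]
    exact dvd_add a b

theorem cz_neg {U : Subgroup Γ} {f : Γ → ℤ_[p]} (hf : CZ p U f) :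
    CZ p U (fun x => - f x) := by
  intro k
  obtain ⟨W₁, h₁, h₁'⟩ := hf k
  refine ⟨W₁, h₁, ?_⟩
  intro x hx w hw hW
  have a := h₁' x hx w hw hW
  have e : - f (x * w) - (- f x) = -(f (x * w) - f x) := by ring
  rw [e]
  exact (dvd_neg).mpr a

theorem cz_sum {U : Subgroup Γ} {ι : Type} (s : Finset ι) (f : ι → Γ → ℤ_[p])
    (hf : ∀ i, CZ p U (f i)) : CZ p U (fun x => ∑ i ∈ s, f i x) := by
  classical
  induction s using Finset.induction_on with
  | empty => simpa using cz_zero U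
  | insert a s ha ih =>
    simp only [Finset.sum_insert ha]
    exact cz_add (hf a) ih

theorem cz_comp (ht : Continuous t) {U : Subgroup Γ} (hUt : Inv t U) {f : Γ → ℤ_[p]}
    (hf : CZ p U f) (i : ℕ) : CZ p U (fun x => f ((t ^ i) x)) := by
  intro k
  obtain ⟨W, h, h'⟩ := hf k
  refine ⟨W.comap (t ^ i : MulAut Γ).toMonoidHom, ?_, ?_⟩
  · rw [Subgroup.coe_comap]
    exact h.preimage (cont_pow ht i)
  · intro x hx w hw hW
    show (p : ℤ_[p]) ^ k ∣ f ((t ^ i) (x * w)) - f ((t ^ i) x)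
    rw [map_mul]
    exact h' _ (inv_pow hUt i x hx) _ (inv_pow hUt i w hw) hW

theorem cz_Nf (ht : Continuous t) {U : Subgroup Γ} (hUt : Inv t U) {f : Γ → ℤ_[p]}
    (hf : CZ p U f) : CZ p U (Nf p t f) :=
  cz_sum (Finset.range p) (fun i x => f ((t ^ i) x)) (fun i => cz_comp ht hUt hf i)

/-- division of the norm by `p` -/
theorem exists_div (ht : Continuous t) (htp : t ^ p = 1) {U : Subgroup Γ} (hUt : Inv t U)
    {v : Γ → ℤ_[p]} (hv : HZ p U v) (hdiv : ∀ x ∈ U, (p : ℤ_[p]) ∣ Nf p t v x) :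
    ∃ u : Γ → ℤ_[p], HZ p U u ∧ (∀ x ∈ U, u (t x) = u x) ∧
      ∀ x ∈ U, Nf p t v x = p * u x := by
  classical
  have hu : ∀ x : Γ, ∃ a : ℤ_[p], x ∈ U → Nf p t v x = p * a := by
    intro x
    by_cases hx : x ∈ U
    · obtain ⟨a, ha⟩ := hdiv x hx
      exact ⟨a, fun _ => ha⟩
    · exact ⟨0, fun h => absurd h hx⟩
  choose u hu using hu
  refine ⟨u, ⟨?_, ?_⟩, ?_, hu⟩
  · intro x hx y hy
    have h := addOn_Nf (p := p) hUt hv.1 x hx y hy
    rw [hu _ (mul_mem hx hy), hu _ hx, hu _ hy, ← mul_add] at h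
    exact mul_left_cancel₀ p_ne_zero h
  · intro k
    obtain ⟨W, h, h'⟩ := cz_Nf ht hUt hv.2 (k + 1)
    refine ⟨W, h, ?_⟩
    intro x hx w hw hW
    have a := h' x hx w hw hW
    rw [hu _ (mul_mem hx hw), hu _ hx, ← mul_sub, pow_succ'] at a
    exact (mul_dvd_mul_iff_left p_ne_zero).mp a
  · intro x hx
    have h := Nf_comp (p := p) htp v x
    rw [hu _ (hUt x hx), hu _ hx] at h
    exact mul_left_cancel₀ p_ne_zero h

theorem hz_sub {U : Subgroup Γ} {v u : Γ → ℤ_[p]} (hv : HZ p U v) (hu : HZ p U u) :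
    HZ p U (fun x => v x - u x) := by
  constructor
  · intro x hx y hy
    show v (x * y) - u (x * y) = v x - u x + (v y - u y)
    rw [hv.1 x hx y hy, hu.1 x hx y hy]
    ring
  · have := cz_add hv.2 (cz_neg hu.2)
    simpa [sub_eq_add_neg] using this

theorem Nf_sub_u {U : Subgroup Γ} (hUt : Inv t U) {v u : Γ → ℤ_[p]}
    (hut : ∀ x ∈ U, u (t x) = u x) (hu : ∀ x ∈ U, Nf p t v x = p * u x) :
    ∀ x ∈ U, Nf p t (fun x => v x - u x) x = 0 := by
  intro x hx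
  have e : Nf p t (fun x => v x - u x) x = Nf p t v x - ∑ i ∈ Finset.range p, u ((t ^ i) x) := by
    unfold Nf
    rw [← Finset.sum_sub_distrib]
  rw [e, Finset.sum_congr rfl (fun i _ => inv_fun hUt hut i x hx), Finset.sum_const,
    Finset.card_range, nsmul_eq_mul, hu x hx, sub_self]

/-- a lift of a homomorphism to `ZMod p` -/
theorem exists_lift_X [IsTopologicalGroup Γ] [CompactSpace Γ] [T2Space Γ] (hG : Good p Γ)
    {U : Subgroup Γ} (hU : IsOpen (U : Set Γ)) {l : Γ → ZMod p} (hl : AddOn U l)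
    (hlc : LC U l) :
    ∃ v : Γ → ℤ_[p], HZ p U v ∧ ∀ x ∈ U, PadicInt.toZMod (v x) = l x := by
  have hf : ∀ x, PadicInt.toZMod (((l x).val : ℕ) : ℤ_[p]) = l x := by
    intro x
    rw [map_natCast, ZMod.natCast_zmod_val]
  obtain ⟨v, hv, hv'⟩ := lift hG hU 1 (fun x => (((l x).val : ℕ) : ℤ_[p]))
    (by
      intro x hx y hy
      rw [pow_one, dvd_iff_toZMod, map_sub, map_add, hf, hf, hf, hl x hx y hy, sub_self])
    (by
      obtain ⟨W, hW, hW'⟩ := hlc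
      refine ⟨W, hW, ?_⟩
      intro x hx w hw hwW
      rw [pow_one, dvd_iff_toZMod, map_sub, hf, hf, hW' x hx w hw hwW, sub_self])
  refine ⟨v, hv, ?_⟩
  intro x hx
  have := hv' x hx
  rw [pow_one, dvd_iff_toZMod, map_sub, hf, sub_eq_zero] at this
  exact this

theorem dvd_Nf {U : Subgroup Γ} (hUt : Inv t U) {l : Γ → ZMod p}
    (hlt : ∀ x ∈ U, l (t x) = l x) {v : Γ → ℤ_[p]}
    (hv : ∀ x ∈ U, PadicInt.toZMod (v x) = l x) : ∀ x ∈ U, (p : ℤ_[p]) ∣ Nf p t v x := by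
  intro x hx
  rw [dvd_iff_toZMod]
  unfold Nf
  rw [map_sum, Finset.sum_congr rfl (fun i _ => (hv _ (inv_pow hUt i x hx)).trans
    (inv_fun hUt hlt i x hx)), Finset.sum_const, Finset.card_range, nsmul_eq_mul,
    CharP.cast_eq_zero, zero_mul]

end

end Pool.Agent.H371.SE.A2x

namespace Pool.Agent.H371.SE

section
variable {p : ℕ} [Fact p.Prime] {Γ : Type} [Group Γ] [TopologicalSpace Γ] [IsTopologicalGroup Γ]
  [CompactSpace Γ] [T2Space Γ] {t : MulAut Γ}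

theorem exists_w (hG : Good p Γ) (ht : Continuous t) (htp : t ^ p = 1) {U : Subgroup Γ}
    (hU : IsOpen (U : Set Γ)) (hUt : Inv t U) (f : Γ → ℤ_[p])
    (hadd : ∀ x ∈ U, ∀ y ∈ U, (p : ℤ_[p]) ^ 2 ∣ f (x * y) - (f x + f y))
    (hlc : ∃ W : Subgroup Γ, IsOpen (W : Set Γ) ∧
      ∀ x ∈ U, ∀ w ∈ U, w ∈ W → (p : ℤ_[p]) ^ 2 ∣ f (x * w) - f x)
    (hN : ∀ x ∈ U, (p : ℤ_[p]) ^ 2 ∣ Nf p t f x)
    (hi : ∀ x ∈ U, (p : ℤ_[p]) ∣ f (t x) - f x) :
    ∃ w : Γ → ℤ_[p], Wf p t U w ∧ ∀ x ∈ U, (p : ℤ_[p]) ∣ w x - f x := by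
  obtain ⟨v, hv, hvf⟩ := lift hG hU 2 f hadd hlc
  have h2 : ∀ x ∈ U, (p : ℤ_[p]) ^ 2 ∣ Nf p t v x := by
    intro x hx
    have e : Nf p t v x = Nf p t f x + ∑ i ∈ Finset.range p, (v ((t ^ i) x) - f ((t ^ i) x)) := by
      unfold Nf
      rw [← Finset.sum_add_distrib]
      refine Finset.sum_congr rfl fun i _ => ?_
      ring
    rw [e]
    exact dvd_add (hN x hx)
      (Finset.dvd_sum fun i _ => hvf _ (A2x.inv_pow hUt i x hx))
  have hpp : (p : ℤ_[p]) ∣ (p : ℤ_[p]) ^ 2 := dvd_pow_self _ two_ne_zero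
  obtain ⟨u, hu, hut, huv⟩ := A2x.exists_div ht htp hUt hv
    (fun x hx => hpp.trans (h2 x hx))
  have hpu : ∀ x ∈ U, (p : ℤ_[p]) ∣ u x := by
    intro x hx
    have := h2 x hx
    rw [huv x hx, pow_two] at this
    exact (mul_dvd_mul_iff_left A2x.p_ne_zero).mp this
  have hpv : ∀ x ∈ U, (p : ℤ_[p]) ∣ v x - f x := fun x hx => hpp.trans (hvf x hx)
  refine ⟨fun x => v x - u x, ⟨A2x.hz_sub hv hu, A2x.Nf_sub_u hUt hut huv, ?_⟩, ?_⟩
  · intro x hx
    have e : v (t x) - u (t x) - (v x - u x) =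
        (v (t x) - f (t x)) + (f (t x) - f x) - (v x - f x) := by
      rw [hut x hx]; ring
    show (p : ℤ_[p]) ∣ v (t x) - u (t x) - (v x - u x)
    rw [e]
    exact dvd_sub (dvd_add (hpv _ (hUt x hx)) (hi x hx)) (hpv x hx)
  · intro x hx
    have e : v x - u x - f x = (v x - f x) - u x := by ring
    show (p : ℤ_[p]) ∣ v x - u x - f x
    rw [e]
    exact dvd_sub (hpv x hx) (hpu x hx)

theorem exists_w1 (hG : Good p Γ) (ht : Continuous t) (htp : t ^ p = 1) {U : Subgroup Γ}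
    (hU : IsOpen (U : Set Γ)) (hUt : Inv t U) {l : Γ → ZMod p} (hl : X p t U l) :
    ∃ w : Γ → ℤ_[p], Wf p t U w ∧ ∀ c, Z1 p t U c → PadicInt.toZMod (w c) = l c := by
  obtain ⟨v, hv, hvl⟩ := A2x.exists_lift_X hG hU hl.1 hl.2.1
  obtain ⟨u, hu, hut, huv⟩ := A2x.exists_div ht htp hUt hv (A2x.dvd_Nf hUt hl.2.2 hvl)
  refine ⟨fun x => v x - u x, ⟨A2x.hz_sub hv hu, A2x.Nf_sub_u hUt hut huv, ?_⟩, ?_⟩
  · intro x hx
    show (p : ℤ_[p]) ∣ v (t x) - u (t x) - (v x - u x)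
    rw [hut x hx, A2x.dvd_iff_toZMod, map_sub, map_sub, map_sub, hvl _ (hUt x hx), hvl x hx,
      hl.2.2 x hx, sub_self]
  · intro c hc
    have h0 := Nf_eq_zero hUt hv.1 hc
    rw [huv c hc.1] at h0
    have hu0 : u c = 0 := (mul_eq_zero.mp h0).resolve_left A2x.p_ne_zero
    show PadicInt.toZMod (v c - u c) = l c
    rw [hu0, sub_zero, hvl c hc.1]

theorem exists_v1 (hG : Good p Γ) (ht : Continuous t) (htp : t ^ p = 1) {U : Subgroup Γ}
    (hU : IsOpen (U : Set Γ)) (hUt : Inv t U) {l : Γ → ZMod p} (hl : X p t U l) :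
    ∃ v : Γ → ℤ_[p], HZ p U v ∧ (∀ x ∈ U, v (t x) = v x) ∧
      ∀ x ∈ U, t x = x → PadicInt.toZMod (v x) = l x := by
  obtain ⟨v, hv, hvl⟩ := A2x.exists_lift_X hG hU hl.1 hl.2.1
  obtain ⟨u, hu, hut, huv⟩ := A2x.exists_div ht htp hUt hv (A2x.dvd_Nf hUt hl.2.2 hvl)
  refine ⟨u, hu, hut, ?_⟩
  intro x hx htx
  have h := huv x hx
  unfold Nf at h
  rw [Finset.sum_congr rfl (fun i _ => by rw [A2x.pow_fix htx i] :
      ∀ i ∈ Finset.range p, v ((t ^ i) x) = v x), Finset.sum_const, Finset.card_range,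
    nsmul_eq_mul] at h
  rw [← mul_left_cancel₀ A2x.p_ne_zero h, hvl x hx]

end

end Pool.Agent.H371.SE
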