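import Pool.Agent.H371.SE.Defs

set_option autoImplicit false

namespace Pool.Agent.H371.SE

namespace A0x

variable {Γ : Type} [Group Γ] {t : MulAut Γ}

theorem pow_succ_apply (i : ℕ) (x : Γ) : (t ^ (i + 1)) x = (t ^ i) (t x) := by
  rw [pow_succ, MulAut.mul_apply]

theorem inv_pow {U : Subgroup Γ} (hU : Inv t U) (i : ℕ) : ∀ x ∈ U, (t ^ i) x ∈ U := by
  induction i with
  | zero => intro x hx; simpa using hx
  | succ i ih => intro x hx; rw [pow_succ_apply]; exact ih _ (hU x hx)

theorem nm_aux (x c : Γ) (n : ℕ) :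
    nm t n (x⁻¹ * c * t x) = x⁻¹ * nm t n c * (t ^ n) x := by
  induction n with
  | zero => simp [nm]
  | succ n ih =>
    have h1 : ∀ a : Γ, nm t (n + 1) a = nm t n a * (t ^ n) a := by
      intro a
      simp [nm, List.range_succ]
    rw [h1, h1, ih, pow_succ_apply, map_mul, map_mul, map_inv]
    group

theorem add_nm {M : Type} [AddCommGroup M] {U : Subgroup Γ} (hU : Inv t U) {f : Γ → M}
    (hf : AddOn U f) {c : Γ} (hc : c ∈ U) (n : ℕ) :
    nm t n c ∈ U ∧ f (nm t n c) = ∑ i ∈ Finset.range n, f ((t ^ i) c) := by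
  have h0 : f 1 = 0 := by
    have h := hf 1 U.one_mem 1 U.one_mem
    rw [mul_one] at h
    exact left_eq_add.1 h
  induction n with
  | zero =>
    have h1 : nm t 0 c = 1 := by simp [nm]
    rw [h1]
    exact ⟨U.one_mem, by simpa using h0⟩
  | succ n ih =>
    have h1 : nm t (n + 1) c = nm t n c * (t ^ n) c := by
      simp [nm, List.range_succ]
    have h2 := inv_pow hU n c hc
    rw [h1]
    exact ⟨U.mul_mem ih.1 h2, by rw [hf _ ih.1 _ h2, ih.2, Finset.sum_range_succ]⟩

end A0x

section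
variable {p : ℕ} [Fact p.Prime] {Γ : Type} [Group Γ] [TopologicalSpace Γ] [IsTopologicalGroup Γ]
  [CompactSpace Γ] [T2Space Γ] {t : MulAut Γ}

/-- small open normal `t`-invariant subgroups -/
theorem basis_t (hG : Good p Γ) (ht : Continuous t) (htp : t ^ p = 1) (S : Set Γ) (hS : IsOpen S)
    (h1 : (1 : Γ) ∈ S) :
    ∃ W : Subgroup Γ, W.Normal ∧ IsOpen (W : Set Γ) ∧ Inv t W ∧ (W : Set Γ) ⊆ S := by
  obtain ⟨W0, hn, ho, hs⟩ := hG.basis S hS h1
  have hp : 0 < p := (Fact.out : p.Prime).pos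
  let W : Subgroup Γ :=
    { carrier := {x | ∀ i : ℕ, (t ^ i) x ∈ W0}
      mul_mem' := fun {a b} ha hb i => by rw [map_mul]; exact W0.mul_mem (ha i) (hb i)
      one_mem' := fun i => by rw [map_one]; exact W0.one_mem
      inv_mem' := fun {a} ha i => by rw [map_inv]; exact W0.inv_mem (ha i) }
  have hmem : ∀ x, x ∈ W ↔ ∀ i : ℕ, (t ^ i) x ∈ W0 := fun x => Iff.rfl
  have hcont : ∀ i : ℕ, Continuous fun x : Γ => (t ^ i) x := by
    intro i
    induction i with
    | zero =>
      have h2 : (fun x : Γ => (t ^ 0) x) = fun x => x := by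
        funext x
        rw [pow_zero, MulAut.one_apply]
      rw [h2]
      exact continuous_id
    | succ i ih =>
      have h2 : (fun x : Γ => (t ^ (i + 1)) x) = (fun x : Γ => (t ^ i) x) ∘ t := by
        funext x
        exact A0x.pow_succ_apply i x
      rw [h2]
      exact ih.comp ht
  refine ⟨W, ⟨fun x hx g => ?_⟩, ?_, ?_, ?_⟩
  · rw [hmem]
    intro i
    rw [map_mul, map_mul, map_inv]
    exact hn.conj_mem _ (hx i) _
  · have h2 : (W : Set Γ) = ⋂ i ∈ Finset.range p, (fun x : Γ => (t ^ i) x) ⁻¹' (W0 : Set Γ) := by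
      ext x
      simp only [Set.mem_iInter, Set.mem_preimage, SetLike.mem_coe, Finset.mem_range]
      constructor
      · intro h i _
        exact h i
      · intro h i
        change (t ^ i) x ∈ W0
        rw [pow_eq_pow_mod i htp]
        exact h _ (Nat.mod_lt _ hp)
    rw [h2]
    exact isOpen_biInter_finset fun i _ => ho.preimage (hcont i)
  · intro x hx
    rw [hmem]
    intro i
    rw [← A0x.pow_succ_apply]
    exact hx (i + 1)
  · intro x hx
    apply hs
    have h2 := hx 0
    simpa using h2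

omit [Fact p.Prime] [TopologicalSpace Γ] [IsTopologicalGroup Γ] [CompactSpace Γ] [T2Space Γ] in
theorem inv_iff (hp : 0 < p) (htp : t ^ p = 1) {U : Subgroup Γ} (hU : Inv t U) (x : Γ) :
    t x ∈ U ↔ x ∈ U := by
  constructor
  · intro h
    have h2 := A0x.inv_pow hU (p - 1) _ h
    rw [← A0x.pow_succ_apply, Nat.sub_add_cancel hp, htp, MulAut.one_apply] at h2
    exact h2
  · exact hU x

omit [Fact p.Prime] [TopologicalSpace Γ] [IsTopologicalGroup Γ] [CompactSpace Γ] [T2Space Γ] in
/-- `x⁻¹ * t x` satisfies the cocycle condition -/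
theorem nm_cob (htp : t ^ p = 1) (x : Γ) : nm t p (x⁻¹ * t x) = 1 := by
  have h := A0x.nm_aux (t := t) x 1 p
  have h1 : nm t p (1 : Γ) = 1 := by simp [nm]
  rw [h1, htp, MulAut.one_apply, mul_one, inv_mul_cancel] at h
  exact h

omit [Fact p.Prime] [TopologicalSpace Γ] [IsTopologicalGroup Γ] [CompactSpace Γ] [T2Space Γ] in
/-- twisting a cocycle -/
theorem nm_twist (htp : t ^ p = 1) (x c : Γ) (hc : nm t p c = 1) :
    nm t p (x⁻¹ * c * t x) = 1 := by
  rw [A0x.nm_aux, hc, htp, MulAut.one_apply, mul_one, inv_mul_cancel]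

omit [Fact p.Prime] [TopologicalSpace Γ] [IsTopologicalGroup Γ] [CompactSpace Γ] [T2Space Γ] in
/-- the norm of an additive function vanishes on cocycles -/
theorem Nf_eq_zero {M : Type} [AddCommGroup M] {U : Subgroup Γ} (hU : Inv t U) {f : Γ → M}
    (hf : AddOn U f) {c : Γ} (hc : Z1 p t U c) : Nf p t f c = 0 := by
  have h0 : f 1 = 0 := by
    have h := hf 1 U.one_mem 1 U.one_mem
    rw [mul_one] at h
    exact left_eq_add.1 h
  have h := (A0x.add_nm hU hf hc.1 p).2
  rw [hc.2, h0] at h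
  exact h.symm

omit [Fact p.Prime] [TopologicalSpace Γ] [IsTopologicalGroup Γ] [CompactSpace Γ] [T2Space Γ] in
theorem Nf_comp {M : Type} [AddCommGroup M] (htp : t ^ p = 1) (f : Γ → M) (x : Γ) :
    Nf p t f (t x) = Nf p t f x := by
  unfold Nf
  have h1 := Finset.sum_range_succ (fun i => f ((t ^ i) x)) p
  have h2 := Finset.sum_range_succ' (fun i => f ((t ^ i) x)) p
  rw [h1, htp, pow_zero] at h2
  have h3 := add_right_cancel h2
  rw [h3]
  exact Finset.sum_congr rfl fun i _ => by rw [A0x.pow_succ_apply]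

end

end Pool.Agent.H371.SE
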