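import Pool.Agent.H371.SE.A2

set_option autoImplicit false

namespace Pool.Agent.H371.SE

namespace A7x

variable {p : ℕ} [Fact p.Prime] {Γ : Type} [Group Γ]

open Classical in
/-- the function on `B W` -/
noncomputable def ff (B W : Subgroup Γ) (w : Γ → ℤ_[p]) (y : Γ) : ℤ_[p] :=
  if h : ∃ b, b ∈ B ∧ b⁻¹ * y ∈ W then w h.choose else 0

theorem ff_eq {B W : Subgroup Γ} {w : Γ → ℤ_[p]}
    (hw : ∀ x ∈ B, ∀ b ∈ B, b ∈ W → (p : ℤ_[p]) ^ 2 ∣ w (x * b) - w x) {y b : Γ} (hb : b ∈ B)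
    (hy : b⁻¹ * y ∈ W) : (p : ℤ_[p]) ^ 2 ∣ ff B W w y - w b := by
  have h : ∃ b, b ∈ B ∧ b⁻¹ * y ∈ W := ⟨b, hb, hy⟩
  unfold ff
  rw [dif_pos h]
  obtain ⟨h1, h2⟩ := h.choose_spec
  have h3 : b⁻¹ * h.choose ∈ W := by
    have e : b⁻¹ * h.choose = (b⁻¹ * y) * (h.choose⁻¹ * y)⁻¹ := by group
    rw [e]
    exact W.mul_mem hy (W.inv_mem h2)
  have h4 := hw b hb (b⁻¹ * h.choose) (B.mul_mem (B.inv_mem hb) h1) h3
  rwa [mul_inv_cancel_left] at h4

theorem mem_sup {B W : Subgroup Γ} (hW : W.Normal) {y : Γ} :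
    y ∈ B ⊔ W ↔ ∃ b, b ∈ B ∧ b⁻¹ * y ∈ W := by
  rw [Subgroup.mem_sup_of_normal_right]
  constructor
  · rintro ⟨b, hb, c, hc, rfl⟩
    exact ⟨b, hb, by rwa [inv_mul_cancel_left]⟩
  · rintro ⟨b, hb, hy⟩
    exact ⟨b, hb, b⁻¹ * y, hy, mul_inv_cancel_left b y⟩

theorem pow_mem {t : MulAut Γ} {W : Subgroup Γ} (hW : Inv t W) (i : ℕ) {x : Γ} (hx : x ∈ W) :
    (t ^ i) x ∈ W := by
  induction i with
  | zero => simpa using hx
  | succ i ih =>
    rw [pow_succ', MulAut.mul_apply]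
    exact hW _ ih

end A7x

section
variable {p : ℕ} [Fact p.Prime] {Γ : Type} [Group Γ] [TopologicalSpace Γ] [IsTopologicalGroup Γ]
  [CompactSpace Γ] [T2Space Γ] {t : MulAut Γ}

open A7x in
/-- extension of the functions `Wf` from a subgroup `B` to a small open neighbourhood of it -/
theorem extend_w (hG : Good p Γ) (ht : Continuous t) (htp : t ^ p = 1) {U : Subgroup Γ}
    (hU : IsOpen (U : Set Γ)) {B : Subgroup Γ} (hBt : Inv t B)
    (hBU : B ≤ U) {w : Γ → ℤ_[p]} (hw : Wf p t B w) {V₁ : Subgroup Γ}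
    (hV₁ : IsOpen (V₁ : Set Γ)) (hBV : ∀ b ∈ B, (p : ℤ_[p]) ∣ w b → b ∈ V₁) :
    ∃ (V : Subgroup Γ) (w' : Γ → ℤ_[p]), IsOpen (V : Set Γ) ∧ Inv t V ∧ B ≤ V ∧ V ≤ U ∧
      Wf p t V w' ∧ (∀ b ∈ B, (p : ℤ_[p]) ∣ w' b - w b) ∧
      ∀ y ∈ V, (p : ℤ_[p]) ∣ w' y → y ∈ V₁ := by
  obtain ⟨⟨hadd, hcz⟩, hN, hi⟩ := hw
  obtain ⟨W₀, hW₀, hW₀'⟩ := hcz 2
  obtain ⟨W, hWn, hWo, hWt, hWs⟩ := basis_t hG ht htp
    ((W₀ : Set Γ) ∩ ((U : Set Γ) ∩ (V₁ : Set Γ))) (hW₀.inter (hU.inter hV₁))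
    ⟨W₀.one_mem, U.one_mem, V₁.one_mem⟩
  have hW0 : ∀ x ∈ W, x ∈ W₀ := fun x hx => (hWs hx).1
  have hWU : ∀ x ∈ W, x ∈ U := fun x hx => (hWs hx).2.1
  have hWV : ∀ x ∈ W, x ∈ V₁ := fun x hx => (hWs hx).2.2
  have hwW : ∀ x ∈ B, ∀ b ∈ B, b ∈ W → (p : ℤ_[p]) ^ 2 ∣ w (x * b) - w x :=
    fun x hx b hb hbW => hW₀' x hx b hb (hW0 b hbW)
  set V : Subgroup Γ := B ⊔ W with hV
  have hBV' : B ≤ V := le_sup_left
  have hWV' : W ≤ V := le_sup_right
  have hVo : IsOpen (V : Set Γ) := Subgroup.isOpen_mono hWV' hWo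
  have hVU : V ≤ U := sup_le hBU hWU
  have hVt : Inv t V := by
    intro y hy
    obtain ⟨b, hb, hy'⟩ := (mem_sup hWn).1 hy
    refine (mem_sup hWn).2 ⟨t b, hBt b hb, ?_⟩
    rw [← map_inv, ← map_mul]
    exact hWt _ hy'
  set f : Γ → ℤ_[p] := ff B W w with hf
  have hfe : ∀ {y b : Γ}, b ∈ B → b⁻¹ * y ∈ W → (p : ℤ_[p]) ^ 2 ∣ f y - w b :=
    fun hb hy => ff_eq hwW hb hy
  have hp2 : (p : ℤ_[p]) ∣ (p : ℤ_[p]) ^ 2 := dvd_pow_self _ two_ne_zero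
  obtain ⟨w', hw', hw'f⟩ := exists_w hG ht htp hVo hVt f (by
      intro x hx y hy
      obtain ⟨b, hb, hx'⟩ := (mem_sup hWn).1 hx
      obtain ⟨c, hc, hy'⟩ := (mem_sup hWn).1 hy
      have h1 : (b * c)⁻¹ * (x * y) ∈ W := by
        have e : (b * c)⁻¹ * (x * y) = (c⁻¹ * (b⁻¹ * x) * (c⁻¹)⁻¹) * (c⁻¹ * y) := by group
        rw [e]
        exact W.mul_mem (hWn.conj_mem _ hx' _) hy'
      have h2 := hfe (B.mul_mem hb hc) h1
      rw [hadd b hb c hc] at h2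
      have h3 := hfe hb hx'
      have h4 := hfe hc hy'
      have e : f (x * y) - (f x + f y) =
          (f (x * y) - (w b + w c)) - (f x - w b) - (f y - w c) := by ring
      rw [e]
      exact dvd_sub (dvd_sub h2 h3) h4)
    ⟨W, hWo, by
      intro x hx u hu huW
      obtain ⟨b, hb, hx'⟩ := (mem_sup hWn).1 hx
      have h1 : b⁻¹ * (x * u) ∈ W := by
        rw [← mul_assoc]
        exact W.mul_mem hx' huW
      have h2 := hfe hb h1
      have h3 := hfe hb hx'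
      have e : f (x * u) - f x = (f (x * u) - w b) - (f x - w b) := by ring
      rw [e]
      exact dvd_sub h2 h3⟩
    (by
      intro x hx
      obtain ⟨b, hb, hx'⟩ := (mem_sup hWn).1 hx
      have h1 : Nf p t f x = ∑ i ∈ Finset.range p, (f ((t ^ i) x) - w ((t ^ i) b)) := by
        have h0 := hN b hb
        unfold Nf at h0 ⊢
        rw [Finset.sum_sub_distrib, h0, sub_zero]
      rw [h1]
      refine Finset.dvd_sum fun i _ => ?_
      refine hfe (pow_mem hBt i hb) ?_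
      rw [← map_inv, ← map_mul]
      exact pow_mem hWt i hx')
    (by
      intro x hx
      obtain ⟨b, hb, hx'⟩ := (mem_sup hWn).1 hx
      have h1 : (t b)⁻¹ * t x ∈ W := by
        rw [← map_inv, ← map_mul]
        exact hWt _ hx'
      have h2 := hp2.trans (hfe (hBt b hb) h1)
      have h3 := hp2.trans (hfe hb hx')
      have h4 := hi b hb
      have e : f (t x) - f x = (f (t x) - w (t b)) + (w (t b) - w b) - (f x - w b) := by ring
      rw [e]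
      exact dvd_sub (dvd_add h2 h4) h3)
  refine ⟨V, w', hVo, hVt, hBV', hVU, hw', ?_, ?_⟩
  · intro b hb
    have h1 := hw'f b (hBV' hb)
    have h2 := hp2.trans (hfe hb (show b⁻¹ * b ∈ W by rw [inv_mul_cancel]; exact W.one_mem))
    have e : w' b - w b = (w' b - f b) + (f b - w b) := by ring
    rw [e]
    exact dvd_add h1 h2
  · intro y hy hpy
    obtain ⟨b, hb, hy'⟩ := (mem_sup hWn).1 hy
    have h1 := hw'f y hy
    have h2 := hp2.trans (hfe hb hy')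
    have h3 : (p : ℤ_[p]) ∣ w b := by
      have e : w b = w' y - (w' y - f y) - (f y - w b) := by ring
      rw [e]
      exact dvd_sub (dvd_sub hpy h1) h2
    have h4 := V₁.mul_mem (hBV b hb h3) (hWV _ hy')
    rwa [mul_inv_cancel_left] at h4

end

end Pool.Agent.H371.SE
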