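import Pool.Agent.H371.SE.A0

set_option autoImplicit false

namespace Pool.Agent.H371.SE

namespace A8x

section alg

variable {p : ℕ} [Fact p.Prime]

theorem poly_id : (Polynomial.X - 1 : Polynomial (ZMod p)) ^ (p - 1) = ∑ i ∈ Finset.range p, Polynomial.X ^ i := by
  have hp : 0 < p := (Fact.out : p.Prime).pos
  have h1 : (Polynomial.X - 1 : Polynomial (ZMod p)) ≠ 0 := by
    have h := Polynomial.X_sub_C_ne_zero (1 : ZMod p)
    rwa [map_one] at h
  apply mul_right_cancel₀ h1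
  rw [← pow_succ, Nat.sub_add_cancel hp, geom_sum_mul, sub_pow_char, one_pow]

theorem end_id {A : Type} [AddCommGroup A] [Module (ZMod p) A] (T : Module.End (ZMod p) A) :
    (T - 1) ^ (p - 1) = ∑ i ∈ Finset.range p, T ^ i := by
  have h := congrArg (Polynomial.aeval T) (poly_id (p := p))
  rw [map_pow, map_sub, Polynomial.aeval_X, map_one, map_sum] at h
  rw [h]
  exact Finset.sum_congr rfl fun i _ => by rw [map_pow, Polynomial.aeval_X]

theorem dvd_iff (x : ℤ_[p]) : (p : ℤ_[p]) ∣ x ↔ PadicInt.toZMod x = 0 := by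
  rw [← RingHom.mem_ker, PadicInt.ker_toZMod, PadicInt.maximalIdeal_eq_span_p,
    Ideal.mem_span_singleton]

theorem exists_not_dvd {x : ℤ_[p]} (hx : x ≠ 0) : ∃ k : ℕ, ¬ (p : ℤ_[p]) ^ (k + 1) ∣ x := by
  by_contra hcon
  push Not at hcon
  apply hx
  have h1 : (p : ℤ_[p]) ^ (x.valuation + 1) ∣ x := hcon x.valuation
  have h2 := (PadicInt.norm_le_pow_iff_mem_span_pow x (x.valuation + 1)).2
    (Ideal.mem_span_singleton.2 h1)
  rw [PadicInt.norm_le_pow_iff_le_valuation x hx] at h2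
  omega

end alg

section ops

variable {p : ℕ} [Fact p.Prime] {Γ : Type} [Group Γ] [TopologicalSpace Γ] {t : MulAut Γ}

/-- the difference operator -/
def Df {M : Type} [AddCommGroup M] (t : MulAut Γ) (f : Γ → M) : Γ → M := fun x => f (t x) - f x

/-- the shift operator -/
def Tm (p : ℕ) (t : MulAut Γ) : Module.End (ZMod p) (Γ → ZMod p) where
  toFun f := fun x => f (t x)
  map_add' _ _ := rfl
  map_smul' _ _ := rfl

theorem Tm_pow (i : ℕ) : ∀ (f : Γ → ZMod p) (x : Γ), ((Tm p t) ^ i) f x = f ((t ^ i) x) := by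
  induction i with
  | zero => intro f x; simp
  | succ i ih =>
    intro f x
    rw [pow_succ', Module.End.mul_apply, A0x.pow_succ_apply]
    change ((Tm p t) ^ i) f (t x) = _
    rw [ih]

theorem red_Df (w : Γ → ℤ_[p]) (j : ℕ) (x : Γ) :
    PadicInt.toZMod ((Df t)^[j] w x) = ((Tm p t - 1) ^ j) (fun y => PadicInt.toZMod (w y)) x := by
  induction j generalizing x with
  | zero => simp
  | succ j ih =>
    rw [Function.iterate_succ_apply', pow_succ', Module.End.mul_apply]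
    change PadicInt.toZMod ((Df t)^[j] w (t x) - (Df t)^[j] w x) =
      ((Tm p t - 1) ^ j) (fun y => PadicInt.toZMod (w y)) (t x) -
        ((Tm p t - 1) ^ j) (fun y => PadicInt.toZMod (w y)) x
    rw [map_sub, ih, ih]

/-- the functions under consideration -/
structure Q (p : ℕ) [Fact p.Prime] (t : MulAut Γ) (B : Subgroup Γ) (f : Γ → ℤ_[p]) : Prop where
  hz : HZ p B f
  nf : ∀ x ∈ B, Nf p t f x = 0

theorem HZ_Df (ht : Continuous t) {B : Subgroup Γ} (hBt : Inv t B) {f : Γ → ℤ_[p]}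
    (hf : HZ p B f) : HZ p B (Df t f) := by
  refine ⟨fun x hx y hy => ?_, fun k => ?_⟩
  · unfold Df
    rw [map_mul, hf.1 _ (hBt x hx) _ (hBt y hy), hf.1 x hx y hy]
    ring
  · obtain ⟨W, hW, h⟩ := hf.2 k
    refine ⟨W ⊓ W.comap t.toMonoidHom, ?_, ?_⟩
    · rw [Subgroup.coe_inf]
      exact hW.inter (hW.preimage ht)
    · intro x hx w hw hwW
      have h1 := h x hx w hw hwW.1
      have h2 := h (t x) (hBt x hx) (t w) (hBt w hw) hwW.2
      unfold Df
      rw [map_mul]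
      have h3 : f (t x * t w) - f (x * w) - (f (t x) - f x) =
          (f (t x * t w) - f (t x)) - (f (x * w) - f x) := by ring
      rw [h3]
      exact dvd_sub h2 h1

theorem Nf_Df (htp : t ^ p = 1) (f : Γ → ℤ_[p]) (x : Γ) : Nf p t (Df t f) x = 0 := by
  have h1 : Nf p t (Df t f) x = Nf p t f (t x) - Nf p t f x := by
    unfold Nf Df
    rw [Finset.sum_sub_distrib]
    congr 1
    refine Finset.sum_congr rfl fun i _ => ?_
    congr 1
    rw [← MulAut.mul_apply, ← MulAut.mul_apply, ← pow_succ, ← pow_succ']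
  rw [h1, Nf_comp htp, sub_self]

theorem Q_Df (ht : Continuous t) (htp : t ^ p = 1) {B : Subgroup Γ} (hBt : Inv t B)
    {f : Γ → ℤ_[p]} (hf : HZ p B f) : Q p t B (Df t f) :=
  ⟨HZ_Df ht hBt hf, fun x _ => Nf_Df htp f x⟩

theorem Q_iter (ht : Continuous t) (htp : t ^ p = 1) {B : Subgroup Γ} (hBt : Inv t B)
    {f : Γ → ℤ_[p]} (hf : Q p t B f) (j : ℕ) : Q p t B ((Df t)^[j] f) := by
  induction j with
  | zero => exact hf
  | succ j ih =>
    rw [Function.iterate_succ_apply']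
    exact Q_Df ht htp hBt ih.hz

end ops

end A8x

section
variable {p : ℕ} [Fact p.Prime] {Γ : Type} [Group Γ] [TopologicalSpace Γ] [IsTopologicalGroup Γ]
  [CompactSpace Γ] [T2Space Γ] {t : MulAut Γ}

open A8x in
theorem exists_min_w (ht : Continuous t) (htp : t ^ p = 1) {B : Subgroup Γ} (hBt : Inv t B)
    {v : Γ → ℤ_[p]} (hv : HZ p B v) (hne : ∃ x ∈ B, v (t x) ≠ v x) :
    ∃ w : Γ → ℤ_[p], Wf p t B w ∧ ∃ x ∈ B, ¬ (p : ℤ_[p]) ∣ w x := by
  classical
  have hp : 0 < p := (Fact.out : p.Prime).pos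
  have hp0 : (p : ℤ_[p]) ≠ 0 := by exact_mod_cast hp.ne'
  -- the first function
  have hw0 : Q p t B (Df t v) := Q_Df ht htp hBt hv
  have hex : ∃ k : ℕ, ∃ x ∈ B, ¬ (p : ℤ_[p]) ^ (k + 1) ∣ Df t v x := by
    obtain ⟨x, hx, hxv⟩ := hne
    have h1 : Df t v x ≠ 0 := sub_ne_zero.2 hxv
    obtain ⟨k, hk⟩ := exists_not_dvd h1
    exact ⟨k, x, hx, hk⟩
  obtain ⟨k, hk, hmin⟩ : ∃ k : ℕ, (∃ x ∈ B, ¬ (p : ℤ_[p]) ^ (k + 1) ∣ Df t v x) ∧
      ∀ x ∈ B, (p : ℤ_[p]) ^ k ∣ Df t v x := by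
    refine ⟨Nat.find hex, Nat.find_spec hex, fun x hx => ?_⟩
    rcases Nat.eq_zero_or_pos (Nat.find hex) with h | h
    · rw [h, pow_zero]
      exact one_dvd _
    · by_contra hcon
      have h1 := Nat.find_min hex (Nat.sub_lt h Nat.one_pos)
      apply h1
      refine ⟨x, hx, ?_⟩
      rwa [Nat.sub_add_cancel h]
  have hpk : (p : ℤ_[p]) ^ k ≠ 0 := pow_ne_zero _ hp0
  -- the second function
  have hex1 : ∀ x : Γ, ∃ a : ℤ_[p], x ∈ B → Df t v x = (p : ℤ_[p]) ^ k * a := by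
    intro x
    by_cases hx : x ∈ B
    · obtain ⟨a, ha⟩ := hmin x hx
      exact ⟨a, fun _ => ha⟩
    · exact ⟨0, fun h => absurd h hx⟩
  choose w1 hw1 using hex1
  have hQ1 : Q p t B w1 := by
    refine ⟨⟨fun x hx y hy => ?_, fun m => ?_⟩, fun x hx => ?_⟩
    · apply mul_left_cancel₀ hpk
      rw [mul_add, ← hw1 x hx, ← hw1 y hy, ← hw1 _ (B.mul_mem hx hy)]
      exact hw0.hz.1 x hx y hy
    · obtain ⟨W, hW, h⟩ := hw0.hz.2 (m + k)
      refine ⟨W, hW, fun x hx w hw hwW => ?_⟩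
      have h1 := h x hx w hw hwW
      rw [hw1 _ (B.mul_mem hx hw), hw1 x hx, ← mul_sub, pow_add, mul_comm ((p : ℤ_[p]) ^ m)] at h1
      exact (mul_dvd_mul_iff_left hpk).1 h1
    · apply mul_left_cancel₀ hpk
      have h1 := hw0.nf x hx
      rw [mul_zero, ← h1]
      unfold Nf
      rw [Finset.mul_sum]
      exact Finset.sum_congr rfl fun i _ => (hw1 _ (A0x.inv_pow hBt i x hx)).symm
  have hne1 : ∃ x ∈ B, ¬ (p : ℤ_[p]) ∣ w1 x := by
    obtain ⟨x, hx, h⟩ := hk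
    refine ⟨x, hx, fun h1 => h ?_⟩
    rw [hw1 x hx, pow_succ]
    exact mul_dvd_mul_left _ h1
  -- the iterates
  have hlast : ∀ x ∈ B, (p : ℤ_[p]) ∣ (Df t)^[p - 1] w1 x := by
    intro x hx
    rw [dvd_iff, red_Df, end_id]
    have h1 := congrArg (PadicInt.toZMod (p := p)) (hQ1.nf x hx)
    rw [map_zero] at h1
    rw [← h1]
    unfold Nf
    rw [map_sum, LinearMap.sum_apply, Finset.sum_apply]
    exact Finset.sum_congr rfl fun i _ => Tm_pow i _ x
  have hexj : ∃ j : ℕ, ∀ x ∈ B, (p : ℤ_[p]) ∣ (Df t)^[j] w1 x := ⟨p - 1, hlast⟩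
  have hj0 : Nat.find hexj ≠ 0 := by
    intro h
    have h1 := Nat.find_spec hexj
    rw [h] at h1
    obtain ⟨x, hx, h2⟩ := hne1
    exact h2 (h1 x hx)
  obtain ⟨j, hj⟩ := Nat.exists_eq_succ_of_ne_zero hj0
  have h1 := Nat.find_spec hexj
  rw [hj] at h1
  have h2 : ¬ ∀ x ∈ B, (p : ℤ_[p]) ∣ (Df t)^[j] w1 x := Nat.find_min hexj (by omega)
  push Not at h2
  have hQ := Q_iter ht htp hBt hQ1 j
  refine ⟨(Df t)^[j] w1, ⟨hQ.hz, hQ.nf, fun x hx => ?_⟩, h2⟩
  have h3 := h1 x hx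
  rw [Function.iterate_succ_apply'] at h3
  exact h3

end

end Pool.Agent.H371.SE
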