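import Pool.Agent.H371.SE.A0

set_option autoImplicit false

namespace Pool.Agent.H371.SE

namespace A9x

open Finset

/-- the entries of products of unitriangular matrices -/
theorem mul_entry {R : Type} [CommRing R] {N : ℕ} {A B A' B' : Matrix (Fin N) (Fin N) R}
    (hA : ∀ i j, j < i → A i j = 0) (hB : ∀ i j, j < i → B i j = 0)
    (hA' : ∀ i j, j < i → A' i j = 0) (hB' : ∀ i j, j < i → B' i j = 0)
    (hA1 : ∀ i, A i i = 1) (hB1 : ∀ i, B i i = 1) (hA'1 : ∀ i, A' i i = 1) (hB'1 : ∀ i, B' i i = 1)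
    {i j : Fin N} (hij : i < j) (h1 : ∀ k, i < k → k < j → A i k = A' i k)
    (h2 : ∀ k, i < k → k < j → B k j = B' k j) :
    (A * B) i j - (A' * B') i j = (A i j - A' i j) + (B i j - B' i j) := by
  rw [Matrix.mul_apply, Matrix.mul_apply, ← sum_sub_distrib]
  have h3 : ∀ k, A i k * B k j - A' i k * B' k j =
      (if k = j then A i j - A' i j else 0) + (if k = i then B i j - B' i j else 0) := by
    intro k
    rcases lt_trichotomy k i with h | h | h
    · rw [hA i k h, hA' i k h, if_neg (by omega), if_neg (by omega)]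
      ring
    · subst h
      rw [hA1, hA'1, if_neg (by omega), if_pos rfl]
      ring
    · rcases lt_trichotomy k j with h' | h' | h'
      · rw [h1 k h h', h2 k h h', if_neg (by omega), if_neg (by omega)]
        ring
      · subst h'
        rw [hB1, hB'1, if_pos rfl, if_neg (by omega)]
        ring
      · rw [hB k j h', hB' k j h', if_neg (by omega), if_neg (by omega)]
        ring
  rw [sum_congr rfl fun k _ => h3 k, sum_add_distrib, sum_ite_eq' univ j,
    sum_ite_eq' univ i, if_pos (mem_univ _), if_pos (mem_univ _)]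

theorem pow_mem {Γ : Type} [Group Γ] {t : MulAut Γ} {B : Subgroup Γ} (hBt : Inv t B) (n : ℕ) :
    ∀ x ∈ B, (t ^ n) x ∈ B := by
  induction n with
  | zero => intro x hx; simpa using hx
  | succ n ih =>
    intro x hx
    rw [pow_succ, MulAut.mul_apply]
    exact ih _ (hBt x hx)

section
variable {p : ℕ} [Fact p.Prime] {Γ : Type} [Group Γ] [TopologicalSpace Γ] {t : MulAut Γ}

/-- invariance of one function -/
theorem entry_inv (ht : Continuous t) (htp : t ^ p = 1) {B : Subgroup Γ} (hBt : Inv t B)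
    (h : ∀ v : Γ → ℤ_[p], HZ p B v → ∀ x ∈ B, v (t x) = v x) (f : Γ → ℤ_[p])
    (hf : CZ p (⊤ : Subgroup Γ) f)
    (hadd : ∀ x ∈ B, ∀ y ∈ B, f (t (x * y)) - f (x * y) = (f (t x) - f x) + (f (t y) - f y)) :
    ∀ x ∈ B, f (t x) = f x := by
  have hcz : CZ p B (fun x => f (t x) - f x) := by
    intro k
    obtain ⟨W, hW, hWf⟩ := hf k
    refine ⟨W.comap (t : Γ →* Γ) ⊓ W, (hW.preimage ht).inter hW, fun x _ w _ hw => ?_⟩
    have h1 := hWf (t x) trivial (t w) trivial hw.1
    have h2 := hWf x trivial w trivial hw.2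
    have h3 : f (t (x * w)) - f (x * w) - (f (t x) - f x) =
        (f (t x * t w) - f (t x)) - (f (x * w) - f x) := by
      rw [map_mul]
      ring
    beta_reduce
    rw [h3]
    exact dvd_sub h1 h2
  have h1 := h (fun x => f (t x) - f x) ⟨hadd, hcz⟩
  intro x hx
  have h2 : ∀ n : ℕ, f (t ((t ^ n) x)) - f ((t ^ n) x) = f (t x) - f x := by
    intro n
    induction n with
    | zero => simp
    | succ n ih =>
      rw [← ih]
      have h3 := h1 ((t ^ n) x) (pow_mem hBt n x hx)
      rw [pow_succ', MulAut.mul_apply]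
      exact h3
  have h4 : ∀ n : ℕ, f ((t ^ n) x) - f x = n * (f (t x) - f x) := by
    intro n
    induction n with
    | zero => simp
    | succ n ih =>
      have h5 := h2 n
      rw [pow_succ', MulAut.mul_apply]
      push_cast
      linear_combination ih + h5
  have h6 := h4 p
  rw [htp, MulAut.one_apply, sub_self] at h6
  have hp0 : (p : ℤ_[p]) ≠ 0 := by
    exact_mod_cast (Fact.out : p.Prime).ne_zero
  rcases mul_eq_zero.1 h6.symm with h7 | h7
  · exact absurd h7 hp0
  · exact sub_eq_zero.1 h7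

theorem rho_inv (ht : Continuous t) (htp : t ^ p = 1) {B : Subgroup Γ} (hBt : Inv t B)
    (h : ∀ v : Γ → ℤ_[p], HZ p B v → ∀ x ∈ B, v (t x) = v x) {N : ℕ}
    (ρ : Γ →* Matrix (Fin N) (Fin N) ℤ_[p]) (h0 : ∀ y i j, j < i → ρ y i j = 0)
    (h1 : ∀ y i, ρ y i i = 1) (hc : ∀ i j, CZ p (⊤ : Subgroup Γ) (fun y => ρ y i j)) :
    ∀ x ∈ B, ρ (t x) = ρ x := by
  have key : ∀ m : ℕ, ∀ i j : Fin N, (j : ℕ) < i + m → ∀ x ∈ B, ρ (t x) i j = ρ x i j := by
    intro m
    induction m with
    | zero =>
      intro i j hij x _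
      rw [h0 _ i j (by omega), h0 _ i j (by omega)]
    | succ m ih =>
      intro i j hij x hx
      rcases lt_trichotomy j i with hji | hji | hji
      · rw [h0 _ i j hji, h0 _ i j hji]
      · subst hji
        rw [h1, h1]
      · refine entry_inv ht htp hBt h (fun y => ρ y i j) (hc i j) (fun x hx y hy => ?_) x hx
        rw [map_mul, map_mul, map_mul]
        refine mul_entry (h0 _) (h0 _) (h0 _) (h0 _) (h1 _) (h1 _) (h1 _) (h1 _) hji
          (fun k hik hkj => ?_) (fun k hik hkj => ?_)
        · exact ih i k (by omega) x hx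
        · exact ih k j (by omega) y hy
  intro x hx
  ext i j
  exact key N i j (by omega) x hx

omit [TopologicalSpace Γ] in
theorem rho_tf {x : Γ} (hx : x ^ p = 1) {N : ℕ}
    (ρ : Γ →* Matrix (Fin N) (Fin N) ℤ_[p]) (h0 : ∀ y i j, j < i → ρ y i j = 0)
    (h1 : ∀ y i, ρ y i i = 1) : ρ x = 1 := by
  have one0 : ∀ i j : Fin N, j < i → (1 : Matrix (Fin N) (Fin N) ℤ_[p]) i j = 0 :=
    fun i j hij => Matrix.one_apply_ne hij.ne'
  have one1 : ∀ i : Fin N, (1 : Matrix (Fin N) (Fin N) ℤ_[p]) i i = 1 :=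
    fun i => Matrix.one_apply_eq i
  have key : ∀ m : ℕ, ∀ i j : Fin N, (j : ℕ) < i + m → ∀ a : ℕ,
      ρ (x ^ a) i j = (1 : Matrix (Fin N) (Fin N) ℤ_[p]) i j := by
    intro m
    induction m with
    | zero =>
      intro i j hij a
      rw [h0 _ i j (by omega), one0 i j (by omega)]
    | succ m ih =>
      intro i j hij a
      rcases lt_trichotomy j i with hji | hji | hji
      · rw [h0 _ i j hji, one0 i j hji]
      · subst hji
        rw [h1, one1]
      · have h2 : ∀ a b : ℕ, ρ (x ^ (a + b)) i j = ρ (x ^ a) i j + ρ (x ^ b) i j := by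
          intro a b
          have h3 := mul_entry (h0 (x ^ a)) (h0 (x ^ b)) one0 one0 (h1 (x ^ a)) (h1 (x ^ b))
            one1 one1 hji (fun k hik hkj => ih i k (by omega) a)
            (fun k hik hkj => ih k j (by omega) b)
          rw [mul_one, Matrix.one_apply_ne hji.ne, sub_zero, sub_zero, sub_zero, ← map_mul,
            ← pow_add] at h3
          exact h3
        have h4 : ∀ a : ℕ, ρ (x ^ a) i j = a * ρ x i j := by
          intro a
          induction a with
          | zero =>
            rw [pow_zero, map_one, Matrix.one_apply_ne hji.ne, Nat.cast_zero, zero_mul]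
          | succ a iha =>
            rw [h2, iha, pow_one]
            push_cast
            ring
        have h5 := h4 p
        rw [hx, map_one, Matrix.one_apply_ne hji.ne] at h5
        have hp0 : (p : ℤ_[p]) ≠ 0 := by
          exact_mod_cast (Fact.out : p.Prime).ne_zero
        have h6 : ρ x i j = 0 := by
          rcases mul_eq_zero.1 h5.symm with h7 | h7
          · exact absurd h7 hp0
          · exact h7
        rw [h4, h6, mul_zero, Matrix.one_apply_ne hji.ne]
  ext i j
  have h8 := key N i j (by omega) 1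
  rwa [pow_one] at h8

end

end A9x

section
variable {p : ℕ} [Fact p.Prime] {Γ : Type} [Group Γ] [TopologicalSpace Γ] [IsTopologicalGroup Γ]
  [CompactSpace Γ] [T2Space Γ] {t : MulAut Γ}

/-- if all continuous homomorphisms from `B` to the `p`-adic integers are `t`-invariant then `t`
is trivial on `B` -/
theorem triv (hG : Good p Γ) (ht : Continuous t) (htp : t ^ p = 1) {B : Subgroup Γ}
    (hBt : Inv t B) (h : ∀ v : Γ → ℤ_[p], HZ p B v → ∀ x ∈ B, v (t x) = v x) :
    ∀ x ∈ B, t x = x := by
  intro x hx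
  by_contra hne
  have h1 : t x * x⁻¹ ≠ 1 := fun h2 => hne (mul_inv_eq_one.1 h2)
  obtain ⟨N, ρ, ρ0, ρ1, ρc, hρ⟩ := hG.sep _ h1
  have h3 := A9x.rho_inv ht htp hBt h ρ ρ0 ρ1 ρc x hx
  apply hρ
  rw [map_mul, h3, ← map_mul, mul_inv_cancel, map_one]

theorem tf (hG : Good p Γ) {x : Γ} (hx : x ^ p = 1) : x = 1 := by
  by_contra hne
  obtain ⟨N, ρ, ρ0, ρ1, ρc, hρ⟩ := hG.sep _ hne
  exact hρ (A9x.rho_tf hx ρ ρ0 ρ1)

end

end Pool.Agent.H371.SE
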