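import Pool.Agent.H371.SE.A6
import Pool.Agent.H371.SE.A7
import Pool.Agent.H371.SE.A8
import Pool.Agent.H371.SE.A9

set_option autoImplicit false
set_option linter.unusedSectionVars false

namespace Pool.Agent.H371.SE

namespace A10x

section
variable {p : ℕ} [Fact p.Prime] {Γ : Type} [Group Γ] [TopologicalSpace Γ] [IsTopologicalGroup Γ]
  [CompactSpace Γ] [T2Space Γ] {t : MulAut Γ}

/-- the elements `u` such that the cocycle twisted by `u` is in `B` and is killed by the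
functions `X` of the open subgroups containing `B` -/
def KK (p : ℕ) (t : MulAut Γ) (U : Subgroup Γ) (c : Γ) (B : Subgroup Γ) : Set Γ :=
  {u | u ∈ U ∧ u⁻¹ * c * t u ∈ B ∧ ∀ V : Subgroup Γ, IsOpen (V : Set Γ) → Inv t V → B ≤ V →
    V ≤ U → ∀ l : Γ → ZMod p, X p t V l → l (u⁻¹ * c * t u) = 0}

/-- the subgroups in the descent -/
def PP (p : ℕ) (t : MulAut Γ) (U : Subgroup Γ) (c : Γ) : Set (Subgroup Γ) :=
  {B | IsClosed (B : Set Γ) ∧ Inv t B ∧ B ≤ U ∧ (KK p t U c B).Nonempty}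

theorem KK_mono {U : Subgroup Γ} {c : Γ} {B B' : Subgroup Γ} (h : B' ≤ B) :
    KK p t U c B' ⊆ KK p t U c B := by
  rintro u ⟨h1, h2, h3⟩
  exact ⟨h1, h h2, fun V hV1 hV2 hV3 hV4 => h3 V hV1 hV2 (h.trans hV3) hV4⟩

/-- the zero set of a function of `X` is closed -/
theorem closed_zero {V : Subgroup Γ} (hV : IsOpen (V : Set Γ)) {l : Γ → ZMod p}
    (hl : LC V l) : IsClosed {v : Γ | v ∈ V ∧ l v = 0} := by
  obtain ⟨W, hW, hWl⟩ := hl
  rw [← isOpen_compl_iff, isOpen_iff_mem_nhds]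
  intro v hv
  have hVc : IsClosed (V : Set Γ) := V.isClosed_of_isOpen hV
  by_cases hvV : v ∈ V
  · have hlv : l v ≠ 0 := fun h => hv ⟨hvV, h⟩
    have hcont : Continuous fun y : Γ => v⁻¹ * y := continuous_const.mul continuous_id
    have hop : IsOpen ((fun y : Γ => v⁻¹ * y) ⁻¹' ((V : Set Γ) ∩ W)) :=
      (hV.inter hW).preimage hcont
    refine Filter.mem_of_superset (hop.mem_nhds ?_) ?_
    · show v⁻¹ * v ∈ (V : Set Γ) ∩ W
      rw [inv_mul_cancel]
      exact ⟨V.one_mem, W.one_mem⟩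
    · rintro y ⟨hy1, hy2⟩ ⟨-, hy4⟩
      have h1 := hWl v hvV (v⁻¹ * y) hy1 hy2
      rw [mul_inv_cancel_left] at h1
      exact hlv (h1 ▸ hy4)
  · refine Filter.mem_of_superset (hVc.isOpen_compl.mem_nhds hvV) ?_
    intro y hy h
    exact hy h.1

theorem KK_closed (ht : Continuous t) {U : Subgroup Γ} (hU : IsOpen (U : Set Γ)) {c : Γ}
    {B : Subgroup Γ} (hB : IsClosed (B : Set Γ)) : IsClosed (KK p t U c B) := by
  have hφ : Continuous fun u : Γ => u⁻¹ * c * t u :=
    (continuous_inv.mul continuous_const).mul ht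
  have h1 : KK p t U c B = (U : Set Γ) ∩ (fun u : Γ => u⁻¹ * c * t u) ⁻¹' (B : Set Γ) ∩
      ⋂ (V : Subgroup Γ) (_ : IsOpen (V : Set Γ)) (_ : Inv t V) (_ : B ≤ V) (_ : V ≤ U)
        (l : Γ → ZMod p) (_ : X p t V l),
        (fun u : Γ => u⁻¹ * c * t u) ⁻¹' {v : Γ | v ∈ V ∧ l v = 0} := by
    ext u
    simp only [Set.mem_inter_iff, Set.mem_iInter, Set.mem_preimage, SetLike.mem_coe,
      Set.mem_setOf_eq]
    constructor
    · rintro ⟨h2, h3, h4⟩
      exact ⟨⟨h2, h3⟩, fun V a b d e l hl => ⟨d h3, h4 V a b d e l hl⟩⟩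
    · rintro ⟨⟨h2, h3⟩, h4⟩
      exact ⟨h2, h3, fun V a b d e l hl => (h4 V a b d e l hl).2⟩
  rw [h1]
  refine ((U.isClosed_of_isOpen hU).inter (hB.preimage hφ)).inter ?_
  refine isClosed_iInter fun V => isClosed_iInter fun hV => isClosed_iInter fun _ =>
    isClosed_iInter fun _ => isClosed_iInter fun _ => isClosed_iInter fun l =>
    isClosed_iInter fun hl => (closed_zero hV hl.2.1).preimage hφ

/-- lower bounds of chains -/
theorem chain (ht : Continuous t) {U : Subgroup Γ} (hU : IsOpen (U : Set Γ)) {c : Γ}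
    (S : Set (Subgroup Γ)) (hS : S ⊆ PP p t U c) (hch : IsChain (· ≤ ·) S) (hne : S.Nonempty) :
    sInf S ∈ PP p t U c := by
  obtain ⟨B₀, hB₀⟩ := hne
  have hcoe : ((sInf S : Subgroup Γ) : Set Γ) = ⋂ B ∈ S, (B : Set Γ) := Subgroup.coe_sInf S
  have hdir : ∀ F : Subgroup Γ → Set Γ, (∀ B B' : Subgroup Γ, B ≤ B' → F B ⊆ F B') →
      Directed (· ⊇ ·) (fun B : S => F B.1) := by
    intro F hF B B'
    rcases hch.total B.2 B'.2 with h | h
    · exact ⟨B, subset_rfl, hF _ _ h⟩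
    · exact ⟨B', hF _ _ h, subset_rfl⟩
  have : Nonempty S := ⟨⟨B₀, hB₀⟩⟩
  refine ⟨?_, ?_, (sInf_le hB₀).trans (hS hB₀).2.2.1, ?_⟩
  · rw [hcoe]
    exact isClosed_biInter fun B hB => (hS hB).1
  · intro x hx
    rw [Subgroup.mem_sInf] at hx ⊢
    exact fun B hB => (hS hB).2.1 x (hx B hB)
  · have h1 : (⋂ B : S, KK p t U c B.1).Nonempty := by
      refine IsCompact.nonempty_iInter_of_directed_nonempty_isCompact_isClosed _
        (hdir _ fun B B' h => KK_mono h) (fun B => (hS B.2).2.2.2) (fun B => ?_) (fun B => ?_)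
      · exact (KK_closed ht hU (hS B.2).1).isCompact
      · exact KK_closed ht hU (hS B.2).1
    obtain ⟨u, hu⟩ := h1
    rw [Set.mem_iInter] at hu
    refine ⟨u, (hu ⟨B₀, hB₀⟩).1, ?_, ?_⟩
    · rw [Subgroup.mem_sInf]
      exact fun B hB => (hu ⟨B, hB⟩).2.1
    · intro V hV1 hV2 hV3 hV4 l hl
      by_contra hc
      have h2 : (⋂ B : S, ((B.1 : Set Γ) ∩ (V : Set Γ)ᶜ)).Nonempty := by
        refine IsCompact.nonempty_iInter_of_directed_nonempty_isCompact_isClosed _
          (hdir (fun B => (B : Set Γ) ∩ (V : Set Γ)ᶜ) fun B B' h =>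
            Set.inter_subset_inter_left _ h) (fun B => ?_) (fun B => ?_) (fun B => ?_)
        · by_contra h3
          rw [Set.not_nonempty_iff_eq_empty] at h3
          have h4 : B.1 ≤ V := by
            intro x hx
            by_contra h5
            have : x ∈ (B.1 : Set Γ) ∩ (V : Set Γ)ᶜ := ⟨hx, h5⟩
            rw [h3] at this
            exact this
          exact hc ((hu B).2.2 V hV1 hV2 h4 hV4 l hl)
        · exact ((hS B.2).1.inter hV1.isClosed_compl).isCompact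
        · exact (hS B.2).1.inter hV1.isClosed_compl
      obtain ⟨x, hx⟩ := h2
      rw [Set.mem_iInter] at hx
      have hxI : x ∈ (sInf S : Subgroup Γ) := by
        rw [Subgroup.mem_sInf]
        exact fun B hB => (hx ⟨B, hB⟩).1
      exact (hx ⟨B₀, hB₀⟩).2 (hV3 hxI)

theorem exists_min (ht : Continuous t) {U : Subgroup Γ} (hU : IsOpen (U : Set Γ)) {c : Γ}
    (hne : (PP p t U c).Nonempty) : ∃ B, Minimal (· ∈ PP p t U c) B := by
  refine (@zorn_le₀ (Subgroup Γ)ᵒᵈ _ (PP p t U c)) fun S hS hch => ?_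
  rcases S.eq_empty_or_nonempty with h | h
  · obtain ⟨B, hB⟩ := hne
    refine ⟨B, hB, fun z hz => ?_⟩
    rw [h] at hz
    exact absurd hz (Set.notMem_empty z)
  · exact ⟨sInf (α := Subgroup Γ) S, chain ht hU S hS hch.symm h,
      fun z hz => sInf_le (α := Subgroup Γ) hz⟩

end

end A10x

section
variable {p : ℕ} [Fact p.Prime] {Γ : Type} [Group Γ] [TopologicalSpace Γ] [IsTopologicalGroup Γ]
  [CompactSpace Γ] [T2Space Γ] {t : MulAut Γ}

open A10x in
/-- cocycles killed by `X U` are coboundaries -/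
theorem descent (hG : Good p Γ) (ht : Continuous t) (htp : t ^ p = 1) {U : Subgroup Γ}
    (hU : IsOpen (U : Set Γ)) (hUt : Inv t U) {c : Γ} (hc : Z1 p t U c)
    (hck : ∀ l : Γ → ZMod p, X p t U l → l c = 0) : ∃ u ∈ U, c = u⁻¹ * t u := by
  have hp : p.Prime := Fact.out
  have hne : (PP p t U c).Nonempty := by
    refine ⟨U, U.isClosed_of_isOpen hU, hUt, le_rfl, 1, U.one_mem, ?_, ?_⟩
    · rw [inv_one, one_mul, map_one, mul_one]
      exact hc.1
    · intro V _ _ h3 h4 l hl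
      have hVU : V = U := le_antisymm h4 h3
      rw [inv_one, one_mul, map_one, mul_one]
      rw [hVU] at hl
      exact hck l hl
  obtain ⟨B, hB⟩ := exists_min ht hU hne
  obtain ⟨hBc, hBt, hBU, u, huU, huB, huk⟩ := hB.prop
  have hcB : Z1 p t B (u⁻¹ * c * t u) := ⟨huB, nm_twist htp u c hc.2⟩
  set c' : Γ := u⁻¹ * c * t u with hc'
  -- all homomorphisms to the `p`-adic integers are invariant
  have hinv : ∀ v : Γ → ℤ_[p], HZ p B v → ∀ x ∈ B, v (t x) = v x := by
    intro v hv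
    by_contra hcon
    push Not at hcon
    obtain ⟨w, hw, x, hxB, hwx⟩ := exists_min_w ht htp hBt hv hcon
    obtain ⟨⟨hwa, hwc⟩, hwN, hwt⟩ := hw
    let B' : Subgroup Γ :=
      { carrier := {b | b ∈ B ∧ (p : ℤ_[p]) ∣ w b}
        one_mem' := by
          refine ⟨B.one_mem, ?_⟩
          have h1 := hwa 1 B.one_mem 1 B.one_mem
          rw [mul_one] at h1
          have h2 : w 1 = 0 := by linear_combination -h1
          rw [h2]
          exact dvd_zero _
        mul_mem' := by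
          rintro a b ⟨ha1, ha2⟩ ⟨hb1, hb2⟩
          refine ⟨B.mul_mem ha1 hb1, ?_⟩
          rw [hwa a ha1 b hb1]
          exact dvd_add ha2 hb2
        inv_mem' := by
          rintro a ⟨ha1, ha2⟩
          refine ⟨B.inv_mem ha1, ?_⟩
          have h1 := hwa 1 B.one_mem 1 B.one_mem
          rw [mul_one] at h1
          have h2 := hwa a ha1 a⁻¹ (B.inv_mem ha1)
          rw [mul_inv_cancel] at h2
          have h3 : w a⁻¹ = - w a := by linear_combination -h1 - h2
          rw [h3]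
          exact (dvd_neg).2 ha2 }
    have hB'B : B' ≤ B := fun b hb => hb.1
    have hB'c : IsClosed (B' : Set Γ) := by
      obtain ⟨W, hW, hWw⟩ := hwc 1
      rw [← isOpen_compl_iff, isOpen_iff_mem_nhds]
      intro y hy
      by_cases hyB : y ∈ B
      · have hwy : ¬ (p : ℤ_[p]) ∣ w y := fun h => hy ⟨hyB, h⟩
        have hcont : Continuous fun z : Γ => y⁻¹ * z := continuous_const.mul continuous_id
        have hop : IsOpen ((fun z : Γ => y⁻¹ * z) ⁻¹' (W : Set Γ)) := hW.preimage hcont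
        refine Filter.mem_of_superset (hop.mem_nhds ?_) ?_
        · show y⁻¹ * y ∈ (W : Set Γ)
          rw [inv_mul_cancel]
          exact W.one_mem
        · rintro z hz1 ⟨hz2, hz3⟩
          have h1 := hWw y hyB (y⁻¹ * z) (B.mul_mem (B.inv_mem hyB) hz2) hz1
          rw [mul_inv_cancel_left, pow_one] at h1
          have h2 := dvd_sub hz3 h1
          rw [sub_sub_cancel] at h2
          exact hwy h2
      · refine Filter.mem_of_superset (hBc.isOpen_compl.mem_nhds hyB) ?_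
        intro z hz h
        exact hz h.1
    have hB't : Inv t B' := by
      rintro b ⟨hb1, hb2⟩
      refine ⟨hBt b hb1, ?_⟩
      have h1 := hwt b hb1
      have h2 := dvd_add h1 hb2
      rwa [sub_add_cancel] at h2
    have hxB' : x ∉ B' := fun h => hwx h.2
    -- the elements of the orbit of `x`
    set b : ℕ → Γ := fun j => (x ^ j)⁻¹ * c' * t (x ^ j) with hb
    have hbB : ∀ j, b j ∈ B := fun j =>
      B.mul_mem (B.mul_mem (B.inv_mem (B.pow_mem hxB j)) huB) (hBt _ (B.pow_mem hxB j))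
    have hstep : ∀ V₁ : Subgroup Γ, IsOpen (V₁ : Set Γ) → B' ≤ V₁ →
        ∃ j < p, b j ∈ B' ∧ ∀ l : Γ → ZMod p, X p t V₁ l → l (b j) = 0 := by
      intro V₁ hV₁ hBV₁
      obtain ⟨V, w', hVo, hVt, hBV, hVU, hw', hww, hVV⟩ := extend_w hG ht htp hU hBt hBU
        ⟨⟨hwa, hwc⟩, hwN, hwt⟩ hV₁ (fun b h1 h2 => hBV₁ ⟨h1, h2⟩)
      let V' : Subgroup Γ :=
        { carrier := {y | y ∈ V ∧ (p : ℤ_[p]) ∣ w' y}
          one_mem' := by
            refine ⟨V.one_mem, ?_⟩
            have h1 := hw'.1.1 1 V.one_mem 1 V.one_mem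
            rw [mul_one] at h1
            have h2 : w' 1 = 0 := by linear_combination -h1
            rw [h2]
            exact dvd_zero _
          mul_mem' := by
            rintro a b ⟨ha1, ha2⟩ ⟨hb1, hb2⟩
            refine ⟨V.mul_mem ha1 hb1, ?_⟩
            rw [hw'.1.1 a ha1 b hb1]
            exact dvd_add ha2 hb2
          inv_mem' := by
            rintro a ⟨ha1, ha2⟩
            refine ⟨V.inv_mem ha1, ?_⟩
            have h1 := hw'.1.1 1 V.one_mem 1 V.one_mem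
            rw [mul_one] at h1
            have h2 := hw'.1.1 a ha1 a⁻¹ (V.inv_mem ha1)
            rw [mul_inv_cancel] at h2
            have h3 : w' a⁻¹ = - w' a := by linear_combination -h1 - h2
            rw [h3]
            exact (dvd_neg).2 ha2 }
      have hV' : ∀ y, y ∈ V' ↔ y ∈ V ∧ (p : ℤ_[p]) ∣ w' y := fun y => Iff.rfl
      have hw'x : ¬ (p : ℤ_[p]) ∣ w' x := by
        intro h1
        have h2 := dvd_sub h1 (hww x hxB)
        rw [sub_sub_cancel] at h2
        exact hwx h2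
      obtain ⟨j, hj, hj1, hj2⟩ := dstep hG ht htp hVo hVt hw' (hBV hxB) hw'x hV'
        (c := c') ⟨hBV huB, hcB.2⟩ (fun l hl => huk V hVo hVt hBV hVU l hl)
      refine ⟨j, hj, ⟨hbB j, ?_⟩, ?_⟩
      · have h1 := dvd_sub hj1.1.2 (hww (b j) (hbB j))
        rwa [sub_sub_cancel] at h1
      · intro l hl
        have hV'V₁ : ∀ y ∈ V', y ∈ V₁ := fun y hy => hVV y hy.1 hy.2
        refine hj2 l ⟨fun y hy z hz => hl.1 y (hV'V₁ y hy) z (hV'V₁ z hz), ?_,
          fun y hy => hl.2.2 y (hV'V₁ y hy)⟩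
        obtain ⟨W, hW1, hW2⟩ := hl.2.1
        exact ⟨W, hW1, fun y hy z hz hz2 => hW2 y (hV'V₁ y hy) z (hV'V₁ z hz) hz2⟩
    -- one index for all open subgroups
    have hone : ∃ j < p, b j ∈ B' ∧ ∀ V₁ : Subgroup Γ, IsOpen (V₁ : Set Γ) → Inv t V₁ → B' ≤ V₁ →
        V₁ ≤ U → ∀ l : Γ → ZMod p, X p t V₁ l → l (b j) = 0 := by
      by_contra hno
      have hno' : ∀ j : Fin p, ∃ V₁ : Subgroup Γ, IsOpen (V₁ : Set Γ) ∧ B' ≤ V₁ ∧
          (b j ∈ B' → ∃ l : Γ → ZMod p, X p t V₁ l ∧ l (b j) ≠ 0) := by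
        intro j
        by_contra h1
        refine hno ⟨j.1, j.2, ?_⟩
        push Not at h1
        refine ⟨(h1 ⊤ isOpen_univ le_top).1, fun V₁ a1 a2 a3 a4 l hl => (h1 V₁ a1 a3).2 l hl⟩
      choose V₁ hV₁o hV₁B hV₁l using hno'
      have hop : IsOpen ((⨅ j, V₁ j : Subgroup Γ) : Set Γ) := by
        rw [Subgroup.coe_iInf]
        exact isOpen_iInter_of_finite hV₁o
      obtain ⟨j, hj, hj1, hj2⟩ := hstep (⨅ j, V₁ j) hop (le_iInf hV₁B)
      obtain ⟨l, hl, hlne⟩ := hV₁l ⟨j, hj⟩ hj1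
      apply hlne
      have hle : (⨅ j, V₁ j : Subgroup Γ) ≤ V₁ ⟨j, hj⟩ := iInf_le _ _
      refine hj2 l ⟨fun y hy z hz => hl.1 y (hle hy) z (hle hz), ?_,
          fun y hy => hl.2.2 y (hle hy)⟩
      obtain ⟨W, hW1, hW2⟩ := hl.2.1
      exact ⟨W, hW1, fun y hy z hz hz2 => hW2 y (hle hy) z (hle hz) hz2⟩
    obtain ⟨j, hj, hj1, hj2⟩ := hone
    have heq : (u * x ^ j)⁻¹ * c * t (u * x ^ j) = b j := by
      rw [hb, hc', map_mul, mul_inv_rev]
      simp only [mul_assoc]
    have hPB' : B' ∈ PP p t U c := by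
      refine ⟨hB'c, hB't, hB'B.trans hBU, u * x ^ j, U.mul_mem huU (U.pow_mem (hBU hxB) j), ?_, ?_⟩
      · rw [heq]
        exact hj1
      · intro V h1 h2 h3 h4 l hl
        rw [heq]
        exact hj2 V h1 h2 h3 h4 l hl
    exact hxB' (hB.le_of_le hPB' hB'B hxB)
  have htriv := triv hG ht htp hBt hinv
  have hfix : ∀ i : ℕ, (t ^ i) c' = c' := by
    intro i
    induction i with
    | zero => rw [pow_zero]; rfl
    | succ n ih =>
      rw [pow_succ, MulAut.mul_apply, htriv c' huB, ih]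
  have hc1 : c' ^ p = 1 := by
    have h1 := hcB.2
    unfold nm at h1
    simp only [hfix, List.map_const', List.length_range, List.prod_replicate] at h1
    exact h1
  have hc2 : c' = 1 := tf hG hc1
  refine ⟨u⁻¹, U.inv_mem huU, ?_⟩
  have h1 : u * c' * (t u)⁻¹ = c := by
    rw [hc']
    group
  rw [← h1, hc2, inv_inv, mul_one, map_inv]

end

end Pool.Agent.H371.SE
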