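import Pool.Agent.H371.SE.A2

set_option autoImplicit false

namespace Pool.Agent.H371.SE

namespace A3x

open Finset

section seq

variable {R : Type} [CommRing R]

lemma shift0 (e : ℕ → R) (n : ℕ) : ∑ k ∈ range n, (k : R) * e (k + 1) =
    ∑ k ∈ range n, (k : R) * e k + n * e n - ∑ k ∈ range n, e (k + 1) := by
  induction n with
  | zero => simp
  | succ n ih =>
    rw [sum_range_succ, ih, sum_range_succ, sum_range_succ]
    push_cast
    ring

lemma sum_per (e : ℕ → R) {n : ℕ} (h : e n = e 0) :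
    ∑ k ∈ range n, e (k + 1) = ∑ k ∈ range n, e k := by
  have h1 := sum_range_succ e n
  have h2 := sum_range_succ' e n
  rw [h1, h] at h2
  exact (add_right_cancel h2).symm

lemma shift (e : ℕ → R) {n : ℕ} (h : e n = e 0) : ∑ k ∈ range n, (k : R) * e (k + 1) =
    ∑ k ∈ range n, (k : R) * e k + n * e 0 - ∑ k ∈ range n, e k := by
  rw [shift0, sum_per e h, h]

lemma shift' (e f : ℕ → R) {n : ℕ} (hf : ∀ k, f k = e (k + 1)) (h : e n = e 0) :
    ∑ k ∈ range n, (k : R) * f k =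
    ∑ k ∈ range n, (k : R) * e k + n * e 0 - ∑ k ∈ range n, e k := by
  rw [← shift e h]
  exact sum_congr rfl fun k _ => by rw [hf]

lemma sum_per' (e f : ℕ → R) {n : ℕ} (hf : ∀ k, f k = e (k + 1)) (h : e n = e 0) :
    ∑ k ∈ range n, f k = ∑ k ∈ range n, e k := by
  rw [← sum_per e h]
  exact sum_congr rfl fun k _ => hf k

lemma tri (b : ℕ → R) (n : ℕ) : ∑ k ∈ range n, ∑ m ∈ range (k + 1), b m +
    ∑ m ∈ range n, (m : R) * b m = n * ∑ m ∈ range n, b m := by
  induction n with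
  | zero => simp
  | succ n ih =>
    rw [sum_range_succ (fun k => ∑ m ∈ range (k + 1), b m) n,
      sum_range_succ (fun m => (m : R) * b m) n, sum_range_succ b n]
    have h : ∑ k ∈ range n, ∑ m ∈ range (k + 1), b m =
        n * ∑ m ∈ range n, b m - ∑ m ∈ range n, (m : R) * b m := eq_sub_of_add_eq ih
    rw [h]
    push_cast
    ring

end seq

section grp

variable {p : ℕ} [Fact p.Prime] {Γ : Type} [Group Γ] {t : MulAut Γ} {U : Subgroup Γ}

omit [Fact p.Prime] in
lemma pow_mem (hU : Inv t U) (i : ℕ) {x : Γ} (hx : x ∈ U) : (t ^ i) x ∈ U := by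
  induction i with
  | zero => exact hx
  | succ i ih =>
    rw [pow_succ']
    exact hU _ ih

omit [Fact p.Prime] in
lemma pow_succ_apply (i : ℕ) (x : Γ) : (t ^ (i + 1)) x = t ((t ^ i) x) := by
  rw [pow_succ']
  rfl

omit [Fact p.Prime] in
lemma pow_succ_apply' (i : ℕ) (x : Γ) : (t ^ (i + 1)) x = (t ^ i) (t x) := by
  rw [pow_succ]
  rfl

omit [Fact p.Prime] in
lemma pow_per (htp : t ^ p = 1) (i : ℕ) (x : Γ) : (t ^ (i + p)) x = (t ^ i) x := by
  rw [pow_add, htp, mul_one]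

omit [Fact p.Prime] in
lemma pow_p (htp : t ^ p = 1) (x : Γ) : (t ^ p) x = x := by
  rw [htp]
  rfl

lemma p_ne : (p : ℤ_[p]) ≠ 0 := Nat.cast_ne_zero.2 (Fact.out : p.Prime).ne_zero

lemma toZ_dvd {a : ℤ_[p]} (h : (p : ℤ_[p]) ∣ a) : PadicInt.toZMod a = 0 := by
  obtain ⟨b, rfl⟩ := h
  rw [map_mul, map_natCast, ZMod.natCast_self, zero_mul]

variable [TopologicalSpace Γ]

lemma dvd_pow (hUt : Inv t U) {w : Γ → ℤ_[p]} (hw : Wf p t U w) (i : ℕ) {x : Γ} (hx : x ∈ U) :
    (p : ℤ_[p]) ∣ w ((t ^ i) x) - w x := by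
  induction i with
  | zero =>
    rw [pow_zero]
    show (p : ℤ_[p]) ∣ w x - w x
    rw [sub_self]
    exact dvd_zero _
  | succ i ih =>
    rw [pow_succ_apply]
    have := dvd_add (hw.2.2 _ (pow_mem hUt i hx)) ih
    rwa [sub_add_sub_cancel] at this

theorem exists_B (htp : t ^ p = 1) (hUt : Inv t U) {w w' : Γ → ℤ_[p]} (hw : Wf p t U w)
    (hw' : Wf p t U w') : ∃ (mu : Γ → ℤ_[p]) (B : Γ → Γ → ℤ_[p]),
    (∀ x ∈ U, w (t x) - w x = p * mu x) ∧
    (∀ x ∈ U, ∑ i ∈ range p, mu ((t ^ i) x) = 0) ∧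
    (∀ f ∈ U, ∀ g ∈ U, p * B f g = ∑ i ∈ range p, mu ((t ^ i) f) * w' ((t ^ i) g)) ∧
    (∀ f ∈ U, ∀ g, (∀ i, (p : ℤ_[p]) ^ 2 ∣ w ((t ^ i) f)) → (p : ℤ_[p]) ∣ B f g) ∧
    (∀ f, ∀ g ∈ U, (∀ i, (p : ℤ_[p]) ^ 2 ∣ w' ((t ^ i) g)) → (p : ℤ_[p]) ∣ B f g) := by
  classical
  have hmu : ∀ x : Γ, ∃ m : ℤ_[p], x ∈ U → w (t x) - w x = p * m := by
    intro x
    by_cases hx : x ∈ U
    · obtain ⟨m, hm⟩ := hw.2.2 x hx
      exact ⟨m, fun _ => hm⟩
    · exact ⟨0, fun h => absurd h hx⟩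
  choose mu hmu using hmu
  have hmu' : ∀ (i : ℕ) (x : Γ), ∃ m : ℤ_[p], x ∈ U → w' ((t ^ i) x) - w' x = p * m := by
    intro i x
    by_cases hx : x ∈ U
    · obtain ⟨m, hm⟩ := dvd_pow hUt hw' i hx
      exact ⟨m, fun _ => hm⟩
    · exact ⟨0, fun h => absurd h hx⟩
  choose mu' hmu' using hmu'
  have hsum : ∀ x ∈ U, ∑ i ∈ range p, mu ((t ^ i) x) = 0 := by
    intro x hx
    apply mul_left_cancel₀ (p_ne (p := p))
    rw [mul_zero, mul_sum]
    have h1 : ∀ i ∈ range p, (p : ℤ_[p]) * mu ((t ^ i) x) = w ((t ^ (i + 1)) x) - w ((t ^ i) x) := by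
      intro i _
      rw [← hmu _ (pow_mem hUt i hx), pow_succ_apply]
    rw [sum_congr rfl h1, sum_range_sub (fun i => w ((t ^ i) x)), pow_p htp, pow_zero]
    exact sub_self _
  refine ⟨mu, fun f g => ∑ i ∈ range p, mu ((t ^ i) f) * mu' i g, fun x hx => hmu x hx, hsum,
    ?_, ?_, ?_⟩
  · intro f hf g hg
    rw [mul_sum]
    have h1 : ∀ i ∈ range p, (p : ℤ_[p]) * (mu ((t ^ i) f) * mu' i g) =
        mu ((t ^ i) f) * w' ((t ^ i) g) - mu ((t ^ i) f) * w' g := by
      intro i _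
      have h2 := hmu' i g hg
      linear_combination -(mu ((t ^ i) f)) * h2
    rw [sum_congr rfl h1, sum_sub_distrib, ← sum_mul, hsum f hf, zero_mul, sub_zero]
  · intro f hf g h
    refine dvd_sum fun i _ => Dvd.dvd.mul_right ?_ _
    have h1 := dvd_sub (h (i + 1)) (h i)
    rw [pow_succ_apply, hmu _ (pow_mem hUt i hf), pow_two] at h1
    exact (mul_dvd_mul_iff_left p_ne).1 h1
  · intro f g hg h
    refine dvd_sum fun i _ => Dvd.dvd.mul_left ?_ _
    have h1 := dvd_sub (h i) (h 0)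
    have h0 : (t ^ 0) g = g := rfl
    rw [h0, hmu' i g hg, pow_two] at h1
    exact (mul_dvd_mul_iff_left p_ne).1 h1

omit [Fact p.Prime] [TopologicalSpace Γ] in
lemma list_mem (hUt : Inv t U) {c : Γ} (hc : c ∈ U) (n : ℕ) :
    ((List.range n).map fun i => (t ^ i) c).prod ∈ U := by
  induction n with
  | zero => exact U.one_mem
  | succ n ih =>
    rw [List.range_succ, List.map_append, List.prod_append]
    refine U.mul_mem ih ?_
    rw [List.map_singleton, List.prod_singleton]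
    exact pow_mem hUt n hc

end grp

end A3x

section
variable {p : ℕ} [Fact p.Prime] {Γ : Type} [Group Γ] [TopologicalSpace Γ] [IsTopologicalGroup Γ]
  [CompactSpace Γ] [T2Space Γ] {t : MulAut Γ}

open Finset A3x in
/-- the functions `X` restricted to the cocycles are closed under products -/
theorem X.mul (hG : Good p Γ) (ht : Continuous t) (htp : t ^ p = 1) {U : Subgroup Γ}
    (hU : IsOpen (U : Set Γ)) (hUt : Inv t U) {l l' : Γ → ZMod p} (hl : X p t U l)
    (hl' : X p t U l') :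
    ∃ l'' : Γ → ZMod p, X p t U l'' ∧ ∀ c, Z1 p t U c → l'' c = l c * l' c := by
  obtain ⟨w, hw, hwl⟩ := exists_w1 hG ht htp hU hUt hl
  obtain ⟨w', hw', hwl'⟩ := exists_w1 hG ht htp hU hUt hl'
  obtain ⟨mu, B, hmu, hmus, hB1, hB2, hB3⟩ := exists_B htp hUt hw hw'
  have hpp : (p : ZMod p) = 0 := ZMod.natCast_self p
  have hmem : ∀ (i : ℕ) {x : Γ}, x ∈ U → (t ^ i) x ∈ U := fun i x hx => A3x.pow_mem hUt i hx
  -- `mu` is additive
  have muadd : ∀ x ∈ U, ∀ y ∈ U, mu (x * y) = mu x + mu y := by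
    intro x hx y hy
    apply mul_left_cancel₀ (p_ne (p := p))
    rw [mul_add, ← hmu _ (U.mul_mem hx hy), ← hmu _ hx, ← hmu _ hy, map_mul,
      hw.1.1 _ (hUt x hx) _ (hUt y hy), hw.1.1 x hx y hy]
    ring
  have Badd1 : ∀ f ∈ U, ∀ f' ∈ U, ∀ g ∈ U, B (f * f') g = B f g + B f' g := by
    intro f hf f' hf' g hg
    apply mul_left_cancel₀ (p_ne (p := p))
    rw [mul_add, hB1 _ (U.mul_mem hf hf') _ hg, hB1 _ hf _ hg, hB1 _ hf' _ hg, ← sum_add_distrib]
    refine sum_congr rfl fun i _ => ?_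
    rw [map_mul, muadd _ (hmem i hf) _ (hmem i hf')]
    ring
  have Badd2 : ∀ f ∈ U, ∀ g ∈ U, ∀ g' ∈ U, B f (g * g') = B f g + B f g' := by
    intro f hf g hg g' hg'
    apply mul_left_cancel₀ (p_ne (p := p))
    rw [mul_add, hB1 _ hf _ (U.mul_mem hg hg'), hB1 _ hf _ hg, hB1 _ hf _ hg', ← sum_add_distrib]
    refine sum_congr rfl fun i _ => ?_
    rw [map_mul, hw'.1.1 _ (hmem i hg) _ (hmem i hg')]
    ring
  have Binv : ∀ f ∈ U, ∀ g ∈ U, B (t f) (t g) = B f g := by
    intro f hf g hg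
    apply mul_left_cancel₀ (p_ne (p := p))
    rw [hB1 _ (hUt f hf) _ (hUt g hg), hB1 _ hf _ hg]
    refine sum_per' (fun j => mu ((t ^ j) f) * w' ((t ^ j) g))
      (fun j => mu ((t ^ j) (t f)) * w' ((t ^ j) (t g))) (fun i => ?_) ?_
    · show _ = mu ((t ^ (i + 1)) f) * w' ((t ^ (i + 1)) g)
      rw [pow_succ_apply', pow_succ_apply']
    · show mu ((t ^ p) f) * w' ((t ^ p) g) = mu ((t ^ 0) f) * w' ((t ^ 0) g)
      rw [htp, pow_zero]
  have Binvp : ∀ (j : ℕ), ∀ f ∈ U, ∀ g ∈ U, B ((t ^ j) f) ((t ^ j) g) = B f g := by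
    intro j f hf g hg
    induction j with
    | zero => rfl
    | succ j ih => rw [pow_succ_apply, pow_succ_apply, Binv _ (hmem j hf) _ (hmem j hg), ih]
  -- the cocycle
  set C : Γ → Γ → ZMod p := fun x y => PadicInt.toZMod (B x y) with hC
  have Cadd1 : ∀ f ∈ U, ∀ f' ∈ U, ∀ g ∈ U, C (f * f') g = C f g + C f' g := by
    intro f hf f' hf' g hg
    show PadicInt.toZMod _ = PadicInt.toZMod _ + PadicInt.toZMod _
    rw [Badd1 f hf f' hf' g hg, map_add]
  have Cadd2 : ∀ f ∈ U, ∀ g ∈ U, ∀ g' ∈ U, C f (g * g') = C f g + C f g' := by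
    intro f hf g hg g' hg'
    show PadicInt.toZMod _ = PadicInt.toZMod _ + PadicInt.toZMod _
    rw [Badd2 f hf g hg g' hg', map_add]
  have Cinv : ∀ f ∈ U, ∀ g ∈ U, C (t f) (t g) = C f g := by
    intro f hf g hg
    show PadicInt.toZMod _ = PadicInt.toZMod _
    rw [Binv f hf g hg]
  -- small subgroup for `w, w'`
  obtain ⟨g, hgLC, hg⟩ := hG.cd U hU C (by
      intro x hx y hy z hz
      rw [Cadd1 x hx y hy z hz, Cadd2 x hx y hy z hz]
      ring) (by
      obtain ⟨W0, hW0, hW0'⟩ := hw.1.2 2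
      obtain ⟨W1, hW1, hW1'⟩ := hw'.1.2 2
      obtain ⟨W, -, hW, hWt, hWS⟩ := basis_t hG ht htp ((W0 : Set Γ) ∩ W1) (hW0.inter hW1)
        ⟨W0.one_mem, W1.one_mem⟩
      have hd : ∀ v ∈ U, v ∈ W → (∀ i, (p : ℤ_[p]) ^ 2 ∣ w ((t ^ i) v)) := by
        intro v hv hvW i
        have h1 : (t ^ i) v ∈ W := A3x.pow_mem hWt i hvW
        have h2 := hW0' _ (hmem i hv) _ (hmem i hv) (hWS h1).1
        rw [hw.1.1 _ (hmem i hv) _ (hmem i hv), add_sub_cancel_right] at h2
        exact h2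
      have hd' : ∀ v ∈ U, v ∈ W → (∀ i, (p : ℤ_[p]) ^ 2 ∣ w' ((t ^ i) v)) := by
        intro v hv hvW i
        have h1 : (t ^ i) v ∈ W := A3x.pow_mem hWt i hvW
        have h2 := hW1' _ (hmem i hv) _ (hmem i hv) (hWS h1).2
        rw [hw'.1.1 _ (hmem i hv) _ (hmem i hv), add_sub_cancel_right] at h2
        exact h2
      refine ⟨W, hW, fun x hx y hy v hv v' hv' hvW hvW' => ?_⟩
      rw [Cadd1 x hx v hv _ (U.mul_mem hy hv'), Cadd2 x hx y hy v' hv']
      have h1 : C x v' = 0 := toZ_dvd (hB3 x v' hv' (hd' v' hv' hvW'))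
      have h2 : C v (y * v') = 0 := toZ_dvd (hB2 v hv _ (hd v hv hvW))
      rw [h1, h2, add_zero, add_zero])
  -- `eta`
  set eta : Γ → ZMod p := fun x => g (t x) - g x with heta
  have etaadd : ∀ x ∈ U, ∀ y ∈ U, eta (x * y) = eta x + eta y := by
    intro x hx y hy
    show g (t (x * y)) - g (x * y) = (g (t x) - g x) + (g (t y) - g y)
    rw [map_mul, hg _ (hUt x hx) _ (hUt y hy), hg x hx y hy, Cinv x hx y hy]
    ring
  refine ⟨fun x => -∑ k ∈ range p, (k : ZMod p) * eta ((t ^ k) x), ⟨?_, ?_, ?_⟩, ?_⟩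
  · intro x hx y hy
    show -∑ k ∈ range p, (k : ZMod p) * eta ((t ^ k) (x * y)) =
      -∑ k ∈ range p, (k : ZMod p) * eta ((t ^ k) x) + -∑ k ∈ range p, (k : ZMod p) * eta ((t ^ k) y)
    rw [← neg_add, ← sum_add_distrib]
    congr 1
    refine sum_congr rfl fun k _ => ?_
    rw [map_mul, etaadd _ (hmem k hx) _ (hmem k hy)]
    ring
  · obtain ⟨W0, hW0, hW0'⟩ := hgLC
    obtain ⟨W, -, hW, hWt, hWS⟩ := basis_t hG ht htp (W0 : Set Γ) hW0 W0.one_mem
    refine ⟨W, hW, fun x hx v hv hvW => ?_⟩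
    show -∑ k ∈ range p, (k : ZMod p) * eta ((t ^ k) (x * v)) =
      -∑ k ∈ range p, (k : ZMod p) * eta ((t ^ k) x)
    congr 1
    refine sum_congr rfl fun k _ => ?_
    have h1 : (t ^ k) v ∈ W := A3x.pow_mem hWt k hvW
    have h2 : g ((t ^ k) x * (t ^ k) v) = g ((t ^ k) x) :=
      hW0' _ (hmem k hx) _ (hmem k hv) (hWS h1)
    have h3 : g (t ((t ^ k) x) * t ((t ^ k) v)) = g (t ((t ^ k) x)) :=
      hW0' _ (hUt _ (hmem k hx)) _ (hUt _ (hmem k hv)) (hWS (hWt _ h1))
    have h4 : eta ((t ^ k) (x * v)) = eta ((t ^ k) x) := by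
      show g (t ((t ^ k) (x * v))) - g ((t ^ k) (x * v)) = g (t ((t ^ k) x)) - g ((t ^ k) x)
      rw [map_mul, map_mul, h2, h3]
    rw [h4]
  · intro x hx
    show -∑ k ∈ range p, (k : ZMod p) * eta ((t ^ k) (t x)) =
      -∑ k ∈ range p, (k : ZMod p) * eta ((t ^ k) x)
    have h1 : ∑ k ∈ range p, (k : ZMod p) * eta ((t ^ k) (t x)) =
        ∑ k ∈ range p, (k : ZMod p) * eta ((t ^ k) x) + (p : ZMod p) * eta ((t ^ 0) x) -
          ∑ k ∈ range p, eta ((t ^ k) x) := by
      refine shift' (fun j => eta ((t ^ j) x)) (fun j => eta ((t ^ j) (t x))) (fun k => ?_) ?_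
      · show _ = eta ((t ^ (k + 1)) x)
        rw [pow_succ_apply']
      · show eta ((t ^ p) x) = eta ((t ^ 0) x)
        rw [htp, pow_zero]
    have h3 : ∑ k ∈ range p, eta ((t ^ k) x) = 0 := by
      have h4 : ∀ k ∈ range p, eta ((t ^ k) x) = g ((t ^ (k + 1)) x) - g ((t ^ k) x) := by
        intro k _
        rw [pow_succ_apply]
      rw [sum_congr rfl h4, sum_range_sub (fun i => g ((t ^ i) x)), pow_p htp, pow_zero]
      exact sub_self _
    rw [h1, hpp, zero_mul, add_zero, h3, sub_zero]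
  · intro c hc
    have hcU := hc.1
    show -∑ k ∈ range p, (k : ZMod p) * eta ((t ^ k) c) = l c * l' c
    -- first transformation
    have e1 : -∑ k ∈ range p, (k : ZMod p) * eta ((t ^ k) c) = ∑ k ∈ range p, g ((t ^ k) c) := by
      have h1 : ∀ k ∈ range p, (k : ZMod p) * eta ((t ^ k) c) =
          (k : ZMod p) * g ((t ^ (k + 1)) c) - (k : ZMod p) * g ((t ^ k) c) := by
        intro k _
        show (k : ZMod p) * (g (t ((t ^ k) c)) - g ((t ^ k) c)) =
          (k : ZMod p) * g ((t ^ (k + 1)) c) - _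
        rw [pow_succ_apply, mul_sub]
      have h2 : ∑ k ∈ range p, (k : ZMod p) * g ((t ^ (k + 1)) c) =
          ∑ k ∈ range p, (k : ZMod p) * g ((t ^ k) c) + (p : ZMod p) * g ((t ^ 0) c) -
            ∑ k ∈ range p, g ((t ^ k) c) := by
        refine shift' (fun j => g ((t ^ j) c)) (fun j => g ((t ^ (j + 1)) c)) (fun k => rfl) ?_
        show g ((t ^ p) c) = g ((t ^ 0) c)
        rw [htp, pow_zero]
      rw [sum_congr rfl h1, sum_sub_distrib, h2, hpp, zero_mul]
      ring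
    -- the product formula
    have hg1 : g 1 = 0 := by
      have h1 := hg 1 U.one_mem 1 U.one_mem
      have h2 := Cadd1 1 U.one_mem 1 U.one_mem 1 U.one_mem
      rw [mul_one] at h1 h2
      have h3 : C 1 1 = 0 := by
        have : C 1 1 + C 1 1 = C 1 1 + 0 := by rw [add_zero]; exact h2.symm
        exact add_left_cancel this
      rw [h3, add_zero] at h1
      have : g 1 + g 1 = g 1 + 0 := by rw [add_zero]; exact h1.symm
      exact add_left_cancel this
    have hC1 : ∀ y ∈ U, C 1 y = 0 := by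
      intro y hy
      have h2 := Cadd1 1 U.one_mem 1 U.one_mem y hy
      rw [mul_one] at h2
      have : C 1 y + C 1 y = C 1 y + 0 := by rw [add_zero]; exact h2.symm
      exact add_left_cancel this
    have hCP : ∀ n, ∀ y ∈ U, C ((List.range n).map fun i => (t ^ i) c).prod y =
        ∑ j ∈ range n, C ((t ^ j) c) y := by
      intro n y hy
      induction n with
      | zero => exact hC1 y hy
      | succ n ih =>
        rw [List.range_succ, List.map_append, List.prod_append, List.map_singleton,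
          List.prod_singleton, Cadd1 _ (list_mem hUt hcU n) _ (hmem n hcU) y hy, ih, sum_range_succ]
    have hgP : ∀ n, g ((List.range n).map fun i => (t ^ i) c).prod =
        ∑ k ∈ range n, g ((t ^ k) c) + ∑ k ∈ range n, ∑ j ∈ range k, C ((t ^ j) c) ((t ^ k) c) := by
      intro n
      induction n with
      | zero =>
        show g 1 = _
        rw [hg1]
        simp
      | succ n ih =>
        rw [List.range_succ, List.map_append, List.prod_append, List.map_singleton,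
          List.prod_singleton, hg _ (list_mem hUt hcU n) _ (hmem n hcU), ih,
          hCP n _ (hmem n hcU), sum_range_succ, sum_range_succ]
        ring
    -- the numbers `b m`
    set b : ℕ → ZMod p := fun m => C c ((t ^ m) c) with hb
    have hCb : ∀ k, ∀ j ∈ range (k + 1), C ((t ^ j) c) ((t ^ k) c) = b (k - j) := by
      intro k j hj
      have hjk : j ≤ k := Nat.lt_succ_iff.1 (mem_range.1 hj)
      have h1 : (t ^ k) c = (t ^ j) ((t ^ (k - j)) c) := by
        have : t ^ k = t ^ j * t ^ (k - j) := by rw [← pow_add, Nat.add_sub_cancel' hjk]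
        rw [this]
        rfl
      rw [h1]
      show PadicInt.toZMod _ = PadicInt.toZMod _
      rw [Binvp j c hcU _ (hmem _ hcU)]
    have e2 : ∑ k ∈ range p, ∑ j ∈ range k, C ((t ^ j) c) ((t ^ k) c) =
        -∑ m ∈ range p, (m : ZMod p) * b m := by
      have h1 : ∀ k ∈ range p, ∑ j ∈ range k, C ((t ^ j) c) ((t ^ k) c) =
          ∑ m ∈ range (k + 1), b m - b 0 := by
        intro k _
        have h2 : ∑ j ∈ range (k + 1), C ((t ^ j) c) ((t ^ k) c) = ∑ m ∈ range (k + 1), b m := by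
          rw [sum_congr rfl (hCb k), ← sum_range_reflect b (k + 1)]
          refine sum_congr rfl fun j _ => ?_
          rw [Nat.add_sub_cancel]
        have h3 := hCb k k (self_mem_range_succ k)
        rw [sum_range_succ, h3, Nat.sub_self] at h2
        exact eq_sub_of_add_eq h2
      have h4 := tri b p
      rw [hpp, zero_mul] at h4
      rw [sum_congr rfl h1, sum_sub_distrib, sum_const, card_range, nsmul_eq_mul, hpp, zero_mul,
        sub_zero]
      exact eq_neg_of_add_eq_zero_left h4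
    have hnm : g 1 = ∑ k ∈ range p, g ((t ^ k) c) +
        ∑ k ∈ range p, ∑ j ∈ range k, C ((t ^ j) c) ((t ^ k) c) := by
      have := hgP p
      rwa [show ((List.range p).map fun i => (t ^ i) c).prod = 1 from hc.2] at this
    rw [hg1, e2] at hnm
    have e3 : -∑ k ∈ range p, (k : ZMod p) * eta ((t ^ k) c) = ∑ m ∈ range p, (m : ZMod p) * b m := by
      rw [e1]
      linear_combination -hnm
    rw [e3]
    -- the last computation, in the `p`-adic integers
    have hs' : ∀ i, ∑ m ∈ range p, w' ((t ^ (i + m)) c) = 0 := by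
      intro i
      have h1 := hw'.2.1 _ (hmem i hcU)
      unfold Nf at h1
      rw [← h1]
      refine sum_congr rfl fun m _ => ?_
      rw [add_comm i m, pow_add]
      rfl
    set W : ℕ → ℤ_[p] := fun i => ∑ m ∈ range p, (m : ℤ_[p]) * w' ((t ^ (i + m)) c) with hW
    have hWs : ∀ i, W (i + 1) = W i + p * w' ((t ^ i) c) := by
      intro i
      have h1 : ∑ m ∈ range p, (m : ℤ_[p]) * w' ((t ^ (i + 1 + m)) c) =
          ∑ k ∈ range p, (k : ℤ_[p]) * w' ((t ^ (i + k)) c) + (p : ℤ_[p]) * w' ((t ^ (i + 0)) c) -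
          ∑ k ∈ range p, w' ((t ^ (i + k)) c) := by
        refine shift' (fun m => w' ((t ^ (i + m)) c)) (fun m => w' ((t ^ (i + 1 + m)) c))
          (fun k => ?_) ?_
        · show _ = w' ((t ^ (i + (k + 1))) c)
          rw [show i + 1 + k = i + (k + 1) by ring]
        · show w' ((t ^ (i + p)) c) = w' ((t ^ (i + 0)) c)
          rw [pow_per htp, add_zero]
      refine h1.trans ?_
      rw [hs' i, sub_zero, add_zero]
    have hWi : ∀ i, W i = W 0 + p * ∑ j ∈ range i, w' ((t ^ j) c) := by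
      intro i
      induction i with
      | zero => simp
      | succ i ih =>
        rw [hWs, ih, sum_range_succ]
        ring
    have hQ : ∑ m ∈ range p, (m : ℤ_[p]) * B c ((t ^ m) c) =
        ∑ i ∈ range p, mu ((t ^ i) c) * ∑ j ∈ range i, w' ((t ^ j) c) := by
      apply mul_left_cancel₀ (p_ne (p := p))
      have h1 : (p : ℤ_[p]) * ∑ m ∈ range p, (m : ℤ_[p]) * B c ((t ^ m) c) =
          ∑ i ∈ range p, mu ((t ^ i) c) * W i := by
        rw [mul_sum]
        have h2 : ∀ m ∈ range p, (p : ℤ_[p]) * ((m : ℤ_[p]) * B c ((t ^ m) c)) =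
            ∑ i ∈ range p, (m : ℤ_[p]) * (mu ((t ^ i) c) * w' ((t ^ (i + m)) c)) := by
          intro m _
          have h3 := hB1 c hcU _ (hmem m hcU)
          rw [mul_left_comm, h3, mul_sum]
          refine sum_congr rfl fun i _ => ?_
          rw [pow_add]
          rfl
        rw [sum_congr rfl h2, sum_comm]
        refine sum_congr rfl fun i _ => ?_
        show _ = mu ((t ^ i) c) * ∑ m ∈ range p, (m : ℤ_[p]) * w' ((t ^ (i + m)) c)
        rw [mul_sum]
        refine sum_congr rfl fun m _ => ?_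
        ring
      rw [h1]
      have h4 : ∀ i ∈ range p, mu ((t ^ i) c) * W i =
          mu ((t ^ i) c) * W 0 + p * (mu ((t ^ i) c) * ∑ j ∈ range i, w' ((t ^ j) c)) := by
        intro i _
        rw [hWi i]
        ring
      rw [sum_congr rfl h4, sum_add_distrib, ← sum_mul, hmus c hcU, zero_mul, zero_add, mul_sum]
    have hz : ∀ j, PadicInt.toZMod (w' ((t ^ j) c)) = PadicInt.toZMod (w' c) := by
      intro j
      have := toZ_dvd (dvd_pow hUt hw' j hcU)
      rw [map_sub] at this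
      exact sub_eq_zero.1 this
    have hmw : ∑ i ∈ range p, (i : ℤ_[p]) * mu ((t ^ i) c) = w c := by
      apply mul_left_cancel₀ (p_ne (p := p))
      rw [mul_sum]
      have h1 : ∀ i ∈ range p, (p : ℤ_[p]) * ((i : ℤ_[p]) * mu ((t ^ i) c)) =
          (i : ℤ_[p]) * w ((t ^ (i + 1)) c) - (i : ℤ_[p]) * w ((t ^ i) c) := by
        intro i _
        rw [mul_left_comm, ← hmu _ (hmem i hcU), pow_succ_apply, mul_sub]
      have h2 : ∑ k ∈ range p, (k : ℤ_[p]) * w ((t ^ (k + 1)) c) =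
          ∑ k ∈ range p, (k : ℤ_[p]) * w ((t ^ k) c) + (p : ℤ_[p]) * w ((t ^ 0) c) -
            ∑ k ∈ range p, w ((t ^ k) c) := by
        refine shift' (fun j => w ((t ^ j) c)) (fun j => w ((t ^ (j + 1)) c)) (fun k => rfl) ?_
        show w ((t ^ p) c) = w ((t ^ 0) c)
        rw [htp, pow_zero]
      have h3 : ∑ k ∈ range p, w ((t ^ k) c) = 0 := hw.2.1 c hcU
      have h4 : (t ^ 0) c = c := rfl
      rw [sum_congr rfl h1, sum_sub_distrib, h2, h3, h4]
      ring
    have e4 : ∑ m ∈ range p, (m : ZMod p) * b m =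
        PadicInt.toZMod (∑ m ∈ range p, (m : ℤ_[p]) * B c ((t ^ m) c)) := by
      rw [map_sum]
      refine sum_congr rfl fun m _ => ?_
      rw [map_mul, map_natCast]
    rw [e4, hQ, map_sum]
    have e5 : ∀ i ∈ range p, PadicInt.toZMod (mu ((t ^ i) c) * ∑ j ∈ range i, w' ((t ^ j) c)) =
        PadicInt.toZMod ((i : ℤ_[p]) * mu ((t ^ i) c)) * PadicInt.toZMod (w' c) := by
      intro i _
      rw [map_mul, map_sum, sum_congr rfl (fun j _ => hz j), sum_const, card_range, nsmul_eq_mul,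
        map_mul, map_natCast]
      ring
    rw [sum_congr rfl e5, ← sum_mul, ← map_sum, hmw, hwl c hc, hwl' c hc]

end

end Pool.Agent.H371.SE
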