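import Pool.Agent.H371.SE.A3

set_option autoImplicit false

namespace Pool.Agent.H371.SE

section
variable {p : ℕ} [Fact p.Prime] {Γ : Type} [Group Γ] [TopologicalSpace Γ] [IsTopologicalGroup Γ]
  [CompactSpace Γ] [T2Space Γ] {t : MulAut Γ}

omit [IsTopologicalGroup Γ] [CompactSpace Γ] [T2Space Γ] in
theorem A4x.zero {U : Subgroup Γ} : X p t U (fun _ => 0) := by
  refine ⟨fun _ _ _ _ => by simp, ⟨⊤, ?_, fun _ _ _ _ _ => rfl⟩, fun _ _ => rfl⟩
  rw [Subgroup.coe_top]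
  exact isOpen_univ

omit [IsTopologicalGroup Γ] [CompactSpace Γ] [T2Space Γ] in
theorem A4x.add {U : Subgroup Γ} {l l' : Γ → ZMod p} (hl : X p t U l) (hl' : X p t U l') :
    X p t U (fun x => l x + l' x) := by
  obtain ⟨h1, ⟨W, hW, h2⟩, h3⟩ := hl
  obtain ⟨h1', ⟨W', hW', h2'⟩, h3'⟩ := hl'
  refine ⟨fun x hx y hy => ?_, ⟨W ⊓ W', ?_, fun x hx w hw hwW => ?_⟩, fun x hx => ?_⟩
  · show l (x * y) + l' (x * y) = (l x + l' x) + (l y + l' y)
    rw [h1 x hx y hy, h1' x hx y hy]; ring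
  · rw [Subgroup.coe_inf]; exact hW.inter hW'
  · show l (x * w) + l' (x * w) = l x + l' x
    rw [h2 x hx w hw (Subgroup.mem_inf.1 hwW).1, h2' x hx w hw (Subgroup.mem_inf.1 hwW).2]
  · show l (t x) + l' (t x) = l x + l' x
    rw [h3 x hx, h3' x hx]

omit [IsTopologicalGroup Γ] [CompactSpace Γ] [T2Space Γ] in
theorem A4x.smul {U : Subgroup Γ} (c : ZMod p) {l : Γ → ZMod p} (hl : X p t U l) :
    X p t U (fun x => c * l x) := by
  obtain ⟨h1, ⟨W, hW, h2⟩, h3⟩ := hl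
  refine ⟨fun x hx y hy => ?_, ⟨W, hW, fun x hx w hw hwW => ?_⟩, fun x hx => ?_⟩
  · show c * l (x * y) = c * l x + c * l y
    rw [h1 x hx y hy]; ring
  · show c * l (x * w) = c * l x
    rw [h2 x hx w hw hwW]
  · show c * l (t x) = c * l x
    rw [h3 x hx]

/-- finitely many cocycles which are not killed by `X` are separated from `1` by one function -/
theorem X.ind (hG : Good p Γ) (ht : Continuous t) (htp : t ^ p = 1) {U : Subgroup Γ}
    (hU : IsOpen (U : Set Γ)) (hUt : Inv t U) {ι : Type} [Finite ι] (b : ι → Γ)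
    (hb : ∀ i, Z1 p t U (b i)) (hn : ∀ i, ∃ l : Γ → ZMod p, X p t U l ∧ l (b i) ≠ 0) :
    ∃ l : Γ → ZMod p, X p t U l ∧ ∀ i, l (b i) = -1 := by
  classical
  have hn' : ∀ i, ∃ l : Γ → ZMod p, X p t U l ∧ l (b i) = -1 := by
    intro i
    obtain ⟨l, hl, hl0⟩ := hn i
    exact ⟨_, A4x.smul (-(l (b i))⁻¹) hl, by
      simp only [neg_mul, inv_mul_cancel₀ hl0]⟩
  have claim : ∀ S : Finset ι, ∃ l : Γ → ZMod p, X p t U l ∧ ∀ i ∈ S, l (b i) = -1 := by
    intro S
    induction S using Finset.induction_on with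
    | empty => exact ⟨_, A4x.zero, fun i hi => absurd hi (Finset.notMem_empty i)⟩
    | insert j S _ ih =>
      obtain ⟨l, hl, hlS⟩ := ih
      obtain ⟨l', hl', hlj⟩ := hn' j
      obtain ⟨l'', hl'', hm⟩ := X.mul hG ht htp hU hUt hl hl'
      refine ⟨_, A4x.add (A4x.add hl hl') hl'', fun i hi => ?_⟩
      simp only [hm (b i) (hb i)]
      rcases Finset.mem_insert.1 hi with h | h
      · rw [h, hlj]; ring
      · rw [hlS i h]; ring
  have : Fintype ι := Fintype.ofFinite ι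
  obtain ⟨l, hl, h⟩ := claim Finset.univ
  exact ⟨l, hl, fun i => h i (Finset.mem_univ i)⟩

end

end Pool.Agent.H371.SE
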