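import Pool.Agent.H371.SE.A0

set_option autoImplicit false

namespace Pool.Agent.H371.SE

namespace A5x

open Finset

section alg
variable {p : ℕ} [Fact p.Prime] {Γ : Type} [Group Γ]

theorem add_one {U : Subgroup Γ} {f : Γ → ZMod p} (hf : AddOn U f) : f 1 = 0 := by
  have h := hf 1 U.one_mem 1 U.one_mem
  rw [mul_one] at h
  simpa using h

theorem add_inv {U : Subgroup Γ} {f : Γ → ZMod p} (hf : AddOn U f) {x : Γ} (hx : x ∈ U) :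
    f x⁻¹ = - f x := by
  have h := hf x⁻¹ (U.inv_mem hx) x hx
  rw [inv_mul_cancel, add_one hf] at h
  exact eq_neg_of_add_eq_zero_left h.symm

theorem add_pow {U : Subgroup Γ} {f : Γ → ZMod p} (hf : AddOn U f) {x : Γ} (hx : x ∈ U) (n : ℕ) :
    f (x ^ n) = n * f x := by
  induction n with
  | zero => rw [pow_zero, add_one hf]; simp
  | succ n ih =>
    rw [pow_succ, hf _ (U.pow_mem hx n) _ hx, ih]
    push_cast
    ring

/-- the transfer sum -/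
def Tr (l₀ l : Γ → ZMod p) (x : Γ) (r : ZMod p → Γ) (f : Γ) : ZMod p :=
  ∑ q : ZMod p, l ((r (q + l₀ f / l₀ x))⁻¹ * f * r q)

/-- representatives of the cosets of the kernel -/
def Rep (V : Subgroup Γ) (l₀ : Γ → ZMod p) (x : Γ) (r : ZMod p → Γ) : Prop :=
  ∀ q, r q ∈ V ∧ l₀ (r q) = q * l₀ x

variable {V V' : Subgroup Γ} {l₀ l : Γ → ZMod p} {x : Γ} {r r' : ZMod p → Γ}

theorem mem_of (hl₀ : AddOn V l₀) (hV' : ∀ y, y ∈ V' ↔ y ∈ V ∧ l₀ y = 0) (hlx : l₀ x ≠ 0)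
    (hr : Rep V l₀ x r) {f : Γ} (hf : f ∈ V) (q : ZMod p) :
    (r (q + l₀ f / l₀ x))⁻¹ * f * r q ∈ V' := by
  have h1 := hr (q + l₀ f / l₀ x)
  have h2 := hr q
  rw [hV']
  refine ⟨V.mul_mem (V.mul_mem (V.inv_mem h1.1) hf) h2.1, ?_⟩
  rw [hl₀ _ (V.mul_mem (V.inv_mem h1.1) hf) _ h2.1, hl₀ _ (V.inv_mem h1.1) _ hf,
    add_inv hl₀ h1.1, h1.2, h2.2, add_mul, div_mul_cancel₀ _ hlx]
  ring

theorem Tr_add (hl₀ : AddOn V l₀) (hV' : ∀ y, y ∈ V' ↔ y ∈ V ∧ l₀ y = 0) (hlx : l₀ x ≠ 0)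
    (hl : AddOn V' l) (hr : Rep V l₀ x r) {f g : Γ} (hf : f ∈ V) (hg : g ∈ V) :
    Tr l₀ l x r (f * g) = Tr l₀ l x r f + Tr l₀ l x r g := by
  unfold Tr
  have h1 : ∑ q : ZMod p, l ((r (q + l₀ f / l₀ x))⁻¹ * f * r q) =
      ∑ q : ZMod p, l ((r (q + l₀ g / l₀ x + l₀ f / l₀ x))⁻¹ * f * r (q + l₀ g / l₀ x)) :=
    (Equiv.sum_comp (Equiv.addRight (l₀ g / l₀ x))
      (fun q => l ((r (q + l₀ f / l₀ x))⁻¹ * f * r q))).symm
  rw [h1, ← Finset.sum_add_distrib]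
  refine Finset.sum_congr rfl fun q _ => ?_
  rw [← hl _ (mem_of hl₀ hV' hlx hr hf _) _ (mem_of hl₀ hV' hlx hr hg _)]
  have h2 : q + l₀ (f * g) / l₀ x = q + l₀ g / l₀ x + l₀ f / l₀ x := by
    rw [hl₀ f hf g hg, add_div]
    ring
  rw [h2]
  congr 1
  group

theorem Tr_indep (hl₀ : AddOn V l₀) (hV' : ∀ y, y ∈ V' ↔ y ∈ V ∧ l₀ y = 0) (hlx : l₀ x ≠ 0)
    (hl : AddOn V' l) (hr : Rep V l₀ x r) (hr' : Rep V l₀ x r') {f : Γ} (hf : f ∈ V) :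
    Tr l₀ l x r' f = Tr l₀ l x r f := by
  have ha : ∀ q, (r q)⁻¹ * r' q ∈ V' := by
    intro q
    rw [hV']
    refine ⟨V.mul_mem (V.inv_mem (hr q).1) (hr' q).1, ?_⟩
    rw [hl₀ _ (V.inv_mem (hr q).1) _ (hr' q).1, add_inv hl₀ (hr q).1, (hr q).2, (hr' q).2]
    ring
  unfold Tr
  have h1 : ∀ q : ZMod p, l ((r' (q + l₀ f / l₀ x))⁻¹ * f * r' q) =
      - l ((r (q + l₀ f / l₀ x))⁻¹ * r' (q + l₀ f / l₀ x)) +
        l ((r (q + l₀ f / l₀ x))⁻¹ * f * r q) + l ((r q)⁻¹ * r' q) := by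
    intro q
    have e1 : (r' (q + l₀ f / l₀ x))⁻¹ * f * r' q =
        ((r (q + l₀ f / l₀ x))⁻¹ * r' (q + l₀ f / l₀ x))⁻¹ *
          ((r (q + l₀ f / l₀ x))⁻¹ * f * r q) * ((r q)⁻¹ * r' q) := by group
    have m1 := ha (q + l₀ f / l₀ x)
    have m2 := mem_of hl₀ hV' hlx hr hf q
    rw [e1, hl _ (V'.mul_mem (V'.inv_mem m1) m2) _ (ha q), hl _ (V'.inv_mem m1) _ m2,
      add_inv hl m1]
  simp_rw [h1]
  rw [Finset.sum_add_distrib, Finset.sum_add_distrib, Finset.sum_neg_distrib]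
  have h2 : ∑ q : ZMod p, l ((r (q + l₀ f / l₀ x))⁻¹ * r' (q + l₀ f / l₀ x)) =
      ∑ q : ZMod p, l ((r q)⁻¹ * r' q) :=
    Equiv.sum_comp (Equiv.addRight (l₀ f / l₀ x)) (fun q => l ((r q)⁻¹ * r' q))
  rw [h2]
  ring

theorem Tr_t {t : MulAut Γ} (hVt : Inv t V) (hl₀ : AddOn V l₀)
    (hV' : ∀ y, y ∈ V' ↔ y ∈ V ∧ l₀ y = 0) (hlx : l₀ x ≠ 0) (hl : AddOn V' l)
    (hl₀t : ∀ y ∈ V, l₀ (t y) = l₀ y) (hlt : ∀ y ∈ V', l (t y) = l y)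
    (hr : Rep V l₀ x r) {f : Γ} (hf : f ∈ V) :
    Tr l₀ l x r (t f) = Tr l₀ l x r f := by
  have hr' : Rep V l₀ x (fun q => t (r q)) := fun q =>
    ⟨hVt _ (hr q).1, by rw [hl₀t _ (hr q).1, (hr q).2]⟩
  rw [← Tr_indep hl₀ hV' hlx hl hr hr' (hVt f hf)]
  unfold Tr
  refine Finset.sum_congr rfl fun q _ => ?_
  rw [hl₀t f hf, ← hlt _ (mem_of hl₀ hV' hlx hr hf q), map_mul, map_mul, map_inv]

theorem Tr_ker {c : Γ} (hc : l₀ c = 0) :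
    Tr l₀ l x r c = ∑ q : ZMod p, l ((r q)⁻¹ * c * r q) := by
  unfold Tr
  refine Finset.sum_congr rfl fun q _ => ?_
  rw [hc, zero_div, add_zero]

theorem sum_val (F : ℕ → ZMod p) : ∑ q : ZMod p, F q.val = ∑ j ∈ Finset.range p, F j := by
  refine Finset.sum_nbij' (fun q => q.val) (fun j => (j : ZMod p)) ?_ ?_ ?_ ?_ ?_
  · intro q _
    exact Finset.mem_range.2 (ZMod.val_lt q)
  · intro j _
    exact Finset.mem_univ _
  · intro q _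
    exact ZMod.natCast_zmod_val q
  · intro j hj
    exact ZMod.val_cast_of_lt (Finset.mem_range.1 hj)
  · intro q _
    rfl

end alg

end A5x

section
variable {p : ℕ} [Fact p.Prime] {Γ : Type} [Group Γ] [TopologicalSpace Γ] [IsTopologicalGroup Γ]
  [CompactSpace Γ] [T2Space Γ] {t : MulAut Γ}

open A5x in
/-- transfer from the kernel `V'` of `l₀` to `V` -/
theorem transfer (hG : Good p Γ) (ht : Continuous t) (htp : t ^ p = 1) {V : Subgroup Γ}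
    (hV : IsOpen (V : Set Γ)) (hVt : Inv t V) {l₀ : Γ → ZMod p} (hl₀ : X p t V l₀) {x : Γ}
    (hx : x ∈ V) (hlx : l₀ x ≠ 0) {V' : Subgroup Γ} (hV' : ∀ y, y ∈ V' ↔ y ∈ V ∧ l₀ y = 0)
    {l : Γ → ZMod p} (hl : X p t V' l) :
    ∃ T : Γ → ZMod p, X p t V T ∧
      ∀ c ∈ V', T c = ∑ j ∈ Finset.range p, l ((x ^ j)⁻¹ * c * x ^ j) := by
  obtain ⟨a₀, c₀, i₀⟩ := hl₀
  obtain ⟨a, c, i⟩ := hl
  have hr : Rep V l₀ x (fun q : ZMod p => x ^ q.val) := by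
    intro q
    refine ⟨V.pow_mem hx _, ?_⟩
    rw [add_pow a₀ hx, ZMod.natCast_zmod_val]
  refine ⟨Tr l₀ l x (fun q : ZMod p => x ^ q.val), ⟨?_, ?_, ?_⟩, ?_⟩
  · intro f hf g hg
    exact Tr_add a₀ hV' hlx a hr hf hg
  · obtain ⟨W₀, hW₀, h₀⟩ := c₀
    obtain ⟨W₁, hW₁, h₁⟩ := c
    obtain ⟨W, hWn, hWo, hWs⟩ := hG.basis ((V : Set Γ) ∩ (W₀ ∩ W₁))
      (hV.inter (hW₀.inter hW₁)) ⟨V.one_mem, W₀.one_mem, W₁.one_mem⟩
    have hz0 : ∀ w ∈ W, l₀ w = 0 := by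
      intro w hw
      have h := hWs hw
      have := h₀ 1 V.one_mem w h.1 h.2.1
      rwa [one_mul, add_one a₀] at this
    have hz1 : ∀ w ∈ W, w ∈ V' := fun w hw => (hV' w).2 ⟨(hWs hw).1, hz0 w hw⟩
    have hz2 : ∀ w ∈ W, l w = 0 := by
      intro w hw
      have := h₁ 1 V'.one_mem w (hz1 w hw) (hWs hw).2.2
      rwa [one_mul, add_one a] at this
    refine ⟨W, hWo, fun f hf w hw hwW => ?_⟩
    rw [Tr_add a₀ hV' hlx a hr hf hw, Tr_ker (hz0 w hwW)]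
    have : ∑ q : ZMod p, l ((x ^ q.val)⁻¹ * w * x ^ q.val) = 0 := by
      refine Finset.sum_eq_zero fun q _ => ?_
      apply hz2
      have := hWn.conj_mem w hwW ((x ^ q.val)⁻¹)
      rwa [inv_inv] at this
    rw [this, add_zero]
  · intro f hf
    exact Tr_t hVt a₀ hV' hlx a i₀ i hr hf
  · intro c hc
    rw [Tr_ker ((hV' c).1 hc).2]
    exact sum_val (fun j => l ((x ^ j)⁻¹ * c * x ^ j))

end

end Pool.Agent.H371.SE
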