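import Pool.Agent.H371.SE.A4
import Pool.Agent.H371.SE.A5

set_option autoImplicit false

namespace Pool.Agent.H371.SE

namespace A6x

section
variable {p : ℕ} [Fact p.Prime] {Γ : Type} [Group Γ] [TopologicalSpace Γ] [IsTopologicalGroup Γ]
  [CompactSpace Γ] [T2Space Γ] {t : MulAut Γ}

theorem tz (z : ℤ_[p]) : PadicInt.toZMod z = 0 ↔ (p : ℤ_[p]) ∣ z := by
  rw [← RingHom.mem_ker, PadicInt.ker_toZMod, PadicInt.maximalIdeal_eq_span_p,
    Ideal.mem_span_singleton]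

theorem p0 : (p : ℤ_[p]) ≠ 0 := by
  exact_mod_cast (Fact.out : p.Prime).ne_zero

open Classical in
/-- division by `p` -/
noncomputable def dv (z : ℤ_[p]) : ℤ_[p] := if h : (p : ℤ_[p]) ∣ z then h.choose else 0

theorem dv_spec {z : ℤ_[p]} (h : (p : ℤ_[p]) ∣ z) : (p : ℤ_[p]) * dv z = z := by
  rw [dv, dif_pos h]
  exact h.choose_spec.symm

theorem dv_mul (z : ℤ_[p]) : dv ((p : ℤ_[p]) * z) = z :=
  mul_left_cancel₀ p0 (dv_spec (dvd_mul_right _ _))

omit [Fact p.Prime] [TopologicalSpace Γ] [IsTopologicalGroup Γ] [CompactSpace Γ] [T2Space Γ] in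
theorem AddOn.one {U : Subgroup Γ} {M : Type} [AddCommGroup M] {f : Γ → M} (h : AddOn U f) :
    f 1 = 0 := by
  have := h 1 U.one_mem 1 U.one_mem
  rw [mul_one] at this
  simpa using this

omit [Fact p.Prime] [TopologicalSpace Γ] [IsTopologicalGroup Γ] [CompactSpace Γ] [T2Space Γ] in
theorem AddOn.inv {U : Subgroup Γ} {M : Type} [AddCommGroup M] {f : Γ → M} (h : AddOn U f) {x : Γ}
    (hx : x ∈ U) : f x⁻¹ = - f x := by
  have h1 := h x⁻¹ (U.inv_mem hx) x hx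
  rw [inv_mul_cancel, AddOn.one h] at h1
  exact eq_neg_of_add_eq_zero_left h1.symm

omit [Fact p.Prime] [TopologicalSpace Γ] [IsTopologicalGroup Γ] [CompactSpace Γ] [T2Space Γ] in
theorem AddOn.pow {U : Subgroup Γ} {M : Type} [AddCommGroup M] {f : Γ → M} (h : AddOn U f) {x : Γ}
    (hx : x ∈ U) (n : ℕ) : f (x ^ n) = n • f x := by
  induction n with
  | zero => rw [pow_zero, zero_smul, AddOn.one h]
  | succ n ih => rw [pow_succ, h _ (U.pow_mem hx n) _ hx, ih, succ_nsmul]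

omit [Fact p.Prime] [TopologicalSpace Γ] [IsTopologicalGroup Γ] [CompactSpace Γ] [T2Space Γ] in
theorem inv_pow {U : Subgroup Γ} (h : Inv t U) (i : ℕ) {x : Γ} (hx : x ∈ U) : (t ^ i) x ∈ U := by
  induction i with
  | zero => exact hx
  | succ i ih => rw [pow_succ']; exact h _ ih

omit [Fact p.Prime] [TopologicalSpace Γ] [IsTopologicalGroup Γ] [CompactSpace Γ] [T2Space Γ] in
/-- Abel summation -/
theorem abel_sum {M : Type} [CommRing M] (a : ℕ → M) (ha : a p = a 0)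
    (h0 : ∑ i ∈ Finset.range p, a i = 0) :
    ∑ i ∈ Finset.range p, (i : M) * (a (i + 1) - a i) = p * a 0 := by
  have key : ∀ n : ℕ, ∑ i ∈ Finset.range n, (i : M) * (a (i + 1) - a i) =
      n * a n - ∑ i ∈ Finset.range n, a (i + 1) := by
    intro n
    induction n with
    | zero => simp
    | succ n ih =>
      rw [Finset.sum_range_succ, Finset.sum_range_succ, ih]
      push_cast
      ring
  rw [key, ha]
  have h1 : ∑ i ∈ Finset.range p, a (i + 1) = ∑ i ∈ Finset.range p, a i := by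
    have h2 := Finset.sum_range_succ a p
    have h3 := Finset.sum_range_succ' a p
    rw [h2, ha] at h3
    exact (add_right_cancel h3).symm
  rw [h1, h0, sub_zero]

/-- the function `S(f) = ∑ i w(t^i f)` -/
noncomputable def SS (p : ℕ) [Fact p.Prime] (t : MulAut Γ) (w : Γ → ℤ_[p]) (f : Γ) : ℤ_[p] :=
  ∑ i ∈ Finset.range p, (i : ℤ_[p]) * w ((t ^ i) f)

end

end A6x

section
variable {p : ℕ} [Fact p.Prime] {Γ : Type} [Group Γ] [TopologicalSpace Γ] [IsTopologicalGroup Γ]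
  [CompactSpace Γ] [T2Space Γ] {t : MulAut Γ}

open A6x

/-- the descent step: a cocycle killed by `X V` is cohomologous in `V` to a cocycle of the
subgroup `V'` killed by `X V'` -/
theorem dstep (hG : Good p Γ) (ht : Continuous t) (htp : t ^ p = 1) {V : Subgroup Γ}
    (hV : IsOpen (V : Set Γ)) (hVt : Inv t V) {w : Γ → ℤ_[p]} (hw : Wf p t V w) {x : Γ}
    (hx : x ∈ V) (hwx : ¬ (p : ℤ_[p]) ∣ w x) {V' : Subgroup Γ}
    (hV' : ∀ y, y ∈ V' ↔ y ∈ V ∧ (p : ℤ_[p]) ∣ w y) {c : Γ} (hc : Z1 p t V c)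
    (hck : ∀ l : Γ → ZMod p, X p t V l → l c = 0) :
    ∃ j < p, Z1 p t V' ((x ^ j)⁻¹ * c * t (x ^ j)) ∧
      ∀ l : Γ → ZMod p, X p t V' l → l ((x ^ j)⁻¹ * c * t (x ^ j)) = 0 := by
  classical
  have hp0 : 0 < p := (Fact.out : p.Prime).pos
  obtain ⟨⟨hadd, hcz⟩, hN, hinv⟩ := hw
  -- the function `l₀`
  have hl₀ : X p t V (fun y => PadicInt.toZMod (w y)) := by
    refine ⟨fun a ha b hb => ?_, ?_, fun a ha => ?_⟩
    · simp only
      rw [hadd a ha b hb, map_add]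
    · obtain ⟨W, hW, h1⟩ := hcz 1
      refine ⟨W, hW, fun a ha b hb hbW => ?_⟩
      have h2 := h1 a ha b hb hbW
      rw [pow_one, ← tz, map_sub] at h2
      exact sub_eq_zero.1 h2
    · have h2 := hinv a ha
      rw [← tz, map_sub] at h2
      exact sub_eq_zero.1 h2
  have hV'' : ∀ y, y ∈ V' ↔ y ∈ V ∧ PadicInt.toZMod (w y) = 0 := by
    intro y
    rw [hV', tz]
  have hlx : PadicInt.toZMod (w x) ≠ 0 := by
    rw [Ne, tz]
    exact hwx
  have hV'V : V' ≤ V := fun y hy => ((hV' y).1 hy).1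
  have hVt' : Inv t V' := by
    intro y hy
    rw [hV''] at hy ⊢
    exact ⟨hVt y hy.1, (hl₀.2.2 y hy.1).trans hy.2⟩
  have hV'o : IsOpen (V' : Set Γ) := by
    obtain ⟨W, hW, h1⟩ := hl₀.2.1
    refine Subgroup.isOpen_mono (H₁ := V ⊓ W) (fun y hy => ?_) (hV.inter hW)
    rw [hV'']
    refine ⟨hy.1, ?_⟩
    have h2 := h1 1 V.one_mem y hy.1 hy.2
    rw [one_mul] at h2
    exact h2.trans (AddOn.one hl₀.1)
  have hcV : c ∈ V := hc.1
  have hcV' : c ∈ V' := (hV'' c).2 ⟨hcV, hck _ hl₀⟩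
  have hxj : ∀ j : ℕ, x ^ j ∈ V := fun j => V.pow_mem hx j
  have htxj : ∀ j : ℕ, t (x ^ j) ∈ V := fun j => hVt _ (hxj j)
  have hconj : ∀ j : ℕ, (x ^ j)⁻¹ * c * x ^ j ∈ V' := by
    intro j
    rw [hV'']
    refine ⟨V.mul_mem (V.mul_mem (V.inv_mem (hxj j)) hcV) (hxj j), ?_⟩
    have h1 := hl₀.1 _ (V.mul_mem (V.inv_mem (hxj j)) hcV) _ (hxj j)
    have h2 := hl₀.1 _ (V.inv_mem (hxj j)) _ hcV
    have h3 := AddOn.inv hl₀.1 (hxj j)
    simp only at h1 h2 h3
    rw [h1, h2, h3, ((hV'' c).1 hcV').2]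
    abel
  have haj : ∀ j : ℕ, (x ^ j)⁻¹ * t (x ^ j) ∈ V' := by
    intro j
    rw [hV'']
    refine ⟨V.mul_mem (V.inv_mem (hxj j)) (htxj j), ?_⟩
    have h1 := hl₀.1 _ (V.inv_mem (hxj j)) _ (htxj j)
    have h3 := AddOn.inv hl₀.1 (hxj j)
    have h4 := hl₀.2.2 _ (hxj j)
    simp only at h1 h3 h4
    rw [h1, h3, h4]
    abel
  have hbj : ∀ j : ℕ, (x ^ j)⁻¹ * c * t (x ^ j) =
      ((x ^ j)⁻¹ * c * x ^ j) * ((x ^ j)⁻¹ * t (x ^ j)) := fun j => by group
  have hbZ : ∀ j : ℕ, Z1 p t V' ((x ^ j)⁻¹ * c * t (x ^ j)) := fun j =>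
    ⟨by rw [hbj]; exact V'.mul_mem (hconj j) (haj j), nm_twist htp _ _ hc.2⟩
  have haZ : ∀ j : ℕ, Z1 p t V' ((x ^ j)⁻¹ * t (x ^ j)) := fun j => ⟨haj j, nm_cob htp _⟩
  -- transfer
  have htr : ∀ l : Γ → ZMod p, X p t V' l →
      ∑ j ∈ Finset.range p, l ((x ^ j)⁻¹ * c * t (x ^ j)) =
      ∑ j ∈ Finset.range p, l ((x ^ j)⁻¹ * t (x ^ j)) := by
    intro l hl
    obtain ⟨T, hT, hTc⟩ := transfer hG ht htp hV hVt hl₀ hx hlx hV'' hl
    have h1 := hTc c hcV'
    rw [hck T hT] at h1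
    have h2 : ∑ j ∈ Finset.range p, l ((x ^ j)⁻¹ * c * t (x ^ j)) =
        ∑ j ∈ Finset.range p, l ((x ^ j)⁻¹ * c * x ^ j) +
        ∑ j ∈ Finset.range p, l ((x ^ j)⁻¹ * t (x ^ j)) := by
      rw [← Finset.sum_add_distrib]
      refine Finset.sum_congr rfl fun j _ => ?_
      rw [hbj]
      exact hl.1 _ (hconj j) _ (haj j)
    rw [h2, ← h1, zero_add]
  -- the function `y`
  have htpow : ∀ f : Γ, (t ^ p) f = f := fun f => by rw [htp]; rfl
  have hti : ∀ (i : ℕ) (f : Γ), (t ^ i) (t f) = (t ^ (i + 1)) f := fun i f => by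
    rw [pow_succ]; rfl
  have hab : ∀ f ∈ V, ∑ i ∈ Finset.range p, (i : ℤ_[p]) * (w ((t ^ (i + 1)) f) - w ((t ^ i) f)) =
      p * w f := by
    intro f hf
    have := abel_sum (fun i => w ((t ^ i) f)) (by simp only [htpow]; rfl) (hN f hf)
    exact this
  have hSdvd : ∀ f ∈ V', (p : ℤ_[p]) ∣ SS p t w f := by
    intro f hf
    refine Finset.dvd_sum fun i _ => Dvd.dvd.mul_left ?_ _
    exact ((hV' _).1 (inv_pow hVt' i hf)).2
  have hSadd : ∀ f ∈ V, ∀ g ∈ V, SS p t w (f * g) = SS p t w f + SS p t w g := by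
    intro f hf g hg
    rw [SS, SS, SS, ← Finset.sum_add_distrib]
    refine Finset.sum_congr rfl fun i _ => ?_
    rw [map_mul, hadd _ (inv_pow hVt i hf) _ (inv_pow hVt i hg), mul_add]
  have hyX : X p t V' (fun f => PadicInt.toZMod (dv (SS p t w f))) := by
    refine ⟨fun f hf g hg => ?_, ?_, fun f hf => ?_⟩
    · simp only
      rw [← map_add]
      congr 1
      apply mul_left_cancel₀ p0
      rw [mul_add, dv_spec (hSdvd f hf), dv_spec (hSdvd g hg),
        dv_spec (hSdvd _ (V'.mul_mem hf hg)), hSadd f (hV'V hf) g (hV'V hg)]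
    · obtain ⟨W, hW, h1⟩ := hcz 2
      obtain ⟨W', hW'n, hW'o, hW't, hW'⟩ := basis_t hG ht htp (W : Set Γ) hW W.one_mem
      refine ⟨W', hW'o, fun f hf g hg hgW => ?_⟩
      simp only
      have h2 : (p : ℤ_[p]) ^ 2 ∣ SS p t w g := by
        refine Finset.dvd_sum fun i _ => Dvd.dvd.mul_left ?_ _
        have h3 := h1 1 V.one_mem ((t ^ i) g) (inv_pow hVt i (hV'V hg))
          (hW' (inv_pow hW't i hgW))
        rw [one_mul, AddOn.one hadd, sub_zero] at h3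
        exact h3
      rw [← sub_eq_zero, ← map_sub, tz]
      obtain ⟨d, hd⟩ := h2
      refine ⟨d, ?_⟩
      apply mul_left_cancel₀ p0
      rw [mul_sub, dv_spec (hSdvd f hf), dv_spec (hSdvd _ (V'.mul_mem hf hg)),
        hSadd f (hV'V hf) g (hV'V hg), hd]
      ring
    · simp only
      rw [← sub_eq_zero, ← map_sub, tz]
      have h1 : dv (SS p t w (t f)) - dv (SS p t w f) = w f := by
        apply mul_left_cancel₀ p0
        rw [mul_sub, dv_spec (hSdvd f hf), dv_spec (hSdvd _ (hVt' f hf)), ← hab f (hV'V hf),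
          SS, SS, ← Finset.sum_sub_distrib]
        refine Finset.sum_congr rfl fun i _ => ?_
        rw [hti]
        ring
      rw [h1]
      exact ((hV' f).1 hf).2
  have hya : ∀ j : ℕ, PadicInt.toZMod (dv (SS p t w ((x ^ j)⁻¹ * t (x ^ j)))) =
      (j : ZMod p) * PadicInt.toZMod (w x) := by
    intro j
    have h1 : SS p t w ((x ^ j)⁻¹ * t (x ^ j)) = p * (j * w x) := by
      have h2 := hab (x ^ j) (hxj j)
      rw [AddOn.pow hadd hx j, nsmul_eq_mul] at h2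
      rw [← h2, SS]
      refine Finset.sum_congr rfl fun i _ => ?_
      rw [map_mul, map_inv, hadd _ (V.inv_mem (inv_pow hVt i (hxj j))) _
        (inv_pow hVt i (htxj j)), AddOn.inv hadd (inv_pow hVt i (hxj j)), hti]
      ring
    rw [h1, dv_mul, map_mul, map_natCast]
  -- the contradiction
  by_contra hcon
  push Not at hcon
  obtain ⟨l, hl, hlb⟩ := X.ind hG ht htp hV'o hVt'
    (ι := Fin p ⊕ {j : Fin p // (j : ℕ) ≠ 0})
    (Sum.elim (fun j => (x ^ (j : ℕ))⁻¹ * c * t (x ^ (j : ℕ)))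
      (fun j => (x ^ (j.1 : ℕ))⁻¹ * t (x ^ (j.1 : ℕ))))
    (by
      rintro (j | j)
      · exact hbZ j
      · exact haZ j.1)
    (by
      rintro (j | j)
      · obtain ⟨l, hl, h1⟩ := hcon j j.2 (hbZ j)
        exact ⟨l, hl, h1⟩
      · refine ⟨_, hyX, ?_⟩
        simp only [Sum.elim_inr]
        rw [hya]
        refine mul_ne_zero ?_ hlx
        rw [Ne, ZMod.natCast_eq_zero_iff]
        intro h
        exact j.2 (Nat.eq_zero_of_dvd_of_lt h j.1.2))
  have e1 : ∀ j ∈ Finset.range p, l ((x ^ j)⁻¹ * c * t (x ^ j)) = -1 := fun j hj =>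
    hlb (Sum.inl ⟨j, Finset.mem_range.1 hj⟩)
  have e2 : ∀ j ∈ Finset.range p, l ((x ^ j)⁻¹ * t (x ^ j)) = if j = 0 then 0 else -1 := by
    intro j hj
    by_cases h : j = 0
    · rw [if_pos h, h]
      simp only [pow_zero, map_one, inv_one, mul_one]
      exact AddOn.one hl.1
    · rw [if_neg h]
      exact hlb (Sum.inr ⟨⟨j, Finset.mem_range.1 hj⟩, h⟩)
  have h1 := htr l hl
  rw [Finset.sum_congr rfl e1, Finset.sum_congr rfl e2] at h1
  have h2 : ∑ j ∈ Finset.range p, (if j = 0 then (0 : ZMod p) else -1) =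
      ∑ j ∈ Finset.range p, (-1 : ZMod p) + 1 := by
    have h3 : ∀ j ∈ Finset.range p, (if j = 0 then (0 : ZMod p) else -1) =
        -1 + (if j = 0 then 1 else 0) := by
      intro j _
      by_cases h : j = 0 <;> simp [h]
    rw [Finset.sum_congr rfl h3, Finset.sum_add_distrib]
    simp [hp0]
  rw [h2] at h1
  have h3 : (1 : ZMod p) = 0 := by linear_combination -h1
  exact one_ne_zero h3

end

end Pool.Agent.H371.SE
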