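import Pool.Agent.H371.SE.Defs
import Pool.Agent.H371.SB.Defs

set_option autoImplicit false

namespace Pool.Agent.H371.SE

open Pool.Agent.H371.SB (aug)

namespace M1x

/-! ### generalities on the augmentation ideal -/

section gen
variable (k : Type) [Field k] {N Q : Type} [Group N] [Group Q]

/-- the augmentation ideal maps to the augmentation ideal -/
theorem aug_map (f : N →* Q) (d : ℕ) :
    ∀ v ∈ (aug k N) ^ d, MonoidAlgebra.mapDomainAlgHom k k f v ∈ (aug k Q) ^ d := by
  have h1 : (aug k N).map (MonoidAlgebra.mapDomainAlgHom k k f).toLinearMap ≤ aug k Q := by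
    rw [Submodule.map_le_iff_le_comap, aug, Submodule.span_le]
    rintro _ ⟨x, rfl⟩
    rw [SetLike.mem_coe, Submodule.mem_comap]
    apply Submodule.subset_span
    refine ⟨f x, ?_⟩
    rw [AlgHom.toLinearMap_apply, map_sub, map_one]
    simp
  intro v hv
  have h2 : MonoidAlgebra.mapDomainAlgHom k k f v ∈
      ((aug k N) ^ d).map (MonoidAlgebra.mapDomainAlgHom k k f).toLinearMap := ⟨v, hv, rfl⟩
  rw [Submodule.map_pow] at h2
  exact pow_le_pow_left' h1 d h2

theorem map_of (f : N →* Q) (x : N) : MonoidAlgebra.mapDomainAlgHom k k f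
    (MonoidAlgebra.of k N x - 1) = MonoidAlgebra.of k Q (f x) - 1 := by
  rw [map_sub, map_one]
  simp

theorem aug_mul_of (K : ℕ) (a : MonoidAlgebra k N) (y : N)
    (ha : a ∈ (aug k N) ^ (K + 1)) : a * MonoidAlgebra.of k N y ∈ (aug k N) ^ (K + 1) := by
  rw [pow_succ] at ha ⊢
  refine Submodule.mul_induction_on ha ?_ ?_
  · intro m hm b hb
    rw [mul_assoc]
    apply Submodule.mul_mem_mul hm
    refine Submodule.span_induction ?_ ?_ ?_ ?_ hb
    · rintro _ ⟨x, rfl⟩
      have : (MonoidAlgebra.of k N x - 1) * MonoidAlgebra.of k N y =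
          (MonoidAlgebra.of k N (x * y) - 1) - (MonoidAlgebra.of k N y - 1) := by
        rw [map_mul]; noncomm_ring
      change (MonoidAlgebra.of k N x - 1) * MonoidAlgebra.of k N y ∈ _
      rw [this]
      exact sub_mem (Submodule.subset_span ⟨_, rfl⟩) (Submodule.subset_span ⟨_, rfl⟩)
    · rw [zero_mul]; exact zero_mem _
    · intro a b _ _ ha hb
      rw [add_mul]; exact add_mem ha hb
    · intro c a _ ha
      rw [smul_mul_assoc]; exact Submodule.smul_mem _ _ ha
  · intro a b ha hb
    rw [add_mul]; exact add_mem ha hb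

theorem aug_of_mul (K : ℕ) (a : MonoidAlgebra k N) (y : N)
    (ha : a ∈ (aug k N) ^ (K + 1)) : MonoidAlgebra.of k N y * a ∈ (aug k N) ^ (K + 1) := by
  rw [pow_succ'] at ha ⊢
  refine Submodule.mul_induction_on ha ?_ ?_
  · intro m hm b hb
    rw [← mul_assoc]
    refine Submodule.mul_mem_mul ?_ hb
    refine Submodule.span_induction ?_ ?_ ?_ ?_ hm
    · rintro _ ⟨x, rfl⟩
      have : MonoidAlgebra.of k N y * (MonoidAlgebra.of k N x - 1) =
          (MonoidAlgebra.of k N (y * x) - 1) - (MonoidAlgebra.of k N y - 1) := by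
        rw [map_mul]; noncomm_ring
      change MonoidAlgebra.of k N y * (MonoidAlgebra.of k N x - 1) ∈ _
      rw [this]
      exact sub_mem (Submodule.subset_span ⟨_, rfl⟩) (Submodule.subset_span ⟨_, rfl⟩)
    · rw [mul_zero]; exact zero_mem _
    · intro a b _ _ ha hb
      rw [mul_add]; exact add_mem ha hb
    · intro c a _ ha
      rw [mul_smul_comm]; exact Submodule.smul_mem _ _ ha
  · intro a b ha hb
    rw [mul_add]; exact add_mem ha hb

theorem aug_mul (K : ℕ) (a b : MonoidAlgebra k N)
    (ha : a ∈ (aug k N) ^ (K + 1)) : a * b ∈ (aug k N) ^ (K + 1) := by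
  induction b using MonoidAlgebra.induction_on with
  | of y => exact aug_mul_of k K a y ha
  | add f g hf hg => rw [mul_add]; exact add_mem hf hg
  | smul c f hf => rw [mul_smul_comm]; exact Submodule.smul_mem _ _ hf

theorem aug_anti {K L : ℕ} (h : K ≤ L) : (aug k N) ^ (L + 1) ≤ (aug k N) ^ (K + 1) := by
  induction L, h using Nat.le_induction with
  | base => exact le_rfl
  | succ L _ ih =>
    refine le_trans ?_ ih
    intro x hx
    rw [pow_succ] at hx
    refine Submodule.mul_induction_on hx ?_ ?_
    · intro m hm b _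
      exact aug_mul k L m b hm
    · intro a b ha hb
      exact add_mem ha hb

/-- the dimension subgroups -/
noncomputable def Dm (K : ℕ) : Subgroup N where
  carrier := {x | MonoidAlgebra.of k N x - 1 ∈ (aug k N) ^ (K + 1)}
  one_mem' := by
    change MonoidAlgebra.of k N 1 - 1 ∈ (aug k N) ^ (K + 1)
    rw [map_one, sub_self]
    exact zero_mem _
  mul_mem' := by
    intro a b ha hb
    change MonoidAlgebra.of k N (a * b) - 1 ∈ (aug k N) ^ (K + 1)
    have : MonoidAlgebra.of k N (a * b) - 1 = (MonoidAlgebra.of k N a - 1) *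
        MonoidAlgebra.of k N b + (MonoidAlgebra.of k N b - 1) := by
      rw [map_mul]; noncomm_ring
    rw [this]
    exact add_mem (aug_mul_of k K _ _ ha) hb
  inv_mem' := by
    intro a ha
    change MonoidAlgebra.of k N a⁻¹ - 1 ∈ (aug k N) ^ (K + 1)
    have : MonoidAlgebra.of k N a⁻¹ - 1 = -(MonoidAlgebra.of k N a⁻¹ *
        (MonoidAlgebra.of k N a - 1)) := by
      rw [mul_sub, ← map_mul, inv_mul_cancel, map_one, mul_one, neg_sub]
    rw [this]
    exact neg_mem (aug_of_mul k K _ _ ha)

theorem mem_Dm (K : ℕ) (x : N) : x ∈ Dm k K ↔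
    MonoidAlgebra.of k N x - 1 ∈ (aug k N) ^ (K + 1) := Iff.rfl

theorem mem_Dm' (K : ℕ) (x y : N) : x⁻¹ * y ∈ Dm k K ↔
    MonoidAlgebra.of k N y - MonoidAlgebra.of k N x ∈ (aug k N) ^ (K + 1) := by
  rw [mem_Dm]
  constructor
  · intro h
    have h1 := aug_of_mul k K _ x h
    rw [mul_sub, ← map_mul, mul_inv_cancel_left, mul_one] at h1
    exact h1
  · intro h
    have h1 := aug_of_mul k K _ x⁻¹ h
    rw [mul_sub, ← map_mul, ← map_mul, inv_mul_cancel, map_one] at h1
    exact h1

theorem Dm_anti : Antitone (Dm k (N := N)) := by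
  intro K L h x hx
  exact aug_anti k h hx

theorem Dm_normal (K : ℕ) : (Dm k (N := N) K).Normal := by
  constructor
  intro x hx g
  rw [mem_Dm] at hx ⊢
  have : MonoidAlgebra.of k N (g * x * g⁻¹) - 1 = MonoidAlgebra.of k N g *
      (MonoidAlgebra.of k N x - 1) * MonoidAlgebra.of k N g⁻¹ := by
    rw [mul_sub, sub_mul, mul_one, ← map_mul, ← map_mul, ← map_mul, mul_inv_cancel, map_one]
  rw [this]
  exact aug_mul_of k K _ _ (aug_of_mul k K _ _ hx)

theorem Dm_map (K : ℕ) (f : N →* Q) (x : N) (hx : x ∈ Dm k K) : f x ∈ Dm k K := by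
  rw [mem_Dm] at hx ⊢
  rw [← map_of]
  exact aug_map k f _ _ hx

end gen

/-! ### nilpotency for finite `p`-groups -/

theorem nilp (p : ℕ) [Fact p.Prime] (P : Type) [Group P] [Finite P] (hP : IsPGroup p P) :
    ∃ N : ℕ, ∀ a ∈ (aug (ZMod p) P) ^ N, a = 0 := by
  classical
  have hfin : Finite (MonoidAlgebra (ZMod p) P) := Module.finite_of_finite (ZMod p)
  have key : ∀ L : Submodule (MonoidAlgebra (ZMod p) P) (MonoidAlgebra (ZMod p) P),
      ∃ N : ℕ, ∀ a ∈ (aug (ZMod p) P) ^ N, ∀ r : MonoidAlgebra (ZMod p) P, a * r ∈ L := by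
    intro L
    induction L using WellFoundedGT.induction with
    | ind L ih =>
    by_cases hL : L = ⊤
    · exact ⟨0, fun a _ r => by rw [hL]; exact Submodule.mem_top⟩
    -- the submodule of elements fixed modulo `L`
    let L' : Submodule (MonoidAlgebra (ZMod p) P) (MonoidAlgebra (ZMod p) P) :=
      { carrier := {v | ∀ g : P, MonoidAlgebra.of (ZMod p) P g * v - v ∈ L}
        add_mem' := by
          intro a b ha hb g
          have h := add_mem (ha g) (hb g)
          have e : MonoidAlgebra.of (ZMod p) P g * (a + b) - (a + b) =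
              (MonoidAlgebra.of (ZMod p) P g * a - a) +
              (MonoidAlgebra.of (ZMod p) P g * b - b) := by
            rw [mul_add]; abel
          rw [e]; exact h
        zero_mem' := by
          intro g
          rw [mul_zero, sub_self]; exact zero_mem _
        smul_mem' := by
          intro c v hv
          induction c using MonoidAlgebra.induction_on with
          | of h =>
            intro g
            have e : MonoidAlgebra.of (ZMod p) P g * (MonoidAlgebra.of (ZMod p) P h • v) -
                MonoidAlgebra.of (ZMod p) P h • v =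
                (MonoidAlgebra.of (ZMod p) P (g * h) * v - v) -
                (MonoidAlgebra.of (ZMod p) P h * v - v) := by
              rw [smul_eq_mul, map_mul, mul_assoc]; abel
            rw [e]
            exact sub_mem (hv _) (hv _)
          | add f f' hf hf' =>
            intro g
            have e : MonoidAlgebra.of (ZMod p) P g * ((f + f') • v) - (f + f') • v =
                (MonoidAlgebra.of (ZMod p) P g * (f • v) - f • v) +
                (MonoidAlgebra.of (ZMod p) P g * (f' • v) - f' • v) := by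
              rw [add_smul, mul_add]; abel
            rw [e]
            exact add_mem (hf g) (hf' g)
          | smul c f hf =>
            intro g
            have e : MonoidAlgebra.of (ZMod p) P g * ((c • f) • v) - (c • f) • v =
                (algebraMap (ZMod p) (MonoidAlgebra (ZMod p) P) c) •
                  (MonoidAlgebra.of (ZMod p) P g * (f • v) - f • v) := by
              rw [algebraMap_smul, smul_sub, smul_assoc, mul_smul_comm]
            rw [e]
            exact L.smul_mem _ (hf g) }
    have hle : L ≤ L' := by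
      intro v hv g
      exact sub_mem (L.smul_mem (MonoidAlgebra.of (ZMod p) P g) hv) hv
    have hne : L ≠ L' := by
      intro heq
      -- the action on the quotient
      let _ : MulAction P (MonoidAlgebra (ZMod p) P ⧸ L) :=
        MulAction.compHom _ (MonoidAlgebra.of (ZMod p) P)
      have hsm : ∀ (g : P) (v : MonoidAlgebra (ZMod p) P ⧸ L),
          g • v = MonoidAlgebra.of (ZMod p) P g • v := fun g v => rfl
      have hnt : Nontrivial (MonoidAlgebra (ZMod p) P ⧸ L) :=
        Submodule.Quotient.nontrivial_iff.2 hL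
      have hfq : Finite (MonoidAlgebra (ZMod p) P ⧸ L) := Quotient.finite _
      have hdvd : p ∣ Nat.card (MonoidAlgebra (ZMod p) P ⧸ L) := by
        obtain ⟨v, hv⟩ := exists_ne (0 : MonoidAlgebra (ZMod p) P ⧸ L)
        have h1 : addOrderOf v ∣ p := by
          rw [addOrderOf_dvd_iff_nsmul_eq_zero]
          obtain ⟨v, rfl⟩ := Submodule.Quotient.mk_surjective L v
          rw [← Submodule.Quotient.mk_smul]
          have h2 : (p : ℕ) • v = 0 := by
            rw [← Nat.cast_smul_eq_nsmul (ZMod p), CharP.cast_eq_zero, zero_smul]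
          rw [h2]
          rfl
        have h2 : addOrderOf v ≠ 1 := by
          rw [Ne, AddMonoid.addOrderOf_eq_one_iff]
          exact hv
        have h3 : addOrderOf v = p := ((Nat.dvd_prime (Fact.out : p.Prime)).1 h1).resolve_left h2
        have h4 := addOrderOf_dvd_natCard v
        rw [h3] at h4
        exact h4
      have h0 : (0 : MonoidAlgebra (ZMod p) P ⧸ L) ∈ MulAction.fixedPoints P
          (MonoidAlgebra (ZMod p) P ⧸ L) := by
        intro g
        rw [hsm, smul_zero]
      obtain ⟨b, hb, hb0⟩ := hP.exists_fixed_point_of_prime_dvd_card_of_fixed_point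
        (MonoidAlgebra (ZMod p) P ⧸ L) hdvd h0
      obtain ⟨v, rfl⟩ := Submodule.Quotient.mk_surjective L b
      have hv : v ∈ L' := by
        intro g
        have h4 := hb g
        rw [hsm, ← Submodule.Quotient.mk_smul, Submodule.Quotient.eq] at h4
        exact h4
      rw [← heq] at hv
      apply hb0
      exact ((Submodule.Quotient.mk_eq_zero L).2 hv).symm
    obtain ⟨N, hN⟩ := ih L' (lt_of_le_of_ne hle hne)
    refine ⟨N + 1, ?_⟩
    intro a ha r
    rw [pow_succ'] at ha
    refine Submodule.mul_induction_on ha ?_ ?_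
    · intro m hm b hb
      have hv := hN b hb r
      rw [mul_assoc]
      refine Submodule.span_induction ?_ ?_ ?_ ?_ hm
      · rintro _ ⟨x, rfl⟩
        have := hv x
        change (MonoidAlgebra.of (ZMod p) P x - 1) * (b * r) ∈ L
        rw [sub_mul, one_mul]
        exact this
      · rw [zero_mul]; exact zero_mem _
      · intro a b _ _ ha hb
        rw [add_mul]; exact add_mem ha hb
      · intro c a _ ha
        rw [smul_mul_assoc, ← algebraMap_smul (MonoidAlgebra (ZMod p) P)]
        exact L.smul_mem _ ha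
    · intro a b ha hb
      rw [add_mul]; exact add_mem ha hb
  obtain ⟨N, hN⟩ := key ⊥
  refine ⟨N, fun a ha => ?_⟩
  have := hN a ha 1
  rwa [mul_one, Submodule.mem_bot] at this

/-! ### finite index -/

section fin
variable (p : ℕ) [Fact p.Prime] (n : ℕ)

/-- the group algebra -/
abbrev A : Type := MonoidAlgebra (ZMod p) (FreeGroup (Fin n))

/-- `x_i - 1` -/
noncomputable def xi (i : Fin n) : A p n :=
  MonoidAlgebra.of (ZMod p) (FreeGroup (Fin n)) (FreeGroup.of i) - 1

/-- finite-dimensional approximations -/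
noncomputable def V : ℕ → Submodule (ZMod p) (A p n)
  | 0 => Submodule.span (ZMod p) {1}
  | j + 1 => Submodule.span (ZMod p) {1} ⊔ ⨆ i : Fin n,
      (V j).map (LinearMap.mulRight (ZMod p) (xi p n i))

theorem V_fin (j : ℕ) : Module.Finite (ZMod p) (V p n j) := by
  induction j with
  | zero => exact Module.Finite.iff_fg.2 (Submodule.fg_span (Set.finite_singleton _))
  | succ j ih =>
    have ih' : (V p n j).FG := Module.Finite.iff_fg.1 ih
    refine Module.Finite.iff_fg.2 ?_
    refine Submodule.FG.sup (Submodule.fg_span (Set.finite_singleton _)) ?_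
    exact Submodule.fg_iSup _ fun i => ih'.map _

/-- the left ideal generated by the `x_i - 1` -/
theorem aug_le (S : Submodule (ZMod p) (A p n))
    (h : ∀ (a : A p n) (i : Fin n), a * xi p n i ∈ S) : aug (ZMod p) (FreeGroup (Fin n)) ≤ S := by
  -- `g` such that `a (g - 1) ∈ S` for all `a`
  let H : Subgroup (FreeGroup (Fin n)) :=
    { carrier := {g | ∀ a : A p n, a * (MonoidAlgebra.of (ZMod p) _ g - 1) ∈ S}
      one_mem' := by
        intro a
        rw [map_one, sub_self, mul_zero]
        exact zero_mem _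
      mul_mem' := by
        intro x y hx hy a
        have e : a * (MonoidAlgebra.of (ZMod p) _ (x * y) - 1) =
            (a * MonoidAlgebra.of (ZMod p) _ x) * (MonoidAlgebra.of (ZMod p) _ y - 1) +
            a * (MonoidAlgebra.of (ZMod p) _ x - 1) := by
          rw [map_mul]; noncomm_ring
        rw [e]
        exact add_mem (hy _) (hx _)
      inv_mem' := by
        intro x hx a
        have e : a * (MonoidAlgebra.of (ZMod p) _ x⁻¹ - 1) =
            -((a * MonoidAlgebra.of (ZMod p) _ x⁻¹) * (MonoidAlgebra.of (ZMod p) _ x - 1)) := by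
          rw [mul_sub (a * _), mul_assoc, ← map_mul, inv_mul_cancel, map_one]
          noncomm_ring
        rw [e]
        exact neg_mem (hx _) }
  have hH : H = ⊤ := by
    rw [eq_top_iff, ← FreeGroup.closure_range_of (Fin n), Subgroup.closure_le]
    rintro _ ⟨i, rfl⟩ a
    exact h a i
  unfold aug
  rw [Submodule.span_le]
  rintro _ ⟨x, rfl⟩
  have h1 : x ∈ H := by rw [hH]; trivial
  have h2 := h1 1
  rw [one_mul] at h2
  exact h2

theorem V_sup (j : ℕ) : V p n j ⊔ (aug (ZMod p) (FreeGroup (Fin n))) ^ (j + 1) = ⊤ := by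
  have h1 : Submodule.span (ZMod p) {(1 : A p n)} ⊔ aug (ZMod p) (FreeGroup (Fin n)) = ⊤ := by
    rw [eq_top_iff]
    intro a _
    induction a using MonoidAlgebra.induction_on with
    | of g =>
      have e : MonoidAlgebra.of (ZMod p) (FreeGroup (Fin n)) g =
          1 + (MonoidAlgebra.of (ZMod p) (FreeGroup (Fin n)) g - 1) := by abel
      rw [e]
      exact add_mem (Submodule.mem_sup_left (Submodule.mem_span_singleton_self 1))
        (Submodule.mem_sup_right (Submodule.subset_span ⟨g, rfl⟩))
    | add f g hf hg => exact add_mem (hf trivial) (hg trivial)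
    | smul c f hf => exact Submodule.smul_mem _ _ (hf trivial)
  induction j with
  | zero =>
    rw [pow_one]
    exact h1
  | succ j ih =>
    rw [eq_top_iff, ← h1]
    refine sup_le ?_ ?_
    · exact le_sup_of_le_left (by rw [V]; exact le_sup_left)
    · apply aug_le
      intro a i
      have ha : a ∈ V p n j ⊔ (aug (ZMod p) (FreeGroup (Fin n))) ^ (j + 1) := by
        rw [ih]; trivial
      obtain ⟨v, hv, w, hw, rfl⟩ := Submodule.mem_sup.1 ha
      rw [add_mul]
      refine add_mem (Submodule.mem_sup_left ?_) (Submodule.mem_sup_right ?_)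
      · rw [V]
        refine Submodule.mem_sup_right (Submodule.mem_iSup_of_mem i ?_)
        exact ⟨v, hv, rfl⟩
      · rw [pow_succ]
        exact Submodule.mul_mem_mul hw (Submodule.subset_span ⟨FreeGroup.of i, rfl⟩)

theorem Dm_fin (K : ℕ) : (Dm (ZMod p) (N := FreeGroup (Fin n)) K).FiniteIndex := by
  have hV := V_fin p n K
  have hVf : Finite (V p n K) := Module.finite_of_finite (ZMod p)
  -- the classes of group elements in the quotient by the power
  have hex : ∀ x : FreeGroup (Fin n), ∃ v : V p n K,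
      MonoidAlgebra.of (ZMod p) (FreeGroup (Fin n)) x - v ∈
        (aug (ZMod p) (FreeGroup (Fin n))) ^ (K + 1) := by
    intro x
    have ha : MonoidAlgebra.of (ZMod p) (FreeGroup (Fin n)) x ∈
        V p n K ⊔ (aug (ZMod p) (FreeGroup (Fin n))) ^ (K + 1) := by
      rw [V_sup]; trivial
    obtain ⟨v, hv, w, hw, h⟩ := Submodule.mem_sup.1 ha
    refine ⟨⟨v, hv⟩, ?_⟩
    rw [← h, add_sub_cancel_left]
    exact hw
  choose f hf using hex
  have hfin : Finite (FreeGroup (Fin n) ⧸ Dm (ZMod p) (N := FreeGroup (Fin n)) K) := by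
    refine Finite.of_injective (fun q => f q.out) ?_
    intro a b hab
    have hab' : f a.out = f b.out := hab
    have h1 := sub_mem (hf b.out) (hf a.out)
    rw [hab', sub_sub_sub_cancel_right] at h1
    rw [← mem_Dm'] at h1
    rw [← QuotientGroup.out_eq' a, ← QuotientGroup.out_eq' b]
    exact QuotientGroup.eq.2 h1
  exact Subgroup.finiteIndex_of_finite_quotient

/-- elements are of `p`-power order modulo the dimension subgroups -/
theorem Dm_pow (K : ℕ) {N : Type} [Group N] (x : N) :
    ∃ s : ℕ, x ^ p ^ s ∈ Dm (ZMod p) (N := N) K := by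
  refine ⟨K + 1, ?_⟩
  rw [mem_Dm, map_pow]
  have hch : CharP (MonoidAlgebra (ZMod p) N) p :=
    charP_of_injective_algebraMap (FaithfulSMul.algebraMap_injective (ZMod p) _) p
  have h1 : MonoidAlgebra.of (ZMod p) N x ^ p ^ (K + 1) - 1 =
      (MonoidAlgebra.of (ZMod p) N x - 1) ^ p ^ (K + 1) := by
    have := sub_pow_char_pow_of_commute p (K + 1)
      (Commute.one_right (MonoidAlgebra.of (ZMod p) N x))
    rw [this, one_pow]
  rw [h1]
  have h2 : K + 1 ≤ p ^ (K + 1) := (Nat.lt_pow_self (Fact.out : p.Prime).one_lt).le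
  obtain ⟨m, hm⟩ := Nat.exists_eq_add_of_le h2
  have h3 : (MonoidAlgebra.of (ZMod p) N x - 1) ^ p ^ (K + 1) ∈
      (aug (ZMod p) N) ^ (p ^ (K + 1)) := by
    have h5 : MonoidAlgebra.of (ZMod p) N x - 1 ∈ aug (ZMod p) N :=
      Submodule.subset_span ⟨x, rfl⟩
    exact Submodule.pow_mem_pow _ h5 _
  rw [hm] at h3 ⊢
  rw [show K + 1 + m = (K + m) + 1 by ring] at h3 ⊢
  exact aug_anti (ZMod p) (Nat.le_add_right K m) h3

end fin

end M1x

open M1x in
/-- dimension subgroups modulo `p` of the free group: everything except separation -/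
theorem exists_dim (p : ℕ) [Fact p.Prime] (n : ℕ) :
    ∃ D : ℕ → Subgroup (FreeGroup (Fin n)),
      (∀ k x, x ∈ D k ↔
        MonoidAlgebra.of (ZMod p) (FreeGroup (Fin n)) x - 1 ∈
          aug (ZMod p) (FreeGroup (Fin n)) ^ (k + 1)) ∧
      Antitone D ∧ (∀ k, (D k).Normal) ∧
      (∀ k (h : MulAut (FreeGroup (Fin n))) (x : FreeGroup (Fin n)), x ∈ D k → h x ∈ D k) ∧
      (∀ k, (D k).FiniteIndex) ∧
      ∀ k (h : FreeGroup (Fin n) → ZMod p),
        (∀ x ∈ D k, ∀ y ∈ D k, h (x * y) = h x + h y) → ∃ m, k ≤ m ∧ ∀ x ∈ D m, h x = 0 := by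
  refine ⟨Dm (ZMod p), mem_Dm (ZMod p), Dm_anti (ZMod p), Dm_normal (ZMod p),
    fun k h x hx => Dm_map (ZMod p) k (h : FreeGroup (Fin n) →* FreeGroup (Fin n)) x hx,
    Dm_fin p n, ?_⟩
  intro k h hadd
  have hnorm := Dm_normal (ZMod p) (N := FreeGroup (Fin n)) k
  have hfin := Dm_fin p n k
  -- the homomorphism on `D k`
  let φ : Dm (ZMod p) (N := FreeGroup (Fin n)) k →* Multiplicative (ZMod p) :=
    MonoidHom.mk' (fun x => Multiplicative.ofAdd (h x)) (by
      intro a b
      change Multiplicative.ofAdd (h (a * b)) = _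
      rw [hadd a a.2 b b.2, ofAdd_add])
  let K0 : Subgroup (FreeGroup (Fin n)) := φ.ker.map (Dm (ZMod p) k).subtype
  have hK0 : ∀ x, x ∈ K0 ↔ x ∈ Dm (ZMod p) k ∧ h x = 0 := by
    intro x
    constructor
    · rintro ⟨y, hy, rfl⟩
      exact ⟨y.2, hy⟩
    · rintro ⟨h1, h2⟩
      exact ⟨⟨x, h1⟩, h2, rfl⟩
  have hK0fin : K0.FiniteIndex := by
    have h1 : φ.ker.FiniteIndex := inferInstance
    refine ⟨?_⟩
    have h2 : K0.index = φ.ker.index * (Dm (ZMod p) (N := FreeGroup (Fin n)) k).index := by
      rw [Subgroup.index_map_subtype]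
    rw [h2]
    exact mul_ne_zero h1.index_ne_zero hfin.index_ne_zero
  have hQfin : K0.normalCore.FiniteIndex := inferInstance
  have hP : IsPGroup p (FreeGroup (Fin n) ⧸ K0.normalCore) := by
    intro x
    induction x using QuotientGroup.induction_on with
    | H x =>
      obtain ⟨s, hs⟩ := Dm_pow p k x
      refine ⟨s + 1, ?_⟩
      rw [← QuotientGroup.mk_pow, QuotientGroup.eq_one_iff, pow_succ, pow_mul]
      intro g
      rw [← conj_pow, hK0]
      have h1 : g * x ^ p ^ s * g⁻¹ ∈ Dm (ZMod p) k := hnorm.conj_mem _ hs g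
      refine ⟨pow_mem h1 p, ?_⟩
      have h2 : ∀ m : ℕ, h ((g * x ^ p ^ s * g⁻¹) ^ m) = m • h (g * x ^ p ^ s * g⁻¹) := by
        intro m
        have h3 := map_pow φ (⟨_, h1⟩ : Dm (ZMod p) k) m
        have h4 := congrArg Multiplicative.toAdd h3
        exact h4
      rw [h2, ← Nat.cast_smul_eq_nsmul (ZMod p), CharP.cast_eq_zero, zero_smul]
  have hPf : Finite (FreeGroup (Fin n) ⧸ K0.normalCore) :=
    Subgroup.finite_quotient_of_finiteIndex
  obtain ⟨N, hN⟩ := nilp p (FreeGroup (Fin n) ⧸ K0.normalCore) hP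
  refine ⟨max k N, le_max_left _ _, ?_⟩
  intro x hx
  rw [mem_Dm] at hx
  have h1 := aug_map (ZMod p) (QuotientGroup.mk' K0.normalCore) _ _ hx
  rw [map_of] at h1
  have h2 : MonoidAlgebra.of (ZMod p) _ (QuotientGroup.mk' K0.normalCore x) - 1 = 0 := by
    have h3 := aug_anti (ZMod p) (le_max_right k N) h1
    rw [pow_succ] at h3
    refine Submodule.mul_induction_on h3 ?_ ?_
    · intro m hm b _
      rw [hN m hm, zero_mul]
    · intro a b ha hb
      rw [ha, hb, add_zero]
  have h3 : QuotientGroup.mk' K0.normalCore x = 1 := by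
    apply MonoidAlgebra.of_injective (R := ZMod p)
    rw [map_one]
    exact sub_eq_zero.1 h2
  have h4 : x ∈ K0.normalCore := (QuotientGroup.eq_one_iff x).1 h3
  exact ((hK0 x).1 (Subgroup.normalCore_le K0 h4)).2

end Pool.Agent.H371.SE
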