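import Pool.Agent.H371.SE.Defs
import Pool.Agent.H371.SB.Defs

set_option autoImplicit false

namespace Pool.Agent.H371.SE

open Pool.Agent.H371.SB (aug)

namespace M2x

/-- words of length at most `k` -/
abbrev Wd (n k : ℕ) : Type := {w : List (Fin n) // w.length ≤ k}

noncomputable instance instF (n k : ℕ) : Fintype (Wd n k) :=
  (List.finite_length_le (Fin n) k).fintype

section R
variable (R : Type) [CommRing R] {n k : ℕ}

/-- the generator matrices -/
def E (n k : ℕ) (i : Fin n) : Matrix (Wd n k) (Wd n k) R :=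
  fun w' w => if w'.1 = i :: w.1 then 1 else 0

/-- matrices raising the length by at least `j` -/
def T (n k : ℕ) (j : ℕ) : Submodule R (Matrix (Wd n k) (Wd n k) R) where
  carrier := {M | ∀ w' w, w'.1.length < w.1.length + j → M w' w = 0}
  add_mem' := by
    intro a b ha hb w' w h
    rw [Matrix.add_apply, ha w' w h, hb w' w h, add_zero]
  zero_mem' := by
    intro w' w _
    rfl
  smul_mem' := by
    intro c a ha w' w h
    rw [Matrix.smul_apply, ha w' w h, smul_zero]

variable {R}

theorem T_apply {j : ℕ} {M : Matrix (Wd n k) (Wd n k) R} (h : M ∈ T R n k j) {w' w : Wd n k}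
    (hw : w'.1.length < w.1.length + j) : M w' w = 0 := h w' w hw

theorem T_mul {a b : ℕ} {M M' : Matrix (Wd n k) (Wd n k) R} (h : M ∈ T R n k a)
    (h' : M' ∈ T R n k b) : M * M' ∈ T R n k (a + b) := by
  intro w' w hw
  rw [Matrix.mul_apply]
  refine Finset.sum_eq_zero fun u _ => ?_
  rcases lt_or_ge w'.1.length (u.1.length + a) with h1 | h1
  · rw [T_apply h h1, zero_mul]
  · rw [T_apply h' (by omega : u.1.length < w.1.length + b), mul_zero]

theorem T_mono {a b : ℕ} (hab : a ≤ b) : T R n k b ≤ T R n k a := by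
  intro M h w' w hw
  exact T_apply h (by omega)

theorem E_mem (i : Fin n) : E R n k i ∈ T R n k 1 := by
  intro w' w hw
  rw [E, if_neg]
  intro h
  rw [h, List.length_cons] at hw
  omega

theorem T_top {M : Matrix (Wd n k) (Wd n k) R} (h : M ∈ T R n k (k + 1)) : M = 0 := by
  ext w' w
  have := w'.2
  exact T_apply h (by omega)

theorem one_mem : (1 : Matrix (Wd n k) (Wd n k) R) ∈ T R n k 0 := by
  intro w' w hw
  rw [Matrix.one_apply, if_neg]
  rintro rfl
  omega

theorem pow_mem {M : Matrix (Wd n k) (Wd n k) R} (h : M ∈ T R n k 1) (j : ℕ) :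
    M ^ j ∈ T R n k j := by
  induction j with
  | zero =>
    rw [pow_zero]
    exact one_mem
  | succ j ih =>
    rw [pow_succ]
    exact T_mul ih h

/-- the unit `1 + E i` -/
noncomputable def U (R : Type) [CommRing R] (n k : ℕ) (i : Fin n) :
    (Matrix (Wd n k) (Wd n k) R)ˣ where
  val := 1 + E R n k i
  inv := ∑ j ∈ Finset.range (k + 1), (-E R n k i) ^ j
  val_inv := by
    have h := mul_neg_geom_sum (-E R n k i) (k + 1)
    rw [sub_neg_eq_add] at h
    rw [h, T_top (pow_mem ((T R n k 1).neg_mem (E_mem i)) (k + 1)), sub_zero]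
  inv_val := by
    have h := geom_sum_mul_neg (-E R n k i) (k + 1)
    rw [sub_neg_eq_add] at h
    rw [h, T_top (pow_mem ((T R n k 1).neg_mem (E_mem i)) (k + 1)), sub_zero]

theorem U_inv_mem (i : Fin n) :
    ((U R n k i)⁻¹ : (Matrix (Wd n k) (Wd n k) R)ˣ).val - 1 ∈ T R n k 1 := by
  have e : ((U R n k i)⁻¹ : (Matrix (Wd n k) (Wd n k) R)ˣ).val =
    ∑ j ∈ Finset.range (k + 1), (-E R n k i) ^ j := rfl
  rw [e, Finset.sum_range_succ', pow_zero, add_sub_cancel_right]
  refine Submodule.sum_mem _ fun j _ => ?_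
  exact T_mono (by omega) (pow_mem ((T R n k 1).neg_mem (E_mem i)) (j + 1))

theorem one_T_mul {M M' : Matrix (Wd n k) (Wd n k) R} (h : M - 1 ∈ T R n k 1)
    (h' : M' - 1 ∈ T R n k 1) : M * M' - 1 ∈ T R n k 1 := by
  have e : M * M' - 1 = (M - 1) * (M' - 1) + (M - 1) + (M' - 1) := by
    noncomm_ring
  rw [e]
  exact (T R n k 1).add_mem ((T R n k 1).add_mem (T_mono (by omega) (T_mul h h')) h) h'

/-- the Magnus representation -/
noncomputable def rho (R : Type) [CommRing R] (n k : ℕ) :
    FreeGroup (Fin n) →* Matrix (Wd n k) (Wd n k) R :=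
  (Units.coeHom _).comp (FreeGroup.lift (U R n k))

theorem rho_of (i : Fin n) : rho R n k (FreeGroup.of i) = 1 + E R n k i := by
  rw [rho, MonoidHom.comp_apply, FreeGroup.lift_apply_of]
  rfl

theorem rho_mem (y : FreeGroup (Fin n)) : rho R n k y - 1 ∈ T R n k 1 := by
  induction y using FreeGroup.induction_on with
  | C1 => rw [map_one, sub_self]; exact Submodule.zero_mem _
  | of i =>
    rw [rho_of, add_sub_cancel_left]
    exact E_mem i
  | inv_of i _ =>
    rw [rho, MonoidHom.comp_apply, map_inv, FreeGroup.lift_apply_of]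
    exact U_inv_mem i
  | mul x y hx hy =>
    rw [map_mul]
    exact one_T_mul hx hy

theorem rho_map {S : Type} [CommRing S] (φ : R →+* S) (y : FreeGroup (Fin n)) :
    (rho R n k y).map φ = rho S n k y := by
  have h : ((φ.mapMatrix (m := Wd n k)).toMonoidHom.comp (rho R n k)) = rho S n k := by
    apply FreeGroup.ext_hom
    intro i
    rw [MonoidHom.comp_apply, rho_of, rho_of]
    show φ.mapMatrix (1 + E R n k i) = _
    rw [map_add, map_one]
    congr 1
    ext w' w
    show φ (E R n k i w' w) = E S n k i w' w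
    rw [E, E]
    split_ifs
    · exact map_one _
    · exact map_zero _
  rw [← h]
  rfl

end R

section K
variable (K : Type) [Field K] (n k : ℕ)

/-- the group algebra -/
abbrev GA : Type := MonoidAlgebra K (FreeGroup (Fin n))

/-- the linear extension -/
noncomputable def rl : GA K n →ₐ[K] Matrix (Wd n k) (Wd n k) K :=
  MonoidAlgebra.lift K _ _ (rho K n k)

variable {K n k}

theorem rl_of (y : FreeGroup (Fin n)) :
    rl K n k (MonoidAlgebra.of K (FreeGroup (Fin n)) y) = rho K n k y := by
  rw [rl, MonoidAlgebra.lift_of]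

/-- the monomials -/
noncomputable def Yw (K : Type) [Field K] {n : ℕ} (w : List (Fin n)) : GA K n :=
  (w.map fun i => MonoidAlgebra.of K (FreeGroup (Fin n)) (FreeGroup.of i) - 1).prod

theorem Yw_cons (i : Fin n) (w : List (Fin n)) :
    Yw K (i :: w) = (MonoidAlgebra.of K (FreeGroup (Fin n)) (FreeGroup.of i) - 1) * Yw K w := by
  rw [Yw, List.map_cons, List.prod_cons, Yw]

/-- the empty word -/
def e0 (n k : ℕ) : Wd n k := ⟨[], Nat.zero_le _⟩

theorem rl_Yw (w : List (Fin n)) : ∀ w' : Wd n k,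
    rl K n k (Yw K w) w' (e0 n k) = if w'.1 = w then 1 else 0 := by
  induction w with
  | nil =>
    intro w'
    rw [Yw, List.map_nil, List.prod_nil, map_one, Matrix.one_apply]
    congr 1
    rw [Subtype.ext_iff]
    rfl
  | cons i w ih =>
    intro w'
    rw [Yw_cons, map_mul, map_sub, rl_of, map_one, rho_of, add_sub_cancel_left, Matrix.mul_apply]
    simp only [ih]
    split_ifs with h
    · have hw : w.length ≤ k := by
        have := w'.2
        rw [h, List.length_cons] at this
        omega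
      rw [Finset.sum_eq_single (⟨w, hw⟩ : Wd n k)]
      · rw [if_pos rfl, mul_one, E, if_pos h]
      · intro u _ hu
        rw [if_neg, mul_zero]
        intro hu'
        exact hu (Subtype.ext hu')
      · intro hu
        exact absurd (Finset.mem_univ _) hu
    · refine Finset.sum_eq_zero fun u _ => ?_
      by_cases hu : u.1 = w
      · rw [E, if_neg, zero_mul]
        rw [hu]
        exact h
      · rw [if_neg hu, mul_zero]

/-- the augmentation ideal -/
noncomputable abbrev I (K : Type) [Field K] (n : ℕ) : Submodule K (GA K n) := aug K (FreeGroup (Fin n))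

theorem of_mem (x : FreeGroup (Fin n)) : MonoidAlgebra.of K (FreeGroup (Fin n)) x - 1 ∈ I K n :=
  Submodule.subset_span ⟨x, rfl⟩

theorem rl_pow (j : ℕ) : I K n ^ j ≤ (T K n k j).comap (rl K n k).toLinearMap := by
  induction j with
  | zero =>
    rw [pow_zero, Submodule.one_le, Submodule.mem_comap]
    show rl K n k 1 ∈ _
    rw [map_one]
    exact one_mem
  | succ j ih =>
    rw [pow_succ, Submodule.mul_le]
    intro a ha b hb
    rw [Submodule.mem_comap]
    show rl K n k (a * b) ∈ _
    rw [map_mul]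
    refine T_mul (ih ha) ?_
    have h1 : I K n ≤ (T K n k 1).comap (rl K n k).toLinearMap := by
      rw [I, aug, Submodule.span_le]
      rintro _ ⟨x, rfl⟩
      show rl K n k _ ∈ T K n k 1
      rw [map_sub, rl_of, map_one]
      exact rho_mem x
    exact h1 hb

/-- span of the monomials of length `j` -/
noncomputable def S (K : Type) [Field K] (n j : ℕ) : Submodule K (GA K n) :=
  Submodule.span K {a | ∃ w : List (Fin n), w.length = j ∧ Yw K w = a}

theorem Yw_mem (w : List (Fin n)) : Yw K w ∈ S K n w.length :=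
  Submodule.subset_span ⟨w, rfl, rfl⟩

theorem Yw_mem_pow (w : List (Fin n)) : Yw K w ∈ I K n ^ w.length := by
  induction w with
  | nil =>
    rw [Yw, List.map_nil, List.prod_nil, List.length_nil, pow_zero]
    exact Submodule.one_le.1 le_rfl
  | cons i w ih =>
    rw [Yw_cons, List.length_cons, pow_succ']
    exact Submodule.mul_mem_mul (of_mem _) ih

theorem S_le (j : ℕ) : S K n j ≤ I K n ^ j := by
  rw [S, Submodule.span_le]
  rintro _ ⟨w, rfl, rfl⟩
  exact Yw_mem_pow w

theorem S_mul (j : ℕ) : S K n 1 * S K n j ≤ S K n (j + 1) := by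
  rw [S, S, Submodule.span_mul_span, Submodule.span_le]
  rintro _ ⟨_, ⟨v, hv, rfl⟩, _, ⟨w, rfl, rfl⟩, rfl⟩
  obtain ⟨i, rfl⟩ := List.length_eq_one_iff.1 hv
  have e : Yw K [i] * Yw K w = Yw K (i :: w) := by
    rw [Yw_cons, Yw_cons, Yw, List.map_nil, List.prod_nil, mul_one]
  show Yw K [i] * Yw K w ∈ S K n (w.length + 1)
  rw [e]
  exact Yw_mem (i :: w)

theorem I_le : I K n ≤ S K n 1 ⊔ I K n ^ 2 := by
  have key : ∀ x : FreeGroup (Fin n), MonoidAlgebra.of K (FreeGroup (Fin n)) x - 1 ∈
      S K n 1 ⊔ I K n ^ 2 := by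
    intro x
    induction x using FreeGroup.induction_on with
    | C1 =>
      rw [map_one, sub_self]
      exact Submodule.zero_mem _
    | of i =>
      refine Submodule.mem_sup_left ?_
      have := Yw_mem (K := K) [i]
      rwa [Yw_cons, Yw, List.map_nil, List.prod_nil, mul_one] at this
    | inv_of i hi =>
      have e : MonoidAlgebra.of K (FreeGroup (Fin n)) (FreeGroup.of i)⁻¹ - 1 =
          -(MonoidAlgebra.of K (FreeGroup (Fin n)) (FreeGroup.of i) - 1) -
          (MonoidAlgebra.of K (FreeGroup (Fin n)) (FreeGroup.of i)⁻¹ - 1) *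
          (MonoidAlgebra.of K (FreeGroup (Fin n)) (FreeGroup.of i) - 1) := by
        have h1 : MonoidAlgebra.of K (FreeGroup (Fin n)) (FreeGroup.of i)⁻¹ *
            MonoidAlgebra.of K (FreeGroup (Fin n)) (FreeGroup.of i) = 1 := by
          rw [← map_mul, inv_mul_cancel, map_one]
        rw [sub_mul, mul_sub, h1]
        noncomm_ring
      rw [e]
      refine Submodule.sub_mem _ (Submodule.neg_mem _ hi) (Submodule.mem_sup_right ?_)
      rw [pow_two]
      exact Submodule.mul_mem_mul (of_mem _) (of_mem _)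
    | mul x y hx hy =>
      have e : MonoidAlgebra.of K (FreeGroup (Fin n)) (x * y) - 1 =
          (MonoidAlgebra.of K (FreeGroup (Fin n)) x - 1) +
          (MonoidAlgebra.of K (FreeGroup (Fin n)) y - 1) +
          (MonoidAlgebra.of K (FreeGroup (Fin n)) x - 1) *
          (MonoidAlgebra.of K (FreeGroup (Fin n)) y - 1) := by
        rw [map_mul]
        noncomm_ring
      rw [e]
      refine Submodule.add_mem _ (Submodule.add_mem _ hx hy) (Submodule.mem_sup_right ?_)
      rw [pow_two]
      exact Submodule.mul_mem_mul (of_mem _) (of_mem _)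
  rw [I, aug, Submodule.span_le]
  rintro _ ⟨x, rfl⟩
  exact key x

theorem I_mul : I K n * I K n ≤ I K n := by
  have e : I K n = Submodule.span K (Set.range fun x : FreeGroup (Fin n) =>
    MonoidAlgebra.of K (FreeGroup (Fin n)) x - 1) := rfl
  conv_lhs => rw [e]
  rw [Submodule.span_mul_span, Submodule.span_le]
  rintro _ ⟨_, ⟨x, rfl⟩, _, ⟨y, rfl⟩, rfl⟩
  show (MonoidAlgebra.of K (FreeGroup (Fin n)) x - 1) *
    (MonoidAlgebra.of K (FreeGroup (Fin n)) y - 1) ∈ I K n
  have e : (MonoidAlgebra.of K (FreeGroup (Fin n)) x - 1) *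
      (MonoidAlgebra.of K (FreeGroup (Fin n)) y - 1) =
      (MonoidAlgebra.of K (FreeGroup (Fin n)) (x * y) - 1) -
      (MonoidAlgebra.of K (FreeGroup (Fin n)) x - 1) -
      (MonoidAlgebra.of K (FreeGroup (Fin n)) y - 1) := by
    rw [map_mul]
    noncomm_ring
  rw [e]
  exact Submodule.sub_mem _ (Submodule.sub_mem _ (of_mem _) (of_mem _)) (of_mem _)

theorem I_pow_le (j : ℕ) : I K n ^ j ≤ S K n j ⊔ I K n ^ (j + 1) := by
  induction j with
  | zero =>
    rw [pow_zero, Submodule.one_le]
    refine Submodule.mem_sup_left ?_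
    have := Yw_mem (K := K) ([] : List (Fin n))
    rwa [Yw, List.map_nil, List.prod_nil] at this
  | succ j ih =>
    rw [pow_succ']
    refine (mul_le_mul' I_le ih).trans ?_
    rw [Submodule.mul_sup, Submodule.sup_mul, Submodule.sup_mul]
    refine sup_le (sup_le ?_ ?_) (sup_le ?_ ?_)
    · exact (S_mul j).trans le_sup_left
    · refine le_trans ?_ le_sup_right
      refine (mul_le_mul' le_rfl (S_le j)).trans ?_
      rw [← pow_add]
      exact le_of_eq (by congr 1; omega)
    · refine le_trans ?_ le_sup_right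
      refine (mul_le_mul' (S_le 1) le_rfl).trans ?_
      rw [← pow_add]
      exact le_of_eq (by congr 1; omega)
    · refine le_trans ?_ le_sup_right
      rw [← pow_add]
      have e : 2 + (j + 1) = (j + 1) + 2 := by omega
      rw [e, pow_add, pow_succ _ (j + 1), pow_two]
      exact mul_le_mul' le_rfl I_mul

/-- span of the monomials of length at most `k` -/
noncomputable def B (K : Type) [Field K] (n k : ℕ) : Submodule K (GA K n) :=
  Submodule.span K (Set.range fun w : Wd n k => Yw K w.1)

theorem S_le_B {j : ℕ} (hj : j ≤ k) : S K n j ≤ B K n k := by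
  rw [S, Submodule.span_le]
  rintro _ ⟨w, rfl, rfl⟩
  exact Submodule.subset_span ⟨⟨w, hj⟩, rfl⟩

theorem I_le_B (j : ℕ) (hj : j ≤ k) : I K n ≤ B K n k ⊔ I K n ^ (j + 1) := by
  induction j with
  | zero =>
    rw [zero_add, pow_one]
    exact le_sup_right
  | succ j ih =>
    refine (ih (by omega)).trans (sup_le le_sup_left ?_)
    exact (I_pow_le (j + 1)).trans (sup_le_sup_right (S_le_B hj) _)

theorem main (y : FreeGroup (Fin n)) (hy : rho K n k y = 1) :
    MonoidAlgebra.of K (FreeGroup (Fin n)) y - 1 ∈ I K n ^ (k + 1) := by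
  obtain ⟨b, hb, r, hr, hbr⟩ := Submodule.mem_sup.1 (I_le_B (K := K) k le_rfl (of_mem y))
  obtain ⟨c, hc⟩ := (Submodule.mem_span_range_iff_exists_fun K).1 hb
  have h1 : rl K n k r = 0 := T_top (rl_pow (k + 1) hr)
  have h2 : rl K n k b = 0 := by
    have h3 : rl K n k (b + r) = 0 := by
      rw [hbr, map_sub, rl_of, map_one, hy, sub_self]
    rwa [map_add, h1, add_zero] at h3
  have h4 : ∀ w : Wd n k, c w = 0 := by
    intro w
    have h5 : rl K n k b w (e0 n k) = 0 := by
      rw [h2]
      rfl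
    rw [← hc, map_sum, Matrix.sum_apply, Finset.sum_eq_single w] at h5
    · rwa [map_smul, Matrix.smul_apply, rl_Yw, if_pos rfl, smul_eq_mul, mul_one] at h5
    · intro u _ hu
      rw [map_smul, Matrix.smul_apply, rl_Yw, if_neg, smul_zero]
      intro h6
      exact hu (Subtype.ext h6.symm)
    · intro h6
      exact absurd (Finset.mem_univ _) h6
  have h7 : b = 0 := by
    rw [← hc]
    exact Finset.sum_eq_zero fun w _ => by rw [h4 w, zero_smul]
  rw [← hbr, h7, zero_add]
  exact hr

end K

/-- enumeration by decreasing length -/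
theorem exists_enum {W : Type} [Fintype W] (len : W → ℕ) :
    ∃ (N : ℕ) (e : Fin N ≃ W), ∀ i j, j < i → len (e i) ≤ len (e j) := by
  classical
  obtain ⟨o, ho⟩ : ∃ o : LinearOrder W, ∀ w' w : W, o.lt w' w → len w ≤ len w' := by
    have hinj : Function.Injective (fun w : W =>
        (toLex (OrderDual.toDual (len w), Fintype.equivFin W w) :
          ℕᵒᵈ ×ₗ Fin (Fintype.card W))) := by
      intro a b h
      have h1 := congrArg (fun q => (ofLex q).2) h
      exact (Fintype.equivFin W).injective h1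
    refine ⟨LinearOrder.lift' _ hinj, fun w' w h => ?_⟩
    have h1 : (toLex (OrderDual.toDual (len w'), Fintype.equivFin W w') :
          ℕᵒᵈ ×ₗ Fin (Fintype.card W)) <
        toLex (OrderDual.toDual (len w), Fintype.equivFin W w) := h
    rcases Prod.Lex.lt_iff.1 h1 with h2 | h2
    · exact le_of_lt (OrderDual.toDual_lt_toDual.1 h2)
    · exact le_of_eq (OrderDual.toDual_inj.1 h2.1).symm
  obtain ⟨N, hN⟩ : ∃ N, N = Fintype.card W := ⟨_, rfl⟩
  exact ⟨N, (monoEquivOfFin W hN.symm).toEquiv, fun i j h =>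
      ho _ _ ((monoEquivOfFin W hN.symm).lt_iff_lt.2 h)⟩

end M2x

/-- the representation on the truncated free algebra detects the dimension subgroups modulo `p` -/
theorem exists_magnus (p : ℕ) [Fact p.Prime] (n k : ℕ) :
    ∃ (N : ℕ) (ρ : FreeGroup (Fin n) →* Matrix (Fin N) (Fin N) ℤ_[p]),
      (∀ y i j, j < i → ρ y i j = 0) ∧ (∀ y i, ρ y i i = 1) ∧
      ∀ y, (∀ i j, (p : ℤ_[p]) ∣ ρ y i j - (1 : Matrix (Fin N) (Fin N) ℤ_[p]) i j) →
        MonoidAlgebra.of (ZMod p) (FreeGroup (Fin n)) y - 1 ∈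
          aug (ZMod p) (FreeGroup (Fin n)) ^ (k + 1) := by
  classical
  obtain ⟨N, e, he⟩ := M2x.exists_enum (fun w : M2x.Wd n k => w.1.length)
  obtain ⟨ρ, hρ⟩ : ∃ ρ : FreeGroup (Fin n) →* Matrix (Fin N) (Fin N) ℤ_[p],
      ∀ y i j, ρ y i j = M2x.rho ℤ_[p] n k y (e i) (e j) := by
    refine ⟨(Matrix.reindexAlgEquiv ℤ_[p] ℤ_[p] e.symm).toAlgHom.toMonoidHom.comp
      (M2x.rho ℤ_[p] n k), fun y i j => rfl⟩
  have hT : ∀ y (w' w : M2x.Wd n k), w'.1.length ≤ w.1.length →
      M2x.rho ℤ_[p] n k y w' w = (1 : Matrix (M2x.Wd n k) (M2x.Wd n k) ℤ_[p]) w' w := by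
    intro y w' w h
    have h1 := M2x.T_apply (M2x.rho_mem (R := ℤ_[p]) (k := k) y) (w' := w') (w := w) (by omega)
    rwa [Matrix.sub_apply, sub_eq_zero] at h1
  refine ⟨N, ρ, fun y i j hij => ?_, fun y i => ?_, fun y hy => ?_⟩
  · rw [hρ, hT y _ _ (he i j hij), Matrix.one_apply, if_neg]
    intro h1
    exact (ne_of_gt hij) (e.injective h1)
  · rw [hρ, hT y _ _ le_rfl, Matrix.one_apply, if_pos rfl]
  · refine M2x.main y ?_
    rw [← M2x.rho_map (PadicInt.toZMod (p := p))]
    ext w' w
    obtain ⟨i, rfl⟩ := e.surjective w'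
    obtain ⟨j, rfl⟩ := e.surjective w
    have h1 := hy i j
    rw [hρ, ← Ideal.mem_span_singleton, ← PadicInt.maximalIdeal_eq_span_p, ← PadicInt.ker_toZMod,
      RingHom.mem_ker, map_sub, sub_eq_zero] at h1
    rw [Matrix.map_apply, h1, Matrix.one_apply, Matrix.one_apply]
    simp only [EmbeddingLike.apply_eq_iff_eq]
    split_ifs
    · exact map_one _
    · exact map_zero _

end Pool.Agent.H371.SE
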