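import Pool.Agent.H371.SE.M1
import Pool.Agent.H371.SE.M2

set_option autoImplicit false

namespace Pool.Agent.H371.SE

theorem exists_chain (p : ℕ) [Fact p.Prime] (n : ℕ) :
    ∃ D : ℕ → Subgroup (FreeGroup (Fin n)), Chain p n D := by
  obtain ⟨D, h0, h1, h2, h3, h4, h5⟩ := exists_dim p n
  refine ⟨D, h1, h2, h3, h4, h5, fun k => ?_⟩
  obtain ⟨N, ρ, h6, h7, h8⟩ := exists_magnus p n k
  exact ⟨N, ρ, h6, h7, fun y hy => (h0 k y).2 (h8 y hy)⟩

end Pool.Agent.H371.SE
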