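import Pool.Agent.H371.SE.M5

set_option autoImplicit false

namespace Pool.Agent.H371.SE

section
variable {p : ℕ} [Fact p.Prime] {n : ℕ} {D : ℕ → Subgroup (FreeGroup (Fin n))}
  {Γ : Type} [Group Γ] [TopologicalSpace Γ] [IsTopologicalGroup Γ] [CompactSpace Γ] [T2Space Γ]
  {ι : FreeGroup (Fin n) →* Γ} {E : ℕ → Subgroup Γ}

namespace M6x

/-- the cochain on the free group -/
theorem cochain (U : Subgroup Γ) (C : Γ → Γ → ZMod p)
    (hC : ∀ x ∈ U, ∀ y ∈ U, ∀ z ∈ U, C x y + C (x * y) z = C y z + C x (y * z)) :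
    ∃ G : FreeGroup (Fin n) → ZMod p, ∀ f f', ι f ∈ U → ι f' ∈ U →
      G (f * f') = G f + G f' + C (ι f) (ι f') := by
  classical
  obtain ⟨g, hg⟩ := free_coboundary (V := U.comap ι) (M := ZMod p)
    (fun x y => C (ι x.1) (ι y.1)) (by
      intro x y z
      have h := hC (ι x.1) x.2 (ι y.1) y.2 (ι z.1) z.2
      rw [← map_mul, ← map_mul] at h
      exact h)
  refine ⟨fun f => if h : f ∈ U.comap ι then g ⟨f, h⟩ else 0, fun f f' hf hf' => ?_⟩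
  have hf1 : f ∈ U.comap ι := hf
  have hf2 : f' ∈ U.comap ι := hf'
  have hff : f * f' ∈ U.comap ι := (U.comap ι).mul_mem hf1 hf2
  have e1 : (if h : f ∈ U.comap ι then g ⟨f, h⟩ else 0) = g ⟨f, hf1⟩ := dif_pos hf1
  have e2 : (if h : f' ∈ U.comap ι then g ⟨f', h⟩ else 0) = g ⟨f', hf2⟩ := dif_pos hf2
  have e3 : (if h : f * f' ∈ U.comap ι then g ⟨f * f', h⟩ else 0) = g ⟨f * f', hff⟩ := dif_pos hff
  refine e3.trans ?_
  refine (hg ⟨f, hf1⟩ ⟨f', hf2⟩).trans ?_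
  rw [← e1, ← e2]

end M6x

theorem Model.cd (hD : Chain p n D) (hM : Model D Γ ι E) (U : Subgroup Γ)
    (hU : IsOpen (U : Set Γ)) (C : Γ → Γ → ZMod p)
    (hC : ∀ x ∈ U, ∀ y ∈ U, ∀ z ∈ U, C x y + C (x * y) z = C y z + C x (y * z))
    (hlc : ∃ W : Subgroup Γ, IsOpen (W : Set Γ) ∧
      ∀ x ∈ U, ∀ y ∈ U, ∀ w ∈ U, ∀ w' ∈ U, w ∈ W → w' ∈ W → C (x * w) (y * w') = C x y) :
    ∃ g : Γ → ZMod p, LC U g ∧ ∀ x ∈ U, ∀ y ∈ U, g (x * y) = g x + g y + C x y := by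
  classical
  obtain ⟨W, hW, hCW⟩ := hlc
  obtain ⟨k0, hk0⟩ := hM.basis U hU U.one_mem
  obtain ⟨k1, hk1⟩ := hM.basis W hW W.one_mem
  -- a common level
  obtain ⟨m, hmU, hmW⟩ : ∃ m, E m ≤ U ∧ E m ≤ W :=
    ⟨max k0 k1, (hM.anti (le_max_left k0 k1)).trans hk0, (hM.anti (le_max_right k0 k1)).trans hk1⟩
  obtain ⟨G, hG⟩ := M6x.cochain (ι := ι) U C hC
  have hC1 : ∀ x ∈ U, C x 1 = C 1 1 := by
    intro x hx
    have h := hC x hx 1 U.one_mem 1 U.one_mem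
    rw [mul_one, mul_one, add_left_inj] at h
    exact h
  have hCw : ∀ x ∈ U, ∀ w ∈ E m, C x w = C 1 1 := by
    intro x hx w hw
    have h := hCW x hx 1 U.one_mem 1 U.one_mem w (hmU hw) W.one_mem (hmW hw)
    rw [mul_one, one_mul] at h
    rw [h, hC1 x hx]
  have hDm : ∀ f ∈ D m, ι f ∈ E m := fun f hf => (hM.mem_iff m f).2 hf
  obtain ⟨m', hmm', hm'⟩ := hD.cof m (fun f => G f + C 1 1) (by
    intro f hf f' hf'
    rw [hG f f' (hmU (hDm f hf)) (hmU (hDm f' hf')), hCw _ (hmU (hDm f hf)) _ (hDm f' hf')]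
    ring)
  have hE' : E m' ≤ E m := hM.anti hmm'
  -- `G` is invariant under `D m'`
  have hGinv : ∀ f, ι f ∈ U → ∀ d, ι d ∈ E m' → G (f * d) = G f := by
    intro f hf d hd
    have h1 : d ∈ D m' := (hM.mem_iff m' d).1 hd
    have h2 := hm' d h1
    rw [hG f d hf (hmU (hE' hd)), hCw _ hf _ (hE' hd), add_assoc, h2, add_zero]
  have hGeq : ∀ (x : Γ) (f f' : FreeGroup (Fin n)), x ∈ U → x⁻¹ * ι f ∈ E m' →
      x⁻¹ * ι f' ∈ E m' → G f = G f' := by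
    intro x f f' hx hf hf'
    have hfU : ι f ∈ U := by
      have := U.mul_mem hx (hmU (hE' hf))
      rwa [mul_inv_cancel_left] at this
    have h1 : ι (f⁻¹ * f') ∈ E m' := by
      have := (E m').mul_mem ((E m').inv_mem hf) hf'
      rw [map_mul, map_inv]
      have e : (x⁻¹ * ι f)⁻¹ * (x⁻¹ * ι f') = (ι f)⁻¹ * ι f' := by group
      rwa [e] at this
    have h2 := hGinv f hfU (f⁻¹ * f') h1
    rw [mul_inv_cancel_left] at h2
    exact h2.symm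
  choose φ hφ using hM.dense m'
  have hφU : ∀ x ∈ U, ι (φ x) ∈ U := by
    intro x hx
    have := U.mul_mem hx (hmU (hE' (hφ x)))
    rwa [mul_inv_cancel_left] at this
  refine ⟨fun x => G (φ x), ⟨E m', hM.isOpen m', ?_⟩, ?_⟩
  · intro x hx w hwU hw
    refine hGeq (x * w) _ _ (U.mul_mem hx hwU) (hφ (x * w)) ?_
    have := (E m').mul_mem ((E m').inv_mem hw) (hφ x)
    rw [mul_inv_rev, mul_assoc]
    exact this
  · intro x hx y hy
    simp only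
    have h1 : (x * y)⁻¹ * ι (φ x * φ y) ∈ E m' := by
      have h2 : y⁻¹ * (x⁻¹ * ι (φ x)) * y ∈ E m' := by
        have := (hM.normal m').conj_mem _ (hφ x) y⁻¹
        rwa [inv_inv] at this
      have h3 := (E m').mul_mem h2 (hφ y)
      have e : y⁻¹ * (x⁻¹ * ι (φ x)) * y * (y⁻¹ * ι (φ y)) = (x * y)⁻¹ * ι (φ x * φ y) := by
        rw [map_mul]
        group
      rwa [e] at h3
    rw [hGeq (x * y) (φ (x * y)) (φ x * φ y) (U.mul_mem hx hy) (hφ _) h1,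
      hG _ _ (hφU x hx) (hφU y hy)]
    congr 1
    have h4 := hCW x hx y hy (x⁻¹ * ι (φ x)) (hmU (hE' (hφ x))) (y⁻¹ * ι (φ y))
      (hmU (hE' (hφ y))) (hmW (hE' (hφ x))) (hmW (hE' (hφ y)))
    rw [mul_inv_cancel_left, mul_inv_cancel_left] at h4
    exact h4

end

end Pool.Agent.H371.SE
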